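import Pool.Agent.Helper88.PhiL

/-! Breather-solutions of the phi^4 equation: definition and reduction to `WSol`. -/

namespace Phi4

open Real Filter MeasureTheory intervalIntegral Set

/-- `u` is an element of `B(T; u0)`: a `C^2` solution `u(x,t)` of
`u_tt = u_xx + u - u^3` on the plane which is `T`-periodic in `t` (V1), satisfies `u(x,0) = u0` (V2)
and the polynomial decay (V3). Here `Dx`, `Dt` are the partial derivatives in `x` and `t`. -/
structure IsBreather (T u0 : ℝ) (u : ℝ → ℝ → ℝ) : Prop where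
  smooth : ContDiff ℝ 2 (fun p : ℝ × ℝ => u p.1 p.2)
  eqn : ∀ x t, Dt (Dt u) x t = Dx (Dx u) x t + u x t - u x t ^ 3
  per : ∀ x t, u x (t + T) = u x t
  base : ∀ x, u x 0 = u0
  decay : ∀ h ∈ ({fun x t => u x t - u0, Dx (fun x t => u x t - u0), Dt (fun x t => u x t - u0),
      Dx (Dx (fun x t => u x t - u0)), Dt (Dx (fun x t => u x t - u0))} : Set (ℝ → ℝ → ℝ)),
    ∀ m : ℕ, m ≤ 2 → ∃ C : ℝ, ∀ x t : ℝ, 0 ≤ t → t ≤ T → |x| ^ m * |h x t| ≤ C

/-- the set `B(T; u0)` of breather-solutions around `u0` -/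
def Breathers (T u0 : ℝ) : Set (ℝ → ℝ → ℝ) := {u | IsBreather T u0 u}

theorem Dx_sub_const (u : ℝ → ℝ → ℝ) (c : ℝ) : Dx (fun x t => u x t - c) = Dx u := by
  funext x t; unfold Dx; exact deriv_sub_const _

theorem Dt_sub_const (u : ℝ → ℝ → ℝ) (c : ℝ) : Dt (fun x t => u x t - c) = Dt u := by
  funext x t; unfold Dt; exact deriv_sub_const _

theorem Dx_neg (u : ℝ → ℝ → ℝ) : Dx (fun x t => - u x t) = fun x t => - Dx u x t := by
  funext x t; unfold Dx; exact deriv.fun_neg

theorem Dt_neg (u : ℝ → ℝ → ℝ) : Dt (fun x t => - u x t) = fun x t => - Dt u x t := by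
  funext x t; unfold Dt; exact deriv.fun_neg

theorem per_bound {T : ℝ} (hT : 0 < T) {h : ℝ → ℝ → ℝ} (hper : ∀ x t, h x (t + T) = h x t)
    {m : ℕ} {C : ℝ} (hC : ∀ x t : ℝ, 0 ≤ t → t ≤ T → |x| ^ m * |h x t| ≤ C) (x t : ℝ) :
    |x| ^ m * |h x t| ≤ C := by
  have hp : Function.Periodic (h x) T := hper x
  obtain ⟨r, hr, he⟩ := hp.exists_mem_Ico₀ hT t
  rw [he]
  exact hC x r hr.1 hr.2.le

theorem IsBreather.wsol {T : ℝ} (hT : 0 < T) {u : ℝ → ℝ → ℝ} (hu : IsBreather T 1 u) :
    WSol T (fun x t => u x t - 1) := by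
  have hu1 : ContDiff ℝ 1 (fun p : ℝ × ℝ => u p.1 p.2) := c2_one hu.smooth
  have pw : ∀ x t, (fun x t => u x t - 1) x (t + T) = (fun x t => u x t - 1) x t := by
    intro x t; beta_reduce; rw [hu.per]
  refine ⟨hu.smooth.sub contDiff_const, ?_, pw, ?_, ?_, ?_⟩
  · intro x t
    rw [Dx_sub_const, Dt_sub_const, hu.eqn]; ring
  · intro x; beta_reduce; rw [hu.base]; ring
  · obtain ⟨C1, h1⟩ := hu.decay (fun x t => u x t - 1) (by simp) 2 le_rfl
    obtain ⟨C2, h2⟩ := hu.decay (Dx (fun x t => u x t - 1)) (by simp) 2 le_rfl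
    obtain ⟨C3, h3⟩ := hu.decay (Dt (fun x t => u x t - 1)) (by simp) 2 le_rfl
    rw [Dx_sub_const] at h2 ⊢
    rw [Dt_sub_const] at h3 ⊢
    have h1' := per_bound hT pw h1
    have h2' := per_bound hT (Dx_per hu.per) h2
    have h3' := per_bound hT (Dt_per hu1 hu.per) h3
    refine ⟨|C1| + |C2| + |C3|, by positivity, fun x hx t => ?_⟩
    have e := h1' x t
    have e2 := h2' x t
    have e3 := h3' x t
    have hx2 : 0 < x ^ 2 := by positivity
    rw [sq_abs] at e e2 e3
    have a1 := le_abs_self C1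
    have a2 := le_abs_self C2
    have a3 := le_abs_self C3
    have b1 := abs_nonneg C1
    have b2 := abs_nonneg C2
    have b3 := abs_nonneg C3
    refine ⟨?_, ?_, ?_⟩ <;> rw [le_div_iff₀ hx2] <;> linarith
  · obtain ⟨C1, h1⟩ := hu.decay (fun x t => u x t - 1) (by simp) 0 (by norm_num)
    have h1' := per_bound hT pw h1
    refine ⟨|C1|, abs_nonneg _, fun x t => ?_⟩
    have e := h1' x t
    rw [pow_zero, one_mul] at e
    exact e.trans (le_abs_self _)

theorem IsBreather.neg {T u0 : ℝ} {u : ℝ → ℝ → ℝ} (hu : IsBreather T u0 u) :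
    IsBreather T (-u0) (fun x t => - u x t) := by
  refine ⟨hu.smooth.neg, ?_, ?_, ?_, ?_⟩
  · intro x t
    rw [Dx_neg, Dx_neg, Dt_neg, Dt_neg]
    beta_reduce
    rw [hu.eqn]; ring
  · intro x t; rw [hu.per]
  · intro x; rw [hu.base]
  · have e0 : (fun x t => - u x t - -u0) = fun x t => -((fun x t => u x t - u0) x t) := by
      funext x t; ring
    rw [e0, Dx_neg, Dx_neg, Dt_neg, Dt_neg]
    intro h hh m hm
    simp only [Set.mem_insert_iff, Set.mem_singleton_iff] at hh
    rcases hh with rfl | rfl | rfl | rfl | rfl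
    · obtain ⟨C, hC⟩ := hu.decay (fun x t => u x t - u0) (by simp) m hm
      exact ⟨C, fun x t h0 h1 => by rw [abs_neg]; exact hC x t h0 h1⟩
    · obtain ⟨C, hC⟩ := hu.decay (Dx (fun x t => u x t - u0)) (by simp) m hm
      exact ⟨C, fun x t h0 h1 => by rw [abs_neg]; exact hC x t h0 h1⟩
    · obtain ⟨C, hC⟩ := hu.decay (Dt (fun x t => u x t - u0)) (by simp) m hm
      exact ⟨C, fun x t h0 h1 => by rw [abs_neg]; exact hC x t h0 h1⟩
    · obtain ⟨C, hC⟩ := hu.decay (Dx (Dx (fun x t => u x t - u0))) (by simp) m hm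
      exact ⟨C, fun x t h0 h1 => by rw [abs_neg]; exact hC x t h0 h1⟩
    · obtain ⟨C, hC⟩ := hu.decay (Dt (Dx (fun x t => u x t - u0))) (by simp) m hm
      exact ⟨C, fun x t h0 h1 => by rw [abs_neg]; exact hC x t h0 h1⟩

theorem isBreather_const {T u0 : ℝ} (h0 : u0 = 1 ∨ u0 = -1) :
    IsBreather T u0 (fun _ _ => u0) := by
  have ex : Dx (fun _ _ : ℝ => u0) = fun _ _ => 0 := by funext x t; unfold Dx; simp
  have et : Dt (fun _ _ : ℝ => u0) = fun _ _ => 0 := by funext x t; unfold Dt; simp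
  have ex0 : Dx (fun _ _ : ℝ => (0:ℝ)) = fun _ _ => 0 := by funext x t; unfold Dx; simp
  have et0 : Dt (fun _ _ : ℝ => (0:ℝ)) = fun _ _ => 0 := by funext x t; unfold Dt; simp
  refine ⟨contDiff_const, ?_, fun _ _ => rfl, fun _ => rfl, ?_⟩
  · intro x t
    rw [ex, et, ex0, et0]
    rcases h0 with h | h <;> rw [h] <;> norm_num
  · intro h hh m _
    rw [Dx_sub_const, Dt_sub_const, ex, et, ex0, et0] at hh
    refine ⟨0, fun x t _ _ => ?_⟩
    have : h x t = 0 := by
      simp only [Set.mem_insert_iff, Set.mem_singleton_iff] at hh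
      rcases hh with rfl | rfl | rfl | rfl | rfl <;> simp
    rw [this]; simp

theorem breathers_trivial (T : ℝ) (hT : 0 < T)
    (hex : ∀ m n : ℕ, 1 ≤ m → m < n → T ^ 2 ≠ 2 * π ^ 2 / 3 * (4 * (n : ℝ) ^ 2 - (m : ℝ) ^ 2)) :
    Breathers T 1 = {fun _ _ => 1} ∧ Breathers T (-1) = {fun _ _ => -1} := by
  have key : ∀ u, IsBreather T 1 u → u = fun _ _ => 1 := by
    intro u hu
    have := (hu.wsol hT).zero_of_nonexceptional hT hex
    funext x t
    have := this x t
    beta_reduce at this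
    linarith
  constructor
  · ext u
    simp only [Set.mem_singleton_iff]
    constructor
    · exact key u
    · rintro rfl; exact isBreather_const (Or.inl rfl)
  · ext u
    simp only [Set.mem_singleton_iff]
    constructor
    · intro hu
      have h1 := hu.neg
      rw [neg_neg] at h1
      have h2 := key _ h1
      funext x t
      have := congrFun (congrFun h2 x) t
      beta_reduce at this
      linarith
    · rintro rfl; exact isBreather_const (Or.inr rfl)

end Phi4
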