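import Pool.Agent.Helper88.PhiR
import Pool.Agent.Helper88.PhiM
import Pool.Agent.Helper35.Phi4.Three

/-! The pair test for the existence of breather-solutions. -/

set_option autoImplicit false

namespace Phi4

open Real
open Pool.Agent.Helper35.Phi4 (aa aa_add Kill kill_three)

/-- decay rate of the mode `sin (2 π j t / T)` in units of `2 π / (√3 T)`, when
`T ^ 2 = (2 π ^ 2 / 3) N` -/
noncomputable def rate (N j : ℕ) : ℝ := √((N : ℝ) - 3 * (j : ℝ) ^ 2)

/-- some time-periodic mode has the rate `K` -/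
def Free (N : ℕ) (K : ℝ) : Prop := ∃ l : ℕ, K ^ 2 = (N : ℝ) - 3 * (l : ℝ) ^ 2

/-- The pair test for a set `X` of frequencies with largest element `n`: either some sum of two
rates which is less than four times the least rate is not free and is attained by only one pair, or
three and four times the least rate are not free and four times the least rate is not a sum of two
rates. -/
def PairTest (N n : ℕ) (X : Finset ℕ) : Prop :=
  (∃ i ∈ X, ∃ j ∈ X, rate N i + rate N j < 4 * rate N n ∧ ¬ Free N (rate N i + rate N j) ∧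
    ∀ i' ∈ X, ∀ j' ∈ X, rate N i' + rate N j' = rate N i + rate N j →
      (i' = i ∧ j' = j) ∨ (i' = j ∧ j' = i)) ∨
  (¬ Free N (3 * rate N n) ∧ ¬ Free N (4 * rate N n) ∧
    ∀ i ∈ X, ∀ j ∈ X, rate N i + rate N j ≠ 4 * rate N n)

theorem rate_eq {N j : ℕ} (h : 3 * j ^ 2 < N) : rate N j = √(aa N j : ℝ) := by
  unfold rate
  congr 1
  have h' : ((aa N j : ℕ) : ℝ) + 3 * (j : ℝ) ^ 2 = N := by exact_mod_cast aa_add h
  linarith

theorem pairTest_iff {N m n : ℕ} (hmn : m < n) (hN : N + m ^ 2 = 4 * n ^ 2) {X : Finset ℕ}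
    (hn : n ∈ X) (hX : ∀ j ∈ X, j ≤ n) : PairTest N n X ↔ Kill N n X := by
  have hmn2 : m ^ 2 < n ^ 2 := Nat.pow_lt_pow_left hmn (by norm_num)
  have h3 : ∀ j ∈ X, 3 * j ^ 2 < N := by
    intro j hj
    have h1 : j ^ 2 ≤ n ^ 2 := Nat.pow_le_pow_left (hX j hj) 2
    omega
  have hr : ∀ j ∈ X, rate N j = √(aa N j : ℝ) := fun j hj => rate_eq (h3 j hj)
  unfold PairTest Kill Free
  rw [hr n hn]
  push Not
  constructor
  · rintro (⟨i, hi, j, hj, h1, h2, h4⟩ | ⟨h1, h2, h4⟩)
    · left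
      refine ⟨i, hi, j, hj, ?_, ?_, ?_⟩
      · rw [← hr i hi, ← hr j hj]; exact h1
      · rw [← hr i hi, ← hr j hj]; exact h2
      · intro i' hi' j' hj' h
        rw [← hr i hi, ← hr j hj, ← hr i' hi', ← hr j' hj'] at h
        exact h4 i' hi' j' hj' h
    · right
      refine ⟨h2, h1, fun i hi j hj => ?_⟩
      rw [← hr i hi, ← hr j hj]
      exact h4 i hi j hj
  · rintro (⟨i, hi, j, hj, h1, h2, h4⟩ | ⟨h1, h2, h4⟩)
    · left
      refine ⟨i, hi, j, hj, ?_, ?_, ?_⟩
      · rw [hr i hi, hr j hj]; exact h1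
      · rw [hr i hi, hr j hj]; exact h2
      · intro i' hi' j' hj' h
        rw [hr i hi, hr j hj, hr i' hi', hr j' hj'] at h
        exact h4 i' hi' j' hj' h
    · right
      refine ⟨h2, h1, fun i hi j hj => ?_⟩
      rw [hr i hi, hr j hj]
      exact h4 i hi j hj

/-- reduction of the sets of breather-solutions to the equation for `w = u - 1` -/
theorem breathers_of_zero {T : ℝ} (hT : 0 < T)
    (h : ∀ w, WSol T w → ∀ x t, w x t = 0) :
    Breathers T 1 = {fun _ _ => 1} ∧ Breathers T (-1) = {fun _ _ => -1} := by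
  have key : ∀ u, IsBreather T 1 u → u = fun _ _ => 1 := by
    intro u hu
    have := h _ (hu.wsol hT)
    funext x t
    have := this x t
    beta_reduce at this
    linarith
  constructor
  · ext u
    simp only [Set.mem_singleton_iff]
    constructor
    · exact key u
    · rintro rfl; exact isBreather_const (Or.inl rfl)
  · ext u
    simp only [Set.mem_singleton_iff]
    constructor
    · intro hu
      have h1 := hu.neg
      rw [neg_neg] at h1
      have h2 := key _ h1
      funext x t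
      have := congrFun (congrFun h2 x) t
      beta_reduce at this
      linarith
    · rintro rfl; exact isBreather_const (Or.inr rfl)

/-- general form with the predicate `Kill` -/
theorem breathers_of_kill {T : ℝ} (hT : 0 < T)
    (h : ∀ N m n : ℕ, 1 ≤ m → m < n → N + m ^ 2 = 4 * n ^ 2 → T ^ 2 = 2 * π ^ 2 / 3 * N →
      ∀ X : Finset ℕ, n ∈ X → (∀ j ∈ X, 1 ≤ j ∧ j ≤ n) → Kill N n X) :
    Breathers T 1 = {fun _ _ => 1} ∧ Breathers T (-1) = {fun _ _ => -1} := by
  apply breathers_of_zero hT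
  intro w W
  by_contra hne
  obtain ⟨N, m, n, X, h1, h2, h3, h4, h5, h6, h7⟩ := W.not_kill hT hne
  exact h7 (h N m n h1 h2 h3 h4 X h5 h6)

theorem breathers_of_pairTest {T : ℝ} (hT : 0 < T)
    (h : ∀ N m n : ℕ, 1 ≤ m → m < n → N + m ^ 2 = 4 * n ^ 2 → T ^ 2 = 2 * π ^ 2 / 3 * N →
      ∀ X : Finset ℕ, n ∈ X → X ⊆ Finset.Icc 1 n → PairTest N n X) :
    Breathers T 1 = {fun _ _ => 1} ∧ Breathers T (-1) = {fun _ _ => -1} := by
  apply breathers_of_kill hT
  intro N m n h1 h2 h3 h4 X h5 h6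
  rw [← pairTest_iff h2 h3 h5 fun j hj => (h6 j hj).2]
  exact h N m n h1 h2 h3 h4 X h5 fun j hj => Finset.mem_Icc.2 (h6 j hj)

theorem breathers_of_not_int {T : ℝ} (hT : 0 < T) (h : ∀ k : ℕ, T ^ 2 ≠ 2 * π ^ 2 * k) :
    Breathers T 1 = {fun _ _ => 1} ∧ Breathers T (-1) = {fun _ _ => -1} := by
  apply breathers_of_kill hT
  intro N m n h1 h2 h3 h4 X h5 h6
  refine kill_three h2 h3 ?_ h5 fun j hj => (h6 j hj).2
  rintro ⟨k, rfl⟩
  apply h k
  rw [h4]
  push_cast
  ring

end Phi4
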