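import Mathlib

set_option autoImplicit false

/-!
The group of order `2 ^ 13 * 3 ^ 5`.
-/

namespace Pool.Agent.Helper88.Nav

/-- The Klein four group. -/
abbrev K := ℤˣ × ℤˣ
/-- `F_4 ^ 2`, written multiplicatively. -/
abbrev V1 := K × K
abbrev A1 := ZMod 3 × ZMod 3
abbrev C4 := Multiplicative (ZMod 4)

/-- the automorphism of order three of `K` -/
def om (v : K) : K := (v.2, v.1 * v.2)
/-- an automorphism of order two of `K` -/
def sg (v : K) : K := (v.2, v.1)
/-- the generator of `C_4` on `V1` -/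
def rV (v : V1) : V1 := (sg v.2, v.1)
/-- the generator of `C_4` on `A1` -/
def rA (x : A1) : A1 := (-x.2, x.1)

def rot (k : C4) (x : A1) : A1 := rA^[k.toAdd.val] x
def rotV (k : C4) (v : V1) : V1 := rV^[k.toAdd.val] v
def tr (x : A1) (v : V1) : V1 := (om^[x.1.val] v.1, om^[x.2.val] v.2)
def B1 (x y : A1) : ZMod 3 := x.1 * y.2 - x.2 * y.1

lemma rot_mul : ∀ (k l : C4) (x : A1), rot (k * l) x = rot k (rot l x) := by decide +kernel
lemma rot_one : ∀ x : A1, rot 1 x = x := by decide +kernel
lemma rot_add : ∀ (k : C4) (x y : A1), rot k (x + y) = rot k x + rot k y := by decide +kernel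
lemma rot_zero : ∀ (k : C4), rot k 0 = 0 := by decide +kernel
lemma B1_rot : ∀ (k : C4) (x y : A1), B1 (rot k x) (rot k y) = B1 x y := by decide +kernel
lemma rotV_mul : ∀ (k l : C4) (v : V1), rotV (k * l) v = rotV k (rotV l v) := by decide +kernel
lemma rotV_one : ∀ v : V1, rotV 1 v = v := by decide +kernel
lemma rotV_mul_vec : ∀ (k : C4) (v w : V1), rotV k (v * w) = rotV k v * rotV k w := by
  decide +kernel
lemma rotV_one_vec : ∀ (k : C4), rotV k 1 = 1 := by decide +kernel
lemma tr_add : ∀ (x y : A1) (v : V1), tr (x + y) v = tr x (tr y v) := by decide +kernel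
lemma tr_zero : ∀ v : V1, tr 0 v = v := by decide +kernel
lemma tr_mul_vec : ∀ (x : A1) (v w : V1), tr x (v * w) = tr x v * tr x w := by decide +kernel
lemma tr_one_vec : ∀ (x : A1), tr x 1 = 1 := by decide +kernel
lemma rotV_tr : ∀ (k : C4) (x : A1) (v : V1), rotV k (tr x v) = tr (rot k x) (rotV k v) := by
  decide +kernel

lemma B1_add_left (x y w : A1) : B1 (x + y) w = B1 x w + B1 y w := by
  simp only [B1, Prod.fst_add, Prod.snd_add]; ring
lemma B1_add_right (x y w : A1) : B1 x (y + w) = B1 x y + B1 x w := by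
  simp only [B1, Prod.fst_add, Prod.snd_add]; ring
lemma B1_neg_right (x y : A1) : B1 x (-y) = - B1 x y := by
  simp only [B1, Prod.fst_neg, Prod.snd_neg]; ring
lemma B1_self (x : A1) : B1 x x = 0 := by
  simp only [B1]; ring

abbrev A := Fin 2 → A1

def B (x y : A) : ZMod 3 := ∑ i, B1 (x i) (y i)

lemma B_add_left (x y w : A) : B (x + y) w = B x w + B y w := by
  simp only [B, Pi.add_apply, B1_add_left, Finset.sum_add_distrib]
lemma B_add_right (x y w : A) : B x (y + w) = B x y + B x w := by
  simp only [B, Pi.add_apply, B1_add_right, Finset.sum_add_distrib]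
lemma B_neg_right (x y : A) : B x (-y) = - B x y := by
  simp only [B, Pi.neg_apply, B1_neg_right, Finset.sum_neg_distrib]
lemma B_self (x : A) : B x x = 0 := by
  simp only [B, B1_self, Finset.sum_const_zero]
lemma B_zero_left (x : A) : B 0 x = 0 := by
  have h := B_add_left 0 0 x
  simpa using h
lemma B_zero_right (x : A) : B x 0 = 0 := by
  have h := B_add_right x 0 0
  simpa using h

/-- The extraspecial group of order `3 ^ 5` and exponent `3`. -/
@[ext]
structure P where
  x : A
  z : ZMod 3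
deriving DecidableEq

def P.equiv : P ≃ A × ZMod 3 where
  toFun p := (p.x, p.z)
  invFun q := ⟨q.1, q.2⟩
  left_inv _ := rfl
  right_inv _ := rfl

instance : Fintype P := Fintype.ofEquiv _ P.equiv.symm

instance : Mul P := ⟨fun p q => ⟨p.x + q.x, p.z + q.z + B p.x q.x⟩⟩
instance : One P := ⟨⟨0, 0⟩⟩
instance : Inv P := ⟨fun p => ⟨-p.x, -p.z⟩⟩

@[simp] lemma P.mul_x (p q : P) : (p * q).x = p.x + q.x := rfl
@[simp] lemma P.mul_z (p q : P) : (p * q).z = p.z + q.z + B p.x q.x := rfl
@[simp] lemma P.one_x : (1 : P).x = 0 := rfl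
@[simp] lemma P.one_z : (1 : P).z = 0 := rfl
@[simp] lemma P.inv_x (p : P) : (p⁻¹).x = -p.x := rfl
@[simp] lemma P.inv_z (p : P) : (p⁻¹).z = -p.z := rfl

instance : Group P := Group.ofLeftAxioms
  (by
    intro p q r
    ext1
    · simp only [P.mul_x, add_assoc]
    · simp only [P.mul_x, P.mul_z, B_add_left, B_add_right]; ring)
  (by
    intro p
    ext1
    · simp
    · simp [B_zero_left])
  (by
    intro p
    ext1
    · simp
    · have : B (-p.x) p.x = 0 := by
        have h := B_add_left (-p.x) p.x p.x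
        rw [neg_add_cancel, B_zero_left, B_self, add_zero] at h
        exact h.symm
      simp [this])

/-- `C_4 ≀ C_2` -/
abbrev Q := (Fin 2 → C4) ⋊[mulAutArrow] Equiv.Perm (Fin 2)

def qA (q : Q) (x : A) : A := fun i => rot (q.left i) (x (q.right⁻¹ i))

lemma qA_add (q : Q) (x y : A) : qA q (x + y) = qA q x + qA q y := by
  funext i; simp only [qA, Pi.add_apply, rot_add]

lemma B_qA (q : Q) (x y : A) : B (qA q x) (qA q y) = B x y := by
  simp only [B, qA, B1_rot]
  exact Equiv.sum_comp (q.right⁻¹ : Equiv.Perm (Fin 2)) (fun i => B1 (x i) (y i))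

lemma left_mul_apply (q r : Q) (i : Fin 2) :
    (q * r).left i = q.left i * r.left (q.right⁻¹ i) := by
  rw [SemidirectProduct.mul_left]; rfl

lemma qA_mul (q r : Q) (x : A) : qA (q * r) x = qA q (qA r x) := by
  funext i
  simp only [qA, left_mul_apply, rot_mul, SemidirectProduct.mul_right, mul_inv_rev,
    Equiv.Perm.mul_apply]

lemma qA_one (x : A) : qA 1 x = x := by
  funext i
  simp [qA, rot_one]

instance : MulDistribMulAction Q P where
  smul q p := ⟨qA q p.x, p.z⟩
  one_smul p := by
    change (⟨qA 1 p.x, p.z⟩ : P) = p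
    rw [qA_one]
  mul_smul q r p := by
    change (⟨qA (q * r) p.x, p.z⟩ : P) = ⟨qA q (qA r p.x), p.z⟩
    rw [qA_mul]
  smul_mul q p p' := by
    change (⟨qA q (p.x + p'.x), p.z + p'.z + B p.x p'.x⟩ : P)
      = ⟨qA q p.x + qA q p'.x, p.z + p'.z + B (qA q p.x) (qA q p'.x)⟩
    rw [qA_add, B_qA]
  smul_one q := by
    change (⟨qA q 0, 0⟩ : P) = ⟨0, 0⟩
    congr 1
    funext i
    simp [qA, rot_zero]

@[simp] lemma Q.smul_x (q : Q) (p : P) : (q • p).x = qA q p.x := rfl
@[simp] lemma Q.smul_z (q : Q) (p : P) : (q • p).z = p.z := rfl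

abbrev H := P ⋊[MulDistribMulAction.toMulAut Q P] Q

abbrev V := Fin 2 → V1

def hV (h : H) (v : V) : V :=
  fun i => tr (h.left.x i) (rotV (h.right.left i) (v (h.right.right⁻¹ i)))

lemma hV_mul (h k : H) (v : V) : hV (h * k) v = hV h (hV k v) := by
  funext i
  have h1 : (h * k).left.x i = h.left.x i + rot (h.right.left i) (k.left.x (h.right.right⁻¹ i)) := by
    rw [SemidirectProduct.mul_left, P.mul_x]; rfl
  simp only [hV, h1, SemidirectProduct.mul_right, left_mul_apply, rotV_mul, tr_add, mul_inv_rev,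
    Equiv.Perm.mul_apply, rotV_tr]

lemma hV_one (v : V) : hV 1 v = v := by
  funext i
  simp [hV, tr_zero, rotV_one]

lemma hV_mul_vec (h : H) (v w : V) : hV h (v * w) = hV h v * hV h w := by
  funext i
  simp only [hV, Pi.mul_apply, rotV_mul_vec, tr_mul_vec]

lemma hV_one_vec (h : H) : hV h 1 = 1 := by
  funext i
  simp only [hV, Pi.one_apply, rotV_one_vec, tr_one_vec]

instance : MulDistribMulAction H V where
  smul := hV
  one_smul := hV_one
  mul_smul := hV_mul
  smul_mul := hV_mul_vec
  smul_one := hV_one_vec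

lemma H.smul_def (h : H) (v : V) : h • v = hV h v := rfl

/-- the group of order `2 ^ 13 * 3 ^ 5` -/
abbrev G := V ⋊[MulDistribMulAction.toMulAut H V] H

lemma card_V : Nat.card V = 256 := by simp [Nat.card_eq_fintype_card]
lemma card_P : Nat.card P = 243 := by
  rw [Nat.card_congr P.equiv]; simp [Nat.card_eq_fintype_card]
lemma card_Q : Nat.card Q = 32 := by
  rw [SemidirectProduct.card]
  simp [Nat.card_eq_fintype_card, Fintype.card_perm]
lemma card_G : Nat.card G = 1990656 := by
  rw [SemidirectProduct.card, SemidirectProduct.card, card_V, card_P, card_Q]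

end Pool.Agent.Helper88.Nav
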