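import Mathlib

set_option autoImplicit false

/-!
Representation theoretic tools: irreducibility in `FDRep`, dimension bounds.
-/

namespace Pool.Agent.Helper88.RepTools

open CategoryTheory

section bridge

variable {S : Type} [Group S]

/-- Irreducibility, unbundled. -/
def Irr {X : Type} [AddCommGroup X] [Module ℂ X] (ρ : S →* (X →ₗ[ℂ] X)) : Prop :=
  ∀ U : Submodule ℂ X, (∀ g, ∀ u ∈ U, ρ g u ∈ U) → U ≠ ⊥ → U = ⊤

/-- the restriction to an invariant subspace -/
def restr {X : Type} [AddCommGroup X] [Module ℂ X] (ρ : S →* (X →ₗ[ℂ] X)) (U : Submodule ℂ X)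
    (hU : ∀ g, ∀ u ∈ U, ρ g u ∈ U) : S →* (U →ₗ[ℂ] U) where
  toFun := fun g => (ρ g).restrict (hU g)
  map_one' := by ext u; simp
  map_mul' := by intro g h; ext u; simp

lemma irr_of_simple (W : FDRep ℂ S) [Simple W] : Irr (X := W) W.ρ := by
  intro U hU hne
  let f : FDRep.of (restr (X := W) W.ρ U hU) ⟶ W :=
    { hom := FGModuleCat.ofHom U.subtype
      comm := by
        intro g
        ext u
        rfl }
  have hfun : ∀ u : U, f.hom.hom.hom u = (u : W) := fun u => rfl
  have hmono : Mono f := by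
    apply ConcreteCategory.mono_of_injective
    intro a b hab
    exact Subtype.ext hab
  have hf0 : f ≠ 0 := by
    intro h0
    apply hne
    rw [Submodule.eq_bot_iff]
    intro u hu
    have h1 := hfun ⟨u, hu⟩
    rw [h0] at h1
    exact h1.symm
  have hiso : IsIso f := (Simple.mono_isIso_iff_nonzero f).mpr hf0
  have hbij := ConcreteCategory.bijective_of_isIso f
  rw [eq_top_iff]
  intro w _
  obtain ⟨u, hu⟩ := hbij.2 w
  have : (u : W) = w := hu
  rw [← this]
  exact u.2

lemma simple_of_irr {X : Type} [AddCommGroup X] [Module ℂ X] [FiniteDimensional ℂ X]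
    [Nontrivial X] (ρ : S →* (X →ₗ[ℂ] X)) (h : Irr ρ) : Simple (FDRep.of ρ) := by
  constructor
  intro Y f hf
  constructor
  · intro hiso h0
    obtain ⟨x, hx⟩ := exists_ne (0 : X)
    have hbij := ConcreteCategory.bijective_of_isIso f
    obtain ⟨y, hy⟩ := hbij.2 x
    apply hx
    rw [← hy, h0]
    rfl
  · intro h0
    have hinj : Function.Injective f := by
      have h1 : Mono ((forget₂ (FDRep ℂ S) (Rep ℂ S)).map f) := inferInstance
      exact (Rep.mono_iff_injective _).mp h1
    rw [ConcreteCategory.isIso_iff_bijective]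
    refine ⟨hinj, ?_⟩
    let F : Y →ₗ[ℂ] X := f.hom.hom.hom
    have hrange : LinearMap.range F = ⊤ := by
      apply h
      · rintro g u ⟨y, rfl⟩
        refine ⟨Y.ρ g y, ?_⟩
        have := f.comm g
        have h2 := congrArg (fun t => t.hom.hom y) this
        exact h2
      · intro hbot
        apply h0
        ext y
        have : F y ∈ LinearMap.range F := ⟨y, rfl⟩
        rw [hbot, Submodule.mem_bot] at this
        exact this
    intro x
    have : x ∈ LinearMap.range F := by rw [hrange]; trivial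
    exact this

end bridge

section scalars

variable {S : Type} [Group S] {X : Type} [AddCommGroup X] [Module ℂ X]
  (ρ : S →* (X →ₗ[ℂ] X))

lemma rho_mul (g h : S) (x : X) : ρ (g * h) x = ρ g (ρ h x) := by rw [map_mul]; rfl

lemma rho_one (x : X) : ρ 1 x = x := by rw [map_one]; rfl

lemma rho_inj (g : S) {x : X} (h : ρ g x = 0) : x = 0 := by
  have := rho_mul ρ g⁻¹ g x
  rw [h, map_zero, inv_mul_cancel, rho_one] at this
  exact this

/-- An operator preserving a nonzero subspace has an eigenvector in it. -/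
lemma exists_eigen [FiniteDimensional ℂ X] (T : X →ₗ[ℂ] X) (U : Submodule ℂ X) (hU : U ≠ ⊥) (hT : ∀ u ∈ U, T u ∈ U) :
    ∃ c : ℂ, ∃ u ∈ U, u ≠ 0 ∧ T u = c • u := by
  have : Nontrivial U := (Submodule.nontrivial_iff_ne_bot).mpr hU
  obtain ⟨c, hc⟩ := Module.End.exists_eigenvalue (T.restrict hT : Module.End ℂ U)
  obtain ⟨u, hu⟩ := hc.exists_hasEigenvector
  refine ⟨c, u, u.2, ?_, ?_⟩
  · intro h; exact hu.2 (Subtype.ext h)
  · have h1 := hu.apply_eq_smul
    have h2 := congrArg Subtype.val h1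
    simpa using h2

/-- A set of pairwise commuting elements preserving a nonzero subspace acts by scalars on a smaller
nonzero subspace. -/
lemma exists_scalar [FiniteDimensional ℂ X] (N : Set S) (hN : ∀ a ∈ N, ∀ b ∈ N, a * b = b * a) (U : Submodule ℂ X)
    (hU : U ≠ ⊥) (hinv : ∀ a ∈ N, ∀ u ∈ U, ρ a u ∈ U) :
    ∃ u ∈ U, u ≠ 0 ∧ ∀ a ∈ N, ∃ c : ℂ, ρ a u = c • u := by
  have hwf : WellFounded (fun a b : Submodule ℂ X => a < b) := wellFounded_lt
  obtain ⟨M, ⟨hMU, hM0, hMinv⟩, hmin⟩ := hwf.has_min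
    {M : Submodule ℂ X | M ≤ U ∧ M ≠ ⊥ ∧ ∀ a ∈ N, ∀ u ∈ M, ρ a u ∈ M} ⟨U, le_rfl, hU, hinv⟩
  obtain ⟨u, huM, hu0⟩ := (Submodule.ne_bot_iff M).mp hM0
  refine ⟨u, hMU huM, hu0, fun a ha => ?_⟩
  obtain ⟨c, v, hvM, hv0, hv⟩ := exists_eigen (ρ a) M hM0 (hMinv a ha)
  refine ⟨c, ?_⟩
  -- the eigenspace
  let M' : Submodule ℂ X := M ⊓ LinearMap.ker (ρ a - c • LinearMap.id)
  have hM'mem : ∀ x, x ∈ M' ↔ x ∈ M ∧ ρ a x = c • x := by
    intro x
    simp only [M', Submodule.mem_inf, LinearMap.mem_ker, LinearMap.sub_apply, LinearMap.smul_apply,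
      LinearMap.id_apply, sub_eq_zero]
  have hM' : M' = M := by
    by_contra hne
    have hlt : M' < M := lt_of_le_of_ne inf_le_left hne
    refine hmin M' ⟨inf_le_left.trans hMU, ?_, ?_⟩ hlt
    · rw [Submodule.ne_bot_iff]
      exact ⟨v, (hM'mem v).mpr ⟨hvM, hv⟩, hv0⟩
    · intro b hb x hx
      rw [hM'mem] at hx ⊢
      refine ⟨hMinv b hb x hx.1, ?_⟩
      rw [← rho_mul, hN a ha b hb, rho_mul, hx.2, map_smul]
  have := (hM'mem u).mp (by rw [hM']; exact huM)
  exact this.2

/-- The subgroup of elements acting by a scalar on the vector `w`. -/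
def scalarSubgroup (w : X) (hw : w ≠ 0) : Subgroup S where
  carrier := {g | ∃ c : ℂ, ρ g w = c • w}
  mul_mem' := by
    rintro a b ⟨c, hc⟩ ⟨d, hd⟩
    exact ⟨d * c, by rw [rho_mul, hd, map_smul, hc, smul_smul]⟩
  one_mem' := ⟨1, by rw [rho_one, one_smul]⟩
  inv_mem' := by
    rintro a ⟨c, hc⟩
    have hc0 : c ≠ 0 := by
      rintro rfl
      rw [zero_smul] at hc
      exact hw (rho_inj ρ a hc)
    refine ⟨c⁻¹, ?_⟩
    have h1 := rho_mul ρ a⁻¹ a w
    rw [inv_mul_cancel, rho_one, hc, map_smul] at h1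
    rw [eq_inv_smul_iff₀ hc0, ← h1]

lemma mem_scalarSubgroup (w : X) (hw : w ≠ 0) (g : S) :
    g ∈ scalarSubgroup ρ w hw ↔ ∃ c : ℂ, ρ g w = c • w := Iff.rfl

lemma finrank_le_index [Finite S] (h : Irr ρ) (w : X) (hw : w ≠ 0) :
    Module.finrank ℂ X ≤ (scalarSubgroup ρ w hw).index := by
  classical
  set T := scalarSubgroup ρ w hw with hT
  let f : S ⧸ T → X := fun c => ρ c.out w
  have hfin : Finite (S ⧸ T) := inferInstance
  have := Fintype.ofFinite (S ⧸ T)
  have hkey : ∀ g : S, ρ g w ∈ Submodule.span ℂ (Set.range f) := by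
    intro g
    obtain ⟨t, ht⟩ : ∃ t : T, (QuotientGroup.mk g : S ⧸ T).out = g * t :=
      QuotientGroup.mk_out_eq_mul T g
    obtain ⟨c, hc⟩ := (mem_scalarSubgroup ρ w hw _).mp (T.inv_mem t.2)
    have h1 : ρ g w = c • f (QuotientGroup.mk g) := by
      change ρ g w = c • ρ (QuotientGroup.mk g : S ⧸ T).out w
      rw [ht]
      have : g = (g * t) * (t : S)⁻¹ := by group
      conv_lhs => rw [this, rho_mul, hc, map_smul]
    rw [h1]
    exact Submodule.smul_mem _ _ (Submodule.subset_span ⟨_, rfl⟩)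
  have htop : Submodule.span ℂ (Set.range f) = ⊤ := by
    apply h
    · intro g u hu
      induction hu using Submodule.span_induction with
      | mem x hx =>
        obtain ⟨c, rfl⟩ := hx
        change ρ g (ρ c.out w) ∈ _
        rw [← rho_mul]
        exact hkey _
      | zero => rw [map_zero]; exact Submodule.zero_mem _
      | add x y _ _ hx hy => rw [map_add]; exact Submodule.add_mem _ hx hy
      | smul a x _ hx => rw [map_smul]; exact Submodule.smul_mem _ _ hx
    · rw [Submodule.ne_bot_iff]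
      refine ⟨w, ?_, hw⟩
      have := hkey 1
      rwa [rho_one] at this
  have h1 : Module.finrank ℂ X = Module.finrank ℂ (Submodule.span ℂ (Set.range f)) := by
    rw [htop, finrank_top]
  rw [h1]
  have h2 := finrank_range_le_card (R := ℂ) f
  rw [Subgroup.index, Nat.card_eq_fintype_card]
  exact h2

end scalars

end Pool.Agent.Helper88.RepTools
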