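import Pool.Agent.Helper88.Nav1
import Pool.Agent.Helper88.Nav2

set_option autoImplicit false

/-!
Upper bound: every irreducible representation of `G` has dimension at most `216`.
-/

namespace Pool.Agent.Helper88.Nav

open Pool.Agent.Helper88.RepTools

/-- the characters of the Klein four group -/
def ch : Option (ZMod 3) → K → ℤˣ
  | none, _ => 1
  | some 0, v => v.1 * v.2
  | some 1, v => v.2
  | some 2, v => v.1

abbrev Wt1 := Option (ZMod 3) × Option (ZMod 3)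

def ev1 (m : Wt1) (v : V1) : ℤˣ := ch m.1 v.1 * ch m.2 v.2

def ev (m : Fin 2 → Wt1) (v : V) : ℤˣ := ∏ i, ev1 (m i) (v i)

/-- the value as a complex number -/
def evC (m : Fin 2 → Wt1) (v : V) : ℂ := ((ev m v : ℤˣ) : ℤ)

/-- standard weights -/
def std : Fin 3 → Wt1
  | 0 => (none, none)
  | 1 => (some 0, some 0)
  | 2 => (some 0, none)

lemma exists_std : ∀ m : Wt1, ∃ x : A1, ∃ k : C4, ∃ t : Fin 3, ∀ v : V1,
    ev1 m v = ev1 (std t) (tr x (rotV k v)) := by decide +kernel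

lemma bal_fix : ∀ t : Fin 3, t ≠ 2 → ∀ (k : C4) (v : V1),
    ev1 (std t) (rotV k v) = ev1 (std t) v := by decide +kernel

lemma U_fix : ∀ (y : ZMod 3) (v : V1), ev1 (std 2) (tr (0, y) v) = ev1 (std 2) v := by
  decide +kernel

lemma U_fix2 : ∀ (v : V1), ev1 (std 2) (rotV (Multiplicative.ofAdd 2) v) = ev1 (std 2) v := by
  decide +kernel

variable {X : Type} [AddCommGroup X] [Module ℂ X] (ρ : G →* (X →ₗ[ℂ] X))

/-- weight spaces for `V` -/
def Wsp (m : Fin 2 → Wt1) : Submodule ℂ X where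
  carrier := {w | ∀ v : V, ρ (SemidirectProduct.inl v) w = evC m v • w}
  add_mem' := by
    intro a b ha hb v
    rw [map_add, ha v, hb v, smul_add]
  zero_mem' := by
    intro v; rw [map_zero, smul_zero]
  smul_mem' := by
    intro c a ha v
    rw [map_smul, ha v, smul_comm]

lemma mem_Wsp (m : Fin 2 → Wt1) (w : X) :
    w ∈ Wsp ρ m ↔ ∀ v : V, ρ (SemidirectProduct.inl v) w = evC m v • w := Iff.rfl

lemma inl_mul_inr (h : H) (n : V) :
    (SemidirectProduct.inl (hV h n) * SemidirectProduct.inr h : G)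
      = SemidirectProduct.inr h * SemidirectProduct.inl n := by
  have h1 : (SemidirectProduct.inl (hV h n) : G)
      = SemidirectProduct.inr h * SemidirectProduct.inl n * SemidirectProduct.inr h⁻¹ :=
    SemidirectProduct.inl_aut h n
  rw [h1, map_inv, inv_mul_cancel_right]

lemma transport (m m' : Fin 2 → Wt1) (h : H) (hm : ∀ v, ev m v = ev m' (hV h v)) (w : X)
    (hw : w ∈ Wsp ρ m) : ρ (SemidirectProduct.inr h) w ∈ Wsp ρ m' := by
  intro v
  obtain ⟨n, rfl⟩ : ∃ n, v = hV h n := by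
    refine ⟨hV h⁻¹ v, ?_⟩
    rw [← hV_mul, mul_inv_cancel, hV_one]
  rw [← rho_mul, inl_mul_inr, rho_mul, hw n, map_smul]
  congr 1
  unfold evC
  rw [hm n]

/-- characters of `K` -/
lemma char_K (c : K → ℂ) (h1 : c 1 = 1) (hmul : ∀ a b, c (a * b) = c a * c b) :
    ∃ m : Option (ZMod 3), ∀ v, c v = ((ch m v : ℤˣ) : ℤ) := by
  have hsq : ∀ x : K, x * x = 1 := by decide
  have hpm : ∀ x : K, c x = 1 ∨ c x = -1 := by
    intro x
    have h2 := hmul x x
    rw [hsq x, h1] at h2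
    have h4 : (c x - 1) * (c x + 1) = 0 := by linear_combination -h2
    rcases mul_eq_zero.mp h4 with h | h
    · exact Or.inl (sub_eq_zero.mp h)
    · exact Or.inr (eq_neg_of_add_eq_zero_left h)
  have hab : c (-1, -1) = c (-1, 1) * c (1, -1) := by
    rw [← hmul]; congr 1
  have hall : ∀ (P : K → Prop), P (1, 1) → P (-1, 1) → P (1, -1) → P (-1, -1) → ∀ v, P v := by
    intro P p1 p2 p3 p4 v
    obtain ⟨x, y⟩ := v
    rcases Int.units_eq_one_or x with rfl | rfl <;> rcases Int.units_eq_one_or y with rfl | rfl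
    · exact p1
    · exact p3
    · exact p2
    · exact p4
  have h1' : c (1, 1) = 1 := h1
  rcases hpm (-1, 1) with ha | ha <;> rcases hpm (1, -1) with hb | hb <;> rw [ha, hb] at hab
  · refine ⟨none, hall _ ?_ ?_ ?_ ?_⟩ <;> simp [ch, h1', ha, hb, hab]
  · refine ⟨some 1, hall _ ?_ ?_ ?_ ?_⟩ <;> simp [ch, h1', ha, hb, hab]
  · refine ⟨some 2, hall _ ?_ ?_ ?_ ?_⟩ <;> simp [ch, h1', ha, hb, hab]
  · refine ⟨some 0, hall _ ?_ ?_ ?_ ?_⟩ <;> simp [ch, h1', ha, hb, hab]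

lemma char_V (c : V → ℂ) (h1 : c 1 = 1) (hmul : ∀ a b, c (a * b) = c a * c b) :
    ∃ m : Fin 2 → Wt1, ∀ v, c v = evC m v := by
  have hsub : ∀ (f : K → V), f 1 = 1 → (∀ a b, f (a * b) = f a * f b) →
      ∃ m : Option (ZMod 3), ∀ v, c (f v) = ((ch m v : ℤˣ) : ℤ) := by
    intro f hf1 hf
    refine char_K (fun v => c (f v)) (by rw [hf1, h1]) fun a b => ?_
    rw [hf, hmul]
  obtain ⟨m00, h00⟩ := hsub (fun k => ![(k, 1), 1]) (by decide) (by decide)
  obtain ⟨m01, h01⟩ := hsub (fun k => ![(1, k), 1]) (by decide) (by decide)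
  obtain ⟨m10, h10⟩ := hsub (fun k => ![1, (k, 1)]) (by decide) (by decide)
  obtain ⟨m11, h11⟩ := hsub (fun k => ![1, (1, k)]) (by decide) (by decide)
  refine ⟨![(m00, m01), (m10, m11)], fun v => ?_⟩
  have hv : v = ![((v 0).1, 1), 1] * ![(1, (v 0).2), 1] * ![1, ((v 1).1, 1)] * ![1, (1, (v 1).2)] := by
    funext i
    fin_cases i <;> simp
  rw [hv, hmul, hmul, hmul, h00, h01, h10, h11]
  unfold evC ev ev1
  rw [← hv]
  simp only [Fin.prod_univ_two, Matrix.cons_val_zero, Matrix.cons_val_one]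
  push_cast
  ring

section fd

variable [FiniteDimensional ℂ X] [Nontrivial X]

lemma exists_weight : ∃ m : Fin 2 → Wt1, Wsp ρ m ≠ ⊥ := by
  obtain ⟨u, _, hu0, hu⟩ := exists_scalar ρ (Set.range (SemidirectProduct.inl : V →* G))
    (by
      rintro _ ⟨a, rfl⟩ _ ⟨b, rfl⟩
      rw [← map_mul, ← map_mul, mul_comm]) ⊤ top_ne_bot (fun _ _ _ _ => trivial)
  have hu' : ∀ v : V, ∃ c : ℂ, ρ (SemidirectProduct.inl v) u = c • u := fun v => hu _ ⟨v, rfl⟩
  choose c hc using hu'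
  have hinj : ∀ a b : ℂ, a • u = b • u → a = b := fun a b h => smul_left_injective ℂ hu0 h
  obtain ⟨m, hm⟩ := char_V c
    (hinj _ _ (by rw [← hc, map_one, rho_one, one_smul]))
    (fun a b => hinj _ _ (by
      rw [← hc, map_mul, rho_mul, hc b, map_smul, hc a, smul_smul, mul_comm]))
  refine ⟨m, (Submodule.ne_bot_iff _).mpr ⟨u, ?_, hu0⟩⟩
  intro v
  rw [hc v, hm v]

lemma exists_std_weight : ∃ t : Fin 2 → Fin 3, Wsp ρ (fun i => std (t i)) ≠ ⊥ := by
  obtain ⟨m, hm⟩ := exists_weight ρ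
  obtain ⟨w, hw, hw0⟩ := (Submodule.ne_bot_iff _).mp hm
  choose x k t h using fun i => exists_std (m i)
  refine ⟨t, (Submodule.ne_bot_iff _).mpr
    ⟨ρ (SemidirectProduct.inr (⟨⟨x, 0⟩, ⟨k, 1⟩⟩ : H)) w, ?_, fun h0 => hw0 (rho_inj ρ _ h0)⟩⟩
  refine transport ρ m _ _ (fun v => ?_) w hw
  unfold ev
  refine Finset.prod_congr rfl fun i _ => ?_
  rw [h i]
  rfl

end fd

end Pool.Agent.Helper88.Nav
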