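import Pool.Agent.Helper88.Nav3

set_option autoImplicit false

/-!
Upper bound: every irreducible representation of `G` has dimension at most `216`.
-/

namespace Pool.Agent.Helper88.Nav

open Pool.Agent.Helper88.RepTools

variable {X : Type} [AddCommGroup X] [Module ℂ X] (ρ : G →* (X →ₗ[ℂ] X))

instance : Finite Q := Finite.of_equiv _ SemidirectProduct.equivProd.symm
instance : Finite H := Finite.of_equiv _ SemidirectProduct.equivProd.symm
instance : Finite G := Finite.of_equiv _ SemidirectProduct.equivProd.symm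

/-- the element of `H` with given coordinates -/
def mkH (x : A) (z : ZMod 3) (k : Fin 2 → C4) (π : Equiv.Perm (Fin 2)) : H := ⟨⟨x, z⟩, ⟨k, π⟩⟩

lemma mkH_mul (x x' : A) (z z' : ZMod 3) (k k' : Fin 2 → C4) :
    mkH x z k 1 * mkH x' z' k' 1
      = mkH (x + fun i => rot (k i) (x' i)) (z + z' + B x (fun i => rot (k i) (x' i))) (k * k') 1 := by
  rfl

lemma card_le_of_inj {α : Type} [Finite α] (w : X) (hw : w ≠ 0) (f : α → G)
    (hf : Function.Injective f) (hmem : ∀ a, f a ∈ scalarSubgroup ρ w hw) :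
    Nat.card α ≤ Nat.card (scalarSubgroup ρ w hw) := by
  have : Finite (scalarSubgroup ρ w hw) := inferInstance
  exact Nat.card_le_card_of_injective (fun a => (⟨f a, hmem a⟩ : scalarSubgroup ρ w hw))
    fun a b h => hf (congrArg Subtype.val h)

lemma mk_mem {m : Fin 2 → Wt1} {w : X} (hw : w ≠ 0) (hm : w ∈ Wsp ρ m) (v : V) (h : H)
    (hh : ∃ c : ℂ, ρ (SemidirectProduct.inr h) w = c • w) :
    (⟨v, h⟩ : G) ∈ scalarSubgroup ρ w hw := by
  rw [SemidirectProduct.mk_eq_inl_mul_inr]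
  exact (scalarSubgroup ρ w hw).mul_mem ⟨_, hm v⟩ hh

section fd

variable [FiniteDimensional ℂ X]

lemma caseA (t : Fin 2 → Fin 3) (h0 : t 0 ≠ 2) (h1 : t 1 ≠ 2)
    (hne : Wsp ρ (fun i => std (t i)) ≠ ⊥) :
    ∃ (w : X) (hw : w ≠ 0), 9216 ≤ Nat.card (scalarSubgroup ρ w hw) := by
  have ht : ∀ i, t i ≠ 2 := by intro i; fin_cases i <;> assumption
  obtain ⟨w, hwU, hw, hsc⟩ := exists_scalar ρ
    {g | ∃ (z : ZMod 3) (k : Fin 2 → C4), g = SemidirectProduct.inr (mkH 0 z k 1)}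
    (by
      rintro _ ⟨z, k, rfl⟩ _ ⟨z', k', rfl⟩
      rw [← map_mul, ← map_mul, mkH_mul, mkH_mul]
      congr 1
      have e : (fun i => rot (k i) ((0 : A) i)) = 0 := by funext i; exact rot_zero _
      have e' : (fun i => rot (k' i) ((0 : A) i)) = 0 := by funext i; exact rot_zero _
      simp only [e, e', B_zero_left, add_zero]
      rw [add_comm z z', mul_comm k k']) _ hne
    (by
      rintro _ ⟨z, k, rfl⟩ u hu
      refine transport ρ _ _ _ (fun v => ?_) u hu
      unfold ev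
      refine Finset.prod_congr rfl fun i _ => ?_
      have : hV (mkH 0 z k 1) v i = tr 0 (rotV (k i) (v i)) := rfl
      rw [this, tr_zero, bal_fix _ (ht i)])
  refine ⟨w, hw, ?_⟩
  have hcard : Nat.card (V × ZMod 3 × (Fin 2 → C4)) = 12288 := by
    simp [Nat.card_eq_fintype_card]
  refine le_trans (by rw [hcard]; norm_num) (card_le_of_inj ρ w hw
    (fun a : V × ZMod 3 × (Fin 2 → C4) => (⟨a.1, mkH 0 a.2.1 a.2.2 1⟩ : G)) ?_ ?_)
  · rintro ⟨v, z, k⟩ ⟨v', z', k'⟩ h
    simp only [mkH] at h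
    injection h with h1 h2
    injection h2 with h3 h4
    injection h3 with h5 h6
    injection h4 with h7 h8
    subst h1 h6 h7
    rfl
  · rintro ⟨v, z, k⟩
    exact mk_mem ρ hw hwU v _ (hsc _ ⟨z, k, rfl⟩)

/-- vectors of `A` supported on the second coordinate of the half `j` -/
def e2 (j : Fin 2) (y : ZMod 3) : A := Pi.single j (0, y)

lemma fin2_cases : ∀ i j : Fin 2, i ≠ j → ∀ l : Fin 2, l = i ∨ l = j := by decide

lemma e2_add (j : Fin 2) (y y' : ZMod 3) : e2 j y + e2 j y' = e2 j (y + y') := by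
  unfold e2
  rw [← Pi.single_add]
  congr 1

lemma B_e2 : ∀ (j j' : Fin 2) (y y' : ZMod 3), B (e2 j y) (e2 j' y') = 0 := by decide +kernel

lemma rot_e2 : ∀ (i j : Fin 2), i ≠ j → ∀ (k : C4) (y : ZMod 3),
    (fun l => rot ((Pi.mulSingle i k : Fin 2 → C4) l) (e2 j y l)) = e2 j y := by decide +kernel

lemma U_fix_e2 : ∀ (j : Fin 2) (y : ZMod 3) (v : V1),
    ev1 (std 2) (tr (e2 j y j) v) = ev1 (std 2) v := by decide +kernel

lemma e2_ne : ∀ (i j : Fin 2), i ≠ j → ∀ y : ZMod 3, e2 j y i = 0 := by decide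

lemma caseB (t : Fin 2 → Fin 3) (i j : Fin 2) (hij : i ≠ j) (hi : t i ≠ 2) (hj : t j = 2)
    (hne : Wsp ρ (fun i => std (t i)) ≠ ⊥) :
    ∃ (w : X) (hw : w ≠ 0), 9216 ≤ Nat.card (scalarSubgroup ρ w hw) := by
  have hcases : ∀ l : Fin 2, l = i ∨ l = j := fin2_cases i j hij
  obtain ⟨w, hwU, hw, hsc⟩ := exists_scalar ρ
    {g | ∃ (y z : ZMod 3) (k : C4), g = SemidirectProduct.inr (mkH (e2 j y) z (Pi.mulSingle i k) 1)}
    (by
      rintro _ ⟨y, z, k, rfl⟩ _ ⟨y', z', k', rfl⟩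
      rw [← map_mul, ← map_mul, mkH_mul, mkH_mul, rot_e2 i j hij, rot_e2 i j hij, B_e2, B_e2,
        add_comm (e2 j y), add_comm z z', mul_comm (Pi.mulSingle i k : Fin 2 → C4)]) _ hne
    (by
      rintro _ ⟨y, z, k, rfl⟩ u hu
      refine transport ρ _ _ _ (fun v => ?_) u hu
      unfold ev
      refine Finset.prod_congr rfl fun l _ => ?_
      have : hV (mkH (e2 j y) z (Pi.mulSingle i k) 1) v l
        = tr (e2 j y l) (rotV ((Pi.mulSingle i k : Fin 2 → C4) l) (v l)) := rfl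
      rw [this]
      rcases hcases l with rfl | rfl
      · rw [e2_ne l j hij, tr_zero, bal_fix _ hi]
      · simp only [hj]
        rw [U_fix_e2, Pi.mulSingle_eq_of_ne hij.symm, rotV_one])
  refine ⟨w, hw, ?_⟩
  have hcard : Nat.card (V × ZMod 3 × ZMod 3 × C4) = 9216 := by
    simp [Nat.card_eq_fintype_card]
  refine le_trans (by rw [hcard]) (card_le_of_inj ρ w hw
    (fun a : V × ZMod 3 × ZMod 3 × C4 =>
      (⟨a.1, mkH (e2 j a.2.1) a.2.2.1 (Pi.mulSingle i a.2.2.2) 1⟩ : G)) ?_ ?_)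
  · rintro ⟨v, y, z, k⟩ ⟨v', y', z', k'⟩ h
    simp only [mkH] at h
    injection h with h1 h2
    injection h2 with h3 h4
    injection h3 with h5 h6
    injection h4 with h7 h8
    have h9 : ((0 : ZMod 3), y) = (0, y') := Pi.single_injective j h5
    have h10 : k = k' := Pi.mulSingle_injective i h7
    injection h9 with _ h11
    subst h1 h6 h10 h11
    rfl
  · rintro ⟨v, y, z, k⟩
    exact mk_mem ρ hw hwU v _ (hsc _ ⟨y, z, k, rfl⟩)

end fd

end Pool.Agent.Helper88.Nav
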