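import Pool.Agent.Helper88.Nav4

set_option autoImplicit false

/-!
Upper bound: every irreducible representation of `G` has dimension at most `216`.
-/

namespace Pool.Agent.Helper88.Nav

open Pool.Agent.Helper88.RepTools

abbrev Y := Fin 2 → ZMod 3

/-- negate the coordinate `l` -/
def ng (l : Fin 2) (y : Y) : Y := Function.update y l (- y l)
/-- swap the coordinates -/
def sw (y : Y) : Y := fun i => y (Equiv.swap (0 : Fin 2) 1 i)

lemma char_cases (χ : Y → ZMod 3 → ℂ) (h00 : χ 0 0 = 1)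
    (hmul : ∀ y y' z z', χ (y + y') (z + z') = χ y z * χ y' z') :
    (∃ l, ∀ y z, χ (ng l y) z = χ y z) ∨ (∀ y z, χ (sw y) z = χ y z) ∨
      (∀ y z, χ (ng 1 (sw y)) z = χ (ng 1 y) z) := by
  have hb0 : ∀ l : Fin 2, χ (Pi.single l 0) 0 = 1 := by intro l; rw [Pi.single_zero, h00]
  have hadd : ∀ (l : Fin 2) (s t : ZMod 3), χ (Pi.single l (s + t)) 0
      = χ (Pi.single l s) 0 * χ (Pi.single l t) 0 := by
    intro l s t
    rw [Pi.single_add, ← hmul, add_zero]
  have h2 : ∀ l : Fin 2, χ (Pi.single l 2) 0 = χ (Pi.single l 1) 0 ^ 2 := by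
    intro l
    rw [show (2 : ZMod 3) = 1 + 1 by decide, hadd, sq]
  have h3 : ∀ l : Fin 2, χ (Pi.single l 1) 0 ^ 3 = 1 := by
    intro l
    have := hadd l 1 2
    rw [show (1 + 2 : ZMod 3) = 0 by decide, hb0, h2] at this
    rw [pow_succ', ← this]
  have hone : ∀ l : Fin 2, χ (Pi.single l 1) 0 = 1 → ∀ t, χ (Pi.single l t) 0 = 1 := by
    intro l hl t
    fin_cases t
    · exact hb0 l
    · exact hl
    · change χ (Pi.single l 2) 0 = 1
      rw [h2, hl, one_pow]
  by_cases h0 : χ (Pi.single 0 1) 0 = 1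
  · left
    refine ⟨0, fun y z => ?_⟩
    have hy : ∀ y : Y, ng 0 y + Pi.single 0 (- y 0) = y := by decide
    conv_rhs => rw [← hy y, ← add_zero z, hmul, hone 0 h0, mul_one]
  by_cases h1 : χ (Pi.single 1 1) 0 = 1
  · left
    refine ⟨1, fun y z => ?_⟩
    have hy : ∀ y : Y, ng 1 y + Pi.single 1 (- y 1) = y := by decide
    conv_rhs => rw [← hy y, ← add_zero z, hmul, hone 1 h1, mul_one]
  right
  have quad : ∀ l : Fin 2, χ (Pi.single l 1) 0 ≠ 1 →
      χ (Pi.single l 1) 0 ^ 2 + χ (Pi.single l 1) 0 + 1 = 0 := by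
    intro l hl
    have h4 : (χ (Pi.single l 1) 0 - 1) * (χ (Pi.single l 1) 0 ^ 2 + χ (Pi.single l 1) 0 + 1) = 0 := by
      linear_combination h3 l
    exact (mul_eq_zero.mp h4).resolve_left (sub_ne_zero.mpr hl)
  by_cases h01 : χ (Pi.single 0 1) 0 = χ (Pi.single 1 1) 0
  · left
    intro y z
    have hy : ∀ y : Y, sw y + (Pi.single 0 (y 0 - y 1) + Pi.single 1 (-(y 0 - y 1))) = y := by
      decide
    have hz : ∀ t : ZMod 3, χ (Pi.single 0 t + Pi.single 1 (-t)) 0 = 1 := by
      intro t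
      have e := hmul (Pi.single 0 t) (Pi.single 1 (-t)) 0 0
      rw [add_zero] at e
      rw [e]
      fin_cases t
      · change χ (Pi.single 0 0) 0 * χ (Pi.single 1 0) 0 = 1
        rw [hb0, hb0, one_mul]
      · change χ (Pi.single 0 1) 0 * χ (Pi.single 1 2) 0 = 1
        rw [h2, h01, ← pow_succ']
        exact h3 1
      · change χ (Pi.single 0 2) 0 * χ (Pi.single 1 1) 0 = 1
        rw [h2, h01, ← pow_succ]
        exact h3 1
    conv_rhs => rw [← hy y, ← add_zero z, hmul, hz, mul_one]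
  · right
    intro y z
    have hq0 := quad 0 h0
    have hq1 := quad 1 h1
    have hsum : χ (Pi.single 0 1) 0 + χ (Pi.single 1 1) 0 + 1 = 0 := by
      have h5 : (χ (Pi.single 0 1) 0 - χ (Pi.single 1 1) 0)
          * (χ (Pi.single 0 1) 0 + χ (Pi.single 1 1) 0 + 1) = 0 := by
        linear_combination hq0 - hq1
      exact (mul_eq_zero.mp h5).resolve_left (sub_ne_zero.mpr h01)
    have hprod : χ (Pi.single 0 1) 0 * χ (Pi.single 1 1) 0 = 1 := by
      have : χ (Pi.single 1 1) 0 = - 1 - χ (Pi.single 0 1) 0 := by linear_combination hsum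
      rw [this]
      linear_combination -hq0
    have hy : ∀ y : Y, ng 1 (sw y) + (Pi.single 0 (y 0 - y 1) + Pi.single 1 (y 0 - y 1)) = ng 1 y := by
      decide
    have hz : ∀ t : ZMod 3, χ (Pi.single 0 t + Pi.single 1 t) 0 = 1 := by
      intro t
      have e := hmul (Pi.single 0 t) (Pi.single 1 t) 0 0
      rw [add_zero] at e
      rw [e]
      fin_cases t
      · change χ (Pi.single 0 0) 0 * χ (Pi.single 1 0) 0 = 1
        rw [hb0, hb0, one_mul]
      · change χ (Pi.single 0 1) 0 * χ (Pi.single 1 1) 0 = 1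
        exact hprod
      · change χ (Pi.single 0 2) 0 * χ (Pi.single 1 2) 0 = 1
        rw [h2, h2, ← mul_pow, hprod, one_pow]
    conv_rhs => rw [← hy y, ← add_zero z, hmul, hz, mul_one]

/-- the elements of `H` acting on the weight space with `t = (2, 2)` -/
def aC (y : Y) (z : ZMod 3) : H := mkH (fun l => (0, y l)) z 1 1

lemma aC_mul (y y' : Y) (z z' : ZMod 3) : aC y z * aC y' z' = aC (y + y') (z + z') := by
  unfold aC
  rw [mkH_mul]
  have h1 : ∀ y' : Y, (fun i => rot ((1 : Fin 2 → C4) i) ((fun l => ((0 : ZMod 3), y' l)) i))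
      = fun l => ((0 : ZMod 3), y' l) := by decide
  have h2 : ∀ y y' : Y, B (fun l => (0, y l)) (fun l => (0, y' l)) = 0 := by decide
  have h3 : ∀ y y' : Y, (fun l => ((0 : ZMod 3), y l)) + (fun l => ((0 : ZMod 3), y' l))
      = fun l => ((0 : ZMod 3), (y + y') l) := by decide
  rw [h1, h2, h3, add_zero, mul_one]

lemma aC_zero : aC 0 0 = 1 := rfl

def qh (l : Fin 2) : Q := ⟨Pi.mulSingle l (Multiplicative.ofAdd 2), 1⟩
def qs : Q := ⟨1, Equiv.swap 0 1⟩

lemma aC_qh (l : Fin 2) (y : Y) (z : ZMod 3) :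
    aC y z * SemidirectProduct.inr (qh l) = SemidirectProduct.inr (qh l) * aC (ng l y) z := by
  have h1 : ∀ (l : Fin 2) (y : Y), qA (qh l) (fun i => (0, ng l y i)) = fun i => (0, y i) := by
    decide
  ext1
  · change (aC y z).left * ((1 : Q) • (1 : P)) = (1 : P) * (qh l • (aC (ng l y) z).left)
    rw [smul_one, mul_one, one_mul]
    ext1
    · exact (h1 l y).symm
    · rfl
  · change (1 : Q) * qh l = qh l * 1
    rw [one_mul, mul_one]

lemma aC_qs (y : Y) (z : ZMod 3) :
    aC y z * SemidirectProduct.inr qs = SemidirectProduct.inr qs * aC (sw y) z := by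
  have h1 : ∀ (y : Y), qA qs (fun i => (0, sw y i)) = fun i => (0, y i) := by
    decide
  ext1
  · change (aC y z).left * ((1 : Q) • (1 : P)) = (1 : P) * (qs • (aC (sw y) z).left)
    rw [smul_one, mul_one, one_mul]
    ext1
    · exact (h1 y).symm
    · rfl
  · change (1 : Q) * qs = qs * 1
    rw [one_mul, mul_one]

lemma ev_qh (l : Fin 2) (v : V) : ev (fun _ => std 2) v
    = ev (fun _ => std 2) (hV (SemidirectProduct.inr (qh l)) v) := by
  unfold ev
  refine Finset.prod_congr rfl fun i _ => ?_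
  have : hV (SemidirectProduct.inr (qh l)) v i
    = tr 0 (rotV ((Pi.mulSingle l (Multiplicative.ofAdd 2) : Fin 2 → C4) i) (v i)) := rfl
  rw [this, tr_zero]
  by_cases h : i = l
  · subst h; rw [Pi.mulSingle_eq_same, U_fix2]
  · rw [Pi.mulSingle_eq_of_ne h, rotV_one]

lemma ev_qs (v : V) : ev (fun _ => std 2) v
    = ev (fun _ => std 2) (hV (SemidirectProduct.inr qs) v) := by
  unfold ev
  have : ∀ i, hV (SemidirectProduct.inr qs) v i = v (Equiv.swap (0 : Fin 2) 1 i) := by
    intro i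
    have h2 : hV (SemidirectProduct.inr qs) v i = tr 0 (rotV 1 (v ((Equiv.swap (0 : Fin 2) 1)⁻¹ i))) :=
      rfl
    rw [h2, tr_zero, rotV_one, Equiv.swap_inv]
  simp_rw [this]
  exact (Equiv.prod_comp (Equiv.swap (0 : Fin 2) 1) (fun i => ev1 (std 2) (v i))).symm

end Pool.Agent.Helper88.Nav
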