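import Pool.Agent.Helper88.Nav5

set_option autoImplicit false

/-!
Upper bound: every irreducible representation of `G` has dimension at most `216`.
-/

namespace Pool.Agent.Helper88.Nav

open Pool.Agent.Helper88.RepTools

variable {X : Type} [AddCommGroup X] [Module ℂ X] (ρ : G →* (X →ₗ[ℂ] X))

/-- joint eigenspaces -/
def JE (χ : Y → ZMod 3 → ℂ) : Submodule ℂ X where
  carrier := {w | w ∈ Wsp ρ (fun _ => std 2) ∧
    ∀ y z, ρ (SemidirectProduct.inr (aC y z)) w = χ y z • w}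
  add_mem' := by
    rintro a b ⟨ha, ha'⟩ ⟨hb, hb'⟩
    exact ⟨Submodule.add_mem _ ha hb, fun y z => by rw [map_add, ha', hb', smul_add]⟩
  zero_mem' := ⟨Submodule.zero_mem _, fun y z => by rw [map_zero, smul_zero]⟩
  smul_mem' := by
    rintro c a ⟨ha, ha'⟩
    exact ⟨Submodule.smul_mem _ c ha, fun y z => by rw [map_smul, ha', smul_comm]⟩

lemma JE_move (χ : Y → ZMod 3 → ℂ) (h : H) (σ : Y → Y)
    (hev : ∀ v, ev (fun _ => std 2) v = ev (fun _ => std 2) (hV h v))
    (hc : ∀ y z, aC y z * h = h * aC (σ y) z) (u : X) (hu : u ∈ JE ρ χ) :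
    ρ (SemidirectProduct.inr h) u ∈ JE ρ (fun y z => χ (σ y) z) := by
  refine ⟨transport ρ _ _ h hev u hu.1, fun y z => ?_⟩
  rw [← rho_mul, ← map_mul, hc, map_mul, rho_mul, hu.2, map_smul]

lemma fin_C (χ : Y → ZMod 3 → ℂ) (q : Q) (hq : q ≠ 1) (w : X) (hw : w ≠ 0) (hwJ : w ∈ JE ρ χ)
    (hsc : ∃ c : ℂ, ρ (SemidirectProduct.inr (SemidirectProduct.inr q : H)) w = c • w) :
    9216 ≤ Nat.card (scalarSubgroup ρ w hw) := by
  have hcard : Nat.card (V × Y × ZMod 3 × Bool) = 13824 := by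
    simp [Nat.card_eq_fintype_card]
  refine le_trans (by rw [hcard]; norm_num) (card_le_of_inj ρ w hw
    (fun a : V × Y × ZMod 3 × Bool =>
      (⟨a.1, ⟨⟨fun l => (0, a.2.1 l), a.2.2.1⟩, if a.2.2.2 then q else 1⟩⟩ : G)) ?_ ?_)
  · rintro ⟨v, y, z, b⟩ ⟨v', y', z', b'⟩ h
    simp only at h
    injection h with h1 h2
    injection h2 with h3 h4
    injection h3 with h5 h6
    have h7 : y = y' := by
      funext l
      have := congrFun h5 l
      exact (Prod.mk.inj this).2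
    have h8 : b = b' := by
      cases b <;> cases b' <;> simp_all
    subst h1 h6 h7 h8
    rfl
  · rintro ⟨v, y, z, b⟩
    have hdec : (⟨⟨fun l => (0, y l), z⟩, if b then q else 1⟩ : H)
        = aC y z * SemidirectProduct.inr (if b then q else 1) := by
      rw [SemidirectProduct.mk_eq_inl_mul_inr]; rfl
    refine mk_mem ρ hw hwJ.1 v _ ?_
    rw [hdec, map_mul]
    obtain ⟨c, hc⟩ := hsc
    cases b
    · refine ⟨χ y z, ?_⟩
      rw [rho_mul]
      simp only [Bool.false_eq_true, if_false, map_one]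
      exact hwJ.2 y z
    · refine ⟨c * χ y z, ?_⟩
      rw [rho_mul]
      simp only [if_true]
      rw [hc, map_smul, hwJ.2, smul_smul]

section fd

variable [FiniteDimensional ℂ X]

lemma fin_C' (χ : Y → ZMod 3 → ℂ) (q : Q) (hq : q ≠ 1) (σ : Y → Y)
    (hev : ∀ v, ev (fun _ => std 2) v
      = ev (fun _ => std 2) (hV (SemidirectProduct.inr q) v))
    (hc : ∀ y z, aC y z * SemidirectProduct.inr q = SemidirectProduct.inr q * aC (σ y) z)
    (hχ : ∀ y z, χ (σ y) z = χ y z) (hne : JE ρ χ ≠ ⊥) :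
    ∃ (w : X) (hw : w ≠ 0), 9216 ≤ Nat.card (scalarSubgroup ρ w hw) := by
  obtain ⟨c, w, hwJ, hw, hcw⟩ := exists_eigen (ρ (SemidirectProduct.inr (SemidirectProduct.inr q : H)))
    (JE ρ χ) hne (by
      intro u hu
      have h1 := JE_move ρ χ (SemidirectProduct.inr q) σ hev hc u hu
      have h2 : (fun y z => χ (σ y) z) = χ := by funext y z; exact hχ y z
      rwa [h2] at h1)
  exact ⟨w, hw, fin_C ρ χ q hq w hw hwJ ⟨c, hcw⟩⟩

lemma qh_ne (l : Fin 2) : qh l ≠ 1 := by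
  intro h
  have h1 : (Pi.mulSingle l (Multiplicative.ofAdd 2) : Fin 2 → C4) = 1 :=
    congrArg (fun q : Q => q.left) h
  revert h1
  revert l
  decide

lemma qs_ne : qs ≠ 1 := by
  intro h
  have h1 : (Equiv.swap (0 : Fin 2) 1) = 1 := congrArg (fun q : Q => q.right) h
  revert h1
  decide

lemma caseC (hne : Wsp ρ (fun _ => std 2) ≠ ⊥) :
    ∃ (w : X) (hw : w ≠ 0), 9216 ≤ Nat.card (scalarSubgroup ρ w hw) := by
  obtain ⟨u, huU, hu0, hsc⟩ := exists_scalar ρ
    {g | ∃ (y : Y) (z : ZMod 3), g = SemidirectProduct.inr (aC y z)}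
    (by
      rintro _ ⟨y, z, rfl⟩ _ ⟨y', z', rfl⟩
      rw [← map_mul, ← map_mul, aC_mul, aC_mul, add_comm y, add_comm z]) _ hne
    (by
      rintro _ ⟨y, z, rfl⟩ u hu
      refine transport ρ _ _ _ (fun v => ?_) u hu
      unfold ev
      refine Finset.prod_congr rfl fun i _ => ?_
      have : hV (aC y z) v i = tr (0, y i) (rotV 1 (v i)) := rfl
      rw [this, rotV_one, U_fix])
  have hsc' : ∀ y z, ∃ c : ℂ, ρ (SemidirectProduct.inr (aC y z)) u = c • u :=
    fun y z => hsc _ ⟨y, z, rfl⟩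
  choose χ hχ using hsc'
  have hinj : ∀ a b : ℂ, a • u = b • u → a = b := fun a b h => smul_left_injective ℂ hu0 h
  have h00 : χ 0 0 = 1 := hinj _ _ (by rw [← hχ, aC_zero, map_one, rho_one, one_smul])
  have hmul : ∀ y y' z z', χ (y + y') (z + z') = χ y z * χ y' z' := by
    intro y y' z z'
    refine hinj _ _ ?_
    rw [← hχ, ← aC_mul, map_mul, rho_mul, hχ, map_smul, hχ, smul_smul, mul_comm]
  have huJ : u ∈ JE ρ χ := ⟨huU, hχ⟩
  have hJ : JE ρ χ ≠ ⊥ := (Submodule.ne_bot_iff _).mpr ⟨u, huJ, hu0⟩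
  rcases char_cases χ h00 hmul with ⟨l, hl⟩ | hs | hs
  · exact fin_C' ρ χ (qh l) (qh_ne l) (ng l) (ev_qh l) (aC_qh l) hl hJ
  · exact fin_C' ρ χ qs qs_ne sw ev_qs aC_qs hs hJ
  · have h1 := JE_move ρ χ (SemidirectProduct.inr (qh 1)) (ng 1) (ev_qh 1) (aC_qh 1) u huJ
    refine fin_C' ρ (fun y z => χ (ng 1 y) z) qs qs_ne sw ev_qs aC_qs hs
      ((Submodule.ne_bot_iff _).mpr ⟨_, h1, fun h => hu0 (rho_inj ρ _ h)⟩)

variable [Nontrivial X]

lemma exists_big : ∃ (w : X) (hw : w ≠ 0), 9216 ≤ Nat.card (scalarSubgroup ρ w hw) := by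
  obtain ⟨t, ht⟩ := exists_std_weight ρ
  by_cases h0 : t 0 = 2
  · by_cases h1 : t 1 = 2
    · have : (fun i => std (t i)) = fun _ => std 2 := by
        funext i; fin_cases i <;> simp [h0, h1]
      rw [this] at ht
      exact caseC ρ ht
    · exact caseB ρ t 1 0 (by decide) h1 h0 ht
  · by_cases h1 : t 1 = 2
    · exact caseB ρ t 0 1 (by decide) h0 h1 ht
    · exact caseA ρ t h0 h1 ht

lemma finrank_le (h : Irr ρ) : Module.finrank ℂ X ≤ 216 := by
  obtain ⟨w, hw, hcard⟩ := exists_big ρ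
  have h1 := finrank_le_index ρ h w hw
  have h2 := (scalarSubgroup ρ w hw).card_mul_index
  rw [card_G] at h2
  have h3 : (scalarSubgroup ρ w hw).index ≤ 216 := by
    by_contra hcon
    have h4 : 217 ≤ (scalarSubgroup ρ w hw).index := by omega
    have h5 : 9216 * 217 ≤ Nat.card (scalarSubgroup ρ w hw) * (scalarSubgroup ρ w hw).index :=
      Nat.mul_le_mul hcard h4
    rw [h2] at h5
    norm_num at h5
  omega

end fd

theorem simple_finrank_le (W : FDRep ℂ G) (hW : CategoryTheory.Simple W) :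
    Module.finrank ℂ W ≤ 216 := by
  by_cases hn : Nontrivial W
  · exact finrank_le (X := W) W.ρ (irr_of_simple W)
  · have : Subsingleton W := not_nontrivial_iff_subsingleton.mp hn
    rw [Module.finrank_zero_of_subsingleton]
    omega

end Pool.Agent.Helper88.Nav
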