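import Pool.Agent.Helper88.Nav2

set_option autoImplicit false

/-!
Lower bound tools: irreducible representations of large dimension.
-/

namespace Pool.Agent.Helper88.RepTools

open CategoryTheory

section lower

variable {S : Type} [Group S] [Finite S]

lemma exists_compl {X : Type} [AddCommGroup X] [Module ℂ X] (ρ : S →* (X →ₗ[ℂ] X))
    (U : Submodule ℂ X) (hU : ∀ g, ∀ u ∈ U, ρ g u ∈ U) :
    ∃ U' : Submodule ℂ X, (∀ g, ∀ u ∈ U', ρ g u ∈ U') ∧ U ⊓ U' = ⊥ ∧ U ⊔ U' = ⊤ := by
  have : NeZero (Nat.card S : ℂ) := ⟨by exact_mod_cast Nat.card_pos.ne'⟩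
  let A : Subrepresentation (ρ : Representation ℂ S X) := ⟨U, fun g v hv => hU g v hv⟩
  have hss : Representation.IsSemisimpleRepresentation (ρ : Representation ℂ S X) := inferInstance
  obtain ⟨B, hB⟩ := ComplementedLattice.exists_isCompl (self := hss) A
  refine ⟨B.toSubmodule, fun g u hu => B.apply_mem_toSubmodule g hu, ?_, ?_⟩
  · exact congrArg Subrepresentation.toSubmodule hB.inf_eq_bot
  · exact congrArg Subrepresentation.toSubmodule hB.sup_eq_top

lemma exists_irr_weight {N : Type} (j : N → S) (ν : N → ℂ) (n : ℕ) :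
    ∀ (X : Type) [AddCommGroup X] [Module ℂ X] [FiniteDimensional ℂ X] (ρ : S →* (X →ₗ[ℂ] X)),
      Module.finrank ℂ X = n → ∀ x₀ : X, x₀ ≠ 0 → (∀ a, ρ (j a) x₀ = ν a • x₀) →
      ∃ (Y : Type) (_ : AddCommGroup Y) (_ : Module ℂ Y) (_ : FiniteDimensional ℂ Y)
        (σ : S →* (Y →ₗ[ℂ] Y)),
        Irr σ ∧ ∃ y₀ : Y, y₀ ≠ 0 ∧ ∀ a, σ (j a) y₀ = ν a • y₀ := by
  induction n using Nat.strong_induction_on with
  | _ n ih =>
    intro X _ _ _ ρ hn x₀ hx₀ hw
    by_cases hirr : Irr ρ
    · exact ⟨X, _, _, inferInstance, ρ, hirr, x₀, hx₀, hw⟩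
    · simp only [Irr, not_forall] at hirr
      obtain ⟨U, hU, hbot, htop⟩ := hirr
      obtain ⟨U', hU', hinf, hsup⟩ := exists_compl ρ U hU
      obtain ⟨u, hu, u', hu', rfl⟩ : ∃ u ∈ U, ∃ u' ∈ U', u + u' = x₀ :=
        Submodule.mem_sup.mp (by rw [hsup]; trivial)
      have key : ∀ a, ρ (j a) u = ν a • u ∧ ρ (j a) u' = ν a • u' := by
        intro a
        have h1 := hw a
        rw [map_add, smul_add] at h1
        have h2 : ρ (j a) u - ν a • u = ν a • u' - ρ (j a) u' := by
          rw [sub_eq_sub_iff_add_eq_add, h1, add_comm]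
        have h3 : ρ (j a) u - ν a • u ∈ U ⊓ U' :=
          ⟨U.sub_mem (hU _ _ hu) (U.smul_mem _ hu), by
            rw [h2]; exact U'.sub_mem (U'.smul_mem _ hu') (hU' _ _ hu')⟩
        rw [hinf, Submodule.mem_bot] at h3
        refine ⟨sub_eq_zero.mp h3, ?_⟩
        rw [h3] at h2
        exact (sub_eq_zero.mp h2.symm).symm
      by_cases hu0 : u = 0
      · have hu'0 : u' ≠ 0 := by rintro rfl; apply hx₀; rw [hu0, add_zero]
        have hlt : U' < ⊤ := lt_top_iff_ne_top.mpr (by
          rintro rfl; rw [inf_top_eq] at hinf; exact hbot hinf)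
        exact ih _ (by rw [← hn]; exact Submodule.finrank_lt hlt.ne) U' (restr ρ U' hU') rfl
          ⟨u', hu'⟩ (fun h => hu'0 (congrArg Subtype.val h)) (fun a => Subtype.ext (key a).2)
      · exact ih _ (by rw [← hn]; exact Submodule.finrank_lt htop) U (restr ρ U hU) rfl
          ⟨u, hu⟩ (fun h => hu0 (congrArg Subtype.val h)) (fun a => Subtype.ext (key a).1)

/-- functions on the group, with left translation -/
def reg (S : Type) [Group S] : S →* ((S → ℂ) →ₗ[ℂ] (S → ℂ)) where
  toFun g :=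
    { toFun := fun f s => f (g⁻¹ * s)
      map_add' := fun _ _ => rfl
      map_smul' := fun _ _ => rfl }
  map_one' := by
    ext f s
    simp
  map_mul' := by
    intro g h
    ext f s
    simp [mul_assoc]

omit [Finite S] in
lemma reg_apply (g : S) (f : S → ℂ) (s : S) : reg S g f s = f (g⁻¹ * s) := rfl

omit [Finite S] in
lemma exists_reg_weight {N : Type} [CommGroup N] [Finite N] (j : N →* S)
    (hj : Function.Injective j) (ν : N →* ℂ) :
    ∃ x₀ : S → ℂ, x₀ ≠ 0 ∧ ∀ a, reg S (j a) x₀ = ν a • x₀ := by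
  classical
  have := Fintype.ofFinite N
  refine ⟨fun s => ∑ m : N, ν m⁻¹ * (if s = j m then 1 else 0), ?_, ?_⟩
  · intro h
    have h1 := congrFun h (j 1)
    change (∑ m : N, ν m⁻¹ * (if j 1 = j m then 1 else 0)) = 0 at h1
    rw [Finset.sum_eq_single 1] at h1
    · rw [if_pos rfl, mul_one, inv_one, map_one] at h1
      exact one_ne_zero h1
    · intro b _ hb
      rw [if_neg (fun h => hb (hj h).symm), mul_zero]
    · intro h; exact absurd (Finset.mem_univ _) h
  · intro a
    funext s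
    rw [reg_apply, Pi.smul_apply, smul_eq_mul, Finset.mul_sum]
    rw [← Equiv.sum_comp (Equiv.mulLeft a) (fun m => ν a * (ν m⁻¹ * if s = j m then 1 else 0))]
    refine Finset.sum_congr rfl fun m _ => ?_
    have h3 : ((j a)⁻¹ * s = j m) ↔ (s = j (a * m)) := by
      rw [map_mul, inv_mul_eq_iff_eq_mul]
    have h4 : ν m⁻¹ = ν a * ν (a * m)⁻¹ := by
      rw [← map_mul]
      congr 1
      rw [mul_inv, mul_inv_cancel_left]
    by_cases hs : s = j (a * m)
    · rw [if_pos (h3.mpr hs), h4, mul_assoc, Equiv.coe_mulLeft, if_pos hs]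
    · rw [if_neg (fun h => hs (h3.mp h)), Equiv.coe_mulLeft, if_neg hs, mul_zero, mul_zero,
        mul_zero]

/-- Eigenvectors with different characters are independent. -/
lemma card_le_of_weights {Y : Type} [AddCommGroup Y] [Module ℂ Y] [FiniteDimensional ℂ Y]
    {N : Type} [CommGroup N] (A : N → (Y →ₗ[ℂ] Y)) {T : Type} [Finite T] (χ : T → (N →* ℂ))
    (hχ : Function.Injective χ) (w : T → Y) (hw : ∀ k, w k ≠ 0)
    (h : ∀ k a, A a (w k) = χ k a • w k) : Nat.card T ≤ Module.finrank ℂ Y := by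
  classical
  have := Fintype.ofFinite T
  have hli : LinearIndependent ℂ (fun k => (χ k : N → ℂ)) :=
    (linearIndependent_monoidHom N ℂ).comp χ hχ
  have hw' : LinearIndependent ℂ w := by
    rw [Fintype.linearIndependent_iff]
    intro c hc k
    have h1 : ∀ (f : Y →ₗ[ℂ] ℂ) (k : T), c k * f (w k) = 0 := by
      intro f
      refine Fintype.linearIndependent_iff.mp hli (fun k => c k * f (w k)) ?_
      funext a
      have h2 := congrArg (fun y => f (A a y)) hc
      simp only [map_sum, map_smul, map_zero, h, smul_eq_mul] at h2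
      simp only [Finset.sum_apply, Pi.smul_apply, smul_eq_mul, Pi.zero_apply]
      rw [← h2]
      refine Finset.sum_congr rfl fun k _ => ?_
      ring
    by_contra hck
    apply hw k
    rw [← Module.forall_dual_apply_eq_zero_iff ℂ]
    intro f
    exact (mul_eq_zero.mp (h1 f k)).resolve_left hck
  rw [Nat.card_eq_fintype_card]
  exact hw'.fintype_card_le_finrank

theorem exists_simple_ge {N : Type} [CommGroup N] [Finite N] (j : N →* S)
    (hj : Function.Injective j) (ν : N →* ℂ) {T : Type} [Finite T] (t : T → S)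
    (φ : T → N → N) (hφ : ∀ k a, j a * t k = t k * j (φ k a))
    (hχ : ∀ k l, (∀ a, ν (φ k a) = ν (φ l a)) → k = l) :
    ∃ W : FDRep ℂ S, Simple W ∧ Nat.card T ≤ Module.finrank ℂ W := by
  obtain ⟨x₀, hx₀, hx⟩ := exists_reg_weight j hj ν
  obtain ⟨Y, _, _, _, σ, hirr, y₀, hy₀, hy⟩ :=
    exists_irr_weight j ν _ (S → ℂ) (reg S) rfl x₀ hx₀ hx
  have : Nontrivial Y := ⟨y₀, 0, hy₀⟩
  refine ⟨FDRep.of σ, simple_of_irr σ hirr, ?_⟩
  change Nat.card T ≤ Module.finrank ℂ Y
  have hφ' : ∀ k a, j (φ k a) = (t k)⁻¹ * j a * t k := by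
    intro k a
    rw [mul_assoc, hφ, inv_mul_cancel_left]
  have hφmul : ∀ k a b, φ k (a * b) = φ k a * φ k b := by
    intro k a b
    apply hj
    rw [hφ', map_mul, map_mul, hφ', hφ']
    group
  have hφone : ∀ k, φ k 1 = 1 := by
    intro k
    apply hj
    rw [hφ', map_one]
    group
  refine card_le_of_weights (fun a => σ (j a))
    (fun k => ({ toFun := fun a => ν (φ k a)
                 map_one' := by rw [hφone, map_one]
                 map_mul' := by intro a b; rw [hφmul, map_mul] } : N →* ℂ))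
    ?_ (fun k => σ (t k) y₀) ?_ ?_
  · intro k l hkl
    exact hχ k l fun a => DFunLike.congr_fun hkl a
  · intro k h0
    exact hy₀ (rho_inj σ _ h0)
  · intro k a
    rw [← rho_mul, hφ, rho_mul, hy, map_smul]
    rfl

end lower

end Pool.Agent.Helper88.RepTools
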