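import Pool.Agent.Helper88.Nav6
import Pool.Agent.Helper88.Nav7

set_option autoImplicit false

/-!
The Sylow subgroups of `G` and their irreducible representations of large dimension.
-/

namespace Pool.Agent.Helper88.Nav

open Pool.Agent.Helper88.RepTools

/-! ### The Sylow 2-subgroup -/

def S2 : Subgroup G where
  carrier := {g | g.right.left = 1}
  mul_mem' := by
    intro a b ha hb
    change a.right.left * (a.right.right • b.right.left) = 1
    rw [show a.right.left = 1 from ha, show b.right.left = 1 from hb, smul_one, mul_one]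
  one_mem' := rfl
  inv_mem' := by
    intro a ha
    change (a.right⁻¹).left = 1
    rw [SemidirectProduct.inv_left, show a.right.left = 1 from ha, inv_one, map_one]

lemma mem_S2 (g : G) : g ∈ S2 ↔ g.right.left = 1 := Iff.rfl

lemma card_S2 : Nat.card S2 = 2 ^ 13 := by
  have e : S2 ≃ V × Q :=
    { toFun := fun g => (g.1.left, g.1.right.right)
      invFun := fun p => ⟨⟨p.1, ⟨1, p.2⟩⟩, rfl⟩
      left_inv := by
        rintro ⟨⟨v, ⟨p, q⟩⟩, h⟩
        have : p = 1 := h
        subst this
        rfl
      right_inv := fun _ => rfl }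
  rw [Nat.card_congr e, Nat.card_prod, card_V, card_Q]
  norm_num

lemma index_S2 : S2.index = 243 := by
  have h := S2.card_mul_index
  rw [card_S2, card_G] at h
  omega

def j2 : V →* S2 where
  toFun v := ⟨SemidirectProduct.inl v, rfl⟩
  map_one' := Subtype.ext (map_one _)
  map_mul' _ _ := Subtype.ext (map_mul _ _ _)

def t2 (q : Q) : S2 := ⟨SemidirectProduct.inr (SemidirectProduct.inr q), rfl⟩

def m0 : Fin 2 → Wt1 := ![(some 1, some 0), (some 1, some 1)]

lemma ev1_mul : ∀ (m : Wt1) (a b : V1), ev1 m (a * b) = ev1 m a * ev1 m b := by decide +kernel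
lemma ev1_one : ∀ (m : Wt1), ev1 m 1 = 1 := by decide +kernel

def nu2 : V →* ℂ where
  toFun v := evC m0 v
  map_one' := by
    unfold evC ev
    simp [ev1_one]
  map_mul' a b := by
    unfold evC ev
    simp only [Pi.mul_apply, ev1_mul, Finset.prod_mul_distrib]
    push_cast
    ring

lemma stab_m0 : ∀ (k : Fin 2 → C4) (π : Equiv.Perm (Fin 2)),
    (∀ v : V, ev m0 (fun i => rotV (k i) (v (π⁻¹ i))) = ev m0 v) → k = 1 ∧ π = 1 := by
  decide +kernel

lemma exists_simple_S2 :
    ∃ W : FDRep ℂ S2, CategoryTheory.Simple W ∧ 32 ≤ Module.finrank ℂ W := by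
  obtain ⟨W, hW, h⟩ := exists_simple_ge (S := S2) j2
    (fun a b h => SemidirectProduct.inl_injective (congrArg Subtype.val h)) nu2 t2
    (fun q v => hV (SemidirectProduct.inr q)⁻¹ v)
    (by
      intro q v
      apply Subtype.ext
      change (SemidirectProduct.inl v * SemidirectProduct.inr (SemidirectProduct.inr q) : G)
        = SemidirectProduct.inr (SemidirectProduct.inr q)
          * SemidirectProduct.inl (hV (SemidirectProduct.inr q)⁻¹ v)
      rw [← inl_mul_inr, ← hV_mul, mul_inv_cancel, hV_one])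
    (by
      intro q r h
      -- reduce to the stabilizer
      have h1 : ∀ v : V, ev m0 (hV (SemidirectProduct.inr (r⁻¹ * q)) v) = ev m0 v := by
        intro v
        have h2 := h (hV (SemidirectProduct.inr q) v)
        change evC m0 _ = evC m0 _ at h2
        rw [← hV_mul, inv_mul_cancel, hV_one, ← hV_mul, ← map_inv, ← map_mul] at h2
        unfold evC at h2
        have h3 : ((ev m0 v : ℤˣ) : ℤ) = ev m0 (hV (SemidirectProduct.inr (r⁻¹ * q)) v) := by
          exact_mod_cast h2
        exact (Units.ext h3).symm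
      obtain ⟨hk, hπ⟩ := stab_m0 (r⁻¹ * q).left (r⁻¹ * q).right (by
        intro v
        rw [← h1 v]
        congr 1)
      have : r⁻¹ * q = 1 := SemidirectProduct.ext hk hπ
      exact (inv_mul_eq_one.mp this).symm)
  rw [card_Q] at h
  exact ⟨W, hW, h⟩

/-! ### The Sylow 3-subgroup -/

def S3 : Subgroup G where
  carrier := {g | g.left = 1 ∧ g.right.right = 1}
  mul_mem' := by
    rintro a b ⟨ha, ha'⟩ ⟨hb, hb'⟩
    constructor
    · change a.left * (a.right • b.left) = 1
      rw [ha, hb, smul_one, mul_one]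
    · change a.right.right * b.right.right = 1
      rw [ha', hb', mul_one]
  one_mem' := ⟨rfl, rfl⟩
  inv_mem' := by
    rintro a ⟨ha, ha'⟩
    constructor
    · rw [SemidirectProduct.inv_left, ha, inv_one, map_one]
    · change (a.right.right)⁻¹ = 1
      rw [ha', inv_one]

lemma card_S3 : Nat.card S3 = 3 ^ 5 := by
  have e : S3 ≃ P :=
    { toFun := fun g => g.1.right.left
      invFun := fun p => ⟨⟨1, ⟨p, 1⟩⟩, ⟨rfl, rfl⟩⟩
      left_inv := by
        rintro ⟨⟨v, ⟨p, q⟩⟩, ⟨h, h'⟩⟩
        have : v = 1 := h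
        subst this
        have : q = 1 := h'
        subst this
        rfl
      right_inv := fun _ => rfl }
  rw [Nat.card_congr e, card_P]
  norm_num

lemma index_S3 : S3.index = 8192 := by
  have h := S3.card_mul_index
  rw [card_S3, card_G] at h
  omega

def j3 : Multiplicative (Y × ZMod 3) →* S3 where
  toFun a := ⟨SemidirectProduct.inr (aC a.toAdd.1 a.toAdd.2), ⟨rfl, rfl⟩⟩
  map_one' := Subtype.ext (by
    change (SemidirectProduct.inr (aC 0 0) : G) = 1
    rw [aC_zero, map_one])
  map_mul' a b := Subtype.ext (by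
    change (SemidirectProduct.inr (aC (a.toAdd.1 + b.toAdd.1) (a.toAdd.2 + b.toAdd.2)) : G)
      = SemidirectProduct.inr (aC a.toAdd.1 a.toAdd.2) * SemidirectProduct.inr (aC b.toAdd.1 b.toAdd.2)
    rw [← aC_mul, map_mul])

lemma j3_inj : Function.Injective j3 := by
  intro a b h
  have h1 : (SemidirectProduct.inr (aC a.toAdd.1 a.toAdd.2) : G)
    = SemidirectProduct.inr (aC b.toAdd.1 b.toAdd.2) := congrArg Subtype.val h
  have h2 := SemidirectProduct.inr_injective h1
  have h3 : (aC a.toAdd.1 a.toAdd.2).left = (aC b.toAdd.1 b.toAdd.2).left := by rw [h2]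
  have h4 : (fun l => ((0 : ZMod 3), a.toAdd.1 l)) = fun l => ((0 : ZMod 3), b.toAdd.1 l) :=
    congrArg P.x h3
  have h5 : a.toAdd.2 = b.toAdd.2 := congrArg P.z h3
  apply Multiplicative.toAdd.injective
  refine Prod.ext ?_ h5
  funext l
  exact (Prod.mk.inj (congrFun h4 l)).2

def t3 (x : Y) : S3 := ⟨SemidirectProduct.inr (mkH (fun l => (x l, 0)) 0 1 1), ⟨rfl, rfl⟩⟩

noncomputable def nu3 : Multiplicative (Y × ZMod 3) →* ℂ where
  toFun a := ZMod.stdAddChar (a.toAdd.2)
  map_one' := by
    change ZMod.stdAddChar (0 : ZMod 3) = 1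
    exact AddChar.map_zero_eq_one _
  map_mul' a b := AddChar.map_add_eq_mul _ _ _

def dot (x y : Y) : ZMod 3 := ∑ l, x l * y l

lemma exists_simple_S3 :
    ∃ W : FDRep ℂ S3, CategoryTheory.Simple W ∧ 9 ≤ Module.finrank ℂ W := by
  obtain ⟨W, hW, h⟩ := exists_simple_ge (S := S3) j3 j3_inj nu3 t3
    (fun x a => Multiplicative.ofAdd (a.toAdd.1, a.toAdd.2 + dot x a.toAdd.1))
    (by
      intro x a
      apply Subtype.ext
      change (SemidirectProduct.inr (aC a.toAdd.1 a.toAdd.2)
          * SemidirectProduct.inr (mkH (fun l => (x l, 0)) 0 1 1) : G)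
        = SemidirectProduct.inr (mkH (fun l => (x l, 0)) 0 1 1)
          * SemidirectProduct.inr (aC a.toAdd.1 (a.toAdd.2 + dot x a.toAdd.1))
      rw [← map_mul, ← map_mul]
      congr 1
      unfold aC
      rw [mkH_mul, mkH_mul]
      have h1 : ∀ x : A, (fun i => rot ((1 : Fin 2 → C4) i) (x i)) = x := by
        intro x; funext i; exact rot_one _
      rw [h1, h1, add_comm (fun l => ((0 : ZMod 3), (Multiplicative.toAdd a).1 l))]
      congr 1
      simp only [B, B1, dot, Fin.sum_univ_two]
      have h3 : (3 : ZMod 3) = 0 := by decide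
      ring_nf
      linear_combination (- (x 0 * (Multiplicative.toAdd a).1 0) - x 1 * (Multiplicative.toAdd a).1 1) * h3)
    (by
      intro x y h
      funext l
      have h1 := h (Multiplicative.ofAdd (Pi.single l 1, 0))
      change ZMod.stdAddChar ((0 : ZMod 3) + dot x (Pi.single l 1))
        = ZMod.stdAddChar ((0 : ZMod 3) + dot y (Pi.single l 1)) at h1
      have h2 := ZMod.injective_stdAddChar h1
      have h3 : ∀ x : Y, ∀ l, dot x (Pi.single l 1) = x l := by decide
      rwa [zero_add, zero_add, h3, h3] at h2)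
  have hc : Nat.card Y = 9 := by simp [Nat.card_eq_fintype_card]
  rw [hc] at h
  exact ⟨W, hW, h⟩

end Pool.Agent.Helper88.Nav
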