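import Pool.Agent.Helper88.Nav8

set_option autoImplicit false

/-!
`G` is solvable, and the Sylow family.
-/

namespace Pool.Agent.Helper88.Nav

open Pool.Agent.Helper88.RepTools

lemma solvable_of_pgroup {S : Type} [Group S] [Finite S] (p n : ℕ) [Fact p.Prime]
    (h : Nat.card S = p ^ n) : Group.IsSolvable S := by
  have h1 : IsPGroup p S := IsPGroup.of_card h
  have h2 : Group.IsNilpotent S := h1.isNilpotent
  infer_instance

lemma solvable_P : Group.IsSolvable P :=
  solvable_of_pgroup 3 5 (by rw [card_P]; norm_num)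

lemma solvable_Q : Group.IsSolvable Q :=
  solvable_of_pgroup 2 5 (by rw [card_Q]; norm_num)

lemma solvable_H : Group.IsSolvable H := by
  have := solvable_P
  have := solvable_Q
  exact Group.isSolvable_of_ker_le_range (SemidirectProduct.inl : P →* H) (SemidirectProduct.rightHom : H →* Q)
    (by rw [SemidirectProduct.range_inl_eq_ker_rightHom])

lemma solvable_G : Group.IsSolvable G := by
  have := solvable_H
  exact Group.isSolvable_of_ker_le_range (SemidirectProduct.inl : V →* G) (SemidirectProduct.rightHom : G →* H)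
    (by rw [SemidirectProduct.range_inl_eq_ker_rightHom])

noncomputable def Syl2 : Sylow 2 G :=
  IsPGroup.toSylow (P := S2) (IsPGroup.of_card card_S2) (by rw [index_S2]; norm_num)

noncomputable def Syl3 : Sylow 3 G :=
  IsPGroup.toSylow (P := S3) (IsPGroup.of_card card_S3) (by rw [index_S3]; norm_num)

lemma primeFactors_card : (Nat.card G).primeFactors = {2, 3} := by
  rw [card_G]
  have h : (1990656 : ℕ) = 2 ^ 13 * 3 ^ 5 := by norm_num
  rw [h, Nat.primeFactors_mul (by norm_num) (by norm_num),
    Nat.primeFactors_prime_pow (by norm_num) Nat.prime_two,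
    Nat.primeFactors_prime_pow (by norm_num) Nat.prime_three]
  rfl

noncomputable def fam : (p : ℕ) → Sylow p G :=
  Function.update (Function.update (fun _ => default) 2 Syl2) 3 Syl3

lemma fam_two : fam 2 = Syl2 := by
  unfold fam
  rw [Function.update_of_ne (by norm_num), Function.update_self]

lemma fam_three : fam 3 = Syl3 := by
  unfold fam
  rw [Function.update_self]

theorem main :
    ∃ (P : (p : ℕ) → Sylow p G) (d : ℕ → ℕ),
      (∀ p ∈ (Nat.card G).primeFactors,
          ∃ V : FDRep ℂ ↥(P p).toSubgroup,
            CategoryTheory.Simple V ∧ Module.finrank ℂ V = d p) ∧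
      ∀ W : FDRep ℂ G, CategoryTheory.Simple W →
        Module.finrank ℂ W < ∏ p ∈ (Nat.card G).primeFactors, d p := by
  obtain ⟨W2, hW2, h2⟩ := exists_simple_S2
  obtain ⟨W3, hW3, h3⟩ := exists_simple_S3
  refine ⟨fam, fun p => if p = 2 then Module.finrank ℂ W2 else Module.finrank ℂ W3, ?_, ?_⟩
  · intro p hp
    rw [primeFactors_card, Finset.mem_insert, Finset.mem_singleton] at hp
    rcases hp with rfl | rfl
    · rw [fam_two]
      exact ⟨W2, hW2, rfl⟩
    · rw [fam_three]
      exact ⟨W3, hW3, rfl⟩
  · intro W hW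
    rw [primeFactors_card, Finset.prod_pair (by norm_num), if_pos rfl, if_neg (by norm_num)]
    have h4 := simple_finrank_le W hW
    have h5 : 32 * 9 ≤ Module.finrank ℂ W2 * Module.finrank ℂ W3 := Nat.mul_le_mul h2 h3
    omega

end Pool.Agent.Helper88.Nav
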