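import Mathlib

set_option autoImplicit false

/-!
Definitions: `p`-nilpotent groups, chief factors, `p`-supersolvable groups, the residual
`G^{U_p}`, `c`-embedded subgroups.  Basic facts on `p`-nilpotent groups.
-/

namespace Pool.Agent.Helper88.PN

open Subgroup
open scoped Pointwise

/-- `G` is `p`-nilpotent: it has a normal Hall `p'`-subgroup `T`, that is a normal subgroup whose
order is prime to `p` and whose index is a power of `p`. -/
def PNilpotent (p : ℕ) (G : Type*) [Group G] : Prop :=
  ∃ T : Subgroup G, T.Normal ∧ (Nat.card T).Coprime p ∧ ∃ k, T.index = p ^ k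

/-- `A / B` is a chief factor of `G`: `B < A` are normal subgroups of `G` and no normal subgroup
of `G` lies strictly between them.  The order of `A / B` is `B.relIndex A`. -/
structure IsChiefFactor {G : Type*} [Group G] (A B : Subgroup G) : Prop where
  normal_top : A.Normal
  normal_bot : B.Normal
  lt : B < A
  minimal : ∀ C : Subgroup G, C.Normal → B ≤ C → C ≤ A → C = B ∨ C = A

/-- `G` is `p`-solvable: each chief factor is a `p`-group or a `p'`-group. -/
def PSolvable (p : ℕ) (G : Type*) [Group G] : Prop :=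
  ∀ A B : Subgroup G, IsChiefFactor A B →
    (∃ k, B.relIndex A = p ^ k) ∨ (B.relIndex A).Coprime p

/-- `G` is `p`-supersolvable: it is `p`-solvable and each chief factor that is a `p`-group has
order `p`. -/
def PSupersolvable (p : ℕ) (G : Type*) [Group G] : Prop :=
  PSolvable p G ∧ ∀ A B : Subgroup G, IsChiefFactor A B →
    (∃ k, B.relIndex A = p ^ k) → B.relIndex A = p

/-- The residual `G^{U_p}`: the intersection of all normal subgroups `N` with `G / N`
`p`-supersolvable. -/
def residual (p : ℕ) (G : Type*) [Group G] : Subgroup G :=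
  sInf {N : Subgroup G | ∃ _ : N.Normal, PSupersolvable p (G ⧸ N)}

/-- `H` is `c`-embedded in `L` with respect to `K`: some subgroup `B ≤ L` has `L = H B` and
`H ∩ B ≤ Z(K)`. -/
def CEmbedded {G : Type*} [Group G] (H L K : Subgroup G) : Prop :=
  ∃ B : Subgroup G, B ≤ L ∧ (H : Set G) * (B : Set G) = (L : Set G) ∧
    H ⊓ B ≤ (center K).map K.subtype

/-- Condition (2'): for each `x` outside `N_G(P)`, each subgroup `H` of order `p` of
`G^{U_p} ∩ P ∩ P^x`, where `P^x = x⁻¹ P x`, is `c`-embedded in `P` with respect to `P`. -/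
def Cond2' (p : ℕ) {G : Type*} [Group G] (P : Subgroup G) : Prop :=
  ∀ x : G, x ∉ normalizer (P : Set G) → ∀ H : Subgroup G, Nat.card H = p →
    H ≤ residual p G ⊓ P ⊓ P.map (MulAut.conj x⁻¹).toMonoidHom → CEmbedded H P P

section basic

variable {p : ℕ} {G H : Type*} [Group G] [Group H]

lemma PNilpotent.of_injective [Fact p.Prime] [Finite G] (f : H →* G) (hf : Function.Injective f)
    (h : PNilpotent p G) : PNilpotent p H := by
  obtain ⟨T, hT, hc, k, hk⟩ := h
  refine ⟨T.comap f, inferInstance, ?_, ?_⟩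
  · exact hc.coprime_dvd_left (Subgroup.card_comap_dvd_of_injective T f hf)
  · have h1 : (T.comap f).index ∣ p ^ k := by
      rw [Subgroup.index_comap, ← hk]
      exact Subgroup.relIndex_dvd_index_of_normal _ _
    obtain ⟨j, _, hj⟩ := (Nat.dvd_prime_pow Fact.out).mp h1
    exact ⟨j, hj⟩

lemma PNilpotent.of_surjective [Fact p.Prime] [Finite G] (f : G →* H)
    (hf : Function.Surjective f) (h : PNilpotent p G) : PNilpotent p H := by
  obtain ⟨T, hT, hc, k, hk⟩ := h
  refine ⟨T.map f, hT.map f hf, ?_, ?_⟩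
  · exact hc.coprime_dvd_left (Subgroup.card_map_dvd T f)
  · have h1 : (T.map f).index ∣ p ^ k := by
      rw [← hk]
      exact Subgroup.index_map_dvd T hf
    obtain ⟨j, _, hj⟩ := (Nat.dvd_prime_pow Fact.out).mp h1
    exact ⟨j, hj⟩

lemma PNilpotent.subgroup [Fact p.Prime] [Finite G] (h : PNilpotent p G) (K : Subgroup G) :
    PNilpotent p K := h.of_injective K.subtype K.subtype_injective

/-- A normal `p'`-subgroup centralises a normal `p`-subgroup. -/
lemma commute_of_coprime [Finite G] [Fact p.Prime] {T Q : Subgroup G} (hT : T.Normal)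
    (hQ : Q.Normal) (hc : (Nat.card T).Coprime p) (hp : IsPGroup p Q) (t : G) (ht : t ∈ T)
    (x : G) (hx : x ∈ Q) : t * x = x * t := by
  have hdisj : Disjoint T Q := by
    obtain ⟨n, hn⟩ := IsPGroup.iff_card.mp hp
    apply Subgroup.disjoint_of_coprime_natCard
    rw [hn]
    exact hc.pow_right n
  exact Subgroup.commute_of_normal_of_disjoint T Q hT hQ hdisj t x ht hx

/-- `G = T P` for a normal `T` of `p`-power index and a Sylow `p`-subgroup `P`. -/
lemma sup_sylow_eq_top [Finite G] [Fact p.Prime] {T : Subgroup G}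
    (hk : ∃ k, T.index = p ^ k) (P : Sylow p G) : T ⊔ (P : Subgroup G) = ⊤ := by
  obtain ⟨k, hk⟩ := hk
  rw [← Subgroup.index_eq_one]
  have h1 : (T ⊔ (P : Subgroup G)).index ∣ p ^ k := by
    rw [← hk]; exact Subgroup.index_dvd_of_le le_sup_left
  have h2 : (T ⊔ (P : Subgroup G)).index ∣ (P : Subgroup G).index :=
    Subgroup.index_dvd_of_le le_sup_right
  have h3 : ¬ p ∣ (P : Subgroup G).index := P.not_dvd_index
  have h4 : Nat.Coprime (p ^ k) (P : Subgroup G).index :=
    Nat.Coprime.pow_left k ((Nat.Prime.coprime_iff_not_dvd Fact.out).mpr h3)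
  exact Nat.eq_one_of_dvd_coprimes h4 h1 h2

lemma exists_mul_of_sylow [Finite G] [Fact p.Prime] {T : Subgroup G} (hT : T.Normal)
    (hk : ∃ k, T.index = p ^ k) (P : Sylow p G) (g : G) :
    ∃ t ∈ T, ∃ u ∈ P, g = t * u := by
  have h : g ∈ T ⊔ (P : Subgroup G) := by rw [sup_sylow_eq_top hk P]; trivial
  obtain ⟨t, ht, u, hu, rfl⟩ := Subgroup.mem_sup_of_normal_left.mp h
  exact ⟨t, ht, u, hu, rfl⟩

end basic

end Pool.Agent.Helper88.PN
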