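import Pool.Agent.Helper88.PN9

set_option autoImplicit false

/-!
The easy direction, and the residual is the least normal subgroup with `p`-supersolvable quotient.
-/

namespace Pool.Agent.Helper88.PN

open Subgroup
open scoped Pointwise commutatorElement

variable {p : ℕ} [Fact p.Prime] {G : Type*} [Group G] [Finite G]

lemma IsPGroup.pSupersolvable (hG : IsPGroup p G) : PSupersolvable p G := by
  rw [pSupersolvable_iff]
  intro A B hAB
  left
  have hAn := hAB.normal_top
  have hBn := hAB.normal_bot
  obtain ⟨W, hW⟩ : ∃ W : Subgroup (G ⧸ B), W = A.map (QuotientGroup.mk' B) := ⟨_, rfl⟩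
  have hcard : B.relIndex A = Nat.card W := by
    rw [hW, ← relIndex_ker, QuotientGroup.ker_mk']
  have hWne : W ≠ ⊥ := by
    intro h
    apply relIndex_ne_one_of_lt hAB.lt
    rw [hcard, h]
    exact Subgroup.card_bot
  have hq : IsPGroup p (G ⧸ B) := hG.to_quotient B
  have hWn : W.Normal := by rw [hW]; exact hAn.map _ (QuotientGroup.mk'_surjective B)
  have hcomap : ∀ K : Subgroup (G ⧸ B), K.Normal → K ≤ W → K ≠ ⊥ → K = W := by
    intro K hK hKW hKne
    have hK1 : B ≤ K.comap (QuotientGroup.mk' B) := by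
      intro b hb
      rw [Subgroup.mem_comap]
      have : QuotientGroup.mk' B b = 1 := (QuotientGroup.eq_one_iff _).mpr hb
      rw [this]
      exact one_mem K
    have hK2 : K.comap (QuotientGroup.mk' B) ≤ A := by
      intro g hg
      have h1 : QuotientGroup.mk' B g ∈ W := hKW hg
      rw [hW] at h1
      obtain ⟨a, ha, hag⟩ := h1
      have h2 : g * a⁻¹ ∈ B := by
        rw [← QuotientGroup.eq_one_iff]
        change QuotientGroup.mk' B (g * a⁻¹) = 1
        rw [map_mul, map_inv, hag, mul_inv_cancel]
      have h3 : g = (g * a⁻¹) * a := by group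
      rw [h3]
      exact mul_mem (hAB.lt.le h2) ha
    rcases hAB.minimal (K.comap (QuotientGroup.mk' B)) inferInstance hK1 hK2 with h | h
    · exfalso
      apply hKne
      rw [eq_bot_iff]
      intro y hy
      obtain ⟨g, rfl⟩ := QuotientGroup.mk'_surjective B y
      have : g ∈ K.comap (QuotientGroup.mk' B) := hy
      rw [h] at this
      exact (QuotientGroup.eq_one_iff _).mpr this
    · rw [hW, ← h, Subgroup.map_comap_eq_self_of_surjective (QuotientGroup.mk'_surjective B)]
  have hWc : ⁅W, (⊤ : Subgroup (G ⧸ B))⁆ = ⊥ := by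
    by_contra hcon
    have h1 := hcomap _ inferInstance (commutator_le_left W ⊤) hcon
    exact hWne (eq_bot_of_le_commutator (V := ⊤) (hq.to_subgroup ⊤) le_top h1.ge)
  rw [commutator_eq_bot_iff_le_centralizer] at hWc
  have hdvd : p ∣ Nat.card W := by
    obtain ⟨n, hn⟩ := IsPGroup.iff_card.mp (hq.to_subgroup W)
    rw [hn]
    apply dvd_pow_self
    rintro rfl
    rw [pow_zero] at hn
    exact hWne (Subgroup.card_eq_one.mp hn)
  obtain ⟨y, hy⟩ := exists_prime_orderOf_dvd_card' p hdvd
  have hyW : zpowers (y : G ⧸ B) ≤ W := by rw [zpowers_le]; exact y.2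
  have hyn : (zpowers (y : G ⧸ B)).Normal := by
    constructor
    intro z hz g
    have h1 := Subgroup.mem_centralizer_iff.mp (hWc (hyW hz)) g (Set.mem_univ g)
    rw [h1, mul_inv_cancel_right]
    exact hz
  have hyne : zpowers (y : G ⧸ B) ≠ ⊥ := by
    rw [Ne, Subgroup.zpowers_eq_bot]
    intro h
    rw [← Subgroup.orderOf_coe, h, orderOf_one] at hy
    exact (Fact.out : p.Prime).ne_one hy.symm
  have h1 := hcomap _ hyn hyW hyne
  rw [hcard, ← h1, Nat.card_zpowers, Subgroup.orderOf_coe, hy]

lemma PNilpotent.pSupersolvable (hG : PNilpotent p G) : PSupersolvable p G := by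
  rw [pSupersolvable_iff]
  intro A B hAB
  have hAn := hAB.normal_top
  have hBn := hAB.normal_bot
  obtain ⟨T, hT, hc, k, hk⟩ := hG
  have hpT : IsPGroup p (G ⧸ T) := by
    rw [IsPGroup.iff_card]
    exact ⟨k, by rw [← hk]; rfl⟩
  rcases hAB.minimal (B ⊔ (A ⊓ T)) inferInstance le_sup_left (sup_le hAB.lt.le inf_le_left)
    with h | h
  · apply chief_order (QuotientGroup.mk' T) (IsPGroup.pSupersolvable hpT) hAB
    rw [QuotientGroup.ker_mk', ← h]
    exact le_sup_right
  · right
    have h1 : B.relIndex A = B.relIndex (A ⊓ T) := by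
      conv_lhs => rw [← h]
      rw [relIndex_sup_left]
    rw [h1]
    exact hc.coprime_dvd_left ((relIndex_dvd_card B (A ⊓ T)).trans
      (Subgroup.card_dvd_of_le inf_le_right))

/-- The class of `p`-supersolvable groups is closed under subdirect products. -/
lemma pSupersolvable_subdirect {M N : Subgroup G} (hM : M.Normal) (hN : N.Normal)
    (hMN : M ⊓ N = ⊥) (h1 : PSupersolvable p (G ⧸ M)) (h2 : PSupersolvable p (G ⧸ N)) :
    PSupersolvable p G := by
  rw [pSupersolvable_iff]
  intro A B hAB
  have hAn := hAB.normal_top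
  have hBn := hAB.normal_bot
  rcases hAB.minimal (B ⊔ (A ⊓ M)) inferInstance le_sup_left (sup_le hAB.lt.le inf_le_left)
    with h | h
  · apply chief_order (QuotientGroup.mk' M) h1 hAB
    rw [QuotientGroup.ker_mk', ← h]
    exact le_sup_right
  · have h3 : B.relIndex A = (B ⊓ M).relIndex (A ⊓ M) := by
      conv_lhs => rw [← h]
      rw [relIndex_sup_left]
      rw [← inf_relIndex_right B (A ⊓ M)]
      congr 1
      apply le_antisymm
      · exact inf_le_inf_left _ inf_le_right
      · exact le_inf inf_le_left (le_inf (inf_le_left.trans hAB.lt.le) inf_le_right)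
    have hchief : IsChiefFactor (A ⊓ M) (B ⊓ M) := by
      refine ⟨inferInstance, inferInstance, ?_, ?_⟩
      · refine lt_of_le_of_ne (inf_le_inf_right _ hAB.lt.le) ?_
        intro heq
        apply relIndex_ne_one_of_lt hAB.lt
        rw [h3, heq, relIndex_self]
      · intro C hC hBC hCA
        have hCM : C ≤ M := hCA.trans inf_le_right
        have hCAA : C ≤ A := hCA.trans inf_le_left
        rcases hAB.minimal (B ⊔ C) inferInstance le_sup_left (sup_le hAB.lt.le hCAA) with h4 | h4
        · left
          apply le_antisymm _ hBC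
          refine le_inf ?_ hCM
          rw [← h4]
          exact le_sup_right
        · right
          apply le_antisymm hCA
          intro x hx
          have hx1 : x ∈ B ⊔ C := by rw [h4]; exact hx.1
          obtain ⟨b, hb, c, hc, rfl⟩ := Subgroup.mem_sup_of_normal_left.mp hx1
          have hbM : b ∈ M := by
            have h5 := M.mul_mem hx.2 (M.inv_mem (hCM hc))
            rwa [mul_inv_cancel_right] at h5
          exact mul_mem (hBC ⟨hb, hbM⟩) hc
    rw [h3]
    apply chief_order (QuotientGroup.mk' N) h2 hchief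
    rw [QuotientGroup.ker_mk', inf_assoc, hMN, inf_bot_eq]
    exact bot_le

/-- The residual is the least normal subgroup with `p`-supersolvable quotient. -/
theorem residual_isLeast :
    IsLeast {N : Subgroup G | ∃ _ : N.Normal, PSupersolvable p (G ⧸ N)} (residual p G) := by
  refine ⟨?_, fun N hN => sInf_le hN⟩
  -- the set is closed under intersections and contains `⊤`
  have hinf : ∀ M N : Subgroup G, (∃ _ : M.Normal, PSupersolvable p (G ⧸ M)) →
      (∃ _ : N.Normal, PSupersolvable p (G ⧸ N)) →
      (∃ _ : (M ⊓ N).Normal, PSupersolvable p (G ⧸ (M ⊓ N))) := by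
    rintro M N ⟨hM, hMs⟩ ⟨hN, hNs⟩
    refine ⟨inferInstance, ?_⟩
    have hle1 : M ⊓ N ≤ M := inf_le_left
    have hle2 : M ⊓ N ≤ N := inf_le_right
    have hM' : (M.map (QuotientGroup.mk' (M ⊓ N))).Normal :=
      hM.map _ (QuotientGroup.mk'_surjective _)
    have hN' : (N.map (QuotientGroup.mk' (M ⊓ N))).Normal :=
      hN.map _ (QuotientGroup.mk'_surjective _)
    refine pSupersolvable_subdirect hM' hN' ?_ ?_ ?_
    · rw [eq_bot_iff]
      rintro _ ⟨⟨a, ha, rfl⟩, b, hb, hab⟩
      have h1 : a⁻¹ * b ∈ M ⊓ N := by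
        rw [← QuotientGroup.eq]
        exact hab.symm
      have h2 : a ∈ N := by
        have h3 := mul_mem hb (inv_mem h1.2)
        have h4 : b * (a⁻¹ * b)⁻¹ = a := by group
        rwa [h4] at h3
      exact (QuotientGroup.eq_one_iff _).mpr ⟨ha, h2⟩
    · exact PSupersolvable.of_injective (QuotientGroup.quotientQuotientEquivQuotient (M ⊓ N) M hle1).toMonoidHom
        (QuotientGroup.quotientQuotientEquivQuotient (M ⊓ N) M hle1).injective hMs
    · exact PSupersolvable.of_injective (QuotientGroup.quotientQuotientEquivQuotient (M ⊓ N) N hle2).toMonoidHom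
        (QuotientGroup.quotientQuotientEquivQuotient (M ⊓ N) N hle2).injective hNs
  have htop : (∃ _ : (⊤ : Subgroup G).Normal, PSupersolvable p (G ⧸ (⊤ : Subgroup G))) := by
    refine ⟨inferInstance, IsPGroup.pSupersolvable ?_⟩
    rw [IsPGroup.iff_card]
    exact ⟨0, by rw [pow_zero]; exact Subgroup.index_top⟩
  obtain ⟨N, hN, hmin⟩ := (Set.toFinite
    {N : Subgroup G | ∃ _ : N.Normal, PSupersolvable p (G ⧸ N)}).exists_minimal ⟨⊤, htop⟩
  have h1 : residual p G = N := by
    apply le_antisymm (sInf_le hN)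
    apply le_sInf
    intro M hM
    have h2 := hinf N M hN hM
    exact (hmin h2 inf_le_left).trans inf_le_right
  rw [h1]
  exact hN

lemma residual_eq_bot (hG : PNilpotent p G) : residual p G = ⊥ := by
  rw [eq_bot_iff]
  apply sInf_le
  refine ⟨inferInstance, PNilpotent.pSupersolvable ?_⟩
  exact hG.of_surjective (QuotientGroup.mk' ⊥) (QuotientGroup.mk'_surjective ⊥)

lemma cond_of_pnilpotent (hG : PNilpotent p G) (P : Subgroup G) : Cond2' p P := by
  intro x _ H hH hle
  exfalso
  have h1 : H ≤ ⊥ := by
    rw [← residual_eq_bot hG]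
    exact hle.trans (inf_le_left.trans inf_le_left)
  rw [le_bot_iff.mp h1, Subgroup.card_bot] at hH
  exact (Fact.out : p.Prime).ne_one hH.symm

theorem main (hp2 : p ≠ 2) (P : Sylow p G) :
    PNilpotent p G ↔
      PNilpotent p (normalizer ((P : Subgroup G) : Set G)) ∧ Cond2' p (P : Subgroup G) :=
  ⟨fun h => ⟨h.subgroup _, cond_of_pnilpotent h _⟩,
    fun h => main_aux p hp2 _ G rfl P h.1 h.2⟩

end Pool.Agent.Helper88.PN
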