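import Pool.Agent.Helper88.PN1

set_option autoImplicit false

/-!
Frobenius' normal `p`-complement theorem.
-/

namespace Pool.Agent.Helper88.PN

open Subgroup
open scoped Pointwise commutatorElement

variable {p : ℕ} [Fact p.Prime] {G : Type*} [Group G] [Finite G]

/-- in a `p`-nilpotent normaliser `N_G(D)`, Sylow subgroups are conjugate under `C_G(D)` -/
lemma conj_in_normalizer {D : Subgroup G} (hD : IsPGroup p D)
    (h : PNilpotent p (normalizer (D : Set G))) (R S : Sylow p (normalizer (D : Set G))) :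
    ∃ c : normalizer (D : Set G), c • R = S ∧ ∀ d ∈ D, (c : G) * d = d * c := by
  obtain ⟨T, hT, hc, hk⟩ := h
  obtain ⟨n, hn⟩ := MulAction.exists_smul_eq (normalizer (D : Set G)) R S
  obtain ⟨t, ht, u, hu, rfl⟩ := exists_mul_of_sylow hT hk R n
  refine ⟨t, ?_, ?_⟩
  · rw [mul_smul] at hn
    rw [← hn]
    congr 1
    symm
    rw [Sylow.smul_eq_iff_mem_normalizer]
    exact Subgroup.le_normalizer hu
  · intro d hd
    have h1 := commute_of_coprime (p := p) (Q := D.subgroupOf (normalizer (D : Set G))) hT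
      inferInstance hc (hD.comap_subtype) t ht ⟨d, Subgroup.le_normalizer hd⟩
      (by rw [Subgroup.mem_subgroupOf]; exact hd)
    exact congrArg Subtype.val h1

omit [Finite G] in
/-- normalisers grow in `p`-groups -/
lemma lt_inf_normalizer [Finite G] {P D : Subgroup G} (hP : IsPGroup p P) (hDP : D < P) :
    D < P ⊓ normalizer (D : Set G) := by
  have hnil : Group.IsNilpotent P := hP.isNilpotent
  have hnc := Group.normalizerCondition_of_isNilpotent (G := P)
  have h1 : D.subgroupOf P < ⊤ := by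
    rw [lt_top_iff_ne_top]
    intro h
    rw [Subgroup.subgroupOf_eq_top] at h
    exact absurd hDP (not_lt_of_ge h)
  have h2 := hnc _ h1
  rw [← Subgroup.subgroupOf_normalizer_eq hDP.le] at h2
  obtain ⟨x, hx, hx'⟩ := SetLike.exists_of_lt h2
  refine lt_of_le_of_ne (le_inf hDP.le Subgroup.le_normalizer) fun heq => ?_
  apply hx'
  rw [Subgroup.mem_subgroupOf]
  rw [heq]
  exact ⟨x.2, hx⟩

lemma exists_centralizing_conj
    (h : ∀ D : Subgroup G, IsPGroup p D → D ≠ ⊥ → PNilpotent p (normalizer (D : Set G))) :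
    ∀ (n : ℕ) (P Q : Sylow p G),
      Nat.card G - Nat.card ((P : Subgroup G) ⊓ (Q : Subgroup G) : Subgroup G) = n →
      ∃ c : G, c • P = Q ∧ ∀ d ∈ ((P : Subgroup G) ⊓ (Q : Subgroup G)), c * d = d * c := by
  intro n
  induction n using Nat.strong_induction_on with
  | _ n ih =>
    intro P Q hn
    by_cases hPQ : P = Q
    · exact ⟨1, by rw [hPQ, one_smul], fun d _ => by rw [one_mul, mul_one]⟩
    obtain ⟨D, hDdef⟩ : ∃ D : Subgroup G, D = (P : Subgroup G) ⊓ (Q : Subgroup G) := ⟨_, rfl⟩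
    by_cases hD : D = ⊥
    · obtain ⟨c, hc⟩ := MulAction.exists_smul_eq G P Q
      refine ⟨c, hc, fun d hd => ?_⟩
      rw [← hDdef, hD, Subgroup.mem_bot] at hd
      rw [hd, one_mul, mul_one]
    have hDp : IsPGroup p D := by rw [hDdef]; exact P.isPGroup'.to_inf_left
    -- the induction hypothesis for pairs of Sylow subgroups with a bigger intersection
    have ih' : ∀ (P' Q' : Sylow p G), D < (P' : Subgroup G) ⊓ (Q' : Subgroup G) →
        ∃ c : G, c • P' = Q' ∧ ∀ d ∈ D, c * d = d * c := by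
      intro P' Q' hlt
      have h1 : Nat.card D < Nat.card ((P' : Subgroup G) ⊓ (Q' : Subgroup G) : Subgroup G) := by
        apply Set.ncard_lt_ncard
        · exact hlt
        · exact Set.toFinite _
      have h2 : Nat.card ((P' : Subgroup G) ⊓ (Q' : Subgroup G) : Subgroup G) ≤ Nat.card G :=
        Subgroup.card_le_card_group _
      obtain ⟨c, hc, hcd⟩ := ih
        (Nat.card G - Nat.card ((P' : Subgroup G) ⊓ (Q' : Subgroup G) : Subgroup G))
        (by rw [← hn, ← hDdef]; omega) P' Q' rfl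
      exact ⟨c, hc, fun d hd => hcd d (hlt.le hd)⟩
    have hDP : D < (P : Subgroup G) := by
      refine lt_of_le_of_ne (by rw [hDdef]; exact inf_le_left) fun heq => hPQ ?_
      have h1 : (P : Subgroup G) ≤ (Q : Subgroup G) := by rw [← heq, hDdef]; exact inf_le_right
      exact Sylow.ext (P.3 Q.isPGroup' h1).symm
    have hDQ : D < (Q : Subgroup G) := by
      refine lt_of_le_of_ne (by rw [hDdef]; exact inf_le_right) fun heq => hPQ ?_
      have h1 : (Q : Subgroup G) ≤ (P : Subgroup G) := by rw [← heq, hDdef]; exact inf_le_left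
      exact Sylow.ext (Q.3 P.isPGroup' h1)
    have gP := lt_inf_normalizer P.isPGroup' hDP
    have gQ := lt_inf_normalizer Q.isPGroup' hDQ
    obtain ⟨R, hR⟩ := (P.isPGroup'.comap_subtype (K := normalizer (D : Set G))).exists_le_sylow
    obtain ⟨S, hS⟩ := (Q.isPGroup'.comap_subtype (K := normalizer (D : Set G))).exists_le_sylow
    obtain ⟨c, hc, hcD⟩ := conj_in_normalizer hDp (h D hDp hD) R S
    obtain ⟨R1, hR1⟩ := (R.isPGroup'.map (normalizer (D : Set G)).subtype).exists_le_sylow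
    have h1 : D < (P : Subgroup G) ⊓ (R1 : Subgroup G) := by
      refine lt_of_lt_of_le gP (le_inf inf_le_left ?_)
      intro g hg
      apply hR1
      exact ⟨⟨g, hg.2⟩, hR hg.1, rfl⟩
    have h2 : D < ((c : G) • R1 : Sylow p G).toSubgroup ⊓ (Q : Subgroup G) := by
      refine lt_of_lt_of_le gQ (le_inf ?_ inf_le_left)
      intro g hg
      have hgS : (⟨g, hg.2⟩ : normalizer (D : Set G)) ∈ S := hS hg.1
      rw [← hc] at hgS
      have h3 : (c : normalizer (D : Set G))⁻¹ * ⟨g, hg.2⟩ * c ∈ (R : Subgroup _) := by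
        have h4 : (⟨g, hg.2⟩ : normalizer (D : Set G)) ∈ (MulAut.conj c • (R : Subgroup _)) := hgS
        rw [Subgroup.mem_pointwise_smul_iff_inv_smul_mem] at h4
        simpa [MulAut.smul_def, ← map_inv, mul_assoc] using h4
      have h5 : (c : G)⁻¹ * g * c ∈ (R1 : Subgroup G) := hR1 ⟨_, h3, rfl⟩
      change g ∈ (MulAut.conj (c : G) • (R1 : Subgroup G))
      rw [Subgroup.mem_pointwise_smul_iff_inv_smul_mem]
      simpa [MulAut.smul_def, ← map_inv, mul_assoc] using h5
    obtain ⟨x, hx, hxD⟩ := ih' P R1 h1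
    obtain ⟨y, hy, hyD⟩ := ih' ((c : G) • R1) Q h2
    refine ⟨y * (c * x), ?_, fun d hd => ?_⟩
    · rw [mul_smul, mul_smul, hx, hy]
    · rw [← hDdef] at hd
      calc y * (c * x) * d = y * (c * (x * d)) := by group
        _ = y * ((c * d) * x) := by rw [hxD d hd]; group
        _ = (y * d) * (c * x) := by rw [hcD d hd]; group
        _ = d * (y * (c * x)) := by rw [hyD d hd]; group

/-- `P` controls fusion -/
lemma controls_fusion
    (h : ∀ D : Subgroup G, IsPGroup p D → D ≠ ⊥ → PNilpotent p (normalizer (D : Set G)))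
    (P : Sylow p G) (x : G) (hx : x ∈ P) (g : G) (hg : g * x * g⁻¹ ∈ P) :
    ∃ u ∈ P, g * x * g⁻¹ = u * x * u⁻¹ := by
  by_cases hP : (P : Subgroup G) = ⊥
  · refine ⟨1, one_mem _, ?_⟩
    have h1 : x = 1 := by
      have : x ∈ (P : Subgroup G) := hx
      rwa [hP, Subgroup.mem_bot] at this
    rw [h1]; group
  obtain ⟨c, hc, hcD⟩ := exists_centralizing_conj h _ (g • P) P rfl
  have hy : g * x * g⁻¹ ∈ ((g • P : Sylow p G) : Subgroup G) ⊓ (P : Subgroup G) := by
    refine ⟨?_, hg⟩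
    change g * x * g⁻¹ ∈ (MulAut.conj g • (P : Subgroup G))
    rw [Subgroup.mem_pointwise_smul_iff_inv_smul_mem]
    have hx' : x ∈ (P : Subgroup G) := hx
    simpa [MulAut.smul_def, ← map_inv, mul_assoc] using hx'
  have hcg : c * g ∈ normalizer ((P : Subgroup G) : Set G) := by
    have : (c * g) • P = P := by rw [mul_smul, hc]
    exact Sylow.smul_eq_iff_mem_normalizer.mp this
  obtain ⟨T, hT, hcT, hk⟩ := h P P.isPGroup' hP
  have hle : (P : Subgroup G) ≤ normalizer ((P : Subgroup G) : Set G) := Subgroup.le_normalizer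
  obtain ⟨t, ht, u, hu, htu⟩ := exists_mul_of_sylow hT hk (P.subtype hle) (⟨c * g, hcg⟩⁻¹)
  have hcomm := commute_of_coprime (p := p)
      (Q := (P : Subgroup G).subgroupOf (normalizer ((P : Subgroup G) : Set G))) hT
      inferInstance hcT (P.isPGroup'.comap_subtype) t ht
  have hu' : (u : G) ∈ P := hu
  have h1 : (c * g)⁻¹ = (t : G) * u := congrArg Subtype.val htu
  refine ⟨(u : G)⁻¹, inv_mem hu', ?_⟩
  have h2 : c * (g * x * g⁻¹) = (g * x * g⁻¹) * c := hcD _ hy
  have h3 : g * x * g⁻¹ = (c * g) * x * (c * g)⁻¹ := by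
    have : g * x * g⁻¹ = c * (g * x * g⁻¹) * c⁻¹ := by rw [h2]; group
    rw [this]; group
  have h4 : (t : G) * (u * (g * x * g⁻¹) * (u : G)⁻¹)
      = (u * (g * x * g⁻¹) * (u : G)⁻¹) * t := by
    have hm : (u : G) * (g * x * g⁻¹) * (u : G)⁻¹ ∈ (P : Subgroup G) :=
      mul_mem (mul_mem hu' hg) (inv_mem hu')
    have := hcomm ⟨_, hle hm⟩ (by rw [Subgroup.mem_subgroupOf]; exact hm)
    exact congrArg Subtype.val this
  have h5 : x = (c * g)⁻¹ * (g * x * g⁻¹) * (c * g) := by rw [h3]; group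
  have h6 : c * g = (u : G)⁻¹ * (t : G)⁻¹ := by
    rw [← mul_inv_rev, ← h1, inv_inv]
  have h7 : x = u * (g * x * g⁻¹) * (u : G)⁻¹ := by
    calc x = (c * g)⁻¹ * (g * x * g⁻¹) * (c * g) := h5
      _ = ((t : G) * (u * (g * x * g⁻¹) * (u : G)⁻¹)) * (t : G)⁻¹ := by rw [h1, h6]; group
      _ = u * (g * x * g⁻¹) * (u : G)⁻¹ := by rw [h4]; group
  calc g * x * g⁻¹ = (u : G)⁻¹ * (u * (g * x * g⁻¹) * (u : G)⁻¹) * u := by group
    _ = (u : G)⁻¹ * x * ((u : G)⁻¹)⁻¹ := by rw [← h7, inv_inv]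

end Pool.Agent.Helper88.PN
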