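import Pool.Agent.Helper88.PN2

set_option autoImplicit false

/-!
Frobenius' normal `p`-complement theorem.
-/

namespace Pool.Agent.Helper88.PN

open Subgroup
open scoped Pointwise commutatorElement

variable {p : ℕ} [Fact p.Prime] {G : Type*} [Group G] [Finite G]

/-- the subgroup generated by the `p'`-elements -/
def genSub (p : ℕ) (G : Type*) [Group G] : Subgroup G :=
  closure {x : G | (orderOf x).Coprime p}

omit [Fact p.Prime] [Finite G] in
lemma genSub_normal : (genSub p G).Normal := by
  constructor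
  intro n hn g
  have h1 : (genSub p G).map (MulAut.conj g).toMonoidHom ≤ genSub p G := by
    unfold genSub
    rw [MonoidHom.map_closure, closure_le]
    rintro _ ⟨x, hx, rfl⟩
    apply Subgroup.subset_closure
    have : orderOf ((MulAut.conj g).toMonoidHom x) = orderOf x :=
      orderOf_injective _ (MulAut.conj g).injective x
    change Nat.Coprime (orderOf _) p
    rw [this]
    exact hx
  exact h1 ⟨n, hn, rfl⟩

lemma pow_mem_genSub (g : G) : ∃ a : ℕ, g ^ p ^ a ∈ genSub p G := by
  obtain ⟨a, m, hm, hg⟩ := Nat.exists_eq_pow_mul_and_not_dvd (orderOf_pos g).ne' p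
    (Fact.out : p.Prime).ne_one
  refine ⟨a, Subgroup.subset_closure ?_⟩
  change Nat.Coprime (orderOf _) p
  have hpos : 0 < p ^ a := pow_pos (Fact.out : p.Prime).pos _
  have : orderOf (g ^ p ^ a) = m := by
    rw [orderOf_pow_of_dvd hpos.ne' ⟨m, hg⟩, hg, Nat.mul_div_cancel_left _ hpos]
  rw [this]
  exact ((Nat.Prime.coprime_iff_not_dvd Fact.out).mpr hm).symm

lemma isPGroup_quotient_genSub : haveI := genSub_normal (p := p) (G := G); IsPGroup p (G ⧸ genSub p G) := by
  have := genSub_normal (p := p) (G := G)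
  intro x
  obtain ⟨g, rfl⟩ := QuotientGroup.mk_surjective x
  obtain ⟨a, ha⟩ := pow_mem_genSub (p := p) g
  refine ⟨a, ?_⟩
  rw [← QuotientGroup.mk_pow, QuotientGroup.eq_one_iff]
  exact ha

lemma index_genSub : ∃ k, (genSub p G).index = p ^ k := by
  have := genSub_normal (p := p) (G := G)
  exact IsPGroup.iff_card.mp (isPGroup_quotient_genSub (p := p) (G := G))

omit [Finite G] in
/-- a homomorphism to a `p`-group kills `genSub` -/
lemma hom_trivial {A : Type*} [Group A] (hA : IsPGroup p A) (f : G →* A) (x : G)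
    (hx : x ∈ genSub p G) : f x = 1 := by
  have h1 : genSub p G ≤ f.ker := by
    unfold genSub
    rw [closure_le]
    intro y hy
    change f y = 1
    rw [← orderOf_eq_one_iff]
    obtain ⟨k, hk⟩ := (IsPGroup.iff_orderOf.mp hA) (f y)
    have h2 : orderOf (f y) ∣ orderOf y := orderOf_map_dvd f y
    have hy' : (orderOf y).Coprime p := hy
    have h3 : Nat.Coprime (orderOf (f y)) (p ^ k) := (hy'.coprime_dvd_left h2).pow_right k
    rw [hk] at h3 ⊢
    exact (Nat.coprime_self _).mp h3
  exact h1 hx

/-- If `genSub p G = G` then the focal subgroup of a Sylow subgroup is everything. -/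
lemma focal_eq (hG : genSub p G = ⊤) (Q : Sylow p G) :
    (Q : Subgroup G) ≤ focalSubgroup (Q : Subgroup G) := by
  intro x hx
  have hp : IsPGroup p (Q ⧸ (Q : Subgroup G).focalSubgroupOf) := Q.2.to_quotient _
  have hsub : Subsingleton (Q ⧸ (Q : Subgroup G).focalSubgroupOf) := by
    constructor
    intro a b
    obtain ⟨a, rfl⟩ := Subgroup.transferFocal_surjective Q a
    obtain ⟨b, rfl⟩ := Subgroup.transferFocal_surjective Q b
    rw [hom_trivial hp _ a (by rw [hG]; trivial), hom_trivial hp _ b (by rw [hG]; trivial)]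
  have h1 : (QuotientGroup.mk (⟨x, hx⟩ : Q) : Q ⧸ (Q : Subgroup G).focalSubgroupOf) = 1 :=
    Subsingleton.elim _ _
  rw [QuotientGroup.eq_one_iff] at h1
  exact h1

omit [Fact p.Prime] [Finite G] in
lemma genSub_self : genSub p (genSub p G) = ⊤ := by
  have h1 : ((↑) ⁻¹' {x : G | (orderOf x).Coprime p} : Set (genSub p G))
      = {x : genSub p G | (orderOf x).Coprime p} := by
    ext x
    simp
  unfold genSub at h1 ⊢
  rw [← h1]
  exact closure_closure_coe_preimage

/-- **Frobenius' normal `p`-complement theorem** -/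
theorem frobenius
    (h : ∀ D : Subgroup G, IsPGroup p D → D ≠ ⊥ → PNilpotent p (normalizer (D : Set G))) :
    PNilpotent p G := by
  have hXn := genSub_normal (p := p) (G := G)
  refine ⟨genSub p G, hXn, ?_, index_genSub⟩
  obtain ⟨Q⟩ : Nonempty (Sylow p (genSub p G)) := inferInstance
  obtain ⟨P, hP⟩ := (Q.isPGroup'.map (genSub p G).subtype).exists_le_sylow
  -- the group `H = P ⊓ X` inside `P`
  obtain ⟨H, hH⟩ : ∃ H : Subgroup P, H = (genSub p G).subgroupOf (P : Subgroup G) := ⟨_, rfl⟩
  have hQP : ∀ x : genSub p G, (x : G) ∈ (P : Subgroup G) → x ∈ Q := by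
    have h1 : IsPGroup p ((P : Subgroup G).comap (genSub p G).subtype) := P.isPGroup'.comap_subtype
    have h2 : (Q : Subgroup _) ≤ (P : Subgroup G).comap (genSub p G).subtype :=
      Subgroup.map_le_iff_le_comap.mp hP
    have h3 := Q.3 h1 h2
    intro x hx
    have : x ∈ (P : Subgroup G).comap (genSub p G).subtype := hx
    rw [h3] at this
    exact this
  have hPQ : ∀ x : genSub p G, x ∈ Q → (x : G) ∈ (P : Subgroup G) := fun x hx => hP ⟨x, hx, rfl⟩
  have key : H ≤ ⁅H, (⊤ : Subgroup P)⁆ := by
    have h4 : focalSubgroup (Q : Subgroup (genSub p G))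
        ≤ ((⁅H, (⊤ : Subgroup P)⁆).map (P : Subgroup G).subtype).comap (genSub p G).subtype := by
      rw [focalSubgroup_def, closure_le]
      rintro g ⟨hg, x, hx, u, rfl⟩
      have hx' := hPQ x hx
      have h5 : (u : G) * (x : G)⁻¹ * (u : G)⁻¹ ∈ P := by
        have h6 : x⁻¹ * ⁅x, u⁆ ∈ (Q : Subgroup _) := mul_mem (inv_mem hx) hg
        have h7 := hPQ _ h6
        have h8 : ((x⁻¹ * ⁅x, u⁆ : genSub p G) : G) = (u : G) * (x : G)⁻¹ * (u : G)⁻¹ := by
          rw [commutatorElement_def]
          push_cast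
          group
        rw [← h8]
        exact h7
      obtain ⟨v, hv, hv'⟩ := controls_fusion h P (x : G)⁻¹ (inv_mem hx') u h5
      refine ⟨⁅(⟨x, hx'⟩ : P), (⟨v, hv⟩ : P)⁆, ?_, ?_⟩
      · refine commutator_mem_commutator ?_ (mem_top _)
        rw [hH, mem_subgroupOf]
        exact x.2
      · change ((⁅(⟨x, hx'⟩ : P), (⟨v, hv⟩ : P)⁆ : P) : G) = ((⁅x, u⁆ : genSub p G) : G)
        rw [commutatorElement_def, commutatorElement_def]
        push_cast
        rw [mul_assoc, mul_assoc, ← mul_assoc v, ← hv']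
        group
    intro x hx
    rw [hH, mem_subgroupOf] at hx
    have h9 : (⟨x, hx⟩ : genSub p G) ∈ (Q : Subgroup _) := hQP _ x.2
    have h10 := h4 (focal_eq genSub_self Q h9)
    obtain ⟨y, hy, hyx⟩ := h10
    have : y = x := Subtype.ext hyx
    rw [← this]
    exact hy
  have hnil : Group.IsNilpotent P := P.isPGroup'.isNilpotent
  have hbot : H = ⊥ := by
    have hle : ∀ n, H ≤ Subgroup.lowerCentralSeries (⊤ : Subgroup P) n := by
      intro n
      induction n with
      | zero => rw [Subgroup.lowerCentralSeries_zero]; exact le_top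
      | succ n ih =>
        refine key.trans ?_
        exact commutator_mono ih le_rfl
    obtain ⟨n, hn⟩ := Subgroup.nilpotent_iff_lowerCentralSeries.mp hnil
    have := hle n
    rw [hn] at this
    exact le_bot_iff.mp this
  -- hence `Q` is trivial
  have hQ : (Q : Subgroup (genSub p G)) = ⊥ := by
    rw [eq_bot_iff]
    intro x hx
    have h11 : (⟨x, hPQ x hx⟩ : P) ∈ H := by rw [hH, mem_subgroupOf]; exact x.2
    rw [hbot, mem_bot] at h11
    rw [mem_bot]
    have h12 : (x : G) = 1 := congrArg (fun y : P => (y : G)) h11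
    exact Subtype.ext h12
  by_contra hcon
  have hdvd : p ∣ Nat.card (genSub p G) := by
    by_contra hnd
    exact hcon (((Nat.Prime.coprime_iff_not_dvd Fact.out).mpr hnd).symm)
  exact Q.ne_bot_of_dvd_card hdvd hQ

end Pool.Agent.Helper88.PN
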