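import Pool.Agent.Helper88.PN3

set_option autoImplicit false

/-!
`p`-supersolvable groups: chief factors of subgroups and the residual.
-/

namespace Pool.Agent.Helper88.PN

open Subgroup
open scoped Pointwise commutatorElement

section

variable {p : ℕ} {G H : Type*} [Group G] [Group H]

lemma relIndex_ne_one_of_lt {A B : Subgroup G} (h : B < A) : B.relIndex A ≠ 1 := by
  intro h1
  rw [relIndex_eq_one] at h1
  exact absurd h (not_lt_of_ge h1)

lemma pSupersolvable_iff : PSupersolvable p G ↔ ∀ A B : Subgroup G, IsChiefFactor A B →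
    B.relIndex A = p ∨ (B.relIndex A).Coprime p := by
  constructor
  · rintro ⟨h1, h2⟩ A B hAB
    rcases h1 A B hAB with h | h
    · exact Or.inl (h2 A B hAB h)
    · exact Or.inr h
  · intro h
    refine ⟨fun A B hAB => ?_, fun A B hAB hk => ?_⟩
    · rcases h A B hAB with h' | h'
      · exact Or.inl ⟨1, by rw [h', pow_one]⟩
      · exact Or.inr h'
    · obtain ⟨k, hk⟩ := hk
      rcases h A B hAB with h' | h'
      · exact h'
      · exfalso
        rcases Nat.eq_zero_or_pos k with rfl | hpos
        · exact relIndex_ne_one_of_lt hAB.lt (by rw [hk, pow_zero])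
        · rw [hk] at h'
          have h3 : p.Coprime p := h'.coprime_dvd_left (dvd_pow_self p hpos.ne')
          rw [Nat.coprime_self] at h3
          exact relIndex_ne_one_of_lt hAB.lt (by rw [hk, h3, one_pow])

lemma relIndex_dvd_of_normal {N L K : Subgroup G} (hN : N.Normal) (hNK : N ≤ K) (hLK : L ≤ K) :
    N.relIndex L ∣ N.relIndex K := by
  rw [← relIndex_sup_right L N]
  exact ⟨_, (relIndex_mul_relIndex N (L ⊔ N) K le_sup_right (sup_le hLK hNK)).symm⟩

/-- Chief factors of `H` not absorbed by the kernel of a homomorphism to a `p`-supersolvable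
group. -/
lemma chief_order [Fact p.Prime] [Finite G] (f : H →* G) (hG : PSupersolvable p G)
    {A B : Subgroup H} (hAB : IsChiefFactor A B) (hker : A ⊓ f.ker ≤ B) :
    B.relIndex A = p ∨ (B.relIndex A).Coprime p := by
  rw [pSupersolvable_iff] at hG
  have hAn := hAB.normal_top
  have hBn := hAB.normal_bot
  -- a maximal normal subgroup `N` with `A ⊓ f⁻¹ N ≤ B`
  obtain ⟨N, ⟨hN, hNB⟩, hmax⟩ := (Set.toFinite {N : Subgroup G | N.Normal ∧ A ⊓ N.comap f ≤ B}).exists_maximal
    ⟨⊥, inferInstance, by rw [MonoidHom.comap_bot]; exact hker⟩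
  have hNtop : N ≠ ⊤ := by
    rintro rfl
    rw [comap_top, inf_top_eq] at hNB
    exact absurd hAB.lt (not_lt_of_ge hNB)
  obtain ⟨N', ⟨hN', hlt⟩, hmin⟩ := (Set.toFinite {N' : Subgroup G | N'.Normal ∧ N < N'}).exists_minimal
    ⟨⊤, inferInstance, lt_top_iff_ne_top.mpr hNtop⟩
  have hchief : IsChiefFactor N' N := by
    refine ⟨hN', hN, hlt, fun C hC h1 h2 => ?_⟩
    rcases eq_or_lt_of_le h1 with h3 | h3
    · exact Or.inl h3.symm
    · exact Or.inr (le_antisymm h2 (hmin ⟨hC, h3⟩ h2))
  have hN'B : ¬ A ⊓ N'.comap f ≤ B := fun h => absurd hlt (not_lt_of_ge (hmax ⟨hN', h⟩ hlt.le))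
  have hsup : B ⊔ (A ⊓ N'.comap f) = A := by
    rcases hAB.minimal (B ⊔ (A ⊓ N'.comap f)) inferInstance le_sup_left
      (sup_le hAB.lt.le inf_le_left) with h | h
    · exact absurd (by rw [← h]; exact le_sup_right) hN'B
    · exact h
  have hdvd : B.relIndex A ∣ N.relIndex N' := by
    have h1 : B.relIndex A = B.relIndex (A ⊓ N'.comap f) := by
      conv_lhs => rw [← hsup]
      rw [relIndex_sup_left]
    rw [h1]
    have h2 : B.relIndex (A ⊓ N'.comap f) ∣ (N.comap f).relIndex (A ⊓ N'.comap f) := by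
      have h3 : (N.comap f) ⊓ (A ⊓ N'.comap f) ≤ B :=
        le_trans (le_inf (inf_le_right.trans inf_le_left) inf_le_left) hNB
      have h4 := relIndex_dvd_of_le_left (L := A ⊓ N'.comap f) h3
      rwa [inf_relIndex_right] at h4
    refine h2.trans ?_
    rw [relIndex_comap]
    refine relIndex_dvd_of_normal hN hlt.le ?_
    exact (map_mono inf_le_right).trans (map_comap_le f N')
  rcases hG N' N hchief with h | h
  · rw [h] at hdvd
    rcases (Nat.dvd_prime Fact.out).mp hdvd with h' | h'
    · exact absurd h' (relIndex_ne_one_of_lt hAB.lt)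
    · exact Or.inl h'
  · exact Or.inr (h.coprime_dvd_left hdvd)

lemma PSupersolvable.of_injective [Fact p.Prime] [Finite G] (f : H →* G)
    (hf : Function.Injective f) (hG : PSupersolvable p G) : PSupersolvable p H := by
  rw [pSupersolvable_iff]
  intro A B hAB
  refine chief_order f hG hAB ?_
  rw [(MonoidHom.ker_eq_bot_iff f).mpr hf, inf_bot_eq]
  exact bot_le

lemma residual_subgroup [Fact p.Prime] [Finite G] (N : Subgroup G) (x : N)
    (hx : x ∈ residual p N) : (x : G) ∈ residual p G := by
  unfold residual at hx ⊢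
  rw [mem_sInf] at hx ⊢
  rintro M ⟨hM, hMs⟩
  have h1 := hx ((QuotientGroup.mk' M).comp N.subtype).ker
    ⟨inferInstance, PSupersolvable.of_injective (QuotientGroup.kerLift _)
      (QuotientGroup.kerLift_injective _) hMs⟩
  have h2 : QuotientGroup.mk' M (x : G) = 1 := h1
  exact (QuotientGroup.eq_one_iff _).mp h2

end

end Pool.Agent.Helper88.PN
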