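import Pool.Agent.Helper88.PN4

set_option autoImplicit false

/-!
Tools for the final contradiction.
-/

namespace Pool.Agent.Helper88.PN

open Subgroup
open scoped Pointwise commutatorElement

section ring

variable {E : Type*} [Ring E]

lemma ring_quad (p : ℕ) (hp : p.Prime) (hp2 : p ≠ 2) (hE : (p : E) = 0) (a c c' : E)
    (hcc' : c * c' = 1) (hc'c : c' * c = 1) (hq : (c - 1) * (c - 1) = 0)
    (h1 : a * (c * a * c') = (c * a * c') * a) (h2 : a * (c' * a * c) = (c' * a * c) * a)
    (m : ℕ) (hm : m.Coprime p) (ham : a ^ m = 1) : a * c = c * a := by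
  obtain ⟨n, hn⟩ : ∃ n, n = c - 1 := ⟨_, rfl⟩
  rw [← hn] at hq
  have hc : c = 1 + n := by rw [hn]; abel
  have hc' : c' = 1 - n := by
    have h3 : (1 + n) * (1 - n) = 1 := by
      have : (1 + n) * (1 - n) = 1 - n * n := by noncomm_ring
      rw [this, hq, sub_zero]
    calc c' = c' * ((1 + n) * (1 - n)) := by rw [h3, mul_one]
      _ = (c' * c) * (1 - n) := by rw [← mul_assoc, ← hc]
      _ = 1 - n := by rw [hc'c, one_mul]
  obtain ⟨δ, hδ⟩ : ∃ δ, δ = n * a - a * n := ⟨_, rfl⟩
  have hp0 : ∀ x : E, (p : E) * x = 0 := fun x => by rw [hE, zero_mul]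
  have e1 : c * a * c' = a + δ - n * a * n := by rw [hc, hc', hδ]; noncomm_ring
  have e2 : c' * a * c = a - δ - n * a * n := by rw [hc, hc', hδ]; noncomm_ring
  rw [e1] at h1
  rw [e2] at h2
  have h3 : (2 : E) * (a * δ - δ * a) = 0 := by
    have h4 : a * (a + δ - n * a * n) - (a + δ - n * a * n) * a
        - (a * (a - δ - n * a * n) - (a - δ - n * a * n) * a) = (2 : E) * (a * δ - δ * a) := by
      noncomm_ring
    rw [← h4, h1, h2]; simp
  obtain ⟨k, hk⟩ : ∃ k, p = 2 * k + 1 := by
    rcases hp.eq_two_or_odd' with h | ⟨k, hk⟩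
    · exact absurd h hp2
    · exact ⟨k, hk⟩
  have h5 : a * δ = δ * a := by
    have h6 : (p : E) * (a * δ - δ * a) = a * δ - δ * a := by
      rw [hk]
      push_cast
      have : (2 * (k : E) + 1) * (a * δ - δ * a)
          = (k : E) * ((2 : E) * (a * δ - δ * a)) + (a * δ - δ * a) := by
        have hcomm : (2 : E) * (k : E) = (k : E) * 2 := (Nat.cast_commute k (2 : E)).symm.eq
        rw [add_mul, one_mul, hcomm, mul_assoc]
      rw [this, h3, mul_zero, zero_add]
    rw [hp0] at h6
    exact sub_eq_zero.mp h6.symm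
  have hna : n * a = a * n + δ := by rw [hδ]; abel
  have hpow : ∀ j : ℕ, n * a ^ (j + 1) = a ^ (j + 1) * n + ((j + 1 : ℕ) : E) * (a ^ j * δ) := by
    intro j
    induction j with
    | zero => simp [hna]
    | succ j ih =>
      have hcast : ∀ x : E, ((j + 1 : ℕ) : E) * x = x * ((j + 1 : ℕ) : E) :=
        fun x => (Nat.cast_commute (j + 1) x).eq
      calc n * a ^ (j + 1 + 1) = (n * a ^ (j + 1)) * a := by rw [pow_succ a (j + 1), mul_assoc]
        _ = a ^ (j + 1) * (n * a) + ((j + 1 : ℕ) : E) * (a ^ j * (δ * a)) := by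
            rw [ih]; simp only [add_mul, mul_assoc]
        _ = a ^ (j + 1) * (a * n + δ) + ((j + 1 : ℕ) : E) * (a ^ j * (a * δ)) := by
            rw [hna, h5]
        _ = a ^ (j + 1 + 1) * n + ((j + 1 + 1 : ℕ) : E) * (a ^ (j + 1) * δ) := by
            have e3 : a ^ (j + 1) * (a * n + δ) = a ^ (j + 1 + 1) * n + a ^ (j + 1) * δ := by
              rw [mul_add, pow_succ a (j + 1), mul_assoc]
            have e4 : a ^ j * (a * δ) = a ^ (j + 1) * δ := by rw [pow_succ, mul_assoc]
            rw [e3, e4]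
            push_cast
            rw [add_mul ((j : E) + 1) 1, one_mul]
            abel
  have hm0 : m ≠ 0 := by
    rintro rfl
    rw [Nat.coprime_zero_left] at hm
    exact hp.ne_one hm
  obtain ⟨j, rfl⟩ := Nat.exists_eq_succ_of_ne_zero hm0
  have h7 := hpow j
  rw [Nat.succ_eq_add_one] at ham
  rw [ham, mul_one, one_mul] at h7
  have h8 : ((j + 1 : ℕ) : E) * (a ^ j * δ) = 0 := by
    have := h7
    rw [left_eq_add] at this
    exact this
  have h9 : ((j + 1 : ℕ) : E) * δ = 0 := by
    have h10 : a * (((j + 1 : ℕ) : E) * (a ^ j * δ)) = ((j + 1 : ℕ) : E) * δ := by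
      rw [← mul_assoc, ← (Nat.cast_commute (j + 1) a).eq, mul_assoc, ← mul_assoc a, ← pow_succ', ham,
        one_mul]
    rw [← h10, h8, mul_zero]
  have h11 : δ = 0 := by
    have hcop := Nat.Coprime.symm hm
    obtain ⟨u, v, huv⟩ := (Nat.isCoprime_iff_coprime (m := p) (n := j + 1)).mpr hcop
    have h12 : ((u * (p : ℤ) + v * ((j + 1 : ℕ) : ℤ) : ℤ) : E) * δ = δ := by
      have : (u * (p : ℤ) + v * ((j + 1 : ℕ) : ℤ) : ℤ) = 1 := huv
      rw [this, Int.cast_one, one_mul]
    rw [← h12]
    push_cast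
    rw [add_mul, mul_assoc, hp0, mul_zero, zero_add, mul_assoc]
    have : ((j : E) + 1) * δ = 0 := by
      have := h9
      push_cast at this
      exact this
    rw [this, mul_zero]
  have h13 : n * a = a * n := by rw [hna, h11, add_zero]
  rw [hc, mul_add, add_mul, mul_one, one_mul, h13]

end ring

end Pool.Agent.Helper88.PN
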