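import Pool.Agent.Helper88.PN5

set_option autoImplicit false

/-!
Self-normalising Sylow subgroups of `p`-nilpotent groups; lifting of normalisers.
-/

namespace Pool.Agent.Helper88.PN

open Subgroup
open scoped Pointwise commutatorElement

variable {p : ℕ} [Fact p.Prime] {G : Type*} [Group G] [Finite G]

/-- In a `p`-nilpotent group with a self-normalising Sylow `p`-subgroup `P`, not a `p`-group,
some `c ∈ P` moves inside an abelian normalised `p'`-subgroup. -/
lemma exists_pair (P : Sylow p G) (hN : normalizer ((P : Subgroup G) : Set G) = (P : Subgroup G))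
    (hG : PNilpotent p G) (hnp : ¬ IsPGroup p G) :
    ∃ c ∈ P, ∃ a : G, (orderOf a).Coprime p ∧ a * (c * a * c⁻¹) = (c * a * c⁻¹) * a ∧
      a * (c⁻¹ * a * c) = (c⁻¹ * a * c) * a ∧ a * c ≠ c * a := by
  obtain ⟨T, hT, hc, k, hk⟩ := hG
  have hT1 : Nat.card T ≠ 1 := by
    intro h
    apply hnp
    rw [IsPGroup.iff_card]
    refine ⟨k, ?_⟩
    rw [← Subgroup.card_mul_index T, h, one_mul, hk]
  obtain ⟨q, hq, hqT⟩ := Nat.exists_prime_and_dvd hT1
  have : Fact q.Prime := ⟨hq⟩
  obtain ⟨φ, hφ⟩ : ∃ φ : (P : Subgroup G) →* MulAut T,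
    φ = (MulAut.conjNormal (H := T)).comp (P : Subgroup G).subtype := ⟨_, rfl⟩
  let act : MulAction (P : Subgroup G) (Sylow q T) := MulAction.compHom _ φ
  have hcard : ¬ p ∣ Nat.card (Sylow q T) := by
    obtain ⟨R0⟩ : Nonempty (Sylow q T) := inferInstance
    have h1 : Nat.card (Sylow q T) ∣ Nat.card T :=
      (Sylow.card_dvd_index R0).trans (Subgroup.index_dvd_card _)
    intro h2
    have h3 := (hc.coprime_dvd_left (h2.trans h1))
    rw [Nat.coprime_self] at h3
    exact (Fact.out : p.Prime).ne_one h3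
  obtain ⟨R, hR⟩ := P.isPGroup'.nonempty_fixed_point_of_prime_not_dvd_card (Sylow q T) hcard
  have hR' : ∀ c : (P : Subgroup G), ∀ r ∈ R, (φ c) r ∈ R := by
    intro c r hr
    have h1 : φ c • R = R := hR c
    have h2 : φ c • r ∈ φ c • R := Subgroup.smul_mem_pointwise_smul _ _ _ hr
    rw [h1] at h2
    exact h2
  have hφv : ∀ (c : (P : Subgroup G)) (r : T), ((φ c r : T) : G) = c * r * (c : G)⁻¹ := by
    intro c r; rw [hφ]; rfl
  -- conjugates of central elements of `R` are central
  have hcent : ∀ (c : (P : Subgroup G)) (z : T), z ∈ R → (∀ r ∈ R, z * r = r * z) →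
      φ c z ∈ R ∧ (∀ r ∈ R, φ c z * r = r * φ c z) := by
    intro c z hz hzc
    refine ⟨hR' c z hz, fun r hr => ?_⟩
    have h1 := hzc (φ c⁻¹ r) (hR' c⁻¹ r hr)
    have h2 := congrArg (φ c) h1
    rw [map_mul, map_mul] at h2
    have h3 : φ c (φ c⁻¹ r) = r := by
      rw [← MulAut.mul_apply, ← map_mul, mul_inv_cancel, map_one, MulAut.one_apply]
    rwa [h3] at h2
  have hRnt : Nontrivial (R : Subgroup T) := by
    rw [Subgroup.nontrivial_iff_ne_bot]
    exact R.ne_bot_of_dvd_card hqT
  have hznt := R.isPGroup'.center_nontrivial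
  obtain ⟨z, hz⟩ := exists_ne (1 : center (R : Subgroup T))
  have hzR : ((z : (R : Subgroup T)) : T) ∈ R := (z : (R : Subgroup T)).2
  have hzc : ∀ r ∈ R, ((z : (R : Subgroup T)) : T) * r = r * ((z : (R : Subgroup T)) : T) := by
    intro r hr
    have := (Subgroup.mem_center_iff.mp z.2 ⟨r, hr⟩)
    exact (congrArg Subtype.val this).symm
  by_contra hcon
  push Not at hcon
  have hcomm : ∀ c ∈ P, (((z : (R : Subgroup T)) : T) : G) * c = c * (((z : (R : Subgroup T)) : T) : G) := by
    intro c hcP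
    refine hcon c hcP _ ?_ ?_ ?_
    · rw [Subgroup.orderOf_coe]
      exact hc.coprime_dvd_left (orderOf_dvd_natCard _)
    · have h1 := hzc _ (hR' ⟨c, hcP⟩ _ hzR)
      have h2 := congrArg (Subtype.val) h1
      rw [Subgroup.coe_mul, Subgroup.coe_mul, hφv] at h2
      exact h2
    · have h1 := hzc _ (hR' ⟨c, hcP⟩⁻¹ _ hzR)
      have h2 := congrArg (Subtype.val) h1
      rw [Subgroup.coe_mul, Subgroup.coe_mul, hφv] at h2
      simpa using h2
  have hzP : (((z : (R : Subgroup T)) : T) : G) ∈ (P : Subgroup G) := by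
    rw [← hN, Subgroup.mem_normalizer_iff]
    intro x
    constructor
    · intro hx
      have := hcomm x hx
      rw [this, mul_inv_cancel_right]
      exact hx
    · intro hx
      have h1 := hcomm _ hx
      have h2 : (((z : (R : Subgroup T)) : T) : G) * x * (((z : (R : Subgroup T)) : T) : G)⁻¹ = x := by
        have h3 := h1
        rw [inv_mul_cancel_right] at h3
        exact mul_left_cancel h3
      rwa [h2] at hx
  have hdisj : Disjoint T (P : Subgroup G) := by
    obtain ⟨n, hn⟩ := IsPGroup.iff_card.mp P.isPGroup'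
    apply Subgroup.disjoint_of_coprime_natCard
    rw [hn]
    exact hc.pow_right n
  have h1 : (((z : (R : Subgroup T)) : T) : G) = 1 := by
    have := Subgroup.disjoint_def.mp hdisj (((z : (R : Subgroup T)) : T)).2 hzP
    exact this
  apply hz
  apply Subtype.ext
  apply Subtype.ext
  apply Subtype.ext
  exact h1

/-- the image of a Sylow subgroup is self-normalising if its normaliser has the same image -/
lemma normalizer_map {G' : Type*} [Group G'] (f : G →* G') (hf : Function.Surjective f)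
    (P : Sylow p G)
    (h : ∀ n ∈ normalizer ((P : Subgroup G) : Set G), ∃ u ∈ P, f n = f u) :
    normalizer (((P : Subgroup G).map f : Subgroup G') : Set G') = (P : Subgroup G).map f := by
  apply le_antisymm _ Subgroup.le_normalizer
  intro g' hg'
  obtain ⟨g, rfl⟩ := hf g'
  obtain ⟨L, hL⟩ : ∃ L : Subgroup G, L = ((P : Subgroup G).map f).comap f := ⟨_, rfl⟩
  have hPL : (P : Subgroup G) ≤ L := by rw [hL]; exact Subgroup.le_comap_map _ _
  have hgPL : ((g • P : Sylow p G) : Subgroup G) ≤ L := by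
    intro x hx
    change x ∈ (MulAut.conj g • (P : Subgroup G)) at hx
    rw [Subgroup.mem_pointwise_smul_iff_inv_smul_mem] at hx
    have h1 : g⁻¹ * x * g ∈ (P : Subgroup G) := by
      simpa [MulAut.smul_def, ← map_inv, mul_assoc] using hx
    rw [hL, Subgroup.mem_comap]
    have h2 : f (g⁻¹ * x * g) ∈ (P : Subgroup G).map f := ⟨_, h1, rfl⟩
    have h3 := (Subgroup.mem_normalizer_iff.mp hg' _).mp h2
    have h4 : f g * f (g⁻¹ * x * g) * (f g)⁻¹ = f x := by
      rw [← map_inv, ← map_mul, ← map_mul]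
      congr 1
      group
    rwa [h4] at h3
  obtain ⟨l, hl⟩ := MulAction.exists_smul_eq L ((g • P).subtype hgPL) (P.subtype hPL)
  rw [Sylow.smul_subtype] at hl
  have hl' : (l : G) • (g • P) = P := Sylow.subtype_injective hl
  rw [← mul_smul] at hl'
  obtain ⟨u, hu, hfu⟩ := h _ (Sylow.smul_eq_iff_mem_normalizer.mp hl')
  have hmem : ∀ y ∈ L, f y ∈ (P : Subgroup G).map f := by
    intro y hy
    rw [hL] at hy
    exact hy
  have hlL : f (l : G) ∈ (P : Subgroup G).map f := hmem _ l.2
  have h5 : f g = (f l)⁻¹ * f u := by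
    rw [← hfu, map_mul, inv_mul_cancel_left]
  rw [h5]
  exact mul_mem (inv_mem hlL) ⟨u, hu, rfl⟩

lemma pnilpotent_of_centralized {V : Subgroup G} [V.Normal]
    (hGV : PNilpotent p (G ⧸ V)) (hX : ∀ x ∈ genSub p G, ∀ v ∈ V, x * v = v * x) :
    PNilpotent p G := by
  obtain ⟨T, hT, hc, k, hk⟩ := hGV
  have hXn := genSub_normal (p := p) (G := G)
  refine ⟨genSub p G, hXn, ?_, index_genSub⟩
  obtain ⟨Q⟩ : Nonempty (Sylow p (genSub p G)) := inferInstance
  have hpT : IsPGroup p ((G ⧸ V) ⧸ T) := by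
    rw [IsPGroup.iff_card]
    exact ⟨k, by rw [← hk]; rfl⟩
  have hXT : ∀ x ∈ genSub p G, (QuotientGroup.mk' V x) ∈ T := by
    intro x hx
    have := hom_trivial hpT ((QuotientGroup.mk' T).comp (QuotientGroup.mk' V)) x hx
    exact (QuotientGroup.eq_one_iff _).mp this
  have hQV : ∀ x : genSub p G, x ∈ Q → (x : G) ∈ V := by
    intro x hx
    obtain ⟨j, hj⟩ := (IsPGroup.iff_orderOf.mp Q.isPGroup') ⟨x, hx⟩
    rw [Subgroup.orderOf_mk] at hj
    have h1 : orderOf (QuotientGroup.mk' V (x : G)) ∣ p ^ j := by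
      rw [← hj, ← Subgroup.orderOf_coe]
      exact orderOf_map_dvd _ _
    have h2 : orderOf (QuotientGroup.mk' V (x : G)) ∣ Nat.card T := by
      have := orderOf_dvd_natCard (⟨_, hXT x x.2⟩ : T)
      rwa [Subgroup.orderOf_mk] at this
    have h3 : orderOf (QuotientGroup.mk' V (x : G)) = 1 :=
      Nat.eq_one_of_dvd_coprimes (hc.pow_right j) h2 h1
    rw [orderOf_eq_one_iff] at h3
    exact (QuotientGroup.eq_one_iff _).mp h3
  have hfoc : focalSubgroup (Q : Subgroup (genSub p G)) ≤ ⊥ := by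
    rw [focalSubgroup_def, closure_le]
    rintro g ⟨hg, x, hx, u, rfl⟩
    have h1 := hX u u.2 x (hQV x hx)
    have h2 : x * u = u * x := Subtype.ext h1.symm
    change ⁅x, u⁆ = 1
    rw [commutatorElement_def, h2]
    group
  have hQ : (Q : Subgroup (genSub p G)) = ⊥ :=
    le_bot_iff.mp ((focal_eq genSub_self Q).trans hfoc)
  by_contra hcon
  have hdvd : p ∣ Nat.card (genSub p G) := by
    by_contra hnd
    exact hcon (((Nat.Prime.coprime_iff_not_dvd Fact.out).mpr hnd).symm)
  exact Q.ne_bot_of_dvd_card hdvd hQ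

lemma eq_bot_of_le_commutator {V D : Subgroup G} (hV : IsPGroup p V) (hDV : D ≤ V)
    (h : D ≤ ⁅D, V⁆) : D = ⊥ := by
  have hnil : Group.IsNilpotent V := hV.isNilpotent
  obtain ⟨n, hn⟩ := (Subgroup.isNilpotent_iff_lowerCentralSeries V).mp hnil
  have hle : ∀ n, D ≤ V.lowerCentralSeries n := by
    intro n
    induction n with
    | zero => exact hDV
    | succ n ih => exact h.trans (commutator_mono ih le_rfl)
  have := hle n
  rw [hn] at this
  exact le_bot_iff.mp this

end Pool.Agent.Helper88.PN
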