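import Pool.Agent.Helper88.PN6

set_option autoImplicit false

/-!
A minimal normal `p`-subgroup not centralised by the `p'`-elements.
-/

namespace Pool.Agent.Helper88.PN

open Subgroup
open scoped Pointwise commutatorElement

variable {p : ℕ} [Fact p.Prime] {G : Type*} [Group G] [Finite G]

omit [Fact p.Prime] [Finite G] in
lemma mul_pow_class_two (a b z : G) (h : b * a = a * b * z) (ha : z * a = a * z)
    (hb : z * b = b * z) (n : ℕ) : (a * b) ^ n = a ^ n * b ^ n * z ^ (n.choose 2) := by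
  have hz : ∀ i j : ℕ, z ^ i * b ^ j = b ^ j * z ^ i := fun i j =>
    ((show Commute z b from hb).pow_pow i j).eq
  have hza : ∀ i j : ℕ, z ^ i * a ^ j = a ^ j * z ^ i := fun i j =>
    ((show Commute z a from ha).pow_pow i j).eq
  have h1 : ∀ n : ℕ, b ^ n * a = a * b ^ n * z ^ n := by
    intro n
    induction n with
    | zero => simp
    | succ n ih =>
      calc b ^ (n + 1) * a = b ^ n * (b * a) := by rw [pow_succ]; group
        _ = (b ^ n * a) * (b * z) := by rw [h]; group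
        _ = a * b ^ n * (z ^ n * b ^ 1) * z := by rw [ih]; group
        _ = a * b ^ (n + 1) * z ^ (n + 1) := by
            rw [hz, pow_one, pow_succ b, pow_succ z]; group
  induction n with
  | zero => simp
  | succ n ih =>
    calc (a * b) ^ (n + 1) = a ^ n * b ^ n * (z ^ (n.choose 2) * (a ^ 1)) * b := by
          rw [pow_succ, ih]; group
      _ = a ^ n * (b ^ n * a) * (z ^ (n.choose 2) * b ^ 1) := by rw [hza]; group
      _ = a ^ n * a * b ^ n * (z ^ n * b ^ 1) * z ^ (n.choose 2) := by rw [h1, hz]; group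
      _ = a ^ (n + 1) * b ^ (n + 1) * z ^ ((n + 1).choose 2) := by
          rw [hz, Nat.choose_succ_succ' n 1, Nat.choose_one_right, pow_add z n, pow_succ a,
            pow_succ b]
          group

/-- A nontrivial `p`-group has a proper subgroup containing all commutators and `p`-th powers. -/
lemma exists_proper {D : Subgroup G} (hD : IsPGroup p D) (hne : D ≠ ⊥) :
    ∃ M : Subgroup G, M < D ∧ (∀ a ∈ D, ∀ b ∈ D, ⁅a, b⁆ ∈ M) ∧ ∀ a ∈ D, a ^ p ∈ M := by
  obtain ⟨n, hn⟩ := IsPGroup.iff_card.mp hD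
  have hn0 : n ≠ 0 := by
    rintro rfl
    rw [pow_zero] at hn
    exact hne (Subgroup.card_eq_one.mp hn)
  obtain ⟨m, rfl⟩ := Nat.exists_eq_succ_of_ne_zero hn0
  obtain ⟨M, hM⟩ := Sylow.exists_subgroup_card_pow_prime (G := D) p (n := m)
    (by rw [hn]; exact pow_dvd_pow p (Nat.le_succ m))
  have hppos : 0 < p ^ m := pow_pos (Fact.out : p.Prime).pos m
  have hidx : M.index = p := by
    have h1 := Subgroup.card_mul_index M
    rw [hM, hn, pow_succ] at h1
    exact Nat.eq_of_mul_eq_mul_left hppos h1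
  have hMn : M.Normal := by
    apply Subgroup.normal_of_index_eq_minFac_card
    rw [hidx, hn, Nat.Prime.pow_minFac Fact.out (Nat.succ_ne_zero m)]
  have hcard : Nat.card (D ⧸ M) = p := hidx
  have hcyc : IsCyclic (D ⧸ M) := isCyclic_of_prime_card hcard
  have hcomm : ∀ x y : D ⧸ M, x * y = y * x := fun x y => by
    obtain ⟨g, hg⟩ := hcyc
    obtain ⟨i, rfl⟩ := hg x
    obtain ⟨j, rfl⟩ := hg y
    change g ^ i * g ^ j = g ^ j * g ^ i
    rw [← zpow_add, ← zpow_add, add_comm]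
  refine ⟨M.map D.subtype, ?_, ?_, ?_⟩
  · refine lt_of_le_of_ne ?_ ?_
    · rintro _ ⟨x, _, rfl⟩
      exact x.2
    · intro heq
      have h1 : M = ⊤ := by
        rw [eq_top_iff]
        intro x _
        have h2 : (x : G) ∈ M.map D.subtype := by rw [heq]; exact x.2
        obtain ⟨y, hy, hyx⟩ := h2
        have : y = x := Subtype.ext hyx
        rwa [← this]
      rw [h1, Subgroup.index_top] at hidx
      exact (Fact.out : p.Prime).ne_one hidx.symm
  · intro a ha b hb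
    refine ⟨⁅(⟨a, ha⟩ : D), (⟨b, hb⟩ : D)⁆, ?_, rfl⟩
    have h1 : (QuotientGroup.mk' M) ⁅(⟨a, ha⟩ : D), (⟨b, hb⟩ : D)⁆ = 1 := by
      rw [map_commutatorElement, commutatorElement_eq_one_iff_mul_comm]
      exact hcomm _ _
    exact (QuotientGroup.eq_one_iff _).mp h1
  · intro a ha
    refine ⟨(⟨a, ha⟩ : D) ^ p, ?_, rfl⟩
    have h1 : (QuotientGroup.mk' M) ((⟨a, ha⟩ : D) ^ p) = 1 := by
      rw [map_pow]
      have := pow_card_eq_one' (x := (QuotientGroup.mk' M) (⟨a, ha⟩ : D))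
      rwa [hcard] at this
    exact (QuotientGroup.eq_one_iff _).mp h1

lemma exists_D (hp2 : p ≠ 2) {V : Subgroup G} (hVn : V.Normal) (hV : IsPGroup p V)
    (hX : ¬ ∀ x ∈ genSub p G, ∀ v ∈ V, x * v = v * x) :
    ∃ D D0 : Subgroup G, D.Normal ∧ D0.Normal ∧ D0 < D ∧ D ≤ V ∧
      (∀ N : Subgroup G, N.Normal → N ≤ D → N ≠ D → N ≤ D0) ∧
      ⁅D, genSub p G⁆ = D ∧ (∀ d ∈ D, d ^ p = 1) ∧ (∀ a ∈ D, ∀ b ∈ D, ⁅a, b⁆ ∈ D0) := by
  have hXn := genSub_normal (p := p) (G := G)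
  obtain ⟨X, hXdef⟩ : ∃ X : Subgroup G, X = genSub p G := ⟨_, rfl⟩
  rw [← hXdef] at hX hXn ⊢
  have hV1 : ⁅V, X⁆ ≠ ⊥ := by
    intro h
    apply hX
    intro x hx v hv
    rw [commutator_eq_bot_iff_le_centralizer] at h
    exact Subgroup.mem_centralizer_iff.mp (h hv) x hx
  obtain ⟨D, ⟨hDn, hDV, hDX⟩, hmin⟩ :=
    (Set.toFinite {N : Subgroup G | N.Normal ∧ N ≤ V ∧ ⁅N, X⁆ ≠ ⊥}).exists_minimal
      ⟨V, hVn, le_rfl, hV1⟩
  have hmin' : ∀ N : Subgroup G, N.Normal → N ≤ D → ⁅N, X⁆ ≠ ⊥ → D ≤ N := fun N h1 h2 h3 =>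
    hmin ⟨h1, h2.trans hDV, h3⟩ h2
  have hDp : IsPGroup p D := hV.to_le hDV
  have hDXle : ⁅D, X⁆ ≤ D := commutator_le_left D X
  have hDXX : ⁅⁅D, X⁆, X⁆ ≠ ⊥ := by
    intro h
    apply hDX
    rw [commutator_eq_bot_iff_le_centralizer] at h ⊢
    rw [Subgroup.le_centralizer_iff]
    have h0 : X = closure {x : G | (orderOf x).Coprime p} := hXdef
    rw [h0, closure_le]
    intro x hx
    have hxX : x ∈ X := by rw [h0]; exact Subgroup.subset_closure hx
    rw [SetLike.mem_coe, Subgroup.mem_centralizer_iff]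
    intro d hd
    have hy : ⁅d, x⁆ ∈ ⁅D, X⁆ := commutator_mem_commutator hd hxX
    have hyx : Commute ⁅d, x⁆ x :=
      (Subgroup.mem_centralizer_iff.mp (h hy) x hxX).symm
    have h1 : ∀ n : ℕ, d * x ^ n * d⁻¹ = ⁅d, x⁆ ^ n * x ^ n := by
      intro n
      rw [← hyx.mul_pow]
      have : ⁅d, x⁆ * x = d * x * d⁻¹ := by rw [commutatorElement_def]; group
      rw [this, conj_pow]
    have h2 := h1 (orderOf x)
    rw [pow_orderOf_eq_one, mul_one, mul_one, mul_inv_cancel] at h2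
    have h3 : orderOf ⁅d, x⁆ ∣ orderOf x := orderOf_dvd_of_pow_eq_one h2.symm
    obtain ⟨j, hj⟩ := (IsPGroup.iff_orderOf.mp hDp) ⟨_, hDXle hy⟩
    rw [Subgroup.orderOf_mk] at hj
    have hx' : (orderOf x).Coprime p := hx
    have h4 : orderOf ⁅d, x⁆ = 1 :=
      Nat.eq_one_of_dvd_coprimes (hx'.pow_right j) h3 (by rw [hj])
    rw [orderOf_eq_one_iff, commutatorElement_eq_one_iff_mul_comm] at h4
    exact h4
  have hDXeq : ⁅D, X⁆ = D :=
    le_antisymm hDXle (hmin' _ inferInstance hDXle hDXX)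
  obtain ⟨D0, hD0⟩ : ∃ D0 : Subgroup G, D0 = D ⊓ centralizer (X : Set G) := ⟨_, rfl⟩
  have hD0n : D0.Normal := by rw [hD0]; infer_instance
  have hD0X : D0 ≤ centralizer (X : Set G) := by rw [hD0]; exact inf_le_right
  have hD0D : D0 ≤ D := by rw [hD0]; exact inf_le_left
  have hi : ∀ N : Subgroup G, N.Normal → N ≤ D → N ≠ D → N ≤ D0 := by
    intro N hN hND hne
    rw [hD0]
    refine le_inf hND ?_
    rw [← commutator_eq_bot_iff_le_centralizer]
    by_contra hcon
    exact hne (le_antisymm hND (hmin' N hN hND hcon))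
  have hlt : D0 < D := by
    refine lt_of_le_of_ne hD0D fun h => hDX ?_
    rw [commutator_eq_bot_iff_le_centralizer, ← h]
    exact hD0X
  have hDD0 : ⁅D, D0⁆ = ⊥ := by
    have h1 : ⁅⁅X, D0⁆, D⁆ = ⊥ := by
      have : ⁅X, D0⁆ = ⊥ := by
        rw [commutator_comm, commutator_eq_bot_iff_le_centralizer]
        exact hD0X
      rw [this, commutator_bot_left]
    have h2 : ⁅⁅D0, D⁆, X⁆ = ⊥ := by
      rw [commutator_eq_bot_iff_le_centralizer]
      exact (commutator_le_left D0 D).trans hD0X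
    have h3 := commutator_commutator_eq_bot_of_rotate (H₁ := D) (H₂ := X) (H₃ := D0) h1 h2
    rwa [hDXeq] at h3
  have hcent : ∀ z ∈ D0, ∀ d ∈ D, z * d = d * z := by
    intro z hz d hd
    rw [commutator_eq_bot_iff_le_centralizer] at hDD0
    exact Subgroup.mem_centralizer_iff.mp (hDD0 hd) z hz
  have hne : D ≠ ⊥ := by
    rintro rfl
    exact absurd hlt not_lt_bot
  obtain ⟨M, hMD, hMc, hMp⟩ := exists_proper hDp hne
  obtain ⟨E, hE⟩ : ∃ E : Subgroup G,
      E = closure ({x : G | ∃ a ∈ D, ∃ b ∈ D, ⁅a, b⁆ = x} ∪ {x : G | ∃ a ∈ D, a ^ p = x}) :=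
    ⟨_, rfl⟩
  have hEM : E ≤ M := by
    rw [hE, closure_le]
    rintro x (⟨a, ha, b, hb, rfl⟩ | ⟨a, ha, rfl⟩)
    · exact hMc a ha b hb
    · exact hMp a ha
  have hEn : E.Normal := by
    constructor
    intro n hn g
    have h1 : E.map (MulAut.conj g).toMonoidHom ≤ E := by
      rw [hE, MonoidHom.map_closure, closure_le]
      rintro _ ⟨x, hx, rfl⟩
      apply Subgroup.subset_closure
      rcases hx with ⟨a, ha, b, hb, rfl⟩ | ⟨a, ha, rfl⟩
      · left
        exact ⟨_, hDn.conj_mem a ha g, _, hDn.conj_mem b hb g, by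
          rw [map_commutatorElement]; rfl⟩
      · right
        exact ⟨_, hDn.conj_mem a ha g, by rw [map_pow]; rfl⟩
    exact h1 ⟨n, hn, rfl⟩
  have hED0 : E ≤ D0 := hi E hEn (hEM.trans hMD.le)
    (fun h => absurd hMD (not_lt_of_ge (by rw [← h]; exact hEM)))
  have hcomm : ∀ a ∈ D, ∀ b ∈ D, ⁅a, b⁆ ∈ D0 := fun a ha b hb => by
    apply hED0
    rw [hE]
    exact Subgroup.subset_closure (Or.inl ⟨a, ha, b, hb, rfl⟩)
  have hpow : ∀ a ∈ D, a ^ p ∈ D0 := fun a ha => by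
    apply hED0
    rw [hE]
    exact Subgroup.subset_closure (Or.inr ⟨a, ha, rfl⟩)
  have hmulpow : ∀ a ∈ D, ∀ b ∈ D, (a * b) ^ p = a ^ p * b ^ p := by
    intro a ha b hb
    obtain ⟨z, hz⟩ : ∃ z, z = ⁅b⁻¹, a⁻¹⁆ := ⟨_, rfl⟩
    have hzD0 : z ∈ D0 := by rw [hz]; exact hcomm _ (inv_mem hb) _ (inv_mem ha)
    have h1 : b * a = a * b * z := by rw [hz, commutatorElement_def]; group
    have h2 := mul_pow_class_two a b z h1 (hcent z hzD0 a ha) (hcent z hzD0 b hb) p
    have h3 : z ^ p = 1 := by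
      -- `b ^ p` is central in `D`
      have h4 : ∀ n : ℕ, b ^ n * a = a * b ^ n * z ^ n := by
        intro n
        have hzb : Commute z b := hcent z hzD0 b hb
        induction n with
        | zero => simp
        | succ n ih =>
          calc b ^ (n + 1) * a = b ^ n * (b * a) := by rw [pow_succ]; group
            _ = (b ^ n * a) * (b * z) := by rw [h1]; group
            _ = a * b ^ n * (z ^ n * b) * z := by rw [ih]; group
            _ = a * b ^ (n + 1) * z ^ (n + 1) := by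
                rw [(hzb.pow_left n).eq, pow_succ b, pow_succ z]; group
      have h5 := h4 p
      rw [hcent _ (hpow b hb) a ha] at h5
      have h6 : a * b ^ p * 1 = a * b ^ p * z ^ p := by rw [mul_one]; exact h5
      exact (mul_left_cancel h6).symm
    have h7 : p ∣ p.choose 2 :=
      (Fact.out : p.Prime).dvd_choose_self (by norm_num)
        (lt_of_le_of_ne (Fact.out : p.Prime).two_le (Ne.symm hp2))
    obtain ⟨m, hm⟩ := h7
    rw [h2, hm, pow_mul, h3, one_pow, mul_one]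
  refine ⟨D, D0, hDn, hD0n, hlt, hDV, hi, hDXeq, ?_, hcomm⟩
  obtain ⟨K, hK⟩ : ∃ K : Subgroup G, ∀ x, x ∈ K ↔ x ∈ D ∧ x ^ p = 1 :=
    ⟨{ carrier := {x | x ∈ D ∧ x ^ p = 1}
       mul_mem' := fun {a b} ha hb => ⟨mul_mem ha.1 hb.1, by
         rw [hmulpow a ha.1 b hb.1, ha.2, hb.2, one_mul]⟩
       one_mem' := ⟨one_mem D, one_pow p⟩
       inv_mem' := fun {a} ha => ⟨inv_mem ha.1, by rw [inv_pow, ha.2, inv_one]⟩ },
      fun x => Iff.rfl⟩
  have hDK : D ≤ K := by
    conv_lhs => rw [← hDXeq]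
    rw [commutator_le]
    intro d hd x hx
    rw [hK]
    refine ⟨hDXle (commutator_mem_commutator hd hx), ?_⟩
    have h1 : ⁅d, x⁆ = d * (x * d⁻¹ * x⁻¹) := by rw [commutatorElement_def]; group
    rw [h1, hmulpow d hd _ (hDn.conj_mem _ (inv_mem hd) x), conj_pow, inv_pow]
    have h2 : x * (d ^ p)⁻¹ = (d ^ p)⁻¹ * x :=
      Subgroup.mem_centralizer_iff.mp (hD0X (inv_mem (hpow d hd))) x hx
    rw [h2]
    group
  intro d hd
  exact ((hK d).mp (hDK hd)).2

end Pool.Agent.Helper88.PN
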