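import Pool.Agent.Helper88.PN7

set_option autoImplicit false

/-!
The final contradiction.
-/

namespace Pool.Agent.Helper88.PN

open Subgroup
open scoped Pointwise commutatorElement

section mulaut

lemma mulaut_quad {A : Type*} [Group A] (hcomm : ∀ x y : A, x * y = y * x) (p : ℕ)
    (hp : p.Prime) (hp2 : p ≠ 2) (hA : ∀ x : A, x ^ p = 1) (a c : MulAut A)
    (hq : ∀ x, c (c x) * x = c x * c x)
    (h1 : a * (c * a * c⁻¹) = (c * a * c⁻¹) * a) (h2 : a * (c⁻¹ * a * c) = (c⁻¹ * a * c) * a)
    (m : ℕ) (hm : m.Coprime p) (ham : a ^ m = 1) : a * c = c * a := by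
  let inst : CommGroup A := { ‹Group A› with mul_comm := hcomm }
  let φ : MulAut A →* AddMonoid.End (Additive A) :=
    { toFun := fun f => MonoidHom.toAdditive f.toMonoidHom
      map_one' := rfl
      map_mul' := fun f g => rfl }
  have hφ : ∀ (f : MulAut A) (x : A), φ f (Additive.ofMul x) = Additive.ofMul (f x) :=
    fun f x => rfl
  have hE : (p : AddMonoid.End (Additive A)) = 0 := by
    ext x
    rw [AddMonoid.End.natCast_apply]
    exact hA x
  have key := ring_quad (E := AddMonoid.End (Additive A)) p hp hp2 hE (φ a) (φ c) (φ c⁻¹)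
    (by rw [← map_mul, mul_inv_cancel, map_one]) (by rw [← map_mul, inv_mul_cancel, map_one])
    (by
      ext x
      have h3 : ∀ y : Additive A, (φ c - 1 : AddMonoid.End (Additive A)) y = φ c y - y :=
        fun y => rfl
      change (φ c - 1 : AddMonoid.End (Additive A)) ((φ c - 1 : AddMonoid.End (Additive A)) x) = 0
      rw [h3, h3, map_sub]
      have h4 : φ c (φ c x) + x = φ c x + φ c x := hq x
      have h5 : φ c (φ c x) - φ c x - (φ c x - x) = (φ c (φ c x) + x) - (φ c x + φ c x) := by abel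
      rw [h5, h4, sub_self])
    (by rw [← map_mul, ← map_mul, ← map_mul, ← map_mul, h1])
    (by rw [← map_mul, ← map_mul, ← map_mul, ← map_mul, h2]) m hm
    (by rw [← map_pow, ham, map_one])
  ext x
  rw [← map_mul, ← map_mul] at key
  exact congrArg (fun e : AddMonoid.End (Additive A) => Additive.toMul (e (Additive.ofMul x))) key

lemma mulaut_comm {A : Type*} [Group A] {p : ℕ} [Fact p.Prime] (hA : Nat.card A = p)
    (a c : MulAut A) : a * c = c * a := by
  have : IsCyclic A := isCyclic_of_prime_card hA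
  obtain ⟨m, hm⟩ := MonoidHom.map_cyclic a.toMonoidHom
  obtain ⟨n, hn⟩ := MonoidHom.map_cyclic c.toMonoidHom
  have hm' : ∀ x, a x = x ^ m := hm
  have hn' : ∀ x, c x = x ^ n := hn
  ext x
  rw [MulAut.mul_apply, MulAut.mul_apply, hn', hm', hm', hn', ← zpow_mul, ← zpow_mul, mul_comm]

end mulaut

variable {p : ℕ} [Fact p.Prime] {G : Type*} [Group G] [Finite G]

/-- If `P = H B` with `|H| = p` in a `p`-group, then `B` contains the commutators of `P`. -/
lemma commutator_mem_of_mul {P H B : Subgroup G} (hP : IsPGroup p P) (hH : Nat.card H = p)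
    (hBP : B ≤ P) (hHB : (H : Set G) * (B : Set G) = (P : Set G)) : ⁅P, P⁆ ≤ B := by
  have hcard : Nat.card P ≤ p * Nat.card B := by
    rw [← hH]
    have h1 : Nat.card P = Nat.card ((H : Set G) * (B : Set G) : Set G) := by rw [hHB]; rfl
    rw [h1]
    exact Set.natCard_mul_le
  have h2 : B.relIndex P * Nat.card B = Nat.card P := by
    have h := Subgroup.relIndex_mul_relIndex (⊥ : Subgroup G) B P bot_le hBP
    rw [relIndex_bot_left, relIndex_bot_left, mul_comm] at h
    exact h
  have hBpos : 0 < Nat.card B := Nat.card_pos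
  have h3 : B.relIndex P ≤ p := by
    rw [← h2] at hcard
    exact Nat.le_of_mul_le_mul_right hcard hBpos
  obtain ⟨n, hn⟩ := IsPGroup.iff_card.mp hP
  have h4 : B.relIndex P ∣ p ^ n := by
    rw [← hn]
    exact Subgroup.relIndex_dvd_card B P
  obtain ⟨j, hj, hjp⟩ := (Nat.dvd_prime_pow Fact.out).mp h4
  have hj1 : j ≤ 1 := by
    rw [hjp] at h3
    by_contra hcon
    have h5 : p ^ 1 < p ^ j := Nat.pow_lt_pow_right (Fact.out : p.Prime).one_lt (by omega)
    rw [pow_one] at h5
    omega
  rcases Nat.le_one_iff_eq_zero_or_eq_one.mp hj1 with h0 | h1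
  · rw [h0, pow_zero, Subgroup.relIndex_eq_one] at hjp
    exact (Subgroup.commutator_le_self P).trans hjp
  · rw [h1, pow_one] at hjp
    have hn0 : n ≠ 0 := by
      rintro rfl
      rw [h1] at hj
      omega
    have hBn : (B.subgroupOf P).Normal := by
      apply Subgroup.normal_of_index_eq_minFac_card
      rw [hn, Nat.Prime.pow_minFac Fact.out hn0]
      exact hjp
    have hcard' : Nat.card (P ⧸ B.subgroupOf P) = p := hjp
    have hcyc : IsCyclic (P ⧸ B.subgroupOf P) := isCyclic_of_prime_card hcard'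
    have hcomm : ∀ x y : P ⧸ B.subgroupOf P, x * y = y * x := fun x y => by
      obtain ⟨g, hg⟩ := hcyc
      obtain ⟨i, rfl⟩ := hg x
      obtain ⟨j, rfl⟩ := hg y
      change g ^ i * g ^ j = g ^ j * g ^ i
      rw [← zpow_add, ← zpow_add, add_comm]
    rw [Subgroup.commutator_le]
    intro a ha b hb
    have h6 : (QuotientGroup.mk' (B.subgroupOf P)) ⁅(⟨a, ha⟩ : P), (⟨b, hb⟩ : P)⁆ = 1 := by
      rw [map_commutatorElement, commutatorElement_eq_one_iff_mul_comm]
      exact hcomm _ _
    have h7 : ⁅(⟨a, ha⟩ : P), (⟨b, hb⟩ : P)⁆ ∈ B.subgroupOf P :=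
      (QuotientGroup.eq_one_iff _).mp h6
    exact h7

/-- The case of a normal `p`-subgroup with `p`-nilpotent quotient. -/
lemma pnilpotent_of_quotient (hp2 : p ≠ 2) (P : Sylow p G)
    (h1 : PNilpotent p (normalizer ((P : Subgroup G) : Set G)))
    (h2 : Cond2' p (P : Subgroup G)) {V : Subgroup G} [hVn : V.Normal] (hV : IsPGroup p V)
    (hGV : PNilpotent p (G ⧸ V)) : PNilpotent p G := by
  by_contra hcon
  have hX : ¬ ∀ x ∈ genSub p G, ∀ v ∈ V, x * v = v * x :=
    fun h => hcon (pnilpotent_of_centralized hGV h)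
  obtain ⟨D, D0, hDn, hD0n, hlt, hDV, hi, hDX, hpow, hcomm⟩ := exists_D hp2 hVn hV hX
  have hVP : V ≤ (P : Subgroup G) := hV.le_sylow_of_normal P
  have hDP : D ≤ (P : Subgroup G) := hDV.trans hVP
  have hDp : IsPGroup p D := hV.to_le hDV
  -- the section `D / D0` and the action on it
  obtain ⟨W, hW⟩ : ∃ W : Subgroup (G ⧸ D0), W = D.map (QuotientGroup.mk' D0) := ⟨_, rfl⟩
  have hWn : W.Normal := by
    rw [hW]; exact hDn.map _ (QuotientGroup.mk'_surjective D0)
  have hWm : ∀ d ∈ D, QuotientGroup.mk' D0 d ∈ W := fun d hd => by rw [hW]; exact ⟨d, hd, rfl⟩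
  have hWle : ∀ w ∈ W, ∃ d ∈ D, w = QuotientGroup.mk' D0 d := by
    rw [hW]
    rintro w ⟨d, hd, hdw⟩
    exact ⟨d, hd, hdw.symm⟩
  have hWm' : ∀ w : W, ∃ d ∈ D, (w : G ⧸ D0) = QuotientGroup.mk' D0 d := fun w => hWle w w.2
  obtain ⟨ρ, hρ⟩ : ∃ ρ : G →* MulAut W,
      ρ = (MulAut.conjNormal (H := W)).comp (QuotientGroup.mk' D0) := ⟨_, rfl⟩
  have hρv : ∀ (g : G) (w : W), ((ρ g w : W) : G ⧸ D0)
      = QuotientGroup.mk' D0 g * (w : G ⧸ D0) * (QuotientGroup.mk' D0 g)⁻¹ := by
    intro g w; rw [hρ]; rfl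
  have hρ1 : ∀ g : G, (∀ d ∈ D, ⁅g, d⁆ ∈ D0) → ρ g = 1 := by
    intro g hg
    ext w
    obtain ⟨d, hd, hdw⟩ := hWm' w
    rw [hρv, MulAut.one_apply, hdw, ← map_mul, ← map_inv, ← map_mul]
    have h3 : g * d * g⁻¹ = ⁅g, d⁆ * d := by rw [commutatorElement_def]; group
    rw [h3, map_mul]
    have h4 : QuotientGroup.mk' D0 ⁅g, d⁆ = 1 := (QuotientGroup.eq_one_iff _).mpr (hg d hd)
    rw [h4, one_mul]
  have hρ1' : ∀ g : G, ρ g = 1 → ∀ d ∈ D, ⁅g, d⁆ ∈ D0 := by
    intro g hg d hd
    have h3 := hρv g ⟨_, hWm d hd⟩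
    rw [hg, MulAut.one_apply] at h3
    rw [← QuotientGroup.eq_one_iff]
    change QuotientGroup.mk' D0 ⁅g, d⁆ = 1
    rw [map_commutatorElement, commutatorElement_def]
    have h4 : (QuotientGroup.mk' D0) d
      = QuotientGroup.mk' D0 g * QuotientGroup.mk' D0 d * (QuotientGroup.mk' D0 g)⁻¹ := h3
    rw [← h4, mul_inv_cancel]
  have hVρ : ∀ v ∈ V, ρ v = 1 := by
    intro v hv
    apply hρ1
    intro d hd
    have h3 : ⁅D, V⁆ ≤ D0 := by
      apply hi _ inferInstance (commutator_le_left D V)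
      intro h4
      have h5 := eq_bot_of_le_commutator hV hDV h4.ge
      rw [h5] at hlt
      exact absurd hlt not_lt_bot
    rw [commutator_comm] at h3
    exact h3 (commutator_mem_commutator hv hd)
  have hXρ : ¬ ∀ x ∈ genSub p G, ρ x = 1 := by
    intro h3
    have h4 : ⁅genSub p G, D⁆ ≤ D0 := by
      rw [commutator_le]
      intro x hx d hd
      exact hρ1' x (h3 x hx) d hd
    rw [commutator_comm, hDX] at h4
    exact absurd hlt (not_lt_of_ge h4)
  -- the image of `G`
  obtain ⟨f, hf⟩ : ∃ f : G →* ρ.range, f = ρ.rangeRestrict := ⟨_, rfl⟩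
  have hfv : ∀ g, ((f g : ρ.range) : MulAut W) = ρ g := by intro g; rw [hf]; rfl
  have hfs : Function.Surjective f := by rw [hf]; exact ρ.rangeRestrict_surjective
  have hRn : PNilpotent p ρ.range := by
    have h3 : ∀ v ∈ V, f v = 1 := by
      intro v hv
      apply Subtype.ext
      rw [hfv, hVρ v hv]
      rfl
    refine PNilpotent.of_surjective (QuotientGroup.lift V f h3) ?_ hGV
    intro y
    obtain ⟨g, hg⟩ := hfs y
    exact ⟨(g : G ⧸ V), by rw [← hg]; rfl⟩
  have hRp : ¬ IsPGroup p ρ.range := by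
    intro h3
    apply hXρ
    intro x hx
    have h4 := hom_trivial h3 f x hx
    rw [← hfv, h4]
    rfl
  have hRN : normalizer (((P.mapSurjective hfs : Sylow p ρ.range) : Subgroup ρ.range) : Set ρ.range)
      = ((P.mapSurjective hfs : Sylow p ρ.range) : Subgroup ρ.range) := by
    rw [Sylow.coe_mapSurjective]
    apply normalizer_map f hfs P
    intro n hn
    obtain ⟨T, hT, hcT, hk⟩ := h1
    have hle : (P : Subgroup G) ≤ normalizer ((P : Subgroup G) : Set G) := Subgroup.le_normalizer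
    obtain ⟨t, ht, u, hu, htu⟩ := exists_mul_of_sylow hT hk (P.subtype hle) ⟨n, hn⟩
    have hu' : (u : G) ∈ P := hu
    have h3 : n = (t : G) * u := congrArg Subtype.val htu
    refine ⟨u, hu', ?_⟩
    rw [h3, map_mul]
    have h4 : f t = 1 := by
      apply Subtype.ext
      rw [hfv]
      apply hρ1
      intro d hd
      have h5 := commute_of_coprime (p := p)
        (Q := (P : Subgroup G).subgroupOf (normalizer ((P : Subgroup G) : Set G))) hT
        inferInstance hcT (P.isPGroup'.comap_subtype) t ht ⟨d, hle (hDP hd)⟩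
        (by rw [Subgroup.mem_subgroupOf]; exact hDP hd)
      have h6 : (t : G) * d = d * t := congrArg Subtype.val h5
      rw [commutatorElement_eq_one_iff_mul_comm.mpr h6]
      exact one_mem D0
    rw [h4, one_mul]
  obtain ⟨c', hc', a', ha', hac1, hac2, hac3⟩ := exists_pair (P.mapSurjective hfs) hRN hRn hRp
  have hc'' : c' ∈ (P : Subgroup G).map f := hc'
  obtain ⟨c, hcP, rfl⟩ := hc''
  -- `D` is contained in the residual
  have hDres : D ≤ residual p G := by
    unfold residual
    rw [le_sInf_iff]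
    rintro M ⟨hM, hMs⟩
    by_contra hDM
    exfalso
    have hchief : IsChiefFactor D D0 := by
      refine ⟨hDn, hD0n, hlt, fun C hC h3 h4 => ?_⟩
      by_cases h5 : C = D
      · exact Or.inr h5
      · exact Or.inl (le_antisymm (hi C hC h4 h5) h3)
    have hker : D ⊓ (QuotientGroup.mk' M).ker ≤ D0 := by
      rw [QuotientGroup.ker_mk']
      apply hi _ inferInstance inf_le_left
      intro h3
      exact hDM (inf_eq_left.mp h3)
    rcases chief_order (QuotientGroup.mk' M) hMs hchief hker with h3 | h3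
    · have h4 : Nat.card W = p := by
        rw [hW, ← relIndex_ker, QuotientGroup.ker_mk']
        exact h3
      apply hac3
      apply Subtype.ext
      exact mulaut_comm h4 _ _
    · obtain ⟨n, hn⟩ := IsPGroup.iff_card.mp hDp
      have h4 : D0.relIndex D ∣ p ^ n := by rw [← hn]; exact relIndex_dvd_card D0 D
      have h5 : D0.relIndex D = 1 :=
        Nat.eq_one_of_dvd_coprimes (h3.pow_right n) dvd_rfl h4
      exact relIndex_ne_one_of_lt hlt h5
  -- elements of `D ⊓ [P, P]` are central in `P`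
  have hcent : ∀ u ∈ D, u ∈ ⁅(P : Subgroup G), (P : Subgroup G)⁆ → ∀ y ∈ (P : Subgroup G),
      y * u = u * y := by
    intro u hu huP y hy
    by_cases hu1 : u = 1
    · rw [hu1, mul_one, one_mul]
    have hord : orderOf u = p := orderOf_eq_prime (hpow u hu) hu1
    obtain ⟨x, hx⟩ : ∃ x : G, x ∉ normalizer ((P : Subgroup G) : Set G) := by
      by_contra hall
      push Not at hall
      apply hcon
      refine PNilpotent.of_surjective (normalizer ((P : Subgroup G) : Set G)).subtype ?_ h1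
      intro g
      exact ⟨⟨g, hall g⟩, rfl⟩
    have hHcard : Nat.card (zpowers u) = p := by rw [Nat.card_zpowers, hord]
    have hHD : zpowers u ≤ D := by rw [zpowers_le]; exact hu
    obtain ⟨B, hBP, hHB, hcen⟩ := h2 x hx (zpowers u) hHcard (by
      refine le_inf (le_inf (hHD.trans hDres) (hHD.trans hDP)) ?_
      intro z hz
      refine ⟨x * z * x⁻¹, hDP (hDn.conj_mem z (hHD hz) x), ?_⟩
      change x⁻¹ * (x * z * x⁻¹) * (x⁻¹)⁻¹ = z
      group)
    have huB : u ∈ B := commutator_mem_of_mul P.isPGroup' hHcard hBP hHB huP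
    obtain ⟨z, hz, hzu⟩ := hcen ⟨mem_zpowers u, huB⟩
    have h3 := Subgroup.mem_center_iff.mp hz ⟨y, hy⟩
    have h4 : y * (z : G) = z * y := congrArg Subtype.val h3
    have h5 : (z : G) = u := hzu
    rwa [h5] at h4
  -- conclusion
  have hWcomm : ∀ x y : W, x * y = y * x := by
    intro x y
    obtain ⟨d, hd, hdx⟩ := hWm' x
    obtain ⟨e, he, hey⟩ := hWm' y
    apply Subtype.ext
    rw [Subgroup.coe_mul, Subgroup.coe_mul, hdx, hey, ← commutatorElement_eq_one_iff_mul_comm,
      ← map_commutatorElement]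
    exact (QuotientGroup.eq_one_iff _).mpr (hcomm d hd e he)
  have hWpow : ∀ x : W, x ^ p = 1 := by
    intro x
    obtain ⟨d, hd, hdx⟩ := hWm' x
    apply Subtype.ext
    rw [Subgroup.coe_pow, hdx, ← map_pow, hpow d hd, map_one]
    rfl
  have hquad : ∀ x : W, ρ c (ρ c x) * x = ρ c x * ρ c x := by
    intro x
    obtain ⟨d, hd, hdx⟩ := hWm' x
    have hcd : ⁅c, d⁆ ∈ D := by
      rw [commutatorElement_def]
      exact mul_mem (hDn.conj_mem d hd c) (inv_mem hd)
    have h3 := hcent ⁅c, d⁆ hcd (commutator_mem_commutator hcP (hDP hd)) c hcP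
    obtain ⟨u, hu⟩ : ∃ u : W, (u : G ⧸ D0) = QuotientGroup.mk' D0 ⁅c, d⁆ := ⟨⟨_, hWm _ hcd⟩, rfl⟩
    have h4 : ρ c x = u * x := by
      apply Subtype.ext
      rw [hρv, hdx, Subgroup.coe_mul, hu, hdx, ← map_mul, ← map_inv, ← map_mul, ← map_mul]
      congr 1
      rw [commutatorElement_def]
      group
    have h5 : ρ c u = u := by
      apply Subtype.ext
      rw [hρv, hu, ← map_mul, ← map_inv, ← map_mul, h3, mul_inv_cancel_right]
    rw [h4, map_mul, h5, h4]
    calc u * (u * x) * x = u * (x * u) * x := by rw [hWcomm u x]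
      _ = u * x * (u * x) := by group
  apply hac3
  apply Subtype.ext
  refine mulaut_quad hWcomm p Fact.out hp2 hWpow (a' : MulAut W) (f c : MulAut W) ?_
    (congrArg Subtype.val hac1) (congrArg Subtype.val hac2) (orderOf a') ha' ?_
  · intro x
    rw [hfv]
    exact hquad x
  · have := congrArg Subtype.val (pow_orderOf_eq_one a')
    exact this

end Pool.Agent.Helper88.PN
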