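import Pool.Agent.Helper88.PN8

set_option autoImplicit false

/-!
The main induction.
-/

namespace Pool.Agent.Helper88.PN

open Subgroup
open scoped Pointwise commutatorElement

universe u

section

variable {p : ℕ} [Fact p.Prime] {G : Type*} [Group G] [Finite G]

omit [Fact p.Prime] in
lemma card_lt_of_lt {A B : Subgroup G} (h : A < B) : Nat.card A < Nat.card B :=
  Set.ncard_lt_ncard h (Set.toFinite _)

/-- `(2')` passes to a local subgroup `N` in which `P ∩ N` is a Sylow subgroup. -/
lemma cond_sub (P : Sylow p G) (h2 : Cond2' p (P : Subgroup G)) (N : Subgroup G) (S : Sylow p N)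
    (hS : ∀ x : N, x ∈ (S : Subgroup N) ↔ (x : G) ∈ (P : Subgroup G)) :
    Cond2' p (S : Subgroup N) := by
  intro x hx H hHcard hH
  have hx' : (x : G) ∉ normalizer ((P : Subgroup G) : Set G) := by
    intro h
    apply hx
    rw [Subgroup.mem_normalizer_iff] at h ⊢
    intro y
    rw [hS, hS, h y]
    rfl
  obtain ⟨B, hBP, hHB, hcen⟩ := h2 (x : G) hx' (H.map N.subtype)
    (by rw [Subgroup.card_map_of_injective N.subtype_injective, hHcard]) (by
      rintro _ ⟨y, hy, rfl⟩
      obtain ⟨⟨h3, h4⟩, h5⟩ := hH hy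
      refine ⟨⟨residual_subgroup N y h3, (hS y).mp h4⟩, ?_⟩
      obtain ⟨z, hz, hzy⟩ := h5
      exact ⟨(z : G), (hS z).mp hz, congrArg Subtype.val hzy⟩)
  refine ⟨B.subgroupOf N, ?_, ?_, ?_⟩
  · intro y hy
    exact (hS y).mpr (hBP hy)
  · ext s
    constructor
    · rintro ⟨h, hh, b, hb, rfl⟩
      exact mul_mem (hH hh).1.2 ((hS b).mpr (hBP hb))
    · intro hs
      have h3 : (s : G) ∈ ((P : Subgroup G) : Set G) := (hS s).mp hs
      rw [← hHB] at h3
      obtain ⟨_, ⟨h, hh, rfl⟩, b, hb, hhb⟩ := h3
      have h4 : b = ((h⁻¹ * s : N) : G) := by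
        have h5 : (h : G) * b = s := hhb
        rw [Subgroup.coe_mul, Subgroup.coe_inv, ← h5, inv_mul_cancel_left]
      refine ⟨h, hh, h⁻¹ * s, ?_, by simp⟩
      rw [SetLike.mem_coe, Subgroup.mem_subgroupOf, ← h4]
      exact hb
  · rintro z ⟨hzH, hzB⟩
    obtain ⟨w, hw, hwz⟩ := hcen ⟨⟨z, hzH, rfl⟩, hzB⟩
    have hzS : z ∈ (S : Subgroup N) := (hH hzH).1.2
    refine ⟨⟨z, hzS⟩, ?_, rfl⟩
    have hw' : w ∈ center (P : Subgroup G) := hw
    change (⟨z, hzS⟩ : (S : Subgroup N)) ∈ center (S : Subgroup N)
    rw [Subgroup.mem_center_iff] at hw' ⊢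
    intro s
    have h3 := hw' ⟨((s : N) : G), (hS s).mp s.2⟩
    have h4 : ((s : N) : G) * (w : G) = (w : G) * ((s : N) : G) := congrArg Subtype.val h3
    have h5 : (w : G) = z := hwz
    rw [h5] at h4
    apply Subtype.ext
    apply Subtype.ext
    exact h4

end

/-- **The converse direction of Q1.** -/
theorem main_aux (p : ℕ) [Fact p.Prime] (hp2 : p ≠ 2) : ∀ (n : ℕ) (G : Type u) [Group G]
    [Finite G], Nat.card G = n → ∀ (P : Sylow p G),
    PNilpotent p (normalizer ((P : Subgroup G) : Set G)) → Cond2' p (P : Subgroup G) →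
    PNilpotent p G := by
  intro n
  induction n using Nat.strong_induction_on with
  | _ n ih =>
  intro G _ _ hn P h1 h2
  obtain ⟨V, ⟨hVn, hV⟩, hVmax⟩ :=
    (Set.toFinite {V : Subgroup G | V.Normal ∧ IsPGroup p V}).exists_maximal
      ⟨⊥, inferInstance, IsPGroup.of_bot⟩
  have key : ∀ Q : Subgroup G, IsPGroup p Q → V < Q → PNilpotent p (normalizer (Q : Set G)) := by
    by_contra hcon
    push Not at hcon
    obtain ⟨Q0, hQ0⟩ := hcon
    obtain ⟨Q, ⟨hQ, hVQ, hNQ⟩, hmax⟩ := Set.exists_max_image
      {Q : Subgroup G | IsPGroup p Q ∧ V < Q ∧ ¬ PNilpotent p (normalizer (Q : Set G))}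
      (fun Q => Nat.card ((P : Subgroup G) ⊓ normalizer (Q : Set G) : Subgroup G))
      (Set.toFinite _) ⟨Q0, hQ0⟩
    apply hNQ
    obtain ⟨N, hN⟩ : ∃ N : Subgroup G, N = normalizer (Q : Set G) := ⟨_, rfl⟩
    have hmax' : ∀ Q' : Subgroup G, IsPGroup p Q' → V < Q' →
        ¬ PNilpotent p (normalizer (Q' : Set G)) →
        Nat.card ((P : Subgroup G) ⊓ normalizer (Q' : Set G) : Subgroup G)
          ≤ Nat.card ((P : Subgroup G) ⊓ N : Subgroup G) := by
      intro Q' ha hb hc
      rw [hN]
      exact hmax Q' ⟨ha, hb, hc⟩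
    obtain ⟨S, hS⟩ := (P.isPGroup'.comap_subtype (K := N)).exists_le_sylow
    -- `P ⊓ N` is a Sylow subgroup of `N`
    have hSP : ∀ x : N, x ∈ (S : Subgroup N) ↔ (x : G) ∈ (P : Subgroup G) := by
      obtain ⟨P1, hP1⟩ := (S.isPGroup'.map N.subtype).exists_le_sylow
      obtain ⟨g, hg⟩ := MulAction.exists_smul_eq G P P1
      obtain ⟨Q', hQ'⟩ : ∃ Q' : Subgroup G, Q' = Q.map (MulAut.conj g⁻¹).toMonoidHom := ⟨_, rfl⟩
      have hNQ' : normalizer (Q' : Set G)
          = (normalizer (Q : Set G)).map (MulAut.conj g⁻¹).toMonoidHom := by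
        rw [hQ']
        exact (Subgroup.map_equiv_normalizer_eq Q (MulAut.conj g⁻¹)).symm
      have hinj : Function.Injective (MulAut.conj g⁻¹).toMonoidHom :=
        (MulAut.conj g⁻¹).injective
      have hVQ' : V < Q' := by
        refine lt_of_le_of_ne ?_ ?_
        · intro v hv
          rw [hQ']
          refine ⟨g * v * g⁻¹, hVQ.le (hVn.conj_mem v hv g), ?_⟩
          change g⁻¹ * (g * v * g⁻¹) * (g⁻¹)⁻¹ = v
          group
        · intro heq
          have h3 : Nat.card Q' = Nat.card Q := by
            rw [hQ']; exact Subgroup.card_map_of_injective hinj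
          rw [← heq] at h3
          exact absurd h3 (card_lt_of_lt hVQ).ne
      have hQ'n : ¬ PNilpotent p (normalizer (Q' : Set G)) := by
        intro h3
        apply hNQ
        refine h3.of_injective (((MulAut.conj g⁻¹).toMonoidHom.comp
          (normalizer (Q : Set G)).subtype).codRestrict (normalizer (Q' : Set G)) ?_) ?_
        · intro y
          rw [hNQ']
          exact ⟨y, y.2, rfl⟩
        · intro a b hab
          have h4 := congrArg Subtype.val hab
          exact Subtype.ext (hinj h4)
      have hle := hmax' Q' (by rw [hQ']; exact hQ.map _) hVQ' hQ'n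
      have h4 : (((S : Subgroup N).map N.subtype).map (MulAut.conj g⁻¹).toMonoidHom)
          ≤ (P : Subgroup G) ⊓ normalizer (Q' : Set G) := by
        rintro _ ⟨_, ⟨s, hs, rfl⟩, rfl⟩
        refine ⟨?_, ?_⟩
        · have h5 : (s : G) ∈ (P1 : Subgroup G) := hP1 ⟨s, hs, rfl⟩
          rw [← hg] at h5
          change (s : G) ∈ (MulAut.conj g • (P : Subgroup G)) at h5
          rw [Subgroup.mem_pointwise_smul_iff_inv_smul_mem] at h5
          have h6 : g⁻¹ * (s : G) * g ∈ (P : Subgroup G) := by
            simpa [MulAut.smul_def, ← map_inv, mul_assoc] using h5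
          change g⁻¹ * (s : G) * (g⁻¹)⁻¹ ∈ (P : Subgroup G)
          rwa [inv_inv]
        · rw [hNQ', ← hN]
          exact ⟨s, s.2, rfl⟩
      have h5 : Nat.card (S : Subgroup N)
          ≤ Nat.card ((P : Subgroup G) ⊓ normalizer (Q' : Set G) : Subgroup G) := by
        rw [← Subgroup.card_map_of_injective N.subtype_injective,
          ← Subgroup.card_map_of_injective hinj]
        exact Subgroup.card_le_of_le h4
      have h6 : Nat.card ((P : Subgroup G) ⊓ N : Subgroup G)
          = Nat.card ((P : Subgroup G).subgroupOf N) := by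
        rw [← Subgroup.card_map_of_injective N.subtype_injective, Subgroup.subgroupOf_map_subtype]
      have h7 : (P : Subgroup G).subgroupOf N = (S : Subgroup N) := by
        apply Subgroup.eq_of_le_of_card_ge hS
        change Nat.card (S : Subgroup N) ≤ Nat.card ((P : Subgroup G).subgroupOf N)
        rw [← h6]
        exact h5.trans hle
      intro x
      rw [← h7]
      exact Subgroup.mem_subgroupOf
    have hNtop : N ≠ ⊤ := by
      intro h
      rw [hN, Subgroup.normalizer_eq_top_iff] at h
      exact absurd hVQ (not_lt_of_ge (hVmax ⟨h, hQ⟩ hVQ.le))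
    have hNlt : Nat.card N < n := by
      rw [← hn]
      by_contra hge
      push Not at hge
      exact hNtop (Subgroup.eq_top_of_le_card N hge)
    rw [← hN]
    refine ih _ hNlt N rfl S ?_ (cond_sub P h2 N S hSP)
    -- condition (1) for `N`
    obtain ⟨SG, hSG⟩ : ∃ SG : Subgroup G, SG = (P : Subgroup G) ⊓ N := ⟨_, rfl⟩
    have hSGn : PNilpotent p (normalizer (SG : Set G)) := by
      by_cases hPN : (P : Subgroup G) ≤ N
      · rw [hSG, inf_eq_left.mpr hPN]
        exact h1
      · have hlt : SG < (P : Subgroup G) := by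
          refine lt_of_le_of_ne (by rw [hSG]; exact inf_le_left) fun h => hPN ?_
          rw [← h, hSG]
          exact inf_le_right
        have hlt2 := lt_inf_normalizer P.isPGroup' hlt
        by_contra hcon
        have hQSG : Q ≤ SG := by
          rw [hSG]
          have hQN : Q ≤ N := by rw [hN]; exact Subgroup.le_normalizer
          have hQn : (Q.comap N.subtype).Normal := by
            rw [hN]
            exact (inferInstance : (Q.subgroupOf (normalizer (Q : Set G))).Normal)
          have h3 : Q.subgroupOf N ≤ (S : Subgroup N) :=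
            (hQ.comap_subtype (K := N)).le_sylow_of_normal S
          intro y hy
          exact ⟨(hSP ⟨y, hQN hy⟩).mp (h3 hy), hQN hy⟩
        have h3 := hmax' SG (P.isPGroup'.to_le hlt.le) (lt_of_lt_of_le hVQ hQSG) hcon
        rw [← hSG] at h3
        exact absurd (card_lt_of_lt hlt2) (not_lt_of_ge h3)
    refine hSGn.of_injective ((N.subtype.comp
      (normalizer ((S : Subgroup N) : Set N)).subtype).codRestrict (normalizer (SG : Set G)) ?_) ?_
    · intro y
      have hy := y.2
      rw [Subgroup.mem_normalizer_iff] at hy ⊢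
      intro h
      rw [hSG]
      constructor
      · rintro ⟨ha, hb⟩
        have h3 := (hy ⟨h, hb⟩).mp ((hSP ⟨h, hb⟩).mpr ha)
        exact ⟨(hSP _).mp h3, N.mul_mem (N.mul_mem (y : N).2 hb) (N.inv_mem (y : N).2)⟩
      · rintro ⟨ha, hb⟩
        have hb' : h ∈ N := by
          have h4 := N.mul_mem (N.mul_mem (N.inv_mem (y : N).2) hb) (y : N).2
          have h5 : ((y : N) : G)⁻¹ * (((y : N) : G) * h * ((y : N) : G)⁻¹) * ((y : N) : G) = h := by
            group
          rw [← h5]
          exact h4
        have h3 := (hy ⟨h, hb'⟩).mpr ((hSP _).mpr ha)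
        exact ⟨(hSP _).mp h3, hb'⟩
    · intro a b hab
      have h4 := congrArg (fun z : normalizer (SG : Set G) => (z : G)) hab
      exact Subtype.ext (Subtype.ext h4)
  -- Frobenius' theorem for `G / V`
  have hGV : PNilpotent p (G ⧸ V) := by
    apply frobenius
    intro D hD hDne
    obtain ⟨Q, hQ⟩ : ∃ Q : Subgroup G, Q = D.comap (QuotientGroup.mk' V) := ⟨_, rfl⟩
    have hQp : IsPGroup p Q := by
      rw [hQ]
      apply hD.comap_of_ker_isPGroup
      rw [QuotientGroup.ker_mk']
      exact hV
    have hVQ : V < Q := by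
      refine lt_of_le_of_ne ?_ ?_
      · intro v hv
        rw [hQ, Subgroup.mem_comap]
        have : QuotientGroup.mk' V v = 1 := (QuotientGroup.eq_one_iff _).mpr hv
        rw [this]
        exact one_mem D
      · intro heq
        apply hDne
        rw [eq_bot_iff]
        intro y hy
        obtain ⟨g, rfl⟩ := QuotientGroup.mk'_surjective V y
        have hg : g ∈ Q := by rw [hQ]; exact hy
        rw [← heq] at hg
        exact (QuotientGroup.eq_one_iff _).mpr hg
    have h3 := key Q hQp hVQ
    have h4 : normalizer (Q : Set G) = (normalizer (D : Set (G ⧸ V))).comap (QuotientGroup.mk' V) := by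
      rw [hQ]
      exact (Subgroup.comap_normalizer_eq_of_surjective D (QuotientGroup.mk'_surjective V)).symm
    refine h3.of_surjective (((QuotientGroup.mk' V).comp
      (normalizer (Q : Set G)).subtype).codRestrict (normalizer (D : Set (G ⧸ V))) ?_) ?_
    · have h5 : ∀ z, z ∈ normalizer (Q : Set G) →
          QuotientGroup.mk' V z ∈ normalizer (D : Set (G ⧸ V)) := by
        rw [h4]; exact fun z hz => hz
      exact fun y => h5 y y.2
    · intro y
      obtain ⟨g, hg⟩ := QuotientGroup.mk'_surjective V (y : G ⧸ V)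
      refine ⟨⟨g, ?_⟩, Subtype.ext hg⟩
      rw [h4, Subgroup.mem_comap, hg]
      exact y.2
  exact pnilpotent_of_quotient hp2 P h1 h2 hV hGV

end Pool.Agent.Helper88.PN
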