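import Mathlib

/-! Abstract spatial asymptotics for a finite set of low modes plus a high part. -/

set_option autoImplicit false

namespace Phi4A

open Real Filter Topology

/-! ### Comparison lemmas -/

lemma mono_of_hasDeriv {f f' : ℝ → ℝ} {x1 : ℝ} (h : ∀ x, x1 ≤ x → HasDerivAt f (f' x) x)
    (h0 : ∀ x, x1 ≤ x → 0 ≤ f' x) : MonotoneOn f (Set.Ici x1) := by
  apply monotoneOn_of_deriv_nonneg (convex_Ici x1)
  · intro x hx
    exact (h x hx).continuousAt.continuousWithinAt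
  · intro x hx
    rw [interior_Ici] at hx
    exact (h x (le_of_lt hx)).differentiableAt.differentiableWithinAt
  · intro x hx
    rw [interior_Ici] at hx
    rw [(h x (le_of_lt hx)).deriv]
    exact h0 x (le_of_lt hx)

lemma texp {ρ : ℝ} (hρ : 0 < ρ) : Tendsto (fun x : ℝ => exp (-ρ * x)) atTop (𝓝 0) := by
  have h1 : Tendsto (fun x : ℝ => ρ * x) atTop atTop := tendsto_id.const_mul_atTop hρ
  have h2 := tendsto_exp_neg_atTop_nhds_zero.comp h1
  refine h2.congr fun x => ?_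
  simp only [Function.comp, neg_mul]

lemma hasDerivAt_expneg (c ρ x : ℝ) :
    HasDerivAt (fun x : ℝ => c * exp (-ρ * x)) (c * (exp (-ρ * x) * -ρ)) x := by
  have h1 : HasDerivAt (fun x : ℝ => -ρ * x) (-ρ) x := by
    simpa using (hasDerivAt_id x).const_mul (-ρ)
  exact (h1.exp).const_mul c

lemma L1_aux {lam x1 : ℝ} (hlam : 0 ≤ lam) {y y' G γ : ℝ → ℝ}
    (hy : ∀ x, x1 ≤ x → HasDerivAt y (y' x) x)
    (hG : ∀ x, x1 ≤ x → HasDerivAt G (-γ x) x)
    (hG0 : ∀ x, x1 ≤ x → 0 ≤ G x)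
    (hb : ∀ x, x1 ≤ x → |y' x - lam * y x| ≤ γ x)
    (ty : Tendsto y atTop (𝓝 0)) (tG : Tendsto G atTop (𝓝 0)) :
    ∀ x, x1 ≤ x → y x ≤ G x := by
  have hmono : MonotoneOn (fun ξ => exp (-lam * ξ) * (y ξ - G ξ)) (Set.Ici x1) := by
    apply mono_of_hasDeriv
      (f' := fun ξ => exp (-lam * ξ) * -lam * (y ξ - G ξ) + exp (-lam * ξ) * (y' ξ - -γ ξ))
    · intro ξ hξ
      have h1 : HasDerivAt (fun x : ℝ => -lam * x) (-lam) ξ := by
        simpa using (hasDerivAt_id ξ).const_mul (-lam)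
      exact h1.exp.mul ((hy ξ hξ).sub (hG ξ hξ))
    · intro ξ hξ
      have h1 := abs_le.1 (hb ξ hξ)
      have h2 := mul_nonneg hlam (hG0 ξ hξ)
      have h3 : exp (-lam * ξ) * -lam * (y ξ - G ξ) + exp (-lam * ξ) * (y' ξ - -γ ξ)
          = exp (-lam * ξ) * ((y' ξ - lam * y ξ) + lam * G ξ + γ ξ) := by ring
      rw [h3]
      apply mul_nonneg (exp_pos _).le
      linarith [h1.1]
  have tψ : Tendsto (fun ξ => exp (-lam * ξ) * (y ξ - G ξ)) atTop (𝓝 0) := by
    have h1 : Tendsto (fun ξ => |y ξ - G ξ|) atTop (𝓝 0) := by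
      have := (ty.sub tG).abs
      simpa using this
    apply squeeze_zero_norm' _ h1
    filter_upwards [eventually_ge_atTop 0] with ξ hξ
    rw [Real.norm_eq_abs, abs_mul, abs_of_pos (exp_pos _)]
    have h2 : exp (-lam * ξ) ≤ 1 := by
      rw [exp_le_one_iff]
      nlinarith
    nlinarith [abs_nonneg (y ξ - G ξ)]
  intro x hx
  have h1 : exp (-lam * x) * (y x - G x) ≤ 0 := by
    apply ge_of_tendsto tψ
    filter_upwards [eventually_ge_atTop x] with ξ hξ
    exact hmono hx (hx.trans hξ) hξ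
  have h2 : y x - G x ≤ 0 := by
    by_contra hc
    push Not at hc
    have := mul_pos (exp_pos (-lam * x)) hc
    linarith
  linarith

/-- (L1) -/
lemma L1 {lam x1 : ℝ} (hlam : 0 ≤ lam) {y y' G γ : ℝ → ℝ}
    (hy : ∀ x, x1 ≤ x → HasDerivAt y (y' x) x)
    (hG : ∀ x, x1 ≤ x → HasDerivAt G (-γ x) x)
    (hG0 : ∀ x, x1 ≤ x → 0 ≤ G x)
    (hb : ∀ x, x1 ≤ x → |y' x - lam * y x| ≤ γ x)
    (ty : Tendsto y atTop (𝓝 0)) (tG : Tendsto G atTop (𝓝 0)) :
    ∀ x, x1 ≤ x → |y x| ≤ G x := by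
  intro x hx
  rw [abs_le]
  constructor
  · have h := L1_aux (y := fun x => -y x) (y' := fun x => -y' x) hlam
      (fun x hx => (hy x hx).neg) hG hG0
      (fun x hx => by
        have : -y' x - lam * -y x = -(y' x - lam * y x) := by ring
        rw [this, abs_neg]
        exact hb x hx)
      (by simpa using ty.neg) tG x hx
    linarith
  · exact L1_aux hlam hy hG hG0 hb ty tG x hx

lemma L2_aux {lam x : ℝ} (hlam : 0 ≤ lam) {y y' G γ : ℝ → ℝ}
    (hy : ∀ ξ, x ≤ ξ → HasDerivAt y (y' ξ) ξ)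
    (hG : ∀ ξ, x ≤ ξ → HasDerivAt G (-γ ξ) ξ)
    (hγ : ∀ ξ, x ≤ ξ → 0 ≤ γ ξ)
    (hG0 : ∀ ξ, x ≤ ξ → 0 ≤ G ξ)
    (hb : ∀ ξ, x ≤ ξ → |y' ξ + lam * y ξ| ≤ γ ξ) :
    ∀ ξ, x ≤ ξ → y ξ ≤ exp (-lam * (ξ - x)) * |y x| + G x := by
  have hGanti : ∀ ξ, x ≤ ξ → G ξ ≤ G x := by
    have hm : MonotoneOn (fun ξ => -G ξ) (Set.Ici x) := by
      apply mono_of_hasDeriv (f' := fun ξ => - -γ ξ)
      · intro ξ hξ
        exact (hG ξ hξ).neg
      · intro ξ hξ
        simpa using hγ ξ hξ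
    intro ξ hξ
    have := hm (Set.mem_Ici.2 le_rfl) hξ hξ
    simp only at this
    linarith
  have hmono : MonotoneOn (fun ξ => exp (lam * (ξ - x)) * (G x - G ξ) -
      (exp (lam * (ξ - x)) * y ξ - y x)) (Set.Ici x) := by
    apply mono_of_hasDeriv
      (f' := fun ξ => (exp (lam * (ξ - x)) * lam * (G x - G ξ) +
        exp (lam * (ξ - x)) * (0 - -γ ξ)) -
        (exp (lam * (ξ - x)) * lam * y ξ + exp (lam * (ξ - x)) * y' ξ - 0))
    · intro ξ hξ
      have h1 : HasDerivAt (fun z : ℝ => lam * (z - x)) lam ξ := by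
        simpa using ((hasDerivAt_id ξ).sub_const x).const_mul lam
      have h2 : HasDerivAt (fun z : ℝ => G x - G z) (0 - -γ ξ) ξ :=
        (hasDerivAt_const ξ (G x)).sub (hG ξ hξ)
      exact (h1.exp.mul h2).sub ((h1.exp.mul (hy ξ hξ)).sub (hasDerivAt_const ξ (y x)))
    · intro ξ hξ
      have h1 := abs_le.1 (hb ξ hξ)
      have h2 : 0 ≤ lam * (G x - G ξ) := mul_nonneg hlam (by linarith [hGanti ξ hξ])
      have h3 : (exp (lam * (ξ - x)) * lam * (G x - G ξ) +
        exp (lam * (ξ - x)) * (0 - -γ ξ)) -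
        (exp (lam * (ξ - x)) * lam * y ξ + exp (lam * (ξ - x)) * y' ξ - 0)
          = exp (lam * (ξ - x)) * (lam * (G x - G ξ) + γ ξ - (y' ξ + lam * y ξ)) := by ring
      rw [h3]
      apply mul_nonneg (exp_pos _).le
      linarith [h1.2]
  intro ξ hξ
  have h1 := hmono (Set.mem_Ici.2 le_rfl) hξ hξ
  simp only [sub_self, mul_zero, exp_zero, one_mul] at h1
  have h2 : exp (-lam * (ξ - x)) * exp (lam * (ξ - x)) = 1 := by
    rw [← exp_add]
    have : -lam * (ξ - x) + lam * (ξ - x) = 0 := by ring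
    rw [this, exp_zero]
  have hp := exp_pos (-lam * (ξ - x))
  have h3 : exp (lam * (ξ - x)) * y ξ ≤ y x + exp (lam * (ξ - x)) * (G x - G ξ) := by linarith
  have h4 := mul_le_mul_of_nonneg_left h3 hp.le
  have h5 : exp (-lam * (ξ - x)) * (exp (lam * (ξ - x)) * y ξ) = y ξ := by
    rw [← mul_assoc, h2, one_mul]
  have h6 : exp (-lam * (ξ - x)) * (y x + exp (lam * (ξ - x)) * (G x - G ξ))
      = exp (-lam * (ξ - x)) * y x + (G x - G ξ) := by
    rw [mul_add, ← mul_assoc, h2, one_mul]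
  rw [h5, h6] at h4
  have h7 : exp (-lam * (ξ - x)) * y x ≤ exp (-lam * (ξ - x)) * |y x| :=
    mul_le_mul_of_nonneg_left (le_abs_self _) hp.le
  linarith [hG0 ξ hξ]

/-- (L2) -/
lemma L2 {lam x : ℝ} (hlam : 0 ≤ lam) {y y' G γ : ℝ → ℝ}
    (hy : ∀ ξ, x ≤ ξ → HasDerivAt y (y' ξ) ξ)
    (hG : ∀ ξ, x ≤ ξ → HasDerivAt G (-γ ξ) ξ)
    (hγ : ∀ ξ, x ≤ ξ → 0 ≤ γ ξ)
    (hG0 : ∀ ξ, x ≤ ξ → 0 ≤ G ξ)
    (hb : ∀ ξ, x ≤ ξ → |y' ξ + lam * y ξ| ≤ γ ξ) :
    ∀ ξ, x ≤ ξ → |y ξ| ≤ exp (-lam * (ξ - x)) * |y x| + G x := by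
  intro ξ hξ
  rw [abs_le]
  constructor
  · have h := L2_aux (y := fun x => -y x) (y' := fun x => -y' x) hlam
      (fun x hx => (hy x hx).neg) hG hγ hG0
      (fun x hx => by
        have : -y' x + lam * -y x = -(y' x + lam * y x) := by ring
        rw [this, abs_neg]
        exact hb x hx) ξ hξ
    simp only [abs_neg] at h
    linarith
  · exact L2_aux hlam hy hG hγ hG0 hb ξ hξ

/-- (L3) -/
lemma L3 {lam ρ K X : ℝ} (hlr : lam < ρ) (hK : 0 ≤ K) {y y' : ℝ → ℝ}
    (hy : ∀ x, X ≤ x → HasDerivAt y (y' x) x)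
    (hb : ∀ x, X ≤ x → |y' x + lam * y x| ≤ K * exp (-ρ * x)) :
    ∃ c, ∀ x, X ≤ x → |y x - c * exp (-lam * x)| ≤ K / (ρ - lam) * exp (-ρ * x) := by
  have hd : 0 < ρ - lam := by linarith
  set E : ℝ → ℝ := fun x => K / (ρ - lam) * exp (-(ρ - lam) * x) with hE
  have hE' : ∀ x, HasDerivAt E (-(K * exp (-(ρ - lam) * x))) x := by
    intro x
    have h := hasDerivAt_expneg (K / (ρ - lam)) (ρ - lam) x
    have h2 : K / (ρ - lam) * (exp (-(ρ - lam) * x) * -(ρ - lam))
        = -(K * exp (-(ρ - lam) * x)) := by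
      field_simp
    rw [h2] at h
    exact h
  have hE0 : ∀ x, 0 ≤ E x := fun x => mul_nonneg (div_nonneg hK hd.le) (exp_pos _).le
  have hEt : Tendsto E atTop (𝓝 0) := by
    have := (texp hd).const_mul (K / (ρ - lam))
    simpa [hE] using this
  have hlin : ∀ x : ℝ, HasDerivAt (fun x : ℝ => lam * x) lam x := fun x => by
    simpa using (hasDerivAt_id x).const_mul lam
  have hz' : ∀ x, X ≤ x → HasDerivAt (fun x => exp (lam * x) * y x)
      (exp (lam * x) * (y' x + lam * y x)) x := by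
    intro x hx
    have h := (hlin x).exp.mul (hy x hx)
    have h2 : exp (lam * x) * lam * y x + exp (lam * x) * y' x
        = exp (lam * x) * (y' x + lam * y x) := by ring
    rw [h2] at h
    exact h
  have hbz : ∀ x, X ≤ x → |exp (lam * x) * (y' x + lam * y x)| ≤ K * exp (-(ρ - lam) * x) := by
    intro x hx
    rw [abs_mul, abs_of_pos (exp_pos _)]
    have h1 := mul_le_mul_of_nonneg_left (hb x hx) (exp_pos (lam * x)).le
    have h2 : exp (lam * x) * (K * exp (-ρ * x)) = K * exp (-(ρ - lam) * x) := by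
      have : exp (-(ρ - lam) * x) = exp (lam * x) * exp (-ρ * x) := by
        rw [← exp_add]; congr 1; ring
      rw [this]; ring
    rw [h2] at h1
    exact h1
  have hmono : MonotoneOn (fun x => exp (lam * x) * y x - E x) (Set.Ici X) := by
    apply mono_of_hasDeriv
      (f' := fun x => exp (lam * x) * (y' x + lam * y x) - -(K * exp (-(ρ - lam) * x)))
    · intro x hx
      exact (hz' x hx).sub (hE' x)
    · intro x hx
      have := (abs_le.1 (hbz x hx)).1
      linarith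
  have hmono2 : MonotoneOn (fun x => -(exp (lam * x) * y x + E x)) (Set.Ici X) := by
    apply mono_of_hasDeriv
      (f' := fun x => -(exp (lam * x) * (y' x + lam * y x) + -(K * exp (-(ρ - lam) * x))))
    · intro x hx
      exact ((hz' x hx).add (hE' x)).neg
    · intro x hx
      have := (abs_le.1 (hbz x hx)).2
      linarith
  -- the limit
  set F : ℝ → ℝ := fun x => exp (lam * max X x) * y (max X x) - E (max X x) with hF
  have hFm : Monotone F := by
    intro x1 x2 h12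
    exact hmono (Set.mem_Ici.2 (le_max_left _ _)) (Set.mem_Ici.2 (le_max_left _ _))
      (max_le_max le_rfl h12)
  have hFb : BddAbove (Set.range F) := by
    refine ⟨exp (lam * X) * y X + E X, ?_⟩
    rintro _ ⟨x, rfl⟩
    have h1 := hmono2 (Set.mem_Ici.2 le_rfl) (Set.mem_Ici.2 (le_max_left X x)) (le_max_left X x)
    simp only at h1
    have h2 := hE0 (max X x)
    simp only [hF]
    linarith
  have hFt := tendsto_atTop_ciSup hFm hFb
  set c := ⨆ i, F i with hc
  have hzt : Tendsto (fun x => exp (lam * x) * y x - E x) atTop (𝓝 c) := by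
    refine hFt.congr' ?_
    filter_upwards [eventually_ge_atTop X] with x hx
    simp only [hF, max_eq_right hx]
  have hzt2 : Tendsto (fun x => -(exp (lam * x) * y x + E x)) atTop (𝓝 (-c)) := by
    have h1 : Tendsto (fun x => exp (lam * x) * y x - E x + 2 * E x) atTop (𝓝 (c + 2 * 0)) :=
      hzt.add (hEt.const_mul 2)
    have h2 : Tendsto (fun x => -(exp (lam * x) * y x - E x + 2 * E x)) atTop
        (𝓝 (-(c + 2 * 0))) := h1.neg
    have h3 : -(c + 2 * 0) = -c := by ring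
    rw [h3] at h2
    refine h2.congr fun x => ?_
    ring
  refine ⟨c, fun x hx => ?_⟩
  have h1 : exp (lam * x) * y x - E x ≤ c := by
    apply ge_of_tendsto hzt
    filter_upwards [eventually_ge_atTop x] with ξ hξ
    exact hmono hx (hx.trans hξ) hξ
  have h2 : -(exp (lam * x) * y x + E x) ≤ -c := by
    apply ge_of_tendsto hzt2
    filter_upwards [eventually_ge_atTop x] with ξ hξ
    exact hmono2 hx (hx.trans hξ) hξ
  have h3 : |exp (lam * x) * y x - c| ≤ E x := by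
    rw [abs_le]; constructor <;> linarith
  have h4 : y x - c * exp (-lam * x) = exp (-lam * x) * (exp (lam * x) * y x - c) := by
    have : exp (-lam * x) * exp (lam * x) = 1 := by
      rw [← exp_add]
      have : -lam * x + lam * x = 0 := by ring
      rw [this, exp_zero]
    rw [mul_sub, ← mul_assoc, this, one_mul]
    ring
  rw [h4, abs_mul, abs_of_pos (exp_pos _)]
  have h5 := mul_le_mul_of_nonneg_left h3 (exp_pos (-lam * x)).le
  have h6 : exp (-lam * x) * E x = K / (ρ - lam) * exp (-ρ * x) := by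
    have : exp (-ρ * x) = exp (-lam * x) * exp (-(ρ - lam) * x) := by
      rw [← exp_add]; congr 1; ring
    simp only [hE]
    rw [this]; ring
  rw [h6] at h5
  exact h5

/-- (L4) -/
lemma L4 {lam ρ σ K X : ℝ} (hsl : σ ≤ lam) (hsr : σ < ρ) (hK : 0 ≤ K) {y y' : ℝ → ℝ}
    (hy : ∀ x, X ≤ x → HasDerivAt y (y' x) x)
    (hb : ∀ x, X ≤ x → |y' x + lam * y x| ≤ K * exp (-ρ * x)) :
    ∃ C, 0 ≤ C ∧ ∀ x, X ≤ x → |y x| ≤ C * exp (-σ * x) := by
  have hd : 0 < ρ - σ := by linarith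
  have hlin : ∀ x : ℝ, HasDerivAt (fun x : ℝ => σ * x) σ x := fun x => by
    simpa using (hasDerivAt_id x).const_mul σ
  have h := L2 (lam := lam - σ) (x := X) (y := fun x => exp (σ * x) * y x)
    (y' := fun x => exp (σ * x) * σ * y x + exp (σ * x) * y' x)
    (G := fun x => K / (ρ - σ) * exp (-(ρ - σ) * x))
    (γ := fun x => K * exp (-(ρ - σ) * x)) (by linarith)
    (fun x hx => (hlin x).exp.mul (hy x hx))
    (fun x _ => by
      have h := hasDerivAt_expneg (K / (ρ - σ)) (ρ - σ) x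
      have h2 : K / (ρ - σ) * (exp (-(ρ - σ) * x) * -(ρ - σ))
          = -(K * exp (-(ρ - σ) * x)) := by
        field_simp
      rw [h2] at h
      exact h)
    (fun x _ => mul_nonneg hK (exp_pos _).le)
    (fun x _ => mul_nonneg (div_nonneg hK hd.le) (exp_pos _).le)
    (fun x hx => by
      have h1 : exp (σ * x) * σ * y x + exp (σ * x) * y' x + (lam - σ) * (exp (σ * x) * y x)
          = exp (σ * x) * (y' x + lam * y x) := by ring
      rw [h1, abs_mul, abs_of_pos (exp_pos _)]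
      have h2 := mul_le_mul_of_nonneg_left (hb x hx) (exp_pos (σ * x)).le
      have h3 : exp (σ * x) * (K * exp (-ρ * x)) = K * exp (-(ρ - σ) * x) := by
        have : exp (-(ρ - σ) * x) = exp (σ * x) * exp (-ρ * x) := by
          rw [← exp_add]; congr 1; ring
        rw [this]; ring
      rw [h3] at h2
      exact h2)
  set G0 : ℝ := K / (ρ - σ) * exp (-(ρ - σ) * X) with hG0
  have hG0n : 0 ≤ G0 := mul_nonneg (div_nonneg hK hd.le) (exp_pos _).le
  refine ⟨|exp (σ * X) * y X| + G0, add_nonneg (abs_nonneg _) hG0n, fun x hx => ?_⟩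
  have h1 : |exp (σ * x) * y x| ≤ exp (-(lam - σ) * (x - X)) * |exp (σ * X) * y X| + G0 :=
    h x hx
  have h2 : exp (-(lam - σ) * (x - X)) ≤ 1 := by
    rw [exp_le_one_iff]
    nlinarith
  have h3 : |exp (σ * x) * y x| ≤ |exp (σ * X) * y X| + G0 := by
    have := mul_le_mul_of_nonneg_right h2 (abs_nonneg (exp (σ * X) * y X))
    linarith
  rw [abs_mul, abs_of_pos (exp_pos _)] at h3
  have h4 : |y x| = exp (-σ * x) * (exp (σ * x) * |y x|) := by
    rw [← mul_assoc, ← exp_add]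
    have : -σ * x + σ * x = 0 := by ring
    rw [this, exp_zero, one_mul]
  rw [h4, mul_comm]
  exact mul_le_mul_of_nonneg_right h3 (exp_pos _).le

/-- (L5) -/
lemma L5 {x1 : ℝ} {En dEn G γ : ℝ → ℝ} (hEn0 : ∀ x, 0 ≤ En x)
    (hEn : ∀ x, x1 ≤ x → HasDerivAt En (dEn x) x)
    (hG : ∀ x, x1 ≤ x → HasDerivAt G (-γ x) x)
    (hγ : ∀ x, x1 ≤ x → 0 ≤ γ x)
    (hb : ∀ x, x1 ≤ x → |dEn x| ≤ 2 * √(En x) * γ x)
    (tE : Tendsto En atTop (𝓝 0)) (tG : Tendsto G atTop (𝓝 0)) :
    ∀ x, x1 ≤ x → √(En x) ≤ G x := by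
  intro x hx
  have key : ∀ ε : ℝ, 0 < ε → √(En x) ≤ G x + √ε := by
    intro ε hε
    have hpos : ∀ x, 0 < En x + ε := fun x => by linarith [hEn0 x]
    have hmono : MonotoneOn (fun ξ => √(En ξ + ε) - G ξ) (Set.Ici x1) := by
      apply mono_of_hasDeriv (f' := fun ξ => dEn ξ / (2 * √(En ξ + ε)) - -γ ξ)
      · intro ξ hξ
        exact (((hEn ξ hξ).add_const ε).sqrt (hpos ξ).ne').sub (hG ξ hξ)
      · intro ξ hξ
        have h1 : 0 < √(En ξ + ε) := Real.sqrt_pos.2 (hpos ξ)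
        have h2 : √(En ξ) ≤ √(En ξ + ε) := Real.sqrt_le_sqrt (by linarith)
        have h3 : -(γ ξ) ≤ dEn ξ / (2 * √(En ξ + ε)) := by
          rw [le_div_iff₀ (by linarith)]
          have h4 := (abs_le.1 (hb ξ hξ)).1
          have h5 := mul_le_mul_of_nonneg_right h2 (hγ ξ hξ)
          nlinarith
        linarith
    have ht : Tendsto (fun ξ => √(En ξ + ε) - G ξ) atTop (𝓝 (√(0 + ε) - 0)) :=
      ((tE.add_const ε).sqrt).sub tG
    have h1 : √(En x + ε) - G x ≤ √(0 + ε) - 0 := by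
      apply ge_of_tendsto ht
      filter_upwards [eventually_ge_atTop x] with ξ hξ
      exact hmono hx (hx.trans hξ) hξ
    rw [zero_add, sub_zero] at h1
    have h2 : √(En x) ≤ √(En x + ε) := Real.sqrt_le_sqrt (by linarith)
    linarith
  have ht : Tendsto (fun ε : ℝ => G x + √ε) (𝓝[>] 0) (𝓝 (G x + √0)) := by
    apply Tendsto.mono_left _ nhdsWithin_le_nhds
    exact (continuous_const.add Real.continuous_sqrt).tendsto 0
  rw [Real.sqrt_zero, add_zero] at ht
  apply ge_of_tendsto ht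
  filter_upwards [self_mem_nhdsWithin] with ε hε
  exact key ε hε

/-! ### The system -/

/-- all hypotheses with explicit constants -/
structure Sys {J : ℕ} (T : ℝ) (lam : Fin J → ℝ) (al be g : Fin J → ℝ → ℝ) (En dEn n : ℝ → ℝ)
    (Kf X0 Ku Kl Kd : ℝ) : Prop where
  hT : 0 < T
  hlam : ∀ j, 0 ≤ lam j
  hal : ∀ j x, HasDerivAt (al j) (be j x) x
  hbe : ∀ j x, HasDerivAt (be j) (lam j ^ 2 * al j x + g j x) x
  hEn0 : ∀ x, 0 ≤ En x
  hEn : ∀ x, HasDerivAt En (dEn x) x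
  hn0 : ∀ x, 0 ≤ n x
  hKf : 0 ≤ Kf
  hforce : ∀ x, X0 ≤ x → ∀ B : ℝ, 0 ≤ B → (∀ y, |y - x| ≤ T → n y ≤ B) →
      (∀ j, |g j x| ≤ Kf * B ^ 3) ∧ |dEn x| ≤ 2 * √(En x) * (Kf * B ^ 3)
  hKu : 0 ≤ Ku
  hupper : ∀ x, n x ≤ Ku * (√(En x) + ∑ j, (|al j x| + |be j x|))
  hKl : 0 ≤ Kl
  hlowE : ∀ x, √(En x) ≤ Kl * n x
  hlowa : ∀ x j, |al j x| ≤ Kl * n x
  hlowb : ∀ x j, |be j x| ≤ Kl * n x
  hKd : 0 ≤ Kd
  hdecay : ∀ x, 1 ≤ x → n x ≤ Kd / x ^ 2

/-- exponential decay with rate `α` -/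
def P (n : ℝ → ℝ) (α : ℝ) : Prop := ∃ C X : ℝ, ∀ x, X ≤ x → n x ≤ C * exp (-α * x)

section

variable {J : ℕ} {T : ℝ} {lam : Fin J → ℝ} {al be g : Fin J → ℝ → ℝ} {En dEn n : ℝ → ℝ}
  {Kf X0 Ku Kl Kd : ℝ}

lemma Sys.tn (S : Sys T lam al be g En dEn n Kf X0 Ku Kl Kd) : Tendsto n atTop (𝓝 0) := by
  have h1 : Tendsto (fun x : ℝ => Kd / x ^ 2) atTop (𝓝 0) :=
    tendsto_const_nhds.div_atTop (tendsto_pow_atTop (by norm_num))
  apply squeeze_zero' _ _ h1
  · exact Eventually.of_forall S.hn0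
  · filter_upwards [eventually_ge_atTop 1] with x hx
    exact S.hdecay x hx

lemma Sys.tKn (S : Sys T lam al be g En dEn n Kf X0 Ku Kl Kd) :
    Tendsto (fun x => Kl * n x) atTop (𝓝 0) := by
  simpa using S.tn.const_mul Kl

lemma Sys.tal (S : Sys T lam al be g En dEn n Kf X0 Ku Kl Kd) (j : Fin J) :
    Tendsto (al j) atTop (𝓝 0) := by
  apply squeeze_zero_norm _ S.tKn
  intro x
  rw [Real.norm_eq_abs]
  exact S.hlowa x j

lemma Sys.tbe (S : Sys T lam al be g En dEn n Kf X0 Ku Kl Kd) (j : Fin J) :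
    Tendsto (be j) atTop (𝓝 0) := by
  apply squeeze_zero_norm _ S.tKn
  intro x
  rw [Real.norm_eq_abs]
  exact S.hlowb x j

lemma Sys.tE (S : Sys T lam al be g En dEn n Kf X0 Ku Kl Kd) : Tendsto En atTop (𝓝 0) := by
  have h1 : Tendsto (fun x => (Kl * n x) ^ 2) atTop (𝓝 0) := by
    simpa using S.tKn.pow 2
  apply squeeze_zero S.hEn0 _ h1
  intro x
  have h2 := S.hlowE x
  have h3 := Real.sq_sqrt (S.hEn0 x)
  have h4 := Real.sqrt_nonneg (En x)
  nlinarith

lemma Sys.zp (S : Sys T lam al be g En dEn n Kf X0 Ku Kl Kd) (j : Fin J) (x : ℝ) :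
    HasDerivAt (fun x => be j x + lam j * al j x)
      ((lam j ^ 2 * al j x + g j x) + lam j * be j x) x :=
  (S.hbe j x).add ((S.hal j x).const_mul _)

lemma Sys.zm (S : Sys T lam al be g En dEn n Kf X0 Ku Kl Kd) (j : Fin J) (x : ℝ) :
    HasDerivAt (fun x => be j x - lam j * al j x)
      ((lam j ^ 2 * al j x + g j x) - lam j * be j x) x :=
  (S.hbe j x).sub ((S.hal j x).const_mul _)

lemma Sys.core (S : Sys T lam al be g En dEn n Kf X0 Ku Kl Kd) {x1 : ℝ} {G γ : ℝ → ℝ}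
    (hG : ∀ x, x1 ≤ x → HasDerivAt G (-γ x) x)
    (hγ : ∀ x, x1 ≤ x → 0 ≤ γ x)
    (hG0 : ∀ x, x1 ≤ x → 0 ≤ G x) (tG : Tendsto G atTop (𝓝 0))
    (hg : ∀ x, x1 ≤ x → (∀ j, |g j x| ≤ γ x) ∧ |dEn x| ≤ 2 * √(En x) * γ x) :
    ∀ x, x1 ≤ x → √(En x) ≤ G x ∧ ∀ j, |be j x + lam j * al j x| ≤ G x := by
  intro x hx
  refine ⟨L5 S.hEn0 (fun x _ => S.hEn x) hG hγ (fun x hx => (hg x hx).2) S.tE tG x hx, ?_⟩
  intro j
  refine L1 (y := fun x => be j x + lam j * al j x) (S.hlam j) (fun x _ => S.zp j x) hG hG0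
    ?_ ?_ tG x hx
  · intro x hx
    have h1 : (lam j ^ 2 * al j x + g j x) + lam j * be j x - lam j * (be j x + lam j * al j x)
        = g j x := by ring
    rw [h1]
    exact (hg x hx).1 j
  · have := (S.tbe j).add ((S.tal j).const_mul (lam j))
    simpa using this

lemma Sys.zm_bound (S : Sys T lam al be g En dEn n Kf X0 Ku Kl Kd) (j : Fin J) (x : ℝ) :
    |be j x - lam j * al j x| ≤ (1 + lam j) * (Kl * n x) := by
  have h1 := S.hlowa x j
  have h2 := S.hlowb x j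
  have h3 := S.hlam j
  calc |be j x - lam j * al j x| ≤ |be j x| + |lam j * al j x| := abs_sub _ _
    _ = |be j x| + lam j * |al j x| := by rw [abs_mul, abs_of_nonneg h3]
    _ ≤ Kl * n x + lam j * (Kl * n x) := add_le_add h2 (mul_le_mul_of_nonneg_left h1 h3)
    _ = (1 + lam j) * (Kl * n x) := by ring

lemma recover {l a b p q : ℝ} (hl : 0 < l) (hp : |b + l * a| ≤ p) (hq : |b - l * a| ≤ q) :
    |a| + |b| ≤ (1 / (2 * l) + 1 / 2) * (p + q) := by
  have h1 : |b| ≤ (p + q) / 2 := by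
    have : b = ((b + l * a) + (b - l * a)) / 2 := by ring
    rw [this, abs_div, abs_two]
    have := abs_add_le (b + l * a) (b - l * a)
    linarith
  have h2 : |a| ≤ (p + q) / (2 * l) := by
    have : a = ((b + l * a) - (b - l * a)) / (2 * l) := by
      field_simp
      ring
    rw [this, abs_div, abs_of_pos (by linarith : (0:ℝ) < 2 * l)]
    apply div_le_div_of_nonneg_right _ (by linarith)
    have := abs_sub (b + l * a) (b - l * a)
    linarith
  have h3 : (1 / (2 * l) + 1 / 2) * (p + q) = (p + q) / (2 * l) + (p + q) / 2 := by ring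
  rw [h3]
  linarith

/-! ### Step 1: exponential decay -/

/-- coefficient of the small part -/
noncomputable def cA (l : ℝ) : ℝ := if l = 0 then 2 else (1 / (2 * l) + 1 / 2) * 2

/-- coefficient of the decaying part -/
noncomputable def cD (Kl l t : ℝ) : ℝ :=
  if l = 0 then 0 else (1 / (2 * l) + 1 / 2) * ((1 + l) * Kl * exp (-l * t))

lemma cA_nonneg {l : ℝ} (hl : 0 ≤ l) : 0 ≤ cA l := by
  unfold cA
  split_ifs
  · norm_num
  · positivity

lemma cD_tendsto {l : ℝ} (hl : 0 ≤ l) (Kl : ℝ) : Tendsto (cD Kl l) atTop (𝓝 0) := by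
  unfold cD
  split_ifs with h
  · exact tendsto_const_nhds
  · have h1 : 0 < l := lt_of_le_of_ne hl (Ne.symm h)
    have h2 := ((texp h1).const_mul ((1 + l) * Kl)).const_mul (1 / (2 * l) + 1 / 2)
    simpa using h2

lemma cD_anti {Kl l s t : ℝ} (hKl : 0 ≤ Kl) (hl : 0 ≤ l) (hst : s ≤ t) :
    cD Kl l t ≤ cD Kl l s := by
  unfold cD
  split_ifs with h
  · exact le_rfl
  · have h2 : exp (-l * t) ≤ exp (-l * s) := by
      apply exp_le_exp.2
      nlinarith
    have h3 : 0 ≤ (1 + l) * Kl := by positivity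
    have h4 : 0 ≤ 1 / (2 * l) + 1 / 2 := by positivity
    exact mul_le_mul_of_nonneg_left (mul_le_mul_of_nonneg_left h2 h3) h4

lemma Sys.step1_bound (S : Sys T lam al be g En dEn n Kf X0 Ku Kl Kd) {x b : ℝ}
    (hx0 : X0 ≤ x) (hx1 : 1 ≤ x - T) (hb0 : 0 ≤ b) (hb : ∀ y, x - T ≤ y → n y ≤ b) :
    ∀ y, x ≤ y → n y ≤ Ku * ((1 + ∑ j, cA (lam j)) * (Kf * Kd ^ 2) * ((x - T) ^ 2)⁻¹ +
      ∑ j, cD Kl (lam j) (y - x)) * b := by
  set κ : ℝ := Kf * Kd ^ 2 * b with hκ
  have hκ0 : 0 ≤ κ := by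
    have := S.hKf
    positivity
  set s : ℝ := ((x - T) ^ 2)⁻¹ with hs
  have hs0 : 0 ≤ s := by positivity
  -- the comparison functions
  have dG1 : ∀ ξ, x ≤ ξ → HasDerivAt (fun ξ : ℝ => κ / 3 * ((ξ - T) ^ 3)⁻¹)
      (-(κ * ((ξ - T) ^ 4)⁻¹)) ξ := by
    intro ξ hξ
    have h0 : 0 < ξ - T := by linarith
    have h1 : HasDerivAt (fun ξ : ℝ => ξ - T) 1 ξ := (hasDerivAt_id ξ).sub_const T
    have h2 := ((h1.pow 3).inv (pow_ne_zero 3 h0.ne')).const_mul (κ / 3)
    refine h2.congr_deriv ?_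
    field_simp
    norm_num
    ring
  have dG2 : ∀ ξ, x ≤ ξ → HasDerivAt (fun ξ : ℝ => κ / 6 * ((ξ - T) ^ 2)⁻¹)
      (-(κ / 3 * ((ξ - T) ^ 3)⁻¹)) ξ := by
    intro ξ hξ
    have h0 : 0 < ξ - T := by linarith
    have h1 : HasDerivAt (fun ξ : ℝ => ξ - T) 1 ξ := (hasDerivAt_id ξ).sub_const T
    have h2 := ((h1.pow 2).inv (pow_ne_zero 2 h0.ne')).const_mul (κ / 6)
    refine h2.congr_deriv ?_
    field_simp
    norm_num
    ring
  have tshift : Tendsto (fun ξ : ℝ => ξ - T) atTop atTop :=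
    tendsto_atTop_add_const_right atTop (-T) tendsto_id
  have tG1 : Tendsto (fun ξ : ℝ => κ / 3 * ((ξ - T) ^ 3)⁻¹) atTop (𝓝 0) := by
    have h1 := ((tendsto_pow_atTop (α := ℝ) (n := 3) (by norm_num)).comp tshift)
    have h2 := (tendsto_inv_atTop_zero.comp h1).const_mul (κ / 3)
    simpa using h2
  have tG2 : Tendsto (fun ξ : ℝ => κ / 6 * ((ξ - T) ^ 2)⁻¹) atTop (𝓝 0) := by
    have h1 := ((tendsto_pow_atTop (α := ℝ) (n := 2) (by norm_num)).comp tshift)
    have h2 := (tendsto_inv_atTop_zero.comp h1).const_mul (κ / 6)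
    simpa using h2
  have hforce : ∀ ξ, x ≤ ξ → (∀ j, |g j ξ| ≤ κ * ((ξ - T) ^ 4)⁻¹) ∧
      |dEn ξ| ≤ 2 * √(En ξ) * (κ * ((ξ - T) ^ 4)⁻¹) := by
    intro ξ hξ
    have h0 : 0 < ξ - T := by linarith
    set B : ℝ := min b (Kd / (ξ - T) ^ 2) with hB
    have hKd := S.hKd
    have hq0 : 0 ≤ Kd / (ξ - T) ^ 2 := by positivity
    have hB0 : 0 ≤ B := le_min hb0 hq0
    have hBn : ∀ y, |y - ξ| ≤ T → n y ≤ B := by
      intro y hy
      have hy1 := (abs_le.1 hy).1
      apply le_min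
      · exact hb y (by linarith)
      · refine (S.hdecay y (by linarith)).trans ?_
        apply div_le_div_of_nonneg_left hKd (by positivity)
        apply pow_le_pow_left₀ h0.le
        linarith
    have hB3 : Kf * B ^ 3 ≤ κ * ((ξ - T) ^ 4)⁻¹ := by
      have h1 : B ^ 3 ≤ b * (Kd / (ξ - T) ^ 2) ^ 2 := by
        have h2 : B ^ 2 ≤ (Kd / (ξ - T) ^ 2) ^ 2 := pow_le_pow_left₀ hB0 (min_le_right _ _) 2
        have h3 : B ^ 3 = B * B ^ 2 := by ring
        rw [h3]
        exact mul_le_mul (min_le_left _ _) h2 (sq_nonneg _) hb0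
      have h4 := mul_le_mul_of_nonneg_left h1 S.hKf
      have h5 : Kf * (b * (Kd / (ξ - T) ^ 2) ^ 2) = κ * ((ξ - T) ^ 4)⁻¹ := by
        rw [hκ]
        field_simp
      rw [h5] at h4
      exact h4
    obtain ⟨h1, h2⟩ := S.hforce ξ (hx0.trans hξ) B hB0 hBn
    refine ⟨fun j => (h1 j).trans hB3, h2.trans ?_⟩
    exact mul_le_mul_of_nonneg_left hB3 (by positivity)
  have hγ0 : ∀ ξ, x ≤ ξ → 0 ≤ κ * ((ξ - T) ^ 4)⁻¹ := fun ξ _ => by positivity
  have hG10 : ∀ ξ, x ≤ ξ → 0 ≤ κ / 3 * ((ξ - T) ^ 3)⁻¹ := fun ξ hξ => by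
    have h0 : 0 < ξ - T := by linarith
    positivity
  have hG20 : ∀ ξ, x ≤ ξ → 0 ≤ κ / 6 * ((ξ - T) ^ 2)⁻¹ := fun ξ hξ => by positivity
  have hcore := S.core dG1 hγ0 hG10 tG1 hforce
  have hG1s : ∀ ξ, x ≤ ξ → κ / 3 * ((ξ - T) ^ 3)⁻¹ ≤ κ * s := by
    intro ξ hξ
    have h0 : 0 < x - T := by linarith
    have h2 : (x - T) ^ 2 ≤ (ξ - T) ^ 3 := by
      have h3 : (x - T) ^ 2 ≤ (ξ - T) ^ 2 := pow_le_pow_left₀ h0.le (by linarith) 2
      have h4 : (ξ - T) ^ 2 ≤ (ξ - T) ^ 3 := pow_le_pow_right₀ (by linarith) (by norm_num)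
      exact h3.trans h4
    have h5 : ((ξ - T) ^ 3)⁻¹ ≤ s := inv_anti₀ (by positivity) h2
    have h6 : κ / 3 ≤ κ := by linarith
    exact mul_le_mul h6 h5 (by have : 0 < ξ - T := by linarith
                               positivity) hκ0
  have hG2s : ∀ ξ, x ≤ ξ → κ / 6 * ((ξ - T) ^ 2)⁻¹ ≤ κ * s := by
    intro ξ hξ
    have h0 : 0 < x - T := by linarith
    have h3 : (x - T) ^ 2 ≤ (ξ - T) ^ 2 := pow_le_pow_left₀ h0.le (by linarith) 2
    have h5 : ((ξ - T) ^ 2)⁻¹ ≤ s := inv_anti₀ (by positivity) h3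
    have h6 : κ / 6 ≤ κ := by linarith
    exact mul_le_mul h6 h5 (by positivity) hκ0
  intro y hy
  have hE := (hcore y hy).1.trans (hG1s y hy)
  have hj : ∀ j, |al j y| + |be j y| ≤ cA (lam j) * (κ * s) + cD Kl (lam j) (y - x) * b := by
    intro j
    by_cases hl : lam j = 0
    · -- zero mode
      have h1 : ∀ ξ, x ≤ ξ → |be j ξ| ≤ κ / 3 * ((ξ - T) ^ 3)⁻¹ := by
        intro ξ hξ
        have := (hcore ξ hξ).2 j
        rw [hl, zero_mul, add_zero] at this
        exact this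
      have h2 := L1 (lam := 0) le_rfl (fun ξ _ => S.hal j ξ) dG2 hG20
        (fun ξ hξ => by simpa using h1 ξ hξ) (S.tal j) tG2 y hy
      unfold cA cD
      rw [if_pos hl, if_pos hl]
      have h3 := (h1 y hy).trans (hG1s y hy)
      have h4 := h2.trans (hG2s y hy)
      linarith
    · have hl0 : 0 < lam j := lt_of_le_of_ne (S.hlam j) (Ne.symm hl)
      have h1 : |be j y + lam j * al j y| ≤ κ * s := ((hcore y hy).2 j).trans (hG1s y hy)
      have h2 := L2 (lam := lam j) (x := x) (y := fun ξ => be j ξ - lam j * al j ξ)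
        (S.hlam j) (fun ξ _ => S.zm j ξ) dG1 hγ0 hG10
        (fun ξ hξ => by
          have h1 : (lam j ^ 2 * al j ξ + g j ξ) - lam j * be j ξ +
              lam j * (be j ξ - lam j * al j ξ) = g j ξ := by ring
          rw [h1]
          exact (hforce ξ hξ).1 j) y hy
      have h3 : |be j x - lam j * al j x| ≤ (1 + lam j) * (Kl * b) := by
        refine (S.zm_bound j x).trans ?_
        have h4 : n x ≤ b := hb x (by linarith [S.hT])
        have h5 := mul_le_mul_of_nonneg_left h4 S.hKl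
        exact mul_le_mul_of_nonneg_left h5 (by linarith)
      have h4 : |be j y - lam j * al j y| ≤
          exp (-lam j * (y - x)) * ((1 + lam j) * (Kl * b)) + κ * s := by
        refine h2.trans ?_
        exact add_le_add (mul_le_mul_of_nonneg_left h3 (exp_pos _).le) (hG1s x le_rfl)
      have h5 := recover hl0 h1 h4
      refine h5.trans (le_of_eq ?_)
      unfold cA cD
      rw [if_neg hl, if_neg hl]
      ring
  have hsum : ∑ j, (|al j y| + |be j y|) ≤
      ∑ j, (cA (lam j) * (κ * s) + cD Kl (lam j) (y - x) * b) :=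
    Finset.sum_le_sum fun j _ => hj j
  have h1 := S.hupper y
  have h2 : n y ≤ Ku * (κ * s + ∑ j, (cA (lam j) * (κ * s) + cD Kl (lam j) (y - x) * b)) :=
    h1.trans (mul_le_mul_of_nonneg_left (add_le_add hE hsum) S.hKu)
  refine h2.trans (le_of_eq ?_)
  rw [Finset.sum_add_distrib, ← Finset.sum_mul, ← Finset.sum_mul, hκ]
  ring

lemma Sys.step1 (S : Sys T lam al be g En dEn n Kf X0 Ku Kl Kd) :
    ∃ l X1 : ℝ, 0 < l ∧ X0 ≤ X1 ∧ 1 ≤ X1 - T ∧ ∀ x, X1 ≤ x → ∀ b : ℝ, 0 ≤ b →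
      (∀ y, x - T ≤ y → n y ≤ b) → ∀ y, x + l ≤ y → n y ≤ b / 2 := by
  have ht1 : Tendsto (fun t => Ku * ∑ j, cD Kl (lam j) t) atTop (𝓝 0) := by
    have h1 : Tendsto (fun t => ∑ j, cD Kl (lam j) t) atTop (𝓝 (∑ _j : Fin J, (0 : ℝ))) :=
      tendsto_finsetSum _ fun j _ => cD_tendsto (S.hlam j) Kl
    have h2 := h1.const_mul Ku
    simpa using h2
  obtain ⟨l, hl, hl0⟩ := ((ht1.eventually (ge_mem_nhds (by norm_num : (0:ℝ) < 1 / 4))).and
    (eventually_gt_atTop 0)).exists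
  have ht2 : Tendsto (fun x : ℝ => Ku * ((1 + ∑ j, cA (lam j)) * (Kf * Kd ^ 2)) *
      ((x - T) ^ 2)⁻¹) atTop (𝓝 0) := by
    have tshift : Tendsto (fun ξ : ℝ => ξ - T) atTop atTop :=
      tendsto_atTop_add_const_right atTop (-T) tendsto_id
    have h1 := ((tendsto_pow_atTop (α := ℝ) (n := 2) (by norm_num)).comp tshift)
    have h2 := (tendsto_inv_atTop_zero.comp h1).const_mul
      (Ku * ((1 + ∑ j, cA (lam j)) * (Kf * Kd ^ 2)))
    simpa using h2
  obtain ⟨X1, hX1⟩ := (((ht2.eventually (ge_mem_nhds (by norm_num : (0:ℝ) < 1 / 4))).and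
    (eventually_ge_atTop X0)).and (eventually_ge_atTop (1 + T))).exists_forall_of_atTop
  have hX := hX1 X1 le_rfl
  refine ⟨l, X1, hl0, hX.1.2, by linarith [hX.2], ?_⟩
  intro x hx b hb0 hb y hy
  obtain ⟨⟨hq, hx0⟩, hx1⟩ := hX1 x hx
  have h1 := S.step1_bound hx0 (by linarith) hb0 hb y (by linarith)
  have h2 : ∑ j, cD Kl (lam j) (y - x) ≤ ∑ j, cD Kl (lam j) l :=
    Finset.sum_le_sum fun j _ => cD_anti S.hKl (S.hlam j) (by linarith)
  have h3 := mul_le_mul_of_nonneg_left h2 S.hKu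
  have h4 : Ku * ((1 + ∑ j, cA (lam j)) * (Kf * Kd ^ 2) * ((x - T) ^ 2)⁻¹ +
      ∑ j, cD Kl (lam j) (y - x)) ≤ 1 / 2 := by
    rw [mul_add]
    have h5 : Ku * ((1 + ∑ j, cA (lam j)) * (Kf * Kd ^ 2) * ((x - T) ^ 2)⁻¹) ≤ 1 / 4 := by
      have h6 : Ku * ((1 + ∑ j, cA (lam j)) * (Kf * Kd ^ 2) * ((x - T) ^ 2)⁻¹)
        = Ku * ((1 + ∑ j, cA (lam j)) * (Kf * Kd ^ 2)) * ((x - T) ^ 2)⁻¹ := by ring
      rw [h6]
      exact hq
    have h7 : Ku * ∑ j, cD Kl (lam j) l ≤ 1 / 4 := hl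
    linarith
  have h5 := mul_le_mul_of_nonneg_right h4 hb0
  linarith

lemma Sys.exp_decay (S : Sys T lam al be g En dEn n Kf X0 Ku Kl Kd) :
    ∃ α0 : ℝ, 0 < α0 ∧ P n α0 := by
  obtain ⟨l, X1, hl, hX0, hX1, hstep⟩ := S.step1
  have hT := S.hT
  set r : ℝ := l + T with hr
  have hr0 : 0 < r := by linarith
  set a0 : ℝ := X1 - T with ha0
  have hit : ∀ k : ℕ, ∀ y, a0 + k * r ≤ y → n y ≤ Kd * (1 / 2) ^ k := by
    intro k
    induction k with
    | zero =>
      intro y hy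
      simp only [Nat.cast_zero, zero_mul, add_zero, pow_zero, mul_one] at hy ⊢
      have h1 : 1 ≤ y := by linarith
      refine (S.hdecay y h1).trans ?_
      apply div_le_self S.hKd
      exact one_le_pow₀ h1
    | succ k ih =>
      intro y hy
      have h1 := hstep (a0 + k * r + T) (by
        have : 0 ≤ (k : ℝ) * r := by positivity
        linarith) (Kd * (1 / 2) ^ k) (by
        have := S.hKd
        positivity) (fun z hz => ih z (by linarith)) y (by
        push_cast at hy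
        linarith)
      refine h1.trans (le_of_eq ?_)
      rw [pow_succ]
      ring
  refine ⟨log 2 / r, div_pos (log_pos (by norm_num)) hr0,
    Kd * 2 * exp (log 2 / r * a0), a0, ?_⟩
  intro y hy
  have hq0 : 0 ≤ (y - a0) / r := div_nonneg (by linarith) hr0.le
  set k := ⌊(y - a0) / r⌋₊ with hk
  have hk1 : (k : ℝ) ≤ (y - a0) / r := Nat.floor_le hq0
  have hk2 : (y - a0) / r < k + 1 := Nat.lt_floor_add_one _
  have h1 := hit k y (by
    rw [le_div_iff₀ hr0] at hk1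
    linarith)
  refine h1.trans ?_
  have h2 : (1 / 2 : ℝ) ^ k = exp (-log 2 * k) := by
    rw [mul_comm, exp_nat_mul, exp_neg, exp_log (by norm_num)]
    norm_num
  rw [h2]
  have h3 : Kd * 2 * exp (log 2 / r * a0) * exp (-(log 2 / r) * y)
      = Kd * exp (log 2 + (log 2 / r * a0 + -(log 2 / r) * y)) := by
    rw [exp_add, exp_add, exp_log (by norm_num)]
    ring
  rw [h3]
  apply mul_le_mul_of_nonneg_left _ S.hKd
  apply exp_le_exp.2
  have h4 : log 2 / r * a0 + -(log 2 / r) * y = -log 2 * ((y - a0) / r) := by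
    field_simp
    ring
  rw [h4]
  have h5 : 0 < log 2 := log_pos (by norm_num)
  nlinarith

/-! ### Step 2: doubling the rate -/

/-- the second alternative -/
def Alt (lam : Fin J → ℝ) (al : Fin J → ℝ → ℝ) (En : ℝ → ℝ) : Prop :=
  ∃ (j0 : Fin J) (c δ : ℝ), c ≠ 0 ∧ 0 < δ ∧ 0 < lam j0 ∧ ∃ C X : ℝ, ∀ x, X ≤ x →
      |al j0 x - c * exp (-lam j0 * x)| ≤ C * exp (-(lam j0 + δ) * x) ∧
      (∀ j, j ≠ j0 → |al j x| ≤ C * exp (-(lam j0 + δ) * x)) ∧
      √(En x) ≤ C * exp (-(lam j0 + δ) * x)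

lemma recover2 {l a b p q : ℝ} (hl : 0 < l) {c : ℝ}
    (hp : |b + l * a| ≤ p) (hq : |b - l * a - c| ≤ q) :
    |a - -c / (2 * l)| ≤ (p + q) / (2 * l) ∧ |b + l * (-c / (2 * l))| ≤ (p + q) / 2 := by
  constructor
  · have : a - -c / (2 * l) = ((b + l * a) - (b - l * a - c)) / (2 * l) := by
      field_simp
      ring
    rw [this, abs_div, abs_of_pos (by linarith : (0:ℝ) < 2 * l)]
    apply div_le_div_of_nonneg_right _ (by linarith)
    have := abs_sub (b + l * a) (b - l * a - c)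
    linarith
  · have : b + l * (-c / (2 * l)) = ((b + l * a) + (b - l * a - c)) / 2 := by
      field_simp
      ring
    rw [this, abs_div, abs_two]
    have := abs_add_le (b + l * a) (b - l * a - c)
    linarith

/-- the expansion of every mode up to the doubled rate -/
lemma Sys.expand (S : Sys T lam al be g En dEn n Kf X0 Ku Kl Kd) {α : ℝ} (hα : 0 < α)
    (hP : P n α) : ∃ (c : Fin J → ℝ) (C X : ℝ), 0 ≤ C ∧ 0 ≤ X ∧
      (∀ j, c j ≠ 0 → 0 < lam j ∧ lam j < 2 * α) ∧ ∀ x, X ≤ x →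
      √(En x) ≤ C * exp (-(2 * α) * x) ∧
      ∀ j, |al j x - c j * exp (-lam j * x)| ≤ C * exp (-(2 * α) * x) ∧
        |be j x + lam j * (c j * exp (-lam j * x))| ≤ C * exp (-(2 * α) * x) := by
  obtain ⟨C0, X1, hC0⟩ := hP
  have hT := S.hT
  have hKf := S.hKf
  -- nonnegative constant
  set C1 : ℝ := |C0| with hC1
  have hn1 : ∀ x, X1 ≤ x → n x ≤ C1 * exp (-α * x) := fun x hx =>
    (hC0 x hx).trans (mul_le_mul_of_nonneg_right (le_abs_self _) (exp_pos _).le)
  have hC10 : 0 ≤ C1 := abs_nonneg _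
  set X : ℝ := max 0 (max X0 (X1 + T)) with hX
  have hXX0 : X0 ≤ X := (le_max_left _ _).trans (le_max_right _ _)
  have hXX1 : X1 + T ≤ X := (le_max_right _ _).trans (le_max_right _ _)
  have hX00 : 0 ≤ X := le_max_left _ _
  set K : ℝ := Kf * (C1 * exp (α * T)) ^ 3 with hK
  have hK0 : 0 ≤ K := by positivity
  have hforce : ∀ x, X ≤ x → (∀ j, |g j x| ≤ K * exp (-(3 * α) * x)) ∧
      |dEn x| ≤ 2 * √(En x) * (K * exp (-(3 * α) * x)) := by
    intro x hx
    have hB0 : 0 ≤ C1 * exp (α * T) * exp (-α * x) := by positivity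
    have h := S.hforce x (hXX0.trans hx) (C1 * exp (α * T) * exp (-α * x)) hB0 (by
      intro y hy
      have hy1 := abs_le.1 hy
      refine (hn1 y (by linarith [hy1.1])).trans ?_
      rw [mul_assoc, ← exp_add]
      apply mul_le_mul_of_nonneg_left _ hC10
      apply exp_le_exp.2
      nlinarith [hy1.1])
    have h2 : Kf * (C1 * exp (α * T) * exp (-α * x)) ^ 3 = K * exp (-(3 * α) * x) := by
      have h3 : exp (-(3 * α) * x) = exp (-α * x) ^ 3 := by
        rw [← exp_nat_mul]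
        congr 1
        push_cast
        ring
      rw [h3, hK]
      ring
    rw [h2] at h
    exact h
  have h3α : 0 < 3 * α := by linarith
  have dG : ∀ x, X ≤ x → HasDerivAt (fun x => K / (3 * α) * exp (-(3 * α) * x))
      (-(K * exp (-(3 * α) * x))) x := by
    intro x _
    refine (hasDerivAt_expneg (K / (3 * α)) (3 * α) x).congr_deriv ?_
    field_simp
  have dG2 : ∀ x, X ≤ x → HasDerivAt (fun x => K / (3 * α) ^ 2 * exp (-(3 * α) * x))
      (-(K / (3 * α) * exp (-(3 * α) * x))) x := by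
    intro x _
    refine (hasDerivAt_expneg (K / (3 * α) ^ 2) (3 * α) x).congr_deriv ?_
    field_simp
  have hγ0 : ∀ x, X ≤ x → 0 ≤ K * exp (-(3 * α) * x) := fun x _ => by positivity
  have hG0 : ∀ x, X ≤ x → 0 ≤ K / (3 * α) * exp (-(3 * α) * x) := fun x _ => by positivity
  have hG20 : ∀ x, X ≤ x → 0 ≤ K / (3 * α) ^ 2 * exp (-(3 * α) * x) := fun x _ => by positivity
  have tG : Tendsto (fun x => K / (3 * α) * exp (-(3 * α) * x)) atTop (𝓝 0) := by
    simpa using (texp h3α).const_mul (K / (3 * α))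
  have tG2 : Tendsto (fun x => K / (3 * α) ^ 2 * exp (-(3 * α) * x)) atTop (𝓝 0) := by
    simpa using (texp h3α).const_mul (K / (3 * α) ^ 2)
  have hcore := S.core dG hγ0 hG0 tG hforce
  have hexp : ∀ x, X ≤ x → exp (-(3 * α) * x) ≤ exp (-(2 * α) * x) := by
    intro x hx
    apply exp_le_exp.2
    have : 0 ≤ x := hX00.trans hx
    nlinarith
  -- each mode
  have hmode : ∀ j, ∃ c Cj : ℝ, 0 ≤ Cj ∧ (c ≠ 0 → 0 < lam j ∧ lam j < 2 * α) ∧
      ∀ x, X ≤ x → |al j x - c * exp (-lam j * x)| ≤ Cj * exp (-(2 * α) * x) ∧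
        |be j x + lam j * (c * exp (-lam j * x))| ≤ Cj * exp (-(2 * α) * x) := by
    intro j
    rcases eq_or_lt_of_le (S.hlam j) with hl | hl
    · -- zero mode
      refine ⟨0, K / (3 * α) + K / (3 * α) ^ 2, by positivity, fun h => absurd rfl h, ?_⟩
      have h1 : ∀ x, X ≤ x → |be j x| ≤ K / (3 * α) * exp (-(3 * α) * x) := by
        intro x hx
        have := (hcore x hx).2 j
        rw [← hl, zero_mul, add_zero] at this
        exact this
      intro x hx
      have h2 := L1 (lam := 0) le_rfl (fun ξ _ => S.hal j ξ) dG2 hG20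
        (fun ξ hξ => by simpa using h1 ξ hξ) (S.tal j) tG2 x hx
      have h3 := h1 x hx
      have h4 : 0 ≤ K / (3 * α) := by positivity
      have h5 : 0 ≤ K / (3 * α) ^ 2 := by positivity
      have h6 := mul_le_mul_of_nonneg_left (hexp x hx) h4
      have h7 := mul_le_mul_of_nonneg_left (hexp x hx) h5
      have h8 : 0 ≤ K / (3 * α) * exp (-(2 * α) * x) := by positivity
      have h9 : 0 ≤ K / (3 * α) ^ 2 * exp (-(2 * α) * x) := by positivity
      rw [zero_mul, sub_zero, mul_zero, add_zero, add_mul]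
      constructor <;> linarith
    · have hzp : ∀ x, X ≤ x → |be j x + lam j * al j x| ≤
          K / (3 * α) * exp (-(3 * α) * x) := fun x hx => (hcore x hx).2 j
      have hzmeq : ∀ x, X ≤ x → |((lam j ^ 2 * al j x + g j x) - lam j * be j x) +
            lam j * (be j x - lam j * al j x)| ≤ K * exp (-(3 * α) * x) := by
        intro x hx
        have h1 : (lam j ^ 2 * al j x + g j x) - lam j * be j x +
            lam j * (be j x - lam j * al j x) = g j x := by ring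
        rw [h1]
        exact (hforce x hx).1 j
      by_cases hl2 : lam j < 2 * α
      · obtain ⟨c, hc⟩ := L3 (lam := lam j) (ρ := 3 * α) (K := K) (X := X)
          (y := fun x => be j x - lam j * al j x) (by linarith) hK0
          (fun x _ => S.zm j x) hzmeq
        have hd : 0 < 3 * α - lam j := by linarith
        refine ⟨-c / (2 * lam j), (K / (3 * α) + K / (3 * α - lam j)) * (1 / (2 * lam j) + 1 / 2),
          by positivity, fun _ => ⟨hl, hl2⟩, ?_⟩
        intro x hx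
        obtain ⟨h1, h2⟩ := recover2 (c := c * exp (-lam j * x)) hl (hzp x hx) (hc x hx)
        have hs : 0 ≤ K / (3 * α) + K / (3 * α - lam j) := by positivity
        have h3 := mul_le_mul_of_nonneg_left (hexp x hx) hs
        have h4 : -(c * exp (-lam j * x)) / (2 * lam j) = -c / (2 * lam j) * exp (-lam j * x) := by
          ring
        rw [h4] at h1 h2
        have h5 : K / (3 * α) * exp (-(3 * α) * x) + K / (3 * α - lam j) * exp (-(3 * α) * x)
            = (K / (3 * α) + K / (3 * α - lam j)) * exp (-(3 * α) * x) := by ring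
        rw [h5] at h1 h2
        set Q : ℝ := (K / (3 * α) + K / (3 * α - lam j)) * exp (-(2 * α) * x) with hQ
        have hQ0 : 0 ≤ Q := by positivity
        have h6 : (K / (3 * α) + K / (3 * α - lam j)) * (1 / (2 * lam j) + 1 / 2) *
            exp (-(2 * α) * x) = Q / (2 * lam j) + Q / 2 := by
          rw [hQ]; ring
        rw [h6]
        have h7 : (K / (3 * α) + K / (3 * α - lam j)) * exp (-(3 * α) * x) / (2 * lam j)
            ≤ Q / (2 * lam j) := div_le_div_of_nonneg_right h3 (by linarith)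
        have h8 : 0 ≤ Q / (2 * lam j) := by positivity
        constructor
        · linarith
        · linarith
      · push Not at hl2
        obtain ⟨C2, hC20, hC2⟩ := L4 (lam := lam j) (ρ := 3 * α) (σ := 2 * α) (K := K) (X := X)
          (y := fun x => be j x - lam j * al j x) hl2 (by linarith) hK0
          (fun x _ => S.zm j x) hzmeq
        refine ⟨0, (K / (3 * α) + C2) * (1 / (2 * lam j) + 1 / 2), by positivity,
          fun h => absurd rfl h, ?_⟩
        intro x hx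
        have h1 := recover hl (hzp x hx) (hC2 x hx)
        have h4 : 0 ≤ K / (3 * α) := by positivity
        have h6 := mul_le_mul_of_nonneg_left (hexp x hx) h4
        have h7 : 0 ≤ 1 / (2 * lam j) + 1 / 2 := by positivity
        have h8 : |al j x| + |be j x| ≤
            (K / (3 * α) + C2) * (1 / (2 * lam j) + 1 / 2) * exp (-(2 * α) * x) := by
          refine h1.trans ?_
          have h9 : (K / (3 * α) + C2) * (1 / (2 * lam j) + 1 / 2) * exp (-(2 * α) * x)
              = (1 / (2 * lam j) + 1 / 2) *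
                (K / (3 * α) * exp (-(2 * α) * x) + C2 * exp (-(2 * α) * x)) := by ring
          rw [h9]
          exact mul_le_mul_of_nonneg_left (by linarith) h7
        rw [zero_mul, sub_zero, mul_zero, add_zero]
        have h10 := abs_nonneg (al j x)
        have h11 := abs_nonneg (be j x)
        constructor <;> linarith
  choose c Cj hCj0 hcj hexpand using hmode
  have hsum0 : 0 ≤ ∑ j, Cj j := Finset.sum_nonneg fun j _ => hCj0 j
  have h4 : 0 ≤ K / (3 * α) := by positivity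
  refine ⟨c, K / (3 * α) + ∑ j, Cj j, X, by linarith, hX00, hcj, ?_⟩
  intro x hx
  have he := exp_pos (-(2 * α) * x)
  constructor
  · refine (hcore x hx).1.trans ?_
    have h6 := mul_le_mul_of_nonneg_left (hexp x hx) h4
    have h7 := mul_nonneg hsum0 he.le
    rw [add_mul]
    linarith
  · intro j
    obtain ⟨h1, h2⟩ := hexpand j x hx
    have h3 : Cj j ≤ ∑ j, Cj j := Finset.single_le_sum (fun j _ => hCj0 j) (Finset.mem_univ j)
    have h5 : Cj j * exp (-(2 * α) * x) ≤ (K / (3 * α) + ∑ j, Cj j) * exp (-(2 * α) * x) :=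
      mul_le_mul_of_nonneg_right (by linarith) he.le
    exact ⟨h1.trans h5, h2.trans h5⟩

lemma Sys.step2 (S : Sys T lam al be g En dEn n Kf X0 Ku Kl Kd)
    (hinj : Function.Injective lam) {α : ℝ} (hα : 0 < α)
    (hP : P n α) : P n (2 * α) ∨ Alt lam al En := by
  obtain ⟨c, C, X, hC, hX, hc, hx⟩ := S.expand hα hP
  by_cases hall : ∀ j, c j = 0
  · left
    refine ⟨Ku * (C + ∑ _j : Fin J, (C + C)), X, fun x hxx => ?_⟩
    obtain ⟨hE, hj⟩ := hx x hxx
    refine (S.hupper x).trans ?_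
    rw [mul_assoc]
    apply mul_le_mul_of_nonneg_left _ S.hKu
    rw [add_mul, Finset.sum_mul]
    apply add_le_add hE
    apply Finset.sum_le_sum
    intro j _
    obtain ⟨h1, h2⟩ := hj j
    rw [hall j, zero_mul, sub_zero] at h1
    rw [hall j, zero_mul, mul_zero, add_zero] at h2
    rw [add_mul]
    linarith
  · right
    push Not at hall
    obtain ⟨j1, hj1⟩ := hall
    -- the slowest mode
    obtain ⟨j0, hj0m, hj0⟩ := Finset.exists_min_image (Finset.univ.filter fun j => c j ≠ 0) lam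
      ⟨j1, by simp [hj1]⟩
    have hcj0 : c j0 ≠ 0 := (Finset.mem_filter.1 hj0m).2
    have hmin : ∀ j, c j ≠ 0 → lam j0 ≤ lam j := fun j hj =>
      hj0 j (Finset.mem_filter.2 ⟨Finset.mem_univ _, hj⟩)
    obtain ⟨hl0, hl1⟩ := hc j0 hcj0
    -- the gap
    classical
    set gap : Fin J → ℝ := fun j => if c j ≠ 0 ∧ j ≠ j0 then min (lam j - lam j0) (2 * α - lam j0)
      else 2 * α - lam j0 with hgap
    have hgap0 : ∀ j, 0 < gap j := by
      intro j
      simp only [hgap]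
      split_ifs with h
      · apply lt_min
        · have h1 := hmin j h.1
          have h2 : lam j0 ≠ lam j := fun h3 => h.2 (hinj h3).symm
          have h3 := lt_of_le_of_ne h1 h2
          linarith
        · linarith
      · linarith
    have : Nonempty (Fin J) := ⟨j0⟩
    obtain ⟨j2, hj2⟩ := Finite.exists_min gap
    have hδ2 : gap j2 ≤ 2 * α - lam j0 := by
      have h1 := hj2 j0
      have h2 : gap j0 = 2 * α - lam j0 := by
        simp [hgap]
      rw [h2] at h1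
      exact h1
    have hδj : ∀ j, c j ≠ 0 → j ≠ j0 → gap j2 ≤ lam j - lam j0 := by
      intro j h1 h2
      refine (hj2 j).trans ?_
      simp only [hgap]
      rw [if_pos ⟨h1, h2⟩]
      exact min_le_left _ _
    refine ⟨j0, c j0, gap j2, hcj0, hgap0 j2, hl0, C + ∑ j, |c j|, X, ?_⟩
    intro x hxx
    have hx0 : 0 ≤ x := hX.trans hxx
    obtain ⟨hE, hj⟩ := hx x hxx
    have he : exp (-(2 * α) * x) ≤ exp (-(lam j0 + gap j2) * x) := by
      apply exp_le_exp.2
      nlinarith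
    have hep := exp_pos (-(lam j0 + gap j2) * x)
    have hsum0 : 0 ≤ ∑ j, |c j| := Finset.sum_nonneg fun j _ => abs_nonneg _
    have hCe : C * exp (-(2 * α) * x) ≤ C * exp (-(lam j0 + gap j2) * x) :=
      mul_le_mul_of_nonneg_left he hC
    have hCe2 : C * exp (-(2 * α) * x) ≤ (C + ∑ j, |c j|) * exp (-(lam j0 + gap j2) * x) := by
      have := mul_nonneg hsum0 hep.le
      rw [add_mul]
      linarith
    refine ⟨((hj j0).1).trans hCe2, ?_, hE.trans hCe2⟩
    intro j hjj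
    have h1 := (hj j).1
    by_cases hcj : c j = 0
    · rw [hcj, zero_mul, sub_zero] at h1
      exact h1.trans hCe2
    · have h2 := hδj j hcj hjj
      have h3 : |al j x| ≤ |al j x - c j * exp (-lam j * x)| + |c j * exp (-lam j * x)| := by
        have := abs_add_le (al j x - c j * exp (-lam j * x)) (c j * exp (-lam j * x))
        simpa using this
      have h4 : |c j * exp (-lam j * x)| ≤ (∑ j, |c j|) * exp (-(lam j0 + gap j2) * x) := by
        rw [abs_mul, abs_of_pos (exp_pos _)]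
        apply mul_le_mul _ _ (exp_pos _).le hsum0
        · exact Finset.single_le_sum (f := fun j => |c j|) (fun j _ => abs_nonneg _)
            (Finset.mem_univ j)
        · apply exp_le_exp.2
          nlinarith
      rw [add_mul]
      linarith

end

theorem asym_main {J : ℕ} (T : ℝ) (hT : 0 < T)
    (lam : Fin J → ℝ) (hlam : ∀ j, 0 ≤ lam j) (hinj : Function.Injective lam)
    (al be g : Fin J → ℝ → ℝ) (En dEn n : ℝ → ℝ)
    (hal : ∀ j x, HasDerivAt (al j) (be j x) x)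
    (hbe : ∀ j x, HasDerivAt (be j) (lam j ^ 2 * al j x + g j x) x)
    (hEn0 : ∀ x, 0 ≤ En x)
    (hEn : ∀ x, HasDerivAt En (dEn x) x)
    (hn0 : ∀ x, 0 ≤ n x)
    (hforce : ∃ K X0 : ℝ, 0 ≤ K ∧ ∀ x, X0 ≤ x → ∀ B : ℝ, 0 ≤ B →
      (∀ y, |y - x| ≤ T → n y ≤ B) →
      (∀ j, |g j x| ≤ K * B ^ 3) ∧ |dEn x| ≤ 2 * √(En x) * (K * B ^ 3))
    (hupper : ∃ K : ℝ, 0 ≤ K ∧ ∀ x, n x ≤ K * (√(En x) + ∑ j, (|al j x| + |be j x|)))
    (hlower : ∃ K : ℝ, 0 ≤ K ∧ ∀ x, √(En x) ≤ K * n x ∧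
      ∀ j, |al j x| ≤ K * n x ∧ |be j x| ≤ K * n x)
    (hdecay : ∃ K : ℝ, 0 ≤ K ∧ ∀ x, 1 ≤ x → n x ≤ K / x ^ 2) :
    (∀ α : ℝ, ∃ C X : ℝ, ∀ x, X ≤ x → n x ≤ C * exp (-α * x)) ∨
    (∃ (j0 : Fin J) (c δ : ℝ), c ≠ 0 ∧ 0 < δ ∧ 0 < lam j0 ∧ ∃ C X : ℝ, ∀ x, X ≤ x →
      |al j0 x - c * exp (-lam j0 * x)| ≤ C * exp (-(lam j0 + δ) * x) ∧
      (∀ j, j ≠ j0 → |al j x| ≤ C * exp (-(lam j0 + δ) * x)) ∧
      √(En x) ≤ C * exp (-(lam j0 + δ) * x)) := by
  obtain ⟨Kf, X0, hKf, hforce⟩ := hforce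
  obtain ⟨Ku, hKu, hupper⟩ := hupper
  obtain ⟨Kl, hKl, hlower⟩ := hlower
  obtain ⟨Kd, hKd, hdecay⟩ := hdecay
  have S : Sys T lam al be g En dEn n Kf X0 Ku Kl Kd :=
    { hT := hT, hlam := hlam, hal := hal, hbe := hbe, hEn0 := hEn0, hEn := hEn, hn0 := hn0,
      hKf := hKf, hforce := hforce, hKu := hKu, hupper := hupper, hKl := hKl,
      hlowE := fun x => (hlower x).1, hlowa := fun x j => ((hlower x).2 j).1,
      hlowb := fun x j => ((hlower x).2 j).2, hKd := hKd, hdecay := hdecay }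
  by_cases hA : Alt lam al En
  · exact Or.inr hA
  · left
    obtain ⟨α0, hα0, hP0⟩ := S.exp_decay
    have hall : ∀ k : ℕ, P n (2 ^ k * α0) := by
      intro k
      induction k with
      | zero => simpa using hP0
      | succ k ih =>
        have h1 : 0 < 2 ^ k * α0 := by positivity
        rcases S.step2 hinj h1 ih with h | h
        · rw [pow_succ]
          have h2 : (2 : ℝ) ^ k * 2 * α0 = 2 * (2 ^ k * α0) := by ring
          rw [h2]
          exact h
        · exact absurd h hA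
    intro α
    obtain ⟨k, hk⟩ := pow_unbounded_of_one_lt (α / α0) (by norm_num : (1:ℝ) < 2)
    obtain ⟨C, X, hCX⟩ := hall k
    refine ⟨|C|, max X 0, fun x hx => ?_⟩
    have hx1 : X ≤ x := (le_max_left _ _).trans hx
    have hx2 : 0 ≤ x := (le_max_right _ _).trans hx
    refine (hCX x hx1).trans ?_
    apply mul_le_mul (le_abs_self C) _ (exp_pos _).le (abs_nonneg C)
    apply exp_le_exp.2
    rw [div_lt_iff₀ hα0] at hk
    nlinarith

end Phi4A
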