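import Mathlib

/-! Wirtinger inequality for odd periodic functions orthogonal to the first J sine modes. -/

namespace Phi4

open Real Filter MeasureTheory

lemma intervalIntegral_reflect (T : ℝ) (f : ℝ → ℝ) :
    ∫ t in (0:ℝ)..T, f (T - t) = ∫ t in (0:ℝ)..T, f t := by
  rw [intervalIntegral.integral_comp_sub_left (fun t => f t) T]
  simp

lemma coeff_formula (T : ℝ) (hT : 0 < T) (h : ℝ → ℝ) (hc : Continuous h) (k : ℤ) :
    fourierCoeffOn hT (fun t => (h t : ℂ)) k =
      (1 / T : ℝ) • (((∫ t in (0:ℝ)..T, h t * cos (k * (2 * π / T) * t) : ℝ) : ℂ) -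
        Complex.I * ((∫ t in (0:ℝ)..T, h t * sin (k * (2 * π / T) * t) : ℝ) : ℂ)) := by
  rw [fourierCoeffOn_eq_integral, sub_zero]
  congr 1
  rw [← intervalIntegral.integral_ofReal, ← intervalIntegral.integral_ofReal,
    ← intervalIntegral.integral_const_mul, ← intervalIntegral.integral_sub]
  · apply intervalIntegral.integral_congr
    intro t _
    simp only
    rw [fourier_coe_apply, smul_eq_mul]
    have h1 : 2 * (π : ℂ) * Complex.I * ((-k : ℤ) : ℂ) * (t : ℂ) / (T : ℂ) =
        ((-(k * (2 * π / T) * t) : ℝ) : ℂ) * Complex.I := by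
      push_cast
      ring
    rw [h1, Complex.exp_mul_I, ← Complex.ofReal_cos, ← Complex.ofReal_sin, Real.cos_neg,
      Real.sin_neg]
    push_cast
    ring
  · exact (by fun_prop : Continuous fun t => ((h t * cos (k * (2 * π / T) * t) : ℝ) : ℂ)).intervalIntegrable _ _
  · exact (by fun_prop : Continuous fun t => Complex.I * ((h t * sin (k * (2 * π / T) * t) : ℝ) : ℂ)).intervalIntegrable _ _

theorem wirtinger_high (T : ℝ) (hT : 0 < T) (J : ℕ) (h h' : ℝ → ℝ)
    (hd : ∀ t, HasDerivAt h (h' t) t) (hc : Continuous h')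
    (hodd : ∀ t, h (T - t) = - h t) (h0 : h 0 = 0)
    (hperp : ∀ j : ℕ, 1 ≤ j → j ≤ J →
      ∫ t in (0:ℝ)..T, h t * sin (j * (2 * π / T) * t) = 0) :
    (((J : ℝ) + 1) * (2 * π / T)) ^ 2 * ∫ t in (0:ℝ)..T, h t ^ 2 ≤
      ∫ t in (0:ℝ)..T, h' t ^ 2 := by
  have hch : Continuous h := continuous_iff_continuousAt.2 fun t => (hd t).continuousAt
  have hTT : h T = 0 := by
    have := hodd 0
    rw [sub_zero, h0, neg_zero] at this
    exact this
  set c : ℤ → ℂ := fun k => fourierCoeffOn hT (fun t => (h t : ℂ)) k with hcdef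
  set d : ℤ → ℂ := fun k => fourierCoeffOn hT (fun t => (h' t : ℂ)) k with hddef
  have hpi := Real.pi_pos
  -- Parseval
  have hmem : ∀ f : ℝ → ℝ, Continuous f →
      MemLp (fun t => (f t : ℂ)) 2 (volume.restrict (Set.Ioc 0 T)) := by
    intro f hf
    have hcf : Continuous fun t => (f t : ℂ) := by fun_prop
    obtain ⟨M, hM⟩ := isCompact_Icc.exists_bound_of_continuousOn (s := Set.Icc 0 T)
      hcf.continuousOn
    apply MemLp.of_bound hcf.aestronglyMeasurable M
    rw [ae_restrict_iff' measurableSet_Ioc]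
    exact Filter.Eventually.of_forall fun t ht => hM t (Set.Ioc_subset_Icc_self ht)
  have hpar : ∀ f : ℝ → ℝ, Continuous f →
      HasSum (fun k => ‖fourierCoeffOn hT (fun t => (f t : ℂ)) k‖ ^ 2)
        (T⁻¹ * ∫ t in (0:ℝ)..T, f t ^ 2) := by
    intro f hf
    have := hasSum_sq_fourierCoeffOn hT (hmem f hf)
    rw [sub_zero, smul_eq_mul] at this
    convert this using 3
    ext t
    simp
  have hsc := hpar h hch
  have hsd := hpar h' hc
  -- the cosine coefficients
  have hcos : ∀ k : ℤ, ∫ t in (0:ℝ)..T, h t * cos (k * (2 * π / T) * t) = 0 := by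
    intro k
    have h1 : ∫ t in (0:ℝ)..T, h (T - t) * cos (k * (2 * π / T) * (T - t)) =
        ∫ t in (0:ℝ)..T, h t * cos (k * (2 * π / T) * t) :=
      intervalIntegral_reflect T (fun t => h t * cos (k * (2 * π / T) * t))
    have h2 : (fun t => h (T - t) * cos (k * (2 * π / T) * (T - t))) =
        fun t => - (h t * cos (k * (2 * π / T) * t)) := by
      funext t
      have h3 : (k : ℝ) * (2 * π / T) * (T - t) = k * (2 * π) - k * (2 * π / T) * t := by
        field_simp
      rw [hodd, h3, Real.cos_int_mul_two_pi_sub]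
      ring
    rw [h2, intervalIntegral.integral_neg] at h1
    linarith
  have hcz : ∀ k : ℤ, k.natAbs ≤ J → c k = 0 := by
    intro k hk
    have hsn : ∀ m : ℕ, m ≤ J → ∫ t in (0:ℝ)..T, h t * sin ((m : ℝ) * (2 * π / T) * t) = 0 := by
      intro m hm
      rcases Nat.eq_zero_or_pos m with h2 | h2
      · subst h2
        simp
      · exact hperp m h2 hm
    have hs : ∫ t in (0:ℝ)..T, h t * sin (k * (2 * π / T) * t) = 0 := by
      obtain ⟨m, rfl | rfl⟩ := Int.eq_nat_or_neg k
      · have h3 := hsn m (by simpa using hk)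
        simpa using h3
      · have h3 := hsn m (by simpa using hk)
        have h4 : (fun t => h t * sin (((-(m : ℤ) : ℤ) : ℝ) * (2 * π / T) * t)) =
            fun t => - (h t * sin ((m : ℝ) * (2 * π / T) * t)) := by
          funext t
          push_cast
          rw [neg_mul, neg_mul, Real.sin_neg]
          ring
        rw [h4, intervalIntegral.integral_neg, h3, neg_zero]
    rw [hcdef]
    simp only
    rw [coeff_formula T hT h hch k, hcos k, hs]
    simp
  have hdc : ∀ k : ℤ, k ≠ 0 → ‖d k‖ ^ 2 = ((k : ℝ) * (2 * π / T)) ^ 2 * ‖c k‖ ^ 2 := by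
    intro k hk
    have h1 := fourierCoeffOn_of_hasDerivAt (f := fun t => (h t : ℂ)) (f' := fun t => (h' t : ℂ)) hT hk
      (fun x _ => (hd x).ofReal_comp)
      ((by fun_prop : Continuous fun t => (h' t : ℂ)).intervalIntegrable _ _)
    rw [hTT, h0] at h1
    have h2 : c k = (T : ℂ) / (2 * π * Complex.I * k) * d k := by
      rw [hcdef, hddef]
      simp only
      rw [h1]
      have hI := Complex.I_ne_zero
      have hpc : (π : ℂ) ≠ 0 := by exact_mod_cast hpi.ne'
      have hkc : (k : ℂ) ≠ 0 := by exact_mod_cast hk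
      field_simp
      simp
    have hkr : (k : ℝ) ≠ 0 := by exact_mod_cast hk
    rw [h2, norm_mul, norm_div, norm_mul, norm_mul, norm_mul]
    simp only [Complex.norm_real, Complex.norm_I, Complex.norm_intCast, Complex.norm_ofNat,
      Real.norm_eq_abs, abs_of_pos hT, abs_of_pos hpi]
    have hk' : |(k : ℝ)| ≠ 0 := abs_ne_zero.2 hkr
    have h3 : ((k : ℝ) * (2 * π / T)) * (T / (2 * π * 1 * |(k : ℝ)|)) = k / |(k : ℝ)| := by
      field_simp
    rw [mul_pow (T / (2 * π * 1 * |(k : ℝ)|)), ← mul_assoc, ← mul_pow, h3, div_pow, sq_abs,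
      div_self (pow_ne_zero 2 hkr), one_mul]
  have hle : ∀ k : ℤ, (((J : ℝ) + 1) * (2 * π / T)) ^ 2 * ‖c k‖ ^ 2 ≤ ‖d k‖ ^ 2 := by
    intro k
    by_cases hk : k.natAbs ≤ J
    · rw [hcz k hk]
      simp
    · have hk0 : k ≠ 0 := by
        rintro rfl
        simp at hk
      rw [hdc k hk0]
      apply mul_le_mul_of_nonneg_right _ (by positivity)
      rw [mul_pow, mul_pow]
      apply mul_le_mul_of_nonneg_right _ (by positivity)
      have h3 : ((J : ℝ) + 1) ≤ |(k : ℝ)| := by
        have : ((J + 1 : ℕ) : ℝ) ≤ ((k.natAbs : ℕ) : ℝ) := by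
          exact_mod_cast (by omega : J + 1 ≤ k.natAbs)
        rw [Nat.cast_natAbs, Int.cast_abs] at this
        push_cast at this
        exact this
      rw [← sq_abs (k : ℝ)]
      exact pow_le_pow_left₀ (by positivity) h3 2
  have hfin := hasSum_le hle (hsc.mul_left _) hsd
  have h5 : (((J : ℝ) + 1) * (2 * π / T)) ^ 2 * (T⁻¹ * ∫ t in (0:ℝ)..T, h t ^ 2) =
      T⁻¹ * ((((J : ℝ) + 1) * (2 * π / T)) ^ 2 * ∫ t in (0:ℝ)..T, h t ^ 2) := by ring
  rw [h5] at hfin
  exact le_of_mul_le_mul_left hfin (inv_pos.2 hT)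

end Phi4
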