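import Mathlib

/-! Calculus for functions of two real variables. -/

namespace Phi4

open Real Filter MeasureTheory intervalIntegral

/-- partial derivative in the first variable -/
noncomputable def Dx (f : ℝ → ℝ → ℝ) (x t : ℝ) : ℝ := deriv (fun y => f y t) x

/-- partial derivative in the second variable -/
noncomputable def Dt (f : ℝ → ℝ → ℝ) (x t : ℝ) : ℝ := deriv (fun s => f x s) t

theorem hasDerivAt_curve {f : ℝ → ℝ → ℝ} (hf : ContDiff ℝ 1 (fun p : ℝ × ℝ => f p.1 p.2))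
    {c d : ℝ → ℝ} {c' d' τ : ℝ} (hc : HasDerivAt c c' τ) (hd : HasDerivAt d d' τ) :
    HasDerivAt (fun s => f (c s) (d s))
      (fderiv ℝ (fun p : ℝ × ℝ => f p.1 p.2) (c τ, d τ) (c', d')) τ := by
  have h1 : HasFDerivAt (fun p : ℝ × ℝ => f p.1 p.2)
      (fderiv ℝ (fun p : ℝ × ℝ => f p.1 p.2) (c τ, d τ)) (c τ, d τ) :=
    (hf.differentiable (by norm_num) (c τ, d τ)).hasFDerivAt
  have h2 : HasDerivAt (fun s => (c s, d s)) (c', d') τ := hc.prodMk hd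
  exact h1.comp_hasDerivAt τ h2

theorem Dx_eq {f : ℝ → ℝ → ℝ} (hf : ContDiff ℝ 1 (fun p : ℝ × ℝ => f p.1 p.2)) (x t : ℝ) :
    Dx f x t = fderiv ℝ (fun p : ℝ × ℝ => f p.1 p.2) (x, t) (1, 0) :=
  (hasDerivAt_curve hf (hasDerivAt_id x) (hasDerivAt_const x t)).deriv

theorem Dt_eq {f : ℝ → ℝ → ℝ} (hf : ContDiff ℝ 1 (fun p : ℝ × ℝ => f p.1 p.2)) (x t : ℝ) :
    Dt f x t = fderiv ℝ (fun p : ℝ × ℝ => f p.1 p.2) (x, t) (0, 1) :=
  (hasDerivAt_curve hf (hasDerivAt_const t x) (hasDerivAt_id t)).deriv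

theorem hasDerivAt_x {f : ℝ → ℝ → ℝ} (hf : ContDiff ℝ 1 (fun p : ℝ × ℝ => f p.1 p.2))
    (x t : ℝ) : HasDerivAt (fun y => f y t) (Dx f x t) x := by
  rw [Dx_eq hf]
  exact hasDerivAt_curve hf (hasDerivAt_id x) (hasDerivAt_const x t)

theorem hasDerivAt_t {f : ℝ → ℝ → ℝ} (hf : ContDiff ℝ 1 (fun p : ℝ × ℝ => f p.1 p.2))
    (x t : ℝ) : HasDerivAt (fun s => f x s) (Dt f x t) t := by
  rw [Dt_eq hf]
  exact hasDerivAt_curve hf (hasDerivAt_const t x) (hasDerivAt_id t)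

theorem hasDerivAt_line {f : ℝ → ℝ → ℝ} (hf : ContDiff ℝ 1 (fun p : ℝ × ℝ => f p.1 p.2))
    {c d : ℝ → ℝ} {c' d' τ : ℝ} (hc : HasDerivAt c c' τ) (hd : HasDerivAt d d' τ) :
    HasDerivAt (fun s => f (c s) (d s)) (c' * Dx f (c τ) (d τ) + d' * Dt f (c τ) (d τ)) τ := by
  have h := hasDerivAt_curve hf hc hd
  rw [Dx_eq hf, Dt_eq hf]
  convert h using 1
  have h3 : ((c', d') : ℝ × ℝ) = c' • ((1 : ℝ), (0 : ℝ)) + d' • ((0 : ℝ), (1 : ℝ)) := by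
    simp
  rw [h3, map_add, map_smul, map_smul, smul_eq_mul, smul_eq_mul]

theorem contDiff_Dx {k : ℕ} {f : ℝ → ℝ → ℝ}
    (hf : ContDiff ℝ ((k + 1 : ℕ) : WithTop ℕ∞) (fun p : ℝ × ℝ => f p.1 p.2)) :
    ContDiff ℝ (k : WithTop ℕ∞) (fun p : ℝ × ℝ => Dx f p.1 p.2) := by
  have h1 : ContDiff ℝ 1 (fun p : ℝ × ℝ => f p.1 p.2) := hf.of_le (by norm_cast; omega)
  have e : (fun p : ℝ × ℝ => Dx f p.1 p.2) =
      fun p : ℝ × ℝ => fderiv ℝ (fun p : ℝ × ℝ => f p.1 p.2) p (1, 0) := by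
    funext p; exact Dx_eq h1 p.1 p.2
  rw [e]
  exact (hf.fderiv_right (m := (k : WithTop ℕ∞)) (by norm_cast)).clm_apply contDiff_const

theorem contDiff_Dt {k : ℕ} {f : ℝ → ℝ → ℝ}
    (hf : ContDiff ℝ ((k + 1 : ℕ) : WithTop ℕ∞) (fun p : ℝ × ℝ => f p.1 p.2)) :
    ContDiff ℝ (k : WithTop ℕ∞) (fun p : ℝ × ℝ => Dt f p.1 p.2) := by
  have h1 : ContDiff ℝ 1 (fun p : ℝ × ℝ => f p.1 p.2) := hf.of_le (by norm_cast; omega)
  have e : (fun p : ℝ × ℝ => Dt f p.1 p.2) =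
      fun p : ℝ × ℝ => fderiv ℝ (fun p : ℝ × ℝ => f p.1 p.2) p (0, 1) := by
    funext p; exact Dt_eq h1 p.1 p.2
  rw [e]
  exact (hf.fderiv_right (m := (k : WithTop ℕ∞)) (by norm_cast)).clm_apply contDiff_const

theorem c2_one {f : ℝ → ℝ → ℝ} (hf : ContDiff ℝ 2 (fun p : ℝ × ℝ => f p.1 p.2)) :
    ContDiff ℝ 1 (fun p : ℝ × ℝ => f p.1 p.2) := hf.of_le (by norm_num)

theorem c2_Dx {f : ℝ → ℝ → ℝ} (hf : ContDiff ℝ 2 (fun p : ℝ × ℝ => f p.1 p.2)) :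
    ContDiff ℝ 1 (fun p : ℝ × ℝ => Dx f p.1 p.2) := by
  have := contDiff_Dx (k := 1) (f := f) (by exact_mod_cast hf)
  exact_mod_cast this

theorem c2_Dt {f : ℝ → ℝ → ℝ} (hf : ContDiff ℝ 2 (fun p : ℝ × ℝ => f p.1 p.2)) :
    ContDiff ℝ 1 (fun p : ℝ × ℝ => Dt f p.1 p.2) := by
  have := contDiff_Dt (k := 1) (f := f) (by exact_mod_cast hf)
  exact_mod_cast this

theorem cont_Dx {f : ℝ → ℝ → ℝ} (hf : ContDiff ℝ 1 (fun p : ℝ × ℝ => f p.1 p.2)) :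
    Continuous (fun p : ℝ × ℝ => Dx f p.1 p.2) := by
  have := contDiff_Dx (k := 0) (f := f) (by exact_mod_cast hf)
  exact this.continuous

theorem cont_Dt {f : ℝ → ℝ → ℝ} (hf : ContDiff ℝ 1 (fun p : ℝ × ℝ => f p.1 p.2)) :
    Continuous (fun p : ℝ × ℝ => Dt f p.1 p.2) := by
  have := contDiff_Dt (k := 0) (f := f) (by exact_mod_cast hf)
  exact this.continuous

theorem Dt_Dx {f : ℝ → ℝ → ℝ} (hf : ContDiff ℝ 2 (fun p : ℝ × ℝ => f p.1 p.2)) (x t : ℝ) :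
    Dt (Dx f) x t = Dx (Dt f) x t := by
  have h1 := c2_one hf
  have hd : DifferentiableAt ℝ (fderiv ℝ (fun p : ℝ × ℝ => f p.1 p.2)) (x, t) :=
    (hf.fderiv_right (m := 1) (by norm_num)).differentiable (by norm_num) _
  have e1 : Dt (Dx f) x t =
      fderiv ℝ (fderiv ℝ (fun p : ℝ × ℝ => f p.1 p.2)) (x, t) (0, 1) (1, 0) := by
    rw [Dt_eq (c2_Dx hf)]
    have e : (fun p : ℝ × ℝ => Dx f p.1 p.2) =
        fun p : ℝ × ℝ => fderiv ℝ (fun p : ℝ × ℝ => f p.1 p.2) p (1, 0) := by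
      funext p; exact Dx_eq h1 p.1 p.2
    rw [e]
    rw [fderiv_clm_apply hd (differentiableAt_const _)]
    simp
  have e2 : Dx (Dt f) x t =
      fderiv ℝ (fderiv ℝ (fun p : ℝ × ℝ => f p.1 p.2)) (x, t) (1, 0) (0, 1) := by
    rw [Dx_eq (c2_Dt hf)]
    have e : (fun p : ℝ × ℝ => Dt f p.1 p.2) =
        fun p : ℝ × ℝ => fderiv ℝ (fun p : ℝ × ℝ => f p.1 p.2) p (0, 1) := by
      funext p; exact Dt_eq h1 p.1 p.2
    rw [e]
    rw [fderiv_clm_apply hd (differentiableAt_const _)]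
    simp
  rw [e1, e2]
  have hs : IsSymmSndFDerivAt ℝ (fun p : ℝ × ℝ => f p.1 p.2) (x, t) :=
    hf.contDiffAt.isSymmSndFDerivAt (by simp)
  exact hs _ _

/-- differentiation under the integral sign -/
theorem hasDerivAt_integral_param {F F' : ℝ → ℝ → ℝ} {a b : ℝ}
    (hF : ∀ x t, HasDerivAt (fun y => F y t) (F' x t) x)
    (hFc : ∀ x, Continuous (F x))
    (hF'c : Continuous (fun p : ℝ × ℝ => F' p.1 p.2)) (x : ℝ) :
    HasDerivAt (fun y => ∫ t in a..b, F y t) (∫ t in a..b, F' x t) x := by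
  have hK : IsCompact (Set.Icc (x - 1) (x + 1) ×ˢ Set.uIcc a b) :=
    isCompact_Icc.prod isCompact_uIcc
  obtain ⟨M, hM⟩ := hK.exists_bound_of_continuousOn hF'c.continuousOn
  have hs : Set.Icc (x - 1) (x + 1) ∈ nhds x := Icc_mem_nhds (by linarith) (by linarith)
  refine (intervalIntegral.hasDerivAt_integral_of_dominated_loc_of_deriv_le
    (μ := volume) (F := F) (F' := F') (x₀ := x) (s := Set.Icc (x - 1) (x + 1))
    (bound := fun _ => M) hs ?_ ?_ ?_ ?_ ?_ ?_).2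
  · exact Eventually.of_forall fun y => (hFc y).aestronglyMeasurable
  · exact (hFc x).intervalIntegrable _ _
  · exact (hF'c.comp (by fun_prop : Continuous fun t : ℝ => (x, t))).aestronglyMeasurable
  · refine Eventually.of_forall fun t ht y hy => ?_
    exact hM (y, t) ⟨hy, Set.uIoc_subset_uIcc ht⟩
  · exact intervalIntegrable_const
  · exact Eventually.of_forall fun t _ y _ => hF y t

end Phi4
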