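import Pool.Agent.Helper88.PhiC

/-! Cone estimate for a wave equation with zero Cauchy data. -/

namespace Phi4

open Real Filter MeasureTheory intervalIntegral Set

theorem Dx_zero_of_zero {s : ℝ → ℝ → ℝ} {t : ℝ} (h0 : ∀ x, s x t = 0) (x : ℝ) : Dx s x t = 0 := by
  unfold Dx
  have : (fun y => s y t) = fun _ => 0 := by funext y; exact h0 y
  rw [this]; simp

theorem char_bound {s : ℝ → ℝ → ℝ} (hs : ContDiff ℝ 2 (fun p : ℝ × ℝ => s p.1 p.2))
    (h0 : ∀ x, s x 0 = 0) (h0' : ∀ x, Dt s x 0 = 0) {b M x T : ℝ}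
    (hg : ∀ y τ, 0 ≤ τ → |y - x| ≤ T - τ →
      |Dx (Dx s) y τ - Dt (Dt s) y τ| ≤ 4 * b ^ 2 + 3 * (M * exp (3 * τ)))
    {σ : ℝ} (hσ : σ = 1 ∨ σ = -1) {y τ : ℝ} (hτ : 0 ≤ τ) (hy : |y - x| ≤ T - τ) :
    |Dt s y τ + σ * Dx s y τ| ≤ 4 * b ^ 2 * τ + M * (exp (3 * τ) - 1) := by
  have hσ2 : σ ^ 2 = 1 := by rcases hσ with h | h <;> rw [h] <;> norm_num
  have hσa : |σ| = 1 := by rcases hσ with h | h <;> rw [h] <;> norm_num
  have hder : ∀ r : ℝ, HasDerivAt
      (fun r => Dt s (y + σ * (τ - r)) r + σ * Dx s (y + σ * (τ - r)) r)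
      (Dt (Dt s) (y + σ * (τ - r)) r - Dx (Dx s) (y + σ * (τ - r)) r) r := by
    intro r
    have hc : HasDerivAt (fun r : ℝ => y + σ * (τ - r)) (-σ) r := by
      have h1 : HasDerivAt (fun r : ℝ => τ - r) (-1) r := by
        simpa using (hasDerivAt_id r).const_sub τ
      have h2 := (h1.const_mul σ).const_add y
      exact h2.congr_deriv (by ring)
    have h1 := hasDerivAt_line (c2_Dt hs) hc (hasDerivAt_id r)
    have h2 := (hasDerivAt_line (c2_Dx hs) hc (hasDerivAt_id r)).const_mul σ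
    have h3 := h1.add h2
    have hsym := Dt_Dx hs (y + σ * (τ - r)) r
    refine h3.congr_deriv ?_
    simp only [id_eq]
    rw [hsym]
    have : σ * (-σ * Dx (Dx s) (y + σ * (τ - r)) r) = -Dx (Dx s) (y + σ * (τ - r)) r := by
      have : σ * (-σ * Dx (Dx s) (y + σ * (τ - r)) r) =
        -(σ ^ 2) * Dx (Dx s) (y + σ * (τ - r)) r := by ring
      rw [this, hσ2]; ring
    linear_combination this
  have hB : ∀ r : ℝ, HasDerivAt (fun r => 4 * b ^ 2 * r + M * (exp (3 * r) - 1))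
      (4 * b ^ 2 + 3 * (M * exp (3 * r))) r := by
    intro r
    have h1 : HasDerivAt (fun r : ℝ => exp (3 * r)) (exp (3 * r) * 3) r := by
      have : HasDerivAt (fun r : ℝ => 3 * r) 3 r := by simpa using (hasDerivAt_id r).const_mul 3
      exact this.exp
    have h2 := ((hasDerivAt_id r).const_mul (4 * b ^ 2)).add ((h1.sub_const 1).const_mul M)
    refine h2.congr_deriv ?_
    ring
  have key := image_norm_le_of_norm_deriv_right_le_deriv_boundary
    (f := fun r => Dt s (y + σ * (τ - r)) r + σ * Dx s (y + σ * (τ - r)) r)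
    (f' := fun r => Dt (Dt s) (y + σ * (τ - r)) r - Dx (Dx s) (y + σ * (τ - r)) r)
    (a := 0) (b := τ) (B := fun r => 4 * b ^ 2 * r + M * (exp (3 * r) - 1))
    (B' := fun r => 4 * b ^ 2 + 3 * (M * exp (3 * r)))
    (fun r _ => (hder r).continuousAt.continuousWithinAt)
    (fun r _ => (hder r).hasDerivWithinAt)
    (by
      simp only [sub_zero]
      rw [h0', Dx_zero_of_zero h0]; simp)
    hB
    (by
      intro r hr
      rw [Real.norm_eq_abs, abs_sub_comm]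
      apply hg _ _ hr.1
      have : y + σ * (τ - r) - x = (y - x) + σ * (τ - r) := by ring
      rw [this]
      calc |(y - x) + σ * (τ - r)| ≤ |y - x| + |σ * (τ - r)| := abs_add_le _ _
        _ = |y - x| + (τ - r) := by
            rw [abs_mul, hσa, one_mul, abs_of_nonneg (show 0 ≤ τ - r by linarith [hr.2])]
        _ ≤ T - r := by linarith)
  have h := key (x := τ) ⟨hτ, le_rfl⟩
  simpa using h

theorem cone_estimate {T b : ℝ} (hT : 0 < T) {s : ℝ → ℝ → ℝ}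
    (hs : ContDiff ℝ 2 (fun p : ℝ × ℝ => s p.1 p.2))
    (h0 : ∀ x, s x 0 = 0) (h0' : ∀ x, Dt s x 0 = 0) (x : ℝ)
    (hg : ∀ y τ, 0 ≤ τ → |y - x| ≤ T - τ →
      |Dx (Dx s) y τ - Dt (Dt s) y τ| ≤ 4 * b ^ 2 + 3 * |s y τ|) :
    ∀ t, 0 ≤ t → t ≤ T →
      |s x t| ≤ (4 * T + 3 * T ^ 2 * exp (3 * T)) * b ^ 2 ∧
      |Dx s x t| ≤ (4 * T + 3 * T ^ 2 * exp (3 * T)) * b ^ 2 ∧
      |Dt s x t| ≤ (4 * T + 3 * T ^ 2 * exp (3 * T)) * b ^ 2 := by
  -- the compact triangle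
  set D : Set (ℝ × ℝ) := {p | 0 ≤ p.2 ∧ |p.1 - x| ≤ T - p.2} with hD
  have hDc : IsCompact D := by
    have hcl : IsClosed D := by
      apply IsClosed.and
      · exact isClosed_le continuous_const continuous_snd
      · exact isClosed_le (by fun_prop) (by fun_prop)
    apply (isCompact_Icc.prod (isCompact_Icc (a := (0:ℝ)) (b := T)) :
      IsCompact (Icc (x - T) (x + T) ×ˢ Icc (0:ℝ) T)).of_isClosed_subset hcl
    rintro ⟨y, τ⟩ ⟨h1, h2⟩
    simp only at h1 h2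
    have h3 : 0 ≤ |y - x| := abs_nonneg _
    have h4 : |y - x| ≤ T := by linarith
    rw [abs_le] at h4
    exact ⟨⟨by linarith [h4.1], by linarith [h4.2]⟩, ⟨h1, by linarith⟩⟩
  have hne : D.Nonempty := ⟨(x, 0), by simp [hD, hT.le]⟩
  have hcont : Continuous (fun p : ℝ × ℝ => |s p.1 p.2| * exp (-3 * p.2)) := by
    have := hs.continuous
    fun_prop
  obtain ⟨⟨y₀, τ₀⟩, hm, hmax⟩ := hDc.exists_isMaxOn hne hcont.continuousOn
  set M := |s y₀ τ₀| * exp (-3 * τ₀) with hM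
  have hM0 : 0 ≤ M := by positivity
  have hsM : ∀ y τ, 0 ≤ τ → |y - x| ≤ T - τ → |s y τ| ≤ M * exp (3 * τ) := by
    intro y τ h1 h2
    have h3 : |s y τ| * exp (-3 * τ) ≤ M := hmax (show (y, τ) ∈ D from ⟨h1, h2⟩)
    have h4 : exp (-3 * τ) * exp (3 * τ) = 1 := by rw [← exp_add]; simp
    calc |s y τ| = |s y τ| * exp (-3 * τ) * exp (3 * τ) := by rw [mul_assoc, h4, mul_one]
      _ ≤ M * exp (3 * τ) := by gcongr
  have hg' : ∀ y τ, 0 ≤ τ → |y - x| ≤ T - τ →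
      |Dx (Dx s) y τ - Dt (Dt s) y τ| ≤ 4 * b ^ 2 + 3 * (M * exp (3 * τ)) := by
    intro y τ h1 h2
    have := hg y τ h1 h2
    have h3 := hsM y τ h1 h2
    linarith
  have hP : ∀ y τ, 0 ≤ τ → |y - x| ≤ T - τ →
      |Dt s y τ| ≤ 4 * b ^ 2 * τ + M * (exp (3 * τ) - 1) ∧
      |Dx s y τ| ≤ 4 * b ^ 2 * τ + M * (exp (3 * τ) - 1) := by
    intro y τ h1 h2
    have hp := char_bound hs h0 h0' hg' (Or.inl rfl) h1 h2
    have hn := char_bound hs h0 h0' hg' (Or.inr rfl) h1 h2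
    rw [abs_le] at hp hn
    constructor <;> rw [abs_le] <;> constructor <;> linarith [hp.1, hp.2, hn.1, hn.2]
  have hS : ∀ y τ, 0 ≤ τ → |y - x| ≤ T - τ →
      |s y τ| ≤ 2 * b ^ 2 * τ ^ 2 + M * (exp (3 * τ) / 3 - 1 / 3 - τ) := by
    intro y τ h1 h2
    have hB : ∀ r : ℝ, HasDerivAt
        (fun r => 2 * b ^ 2 * r ^ 2 + M * (exp (3 * r) / 3 - 1 / 3 - r))
        (4 * b ^ 2 * r + M * (exp (3 * r) - 1)) r := by
      intro r
      have e1 : HasDerivAt (fun r : ℝ => exp (3 * r)) (exp (3 * r) * 3) r := by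
        have : HasDerivAt (fun r : ℝ => 3 * r) 3 r := by simpa using (hasDerivAt_id r).const_mul 3
        exact this.exp
      have e2 := ((hasDerivAt_pow 2 r).const_mul (2 * b ^ 2)).add
        ((((e1.div_const 3).sub_const (1 / 3)).sub (hasDerivAt_id r)).const_mul M)
      refine e2.congr_deriv ?_
      ring
    have key := image_norm_le_of_norm_deriv_right_le_deriv_boundary
      (f := fun r => s y r) (f' := fun r => Dt s y r) (a := 0) (b := τ)
      (B := fun r => 2 * b ^ 2 * r ^ 2 + M * (exp (3 * r) / 3 - 1 / 3 - r))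
      (B' := fun r => 4 * b ^ 2 * r + M * (exp (3 * r) - 1))
      (fun r _ => (hasDerivAt_t (c2_one hs) y r).continuousAt.continuousWithinAt)
      (fun r _ => (hasDerivAt_t (c2_one hs) y r).hasDerivWithinAt)
      (by rw [h0]; simp)
      hB
      (by
        intro r hr
        rw [Real.norm_eq_abs]
        exact (hP y r hr.1 (by linarith [hr.2])).1)
    have h := key (x := τ) ⟨h1, le_rfl⟩
    simpa using h
  have hMb : M ≤ 3 * T ^ 2 * b ^ 2 := by
    obtain ⟨h1, h2⟩ := hm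
    simp only at h1 h2
    have h3 := hS y₀ τ₀ h1 h2
    have h4 : τ₀ ≤ T := by linarith [abs_nonneg (y₀ - x)]
    have h5 : M * exp (3 * τ₀) = |s y₀ τ₀| := by
      rw [hM, mul_assoc, ← exp_add]; simp
    have h6 : 1 ≤ exp (3 * τ₀) := one_le_exp (by linarith)
    have h7 : M * exp (3 * τ₀) ≤ 2 * b ^ 2 * τ₀ ^ 2 + M * exp (3 * τ₀) / 3 := by
      rw [h5]
      refine h3.trans ?_
      rw [← h5]
      nlinarith [hM0, mul_nonneg hM0 h1]
    have h8 : M ≤ M * exp (3 * τ₀) := le_mul_of_one_le_right hM0 h6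
    have h9 : τ₀ ^ 2 ≤ T ^ 2 := by gcongr
    nlinarith [sq_nonneg b, mul_le_mul_of_nonneg_left h9 (sq_nonneg b)]
  intro t ht0 htT
  have hx : |x - x| ≤ T - t := by simp; linarith
  have e1 : exp (3 * t) ≤ exp (3 * T) := exp_le_exp.2 (by linarith)
  have hb2 : 0 ≤ b ^ 2 := sq_nonneg b
  have e0 : 0 < exp (3 * t) := exp_pos _
  have e3 : M * exp (3 * t) ≤ 3 * T ^ 2 * b ^ 2 * exp (3 * T) := by
    apply mul_le_mul hMb e1 e0.le (by positivity)
  have e4 : 4 * b ^ 2 * t ≤ 4 * b ^ 2 * T := by gcongr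
  have e5 : 0 ≤ 4 * b ^ 2 * T := by positivity
  refine ⟨?_, ?_, ?_⟩
  · have := hsM x t ht0 hx
    nlinarith
  · have := (hP x t ht0 hx).2
    nlinarith
  · have := (hP x t ht0 hx).1
    nlinarith

end Phi4
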