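import Mathlib

/-! Arithmetic consequence of the flux identities. -/

namespace Phi4

open Real Filter

lemma sin_sq_eq (x : ℝ) : sin x ^ 2 = 1 / 2 - cos (2 * x) / 2 := by
  rw [Real.cos_two_mul, Real.cos_sq']
  ring

lemma dsin (a t : ℝ) : HasDerivAt (fun t => sin (a * t)) (a * cos (a * t)) t :=
  (((hasDerivAt_id t).const_mul a).sin).congr_deriv (by simp [mul_comm])

lemma dcos (a t : ℝ) : HasDerivAt (fun t => cos (a * t)) (-(a * sin (a * t))) t :=
  (((hasDerivAt_id t).const_mul a).cos).congr_deriv (by simp [mul_comm])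

lemma dsinh (a t : ℝ) : HasDerivAt (fun t => sinh (a * t)) (a * cosh (a * t)) t :=
  (((hasDerivAt_id t).const_mul a).sinh).congr_deriv (by simp [mul_comm])

lemma dcosh (a t : ℝ) : HasDerivAt (fun t => cosh (a * t)) (a * sinh (a * t)) t :=
  (((hasDerivAt_id t).const_mul a).cosh).congr_deriv (by simp [mul_comm])

lemma sin_nat_period (k : ℕ) : sin ((k : ℝ) * (2 * π)) = 0 := by
  have h := Real.sin_nat_mul_pi (2 * k)
  rw [← h]
  congr 1
  push_cast
  ring

lemma int1 (Ω T : ℝ) (hΩ : Ω ≠ 0) :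
    ∫ t in (0:ℝ)..T, sin (Ω * t) ^ 2 = T / 2 - sin (2 * Ω * T) / (4 * Ω) := by
  have hd : ∀ t ∈ Set.uIcc (0:ℝ) T, HasDerivAt (fun t => t / 2 - sin (2 * Ω * t) / (4 * Ω))
      (sin (Ω * t) ^ 2) t := by
    intro t _
    refine (((hasDerivAt_id t).div_const 2).sub ((dsin (2 * Ω) t).div_const (4 * Ω))).congr_deriv ?_
    rw [sin_sq_eq, ← mul_assoc]
    field_simp
    ring
  rw [intervalIntegral.integral_eq_sub_of_hasDerivAt hd]
  · simp
  · exact (by fun_prop : Continuous fun t => sin (Ω * t) ^ 2).intervalIntegrable _ _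

lemma int2 (Ω T : ℝ) (hΩ : Ω ≠ 0) :
    ∫ t in (0:ℝ)..T, sin (Ω * t) ^ 2 * cos (2 * Ω * t) =
      sin (2 * Ω * T) / (4 * Ω) - T / 4 - sin (4 * Ω * T) / (16 * Ω) := by
  have hd : ∀ t ∈ Set.uIcc (0:ℝ) T, HasDerivAt
      (fun t => sin (2 * Ω * t) / (4 * Ω) - t / 4 - sin (4 * Ω * t) / (16 * Ω))
      (sin (Ω * t) ^ 2 * cos (2 * Ω * t)) t := by
    intro t _
    refine ((((dsin (2 * Ω) t).div_const (4 * Ω)).sub ((hasDerivAt_id t).div_const 4)).sub
      ((dsin (4 * Ω) t).div_const (16 * Ω))).congr_deriv ?_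
    have h5 : cos (4 * Ω * t) = 2 * cos (2 * Ω * t) ^ 2 - 1 := by
      rw [← Real.cos_two_mul]; ring_nf
    rw [h5, sin_sq_eq, ← mul_assoc]
    field_simp
    ring
  rw [intervalIntegral.integral_eq_sub_of_hasDerivAt hd]
  · simp
  · exact (by fun_prop : Continuous fun t => sin (Ω * t) ^ 2 * cos (2 * Ω * t)).intervalIntegrable
      _ _

lemma int3 (Ω μ T : ℝ) (hμ : μ ≠ 0) (hne : μ ^ 2 - 4 * Ω ^ 2 ≠ 0) :
    ∫ t in (0:ℝ)..T, sin (Ω * t) ^ 2 * sin (μ * t) =
      (Ω * sin (2 * Ω * T) / (μ ^ 2 - 4 * Ω ^ 2)) * sin (μ * T) -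
        (1 / (2 * μ ^ 2) - cos (2 * Ω * T) / (2 * (μ ^ 2 - 4 * Ω ^ 2))) * (μ * cos (μ * T)) +
        (1 / (2 * μ ^ 2) - 1 / (2 * (μ ^ 2 - 4 * Ω ^ 2))) * μ := by
  have hd : ∀ t ∈ Set.uIcc (0:ℝ) T, HasDerivAt
      (fun t => (Ω * sin (2 * Ω * t) / (μ ^ 2 - 4 * Ω ^ 2)) * sin (μ * t) -
        (1 / (2 * μ ^ 2) - cos (2 * Ω * t) / (2 * (μ ^ 2 - 4 * Ω ^ 2))) * (μ * cos (μ * t)))
      (sin (Ω * t) ^ 2 * sin (μ * t)) t := by
    intro t _
    refine (((((dsin (2 * Ω) t).const_mul Ω).div_const (μ ^ 2 - 4 * Ω ^ 2)).mul (dsin μ t)).sub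
      (((((dcos (2 * Ω) t).div_const (2 * (μ ^ 2 - 4 * Ω ^ 2)))).const_sub
        (1 / (2 * μ ^ 2))).mul ((dcos μ t).const_mul μ))).congr_deriv ?_
    have h6 : 2 * (Ω * t) = 2 * Ω * t := by ring
    rw [sin_sq_eq, h6]
    obtain ⟨d, hd⟩ : ∃ d, d = μ ^ 2 - 4 * Ω ^ 2 := ⟨_, rfl⟩
    rw [← hd] at hne ⊢
    have h4 : Ω ^ 2 = (μ ^ 2 - d) / 4 := by rw [hd]; ring
    have h5 : Ω * (2 * Ω * cos (2 * Ω * t)) = (μ ^ 2 - d) / 2 * cos (2 * Ω * t) := by
      linear_combination (2 * cos (2 * Ω * t)) * h4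
    rw [h5]
    field_simp
    ring
  rw [intervalIntegral.integral_eq_sub_of_hasDerivAt hd]
  · simp
  · exact (by fun_prop : Continuous fun t => sin (Ω * t) ^ 2 * sin (μ * t)).intervalIntegrable
      _ _

theorem period_of_flux (T : ℝ) (hT : 0 < T) (n : ℕ) (hn : 1 ≤ n)
    (hlow : ((n : ℝ) * (2 * π / T)) ^ 2 < 2)
    (hflux : ∀ θ θ' : ℝ → ℝ, (∀ t, HasDerivAt θ (θ' t) t) →
      (∀ t, HasDerivAt θ' ((4 * (2 - ((n : ℝ) * (2 * π / T)) ^ 2) - 2) * θ t) t) →
      ∫ t in (0:ℝ)..T, sin ((n : ℝ) * (2 * π / T) * t) ^ 2 * θ t = 0) :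
    ∃ m : ℕ, 1 ≤ m ∧ m < n ∧ T ^ 2 = 2 * π ^ 2 / 3 * (4 * (n : ℝ) ^ 2 - (m : ℝ) ^ 2) := by
  have hn0 : (0 : ℝ) < n := by exact_mod_cast hn
  obtain ⟨Ω, hΩ⟩ : ∃ Ω : ℝ, Ω = (n : ℝ) * (2 * π / T) := ⟨_, rfl⟩
  rw [← hΩ] at hlow hflux
  have hΩ0 : 0 < Ω := by rw [hΩ]; positivity
  have h4Ω : 2 * Ω * T = (2 * n : ℕ) * (2 * π) := by
    rw [hΩ]; push_cast; field_simp
  have h5Ω : 4 * Ω * T = (4 * n : ℕ) * (2 * π) := by
    rw [hΩ]; push_cast; field_simp
  have hint := int1 Ω T hΩ0.ne'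
  rw [h4Ω, sin_nat_period, zero_div, sub_zero] at hint
  have hpi := Real.pi_pos
  set r : ℝ := 4 * (2 - Ω ^ 2) - 2 with hr
  rcases le_or_gt 0 r with h0 | h0
  · -- hyperbolic case
    exfalso
    set s : ℝ := Real.sqrt r with hs
    have hss : s * s = r := Real.mul_self_sqrt h0
    have h1 := hflux (fun t => cosh (s * t)) (fun t => s * sinh (s * t)) (dcosh s) (by
      intro t
      exact ((dsinh s t).const_mul s).congr_deriv (by rw [← hss]; ring))
    have h2 : ∫ t in (0:ℝ)..T, sin (Ω * t) ^ 2 ≤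
        ∫ t in (0:ℝ)..T, sin (Ω * t) ^ 2 * cosh (s * t) := by
      apply intervalIntegral.integral_mono_on hT.le
      · exact (by fun_prop : Continuous fun t => sin (Ω * t) ^ 2).intervalIntegrable _ _
      · exact (by fun_prop : Continuous fun t => sin (Ω * t) ^ 2 * cosh (s * t)).intervalIntegrable _ _
      · intro t _
        have h3 := Real.one_le_cosh (s * t)
        nlinarith [sq_nonneg (sin (Ω * t))]
    rw [h1, hint] at h2
    linarith
  · set μ : ℝ := Real.sqrt (-r) with hμ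
    have hμ0 : 0 < μ := Real.sqrt_pos.2 (by linarith)
    have hμμ : μ * μ = -r := Real.mul_self_sqrt (by linarith)
    have hrμ : r = - (μ * μ) := by linarith
    by_cases hres : μ = 2 * Ω
    · exfalso
      have h1 := hflux (fun t => cos (μ * t)) (fun t => - (μ * sin (μ * t))) (dcos μ) (by
        intro t
        exact ((dsin μ t).const_mul μ).neg.congr_deriv (by rw [hrμ]; ring))
      rw [hres, int2 Ω T hΩ0.ne', h4Ω, h5Ω, sin_nat_period, sin_nat_period, zero_div,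
        zero_div] at h1
      linarith
    · have h1 := hflux (fun t => sin (μ * t)) (fun t => μ * cos (μ * t)) (dsin μ) (by
        intro t
        exact ((dcos μ t).const_mul μ).congr_deriv (by rw [hrμ]; ring))
      have hne : μ ^ 2 - 4 * Ω ^ 2 ≠ 0 := by
        intro h
        apply hres
        have h2 : (μ - 2 * Ω) * (μ + 2 * Ω) = 0 := by linear_combination h
        rcases mul_eq_zero.1 h2 with h3 | h3
        · linarith
        · linarith
      rw [int3 Ω μ T hμ0.ne' hne, h4Ω, sin_nat_period, Real.cos_nat_mul_two_pi] at h1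
      have h5 : (1 / (2 * μ ^ 2) - 1 / (2 * (μ ^ 2 - 4 * Ω ^ 2))) * μ * (1 - cos (μ * T)) = 0 := by
        linear_combination h1
      have h6 : (1 / (2 * μ ^ 2) - 1 / (2 * (μ ^ 2 - 4 * Ω ^ 2))) * μ ≠ 0 := by
        apply mul_ne_zero _ hμ0.ne'
        intro h
        have hμ2 : (μ ^ 2) ≠ 0 := by positivity
        field_simp at h
        have : 0 < Ω ^ 2 := by positivity
        nlinarith
      have h7 : cos (μ * T) = 1 := by
        rcases mul_eq_zero.1 h5 with h | h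
        · exact absurd h h6
        · linarith
      obtain ⟨k, hk⟩ := (Real.cos_eq_one_iff _).1 h7
      have hk0 : 0 < k := by
        have h8 : (0 : ℝ) < k * (2 * π) := by rw [hk]; positivity
        have h9 : (0 : ℝ) < k := by
          by_contra h
          push Not at h
          nlinarith
        exact_mod_cast h9
      obtain ⟨m, rfl⟩ : ∃ m : ℕ, k = m := ⟨k.toNat, (Int.toNat_of_nonneg hk0.le).symm⟩
      have hm1 : 1 ≤ m := by exact_mod_cast hk0
      have hkk : (m : ℝ) * (2 * π) = μ * T := by exact_mod_cast hk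
      have hμm : μ = m * (2 * π / T) := by
        field_simp
        linarith
      have h10 : (m : ℝ) ^ 2 * (2 * π / T) ^ 2 = 4 * Ω ^ 2 - 6 := by
        have : μ * μ = 4 * Ω ^ 2 - 6 := by rw [hμμ, hr]; ring
        rw [← this, hμm]
        ring
      refine ⟨m, hm1, ?_, ?_⟩
      · have h11 : (m : ℝ) ^ 2 * (2 * π / T) ^ 2 < (n : ℝ) ^ 2 * (2 * π / T) ^ 2 := by
          rw [h10]
          have : (n : ℝ) ^ 2 * (2 * π / T) ^ 2 = Ω ^ 2 := by rw [hΩ]; ring
          rw [this]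
          linarith
        have h12 : (m : ℝ) ^ 2 < (n : ℝ) ^ 2 := lt_of_mul_lt_mul_right h11 (by positivity)
        have h13 : (m : ℝ) < n := lt_of_pow_lt_pow_left₀ 2 hn0.le h12
        exact_mod_cast h13
      · rw [hΩ] at h10
        field_simp at h10
        linarith

end Phi4
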