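import Pool.Agent.Helper88.PhiD

/-! The equation for `w = u - 1`, its even part `s` and odd part `a`. -/

namespace Phi4

open Real Filter MeasureTheory intervalIntegral Set

/-- the perturbation equation around the state `1`, with the decay that (V3) gives -/
structure WSol (T : ℝ) (w : ℝ → ℝ → ℝ) : Prop where
  smooth : ContDiff ℝ 2 (fun p : ℝ × ℝ => w p.1 p.2)
  eqn : ∀ x t, Dx (Dx w) x t = Dt (Dt w) x t + 2 * w x t + 3 * w x t ^ 2 + w x t ^ 3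
  per : ∀ x t, w x (t + T) = w x t
  base : ∀ x, w x 0 = 0
  decay : ∃ C, 0 ≤ C ∧ ∀ x, 1 ≤ x → ∀ t, |w x t| ≤ C / x ^ 2 ∧ |Dx w x t| ≤ C / x ^ 2 ∧
    |Dt w x t| ≤ C / x ^ 2
  bdd : ∃ C, 0 ≤ C ∧ ∀ x t, |w x t| ≤ C

/-- even part in time -/
noncomputable def ev (w : ℝ → ℝ → ℝ) (x t : ℝ) : ℝ := (w x t + w x (-t)) / 2
/-- odd part in time -/
noncomputable def od (w : ℝ → ℝ → ℝ) (x t : ℝ) : ℝ := (w x t - w x (-t)) / 2

theorem ev_add_od (w : ℝ → ℝ → ℝ) (x t : ℝ) : ev w x t + od w x t = w x t := by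
  unfold ev od; ring

theorem ev_sub_od (w : ℝ → ℝ → ℝ) (x t : ℝ) : ev w x t - od w x t = w x (-t) := by
  unfold ev od; ring

section basic
variable {w : ℝ → ℝ → ℝ}

theorem smooth_refl {k : WithTop ℕ∞} (hw : ContDiff ℝ k (fun p : ℝ × ℝ => w p.1 p.2)) :
    ContDiff ℝ k (fun p : ℝ × ℝ => w p.1 (-p.2)) := by
  have : ContDiff ℝ k (fun p : ℝ × ℝ => (p.1, -p.2)) := by fun_prop
  exact hw.comp this

theorem smooth_ev {k : WithTop ℕ∞} (hw : ContDiff ℝ k (fun p : ℝ × ℝ => w p.1 p.2)) :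
    ContDiff ℝ k (fun p : ℝ × ℝ => ev w p.1 p.2) := by
  have := smooth_refl hw
  unfold ev
  fun_prop

theorem smooth_od {k : WithTop ℕ∞} (hw : ContDiff ℝ k (fun p : ℝ × ℝ => w p.1 p.2)) :
    ContDiff ℝ k (fun p : ℝ × ℝ => od w p.1 p.2) := by
  have := smooth_refl hw
  unfold od
  fun_prop

theorem Dx_ev (hw : ContDiff ℝ 1 (fun p : ℝ × ℝ => w p.1 p.2)) : Dx (ev w) = ev (Dx w) := by
  funext x t
  exact (((hasDerivAt_x hw x t).add (hasDerivAt_x hw x (-t))).div_const 2).deriv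

theorem Dx_od (hw : ContDiff ℝ 1 (fun p : ℝ × ℝ => w p.1 p.2)) : Dx (od w) = od (Dx w) := by
  funext x t
  exact (((hasDerivAt_x hw x t).sub (hasDerivAt_x hw x (-t))).div_const 2).deriv

theorem hasDerivAt_neg_t (hw : ContDiff ℝ 1 (fun p : ℝ × ℝ => w p.1 p.2)) (x t : ℝ) :
    HasDerivAt (fun r => w x (-r)) (-Dt w x (-t)) t := by
  have := (hasDerivAt_t hw x (-t)).comp t (hasDerivAt_neg t)
  refine this.congr_deriv ?_
  ring

theorem Dt_ev (hw : ContDiff ℝ 1 (fun p : ℝ × ℝ => w p.1 p.2)) : Dt (ev w) = od (Dt w) := by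
  funext x t
  have := (((hasDerivAt_t hw x t).add (hasDerivAt_neg_t hw x t)).div_const 2).deriv
  unfold Dt at this ⊢
  unfold ev od
  rw [show (fun s => (w x s + w x (-s)) / 2) =
    (fun i => ((fun s => w x s) + fun r => w x (-r)) i / 2) from rfl]
  rw [this]; ring

theorem Dt_od (hw : ContDiff ℝ 1 (fun p : ℝ × ℝ => w p.1 p.2)) : Dt (od w) = ev (Dt w) := by
  funext x t
  have := (((hasDerivAt_t hw x t).sub (hasDerivAt_neg_t hw x t)).div_const 2).deriv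
  unfold Dt at this ⊢
  unfold ev od
  rw [show (fun s => (w x s - w x (-s)) / 2) =
    (fun i => ((fun s => w x s) - fun r => w x (-r)) i / 2) from rfl]
  rw [this]; ring

theorem Dt_per {T : ℝ} (hw : ContDiff ℝ 1 (fun p : ℝ × ℝ => w p.1 p.2))
    (hper : ∀ x t, w x (t + T) = w x t) (x t : ℝ) : Dt w x (t + T) = Dt w x t := by
  have h1 : HasDerivAt (fun s => w x (s + T)) (Dt w x (t + T)) t :=
    HasDerivAt.comp_add_const t T (hasDerivAt_t hw x (t + T))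
  have h2 : (fun s => w x (s + T)) = fun s => w x s := by funext s; exact hper x s
  rw [h2] at h1
  exact h1.unique (hasDerivAt_t hw x t)

theorem Dx_per {T : ℝ} (hper : ∀ x t, w x (t + T) = w x t) (x t : ℝ) :
    Dx w x (t + T) = Dx w x t := by
  unfold Dx
  congr 1
  funext y; exact hper y t

end basic

/-- quadratic and cubic source of the even part -/
noncomputable def srcS (w : ℝ → ℝ → ℝ) (x t : ℝ) : ℝ :=
  3 * od w x t ^ 2 * (1 + ev w x t) + ev w x t ^ 2 * (3 + ev w x t)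

/-- source of the odd part -/
noncomputable def srcA (w : ℝ → ℝ → ℝ) (x t : ℝ) : ℝ :=
  od w x t * (6 * ev w x t + 3 * ev w x t ^ 2 + od w x t ^ 2)

namespace WSol

variable {T : ℝ} {w : ℝ → ℝ → ℝ} (W : WSol T w)
include W

theorem c1 : ContDiff ℝ 1 (fun p : ℝ × ℝ => w p.1 p.2) := c2_one W.smooth
theorem sEv : ContDiff ℝ 2 (fun p : ℝ × ℝ => ev w p.1 p.2) := smooth_ev W.smooth
theorem sOd : ContDiff ℝ 2 (fun p : ℝ × ℝ => od w p.1 p.2) := smooth_od W.smooth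

theorem Dxx_ev : Dx (Dx (ev w)) = ev (Dx (Dx w)) := by
  rw [Dx_ev W.c1, Dx_ev (c2_Dx W.smooth)]
theorem Dxx_od : Dx (Dx (od w)) = od (Dx (Dx w)) := by
  rw [Dx_od W.c1, Dx_od (c2_Dx W.smooth)]
theorem Dtt_ev : Dt (Dt (ev w)) = ev (Dt (Dt w)) := by
  rw [Dt_ev W.c1, Dt_od (c2_Dt W.smooth)]
theorem Dtt_od : Dt (Dt (od w)) = od (Dt (Dt w)) := by
  rw [Dt_od W.c1, Dt_ev (c2_Dt W.smooth)]

theorem eqn_ev (x t : ℝ) :
    Dx (Dx (ev w)) x t = Dt (Dt (ev w)) x t + 2 * ev w x t + srcS w x t := by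
  rw [W.Dxx_ev, W.Dtt_ev]
  unfold srcS ev od
  rw [W.eqn x t, W.eqn x (-t)]
  ring

theorem eqn_od (x t : ℝ) :
    Dx (Dx (od w)) x t = Dt (Dt (od w)) x t + 2 * od w x t + srcA w x t := by
  rw [W.Dxx_od, W.Dtt_od]
  unfold srcA ev od
  rw [W.eqn x t, W.eqn x (-t)]
  ring

theorem w_T (x : ℝ) : w x T = 0 := by
  have := W.per x 0
  rw [zero_add] at this
  rw [this, W.base]

theorem per_neg (x t : ℝ) : w x (t - T) = w x t := by
  have := W.per x (t - T)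
  rw [sub_add_cancel] at this
  exact this.symm

theorem ev_zero (x : ℝ) : ev w x 0 = 0 := by
  unfold ev; rw [neg_zero, W.base]; norm_num

theorem ev_T (x : ℝ) : ev w x T = 0 := by
  unfold ev
  have : w x (-T) = w x 0 := by
    have := W.per x (-T)
    rw [neg_add_cancel] at this
    exact this.symm
  rw [this, W.w_T, W.base]; norm_num

theorem Dt_ev_zero (x : ℝ) : Dt (ev w) x 0 = 0 := by
  rw [Dt_ev W.c1]; unfold od; rw [neg_zero]; ring

theorem Dt_ev_T (x : ℝ) : Dt (ev w) x T = 0 := by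
  rw [Dt_ev W.c1]; unfold od
  have h1 := Dt_per W.c1 W.per x 0
  have h2 := Dt_per W.c1 W.per x (-T)
  rw [zero_add] at h1
  rw [neg_add_cancel] at h2
  rw [h1, ← h2]; ring

theorem od_zero (x : ℝ) : od w x 0 = 0 := by
  unfold od; rw [neg_zero]; ring

theorem od_refl (x t : ℝ) : od w x (T - t) = - od w x t := by
  unfold od
  have h1 : w x (T - t) = w x (-t) := by
    have := W.per x (-t)
    rw [← this]; congr 1; ring
  have h2 : w x (-(T - t)) = w x t := by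
    have := W.per_neg x t
    rw [← this]; congr 1; ring
  rw [h1, h2]; ring

theorem od_T (x : ℝ) : od w x T = 0 := by
  have := W.od_refl x 0
  rw [sub_zero, W.od_zero] at this
  rw [this]; norm_num

/-- decay of both parts -/
theorem decay_parts : ∃ C, 0 ≤ C ∧ ∀ x, 1 ≤ x → ∀ t,
    |ev w x t| ≤ C / x ^ 2 ∧ |od w x t| ≤ C / x ^ 2 ∧
    |Dx (od w) x t| ≤ C / x ^ 2 ∧ |Dt (od w) x t| ≤ C / x ^ 2 := by
  obtain ⟨C, hC, h⟩ := W.decay
  refine ⟨C, hC, fun x hx t => ?_⟩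
  rw [Dx_od W.c1, Dt_od W.c1]
  have h1 := h x hx t
  have h2 := h x hx (-t)
  simp only [abs_le] at h1 h2
  unfold ev od
  refine ⟨?_, ?_, ?_, ?_⟩ <;> rw [abs_le] <;> constructor <;>
    linarith [h1.1.1, h1.1.2, h1.2.1.1, h1.2.1.2, h1.2.2.1, h1.2.2.2,
      h2.1.1, h2.1.2, h2.2.1.1, h2.2.1.2, h2.2.2.1, h2.2.2.2]

/-- cone estimate for the even part -/
theorem ev_small (hT : 0 < T) : ∃ K X0 : ℝ, 0 ≤ K ∧ ∀ x, X0 ≤ x → ∀ b, 0 ≤ b →
    (∀ y, |y - x| ≤ T → ∀ t, 0 ≤ t → t ≤ T → |od w y t| ≤ b) →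
    ∀ t, 0 ≤ t → t ≤ T → |ev w x t| ≤ K * b ^ 2 ∧ |Dx (ev w) x t| ≤ K * b ^ 2 ∧
      |Dt (ev w) x t| ≤ K * b ^ 2 ∧ |ev w x t| ≤ 1 / 4 := by
  obtain ⟨C, hC, hdec⟩ := W.decay_parts
  refine ⟨4 * T + 3 * T ^ 2 * exp (3 * T), T + 1 + 4 * C, by positivity, ?_⟩
  intro x hx b hb hab t ht0 htT
  have hsm : ∀ y τ, 0 ≤ τ → |y - x| ≤ T - τ → |ev w y τ| ≤ 1 / 4 := by
    intro y τ hτ hy
    have hy1 : |y - x| ≤ T := by linarith
    rw [abs_le] at hy1
    have hy2 : 1 + 4 * C ≤ y := by linarith [hy1.1]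
    have hy3 : 1 ≤ y := by linarith
    refine (hdec y hy3 τ).1.trans ?_
    rw [div_le_div_iff₀ (by positivity) (by norm_num)]
    nlinarith
  have key := cone_estimate (b := b) hT W.sEv W.ev_zero W.Dt_ev_zero x (by
    intro y τ hτ hy
    have e : Dx (Dx (ev w)) y τ - Dt (Dt (ev w)) y τ = 2 * ev w y τ + srcS w y τ := by
      rw [W.eqn_ev]; ring
    rw [e]
    have h1 := hsm y τ hτ hy
    have h2 : |od w y τ| ≤ b := hab y (by linarith) τ hτ (by linarith [abs_nonneg (y - x)])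
    unfold srcS
    set s := ev w y τ
    set a := od w y τ
    have h3 : a ^ 2 ≤ b ^ 2 := by
      rw [← sq_abs a]; gcongr
    have h4 : s ^ 2 = |s| ^ 2 := (sq_abs s).symm
    have h5 : |2 * s + (3 * a ^ 2 * (1 + s) + s ^ 2 * (3 + s))| ≤
        2 * |s| + (3 * a ^ 2 * |1 + s| + s ^ 2 * |3 + s|) := by
      refine (abs_add_le _ _).trans ?_
      refine add_le_add (by rw [abs_mul]; norm_num) ?_
      refine (abs_add_le _ _).trans ?_
      rw [abs_mul, abs_mul (s ^ 2), abs_of_nonneg (by positivity : 0 ≤ 3 * a ^ 2),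
        abs_of_nonneg (by positivity : 0 ≤ s ^ 2)]
    have h6 : |1 + s| ≤ 5 / 4 := by
      rw [abs_le] at h1 ⊢; constructor <;> linarith [h1.1, h1.2]
    have h7 : |3 + s| ≤ 13 / 4 := by
      rw [abs_le] at h1 ⊢; constructor <;> linarith [h1.1, h1.2]
    refine h5.trans ?_
    have h8 : 3 * a ^ 2 * |1 + s| ≤ 3 * b ^ 2 * (5 / 4) := by
      gcongr
    have h9 : s ^ 2 * |3 + s| ≤ (|s| * (1 / 4)) * (13 / 4) := by
      rw [h4, sq]
      gcongr
    nlinarith [abs_nonneg s, sq_nonneg b])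
  have h := key t ht0 htT
  exact ⟨h.1, h.2.1, h.2.2, hsm x t ht0 (by simp; linarith)⟩

/-- cubic bound for the source of the odd part -/
theorem srcA_small (hT : 0 < T) : ∃ K X0 : ℝ, 0 ≤ K ∧ ∀ x, X0 ≤ x → ∀ b, 0 ≤ b →
    (∀ y, |y - x| ≤ T → ∀ t, 0 ≤ t → t ≤ T → |od w y t| ≤ b) →
    ∀ t, 0 ≤ t → t ≤ T → |srcA w x t| ≤ K * b ^ 3 := by
  obtain ⟨K, X0, hK, h⟩ := W.ev_small hT
  refine ⟨7 * K + 1, X0, by positivity, ?_⟩
  intro x hx b hb hab t ht0 htT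
  obtain ⟨h1, -, -, h2⟩ := h x hx b hb hab t ht0 htT
  have h3 : |od w x t| ≤ b := hab x (by simp [hT.le]) t ht0 htT
  unfold srcA
  set s := ev w x t
  set a := od w x t
  rw [abs_mul]
  have h4 : |6 * s + 3 * s ^ 2 + a ^ 2| ≤ 6 * |s| + 3 * |s| ^ 2 + |a| ^ 2 := by
    refine (abs_add_le _ _).trans ?_
    rw [abs_pow]
    refine add_le_add ?_ le_rfl
    refine (abs_add_le _ _).trans ?_
    rw [abs_mul, abs_mul, abs_pow]
    norm_num
  have h5 : 6 * |s| + 3 * |s| ^ 2 + |a| ^ 2 ≤ (7 * K + 1) * b ^ 2 := by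
    have h6 : |s| ^ 2 ≤ |s| * (1 / 4) := by rw [sq]; gcongr
    have h7 : |a| ^ 2 ≤ b ^ 2 := by gcongr
    nlinarith [abs_nonneg s]
  calc |a| * |6 * s + 3 * s ^ 2 + a ^ 2| ≤ b * ((7 * K + 1) * b ^ 2) := by
        gcongr
        exact h4.trans h5
    _ = (7 * K + 1) * b ^ 3 := by ring

end WSol

end Phi4
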