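import Pool.Agent.Helper88.PhiF
import Pool.Agent.Helper88.PhiB

/-! L2 norms on `[0,T]`, sine modes, and the high energy. -/

namespace Phi4

open Real Filter MeasureTheory intervalIntegral Set

/-- L2 norm on `[0,T]` -/
noncomputable def nrm (T : ℝ) (f : ℝ → ℝ) : ℝ := √(∫ t in (0:ℝ)..T, f t ^ 2)

theorem nrm_nonneg (T : ℝ) (f : ℝ → ℝ) : 0 ≤ nrm T f := sqrt_nonneg _

theorem int_sq_nonneg {T : ℝ} (hT : 0 ≤ T) (f : ℝ → ℝ) : 0 ≤ ∫ t in (0:ℝ)..T, f t ^ 2 :=
  integral_nonneg hT fun t _ => sq_nonneg _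

theorem nrm_sq {T : ℝ} (hT : 0 ≤ T) (f : ℝ → ℝ) :
    nrm T f ^ 2 = ∫ t in (0:ℝ)..T, f t ^ 2 := sq_sqrt (int_sq_nonneg hT f)

theorem cs {T : ℝ} (hT : 0 ≤ T) {f g : ℝ → ℝ} (hf : Continuous f) (hg : Continuous g) :
    |∫ t in (0:ℝ)..T, f t * g t| ≤ nrm T f * nrm T g := by
  have key : ∀ c : ℝ, 0 ≤ (∫ t in (0:ℝ)..T, g t ^ 2) * (c * c) +
      (-2 * ∫ t in (0:ℝ)..T, f t * g t) * c + ∫ t in (0:ℝ)..T, f t ^ 2 := by
    intro c
    have h1 : 0 ≤ ∫ t in (0:ℝ)..T, (f t - c * g t) ^ 2 := integral_nonneg hT fun t _ => sq_nonneg _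
    have h2 : (∫ t in (0:ℝ)..T, (f t - c * g t) ^ 2) =
        (∫ t in (0:ℝ)..T, g t ^ 2) * (c * c) +
      (-2 * ∫ t in (0:ℝ)..T, f t * g t) * c + ∫ t in (0:ℝ)..T, f t ^ 2 := by
      have e : ∀ t, (f t - c * g t) ^ 2 = (c * c) * g t ^ 2 + (-2 * c) * (f t * g t) + f t ^ 2 := by
        intro t; ring
      simp_rw [e]
      rw [intervalIntegral.integral_add, intervalIntegral.integral_add, intervalIntegral.integral_const_mul,
        intervalIntegral.integral_const_mul]
      · ring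
      · exact (by fun_prop : Continuous fun t => c * c * g t ^ 2).intervalIntegrable _ _
      · exact (by fun_prop : Continuous fun t => -2 * c * (f t * g t)).intervalIntegrable _ _
      · exact (by fun_prop : Continuous fun t => c * c * g t ^ 2 + -2 * c * (f t * g t)).intervalIntegrable _ _
      · exact (by fun_prop : Continuous fun t => f t ^ 2).intervalIntegrable _ _
    rw [← h2]; exact h1
  have hd := discrim_le_zero key
  unfold discrim at hd
  have h3 : (∫ t in (0:ℝ)..T, f t * g t) ^ 2 ≤ (nrm T f * nrm T g) ^ 2 := by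
    rw [mul_pow, nrm_sq hT, nrm_sq hT]
    nlinarith
  exact abs_le_of_sq_le_sq h3 (mul_nonneg (nrm_nonneg _ _) (nrm_nonneg _ _))

theorem nrm_add_le {T : ℝ} (hT : 0 ≤ T) {f g : ℝ → ℝ} (hf : Continuous f) (hg : Continuous g) :
    nrm T (fun t => f t + g t) ≤ nrm T f + nrm T g := by
  have h0 := add_nonneg (nrm_nonneg T f) (nrm_nonneg T g)
  apply le_of_sq_le_sq _ h0
  rw [nrm_sq hT, add_sq, nrm_sq hT, nrm_sq hT]
  have e : ∀ t, (f t + g t) ^ 2 = f t ^ 2 + 2 * (f t * g t) + g t ^ 2 := by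
    intro t; ring
  simp_rw [e]
  rw [intervalIntegral.integral_add, intervalIntegral.integral_add, intervalIntegral.integral_const_mul]
  · have := le_of_abs_le (cs hT hf hg)
    nlinarith
  · exact (by fun_prop : Continuous fun t => f t ^ 2).intervalIntegrable _ _
  · exact (by fun_prop : Continuous fun t => 2 * (f t * g t)).intervalIntegrable _ _
  · exact (by fun_prop : Continuous fun t => f t ^ 2 + 2 * (f t * g t)).intervalIntegrable _ _
  · exact (by fun_prop : Continuous fun t => g t ^ 2).intervalIntegrable _ _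

theorem nrm_neg (T : ℝ) (f : ℝ → ℝ) : nrm T (fun t => - f t) = nrm T f := by
  unfold nrm; simp

theorem nrm_sub_le {T : ℝ} (hT : 0 ≤ T) {f g : ℝ → ℝ} (hf : Continuous f) (hg : Continuous g) :
    nrm T (fun t => f t - g t) ≤ nrm T f + nrm T g := by
  have := nrm_add_le hT hf hg.neg
  rw [show (fun t => f t + (-g) t) = fun t => f t - g t by funext t; simp [sub_eq_add_neg]] at this
  rw [show nrm T (-g) = nrm T g from nrm_neg T g] at this
  exact this

theorem nrm_le_of_bound {T M : ℝ} (hT : 0 ≤ T) (hM : 0 ≤ M) {f : ℝ → ℝ} (hf : Continuous f)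
    (h : ∀ t, 0 ≤ t → t ≤ T → |f t| ≤ M) : nrm T f ≤ √T * M := by
  apply le_of_sq_le_sq _ (by positivity)
  rw [nrm_sq hT, mul_pow, sq_sqrt hT]
  have h1 : (∫ t in (0:ℝ)..T, f t ^ 2) ≤ ∫ t in (0:ℝ)..T, M ^ 2 := by
    apply integral_mono_on hT
    · exact (by fun_prop : Continuous fun t => f t ^ 2).intervalIntegrable _ _
    · exact intervalIntegrable_const
    · intro t ht
      rw [← sq_abs]
      have := h t ht.1 ht.2
      gcongr
  refine h1.trans ?_
  simp

theorem abs_int_le_nrm {T : ℝ} (hT : 0 ≤ T) {f g : ℝ → ℝ} (hf : Continuous f) (hg : Continuous g)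
    (h1 : ∀ t, |g t| ≤ 1) : |∫ t in (0:ℝ)..T, f t * g t| ≤ √T * nrm T f := by
  refine (cs hT hf hg).trans ?_
  have := nrm_le_of_bound (M := 1) hT (by norm_num) hg (fun t _ _ => h1 t)
  rw [mul_one] at this
  rw [mul_comm (√T)]
  exact mul_le_mul_of_nonneg_left this (nrm_nonneg _ _)

theorem sup_le_nrm_deriv {T : ℝ} {f f' : ℝ → ℝ} (hd : ∀ t, HasDerivAt f (f' t) t)
    (hc : Continuous f') (h0 : f 0 = 0) {t : ℝ} (ht : 0 ≤ t) (htT : t ≤ T) :
    |f t| ≤ √T * nrm T f' := by
  have hT : 0 ≤ T := ht.trans htT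
  have e : f t = ∫ r in (0:ℝ)..t, f' r := by
    rw [integral_eq_sub_of_hasDerivAt (fun r _ => hd r) (hc.intervalIntegrable _ _), h0, sub_zero]
  have e1 : |f t| ≤ ∫ r in (0:ℝ)..t, |f' r| := by
    rw [e]
    exact abs_integral_le_integral_abs ht
  have e2 : (∫ r in (0:ℝ)..t, |f' r|) ≤ ∫ r in (0:ℝ)..T, |f' r| := by
    apply integral_mono_interval le_rfl ht htT
    · exact Eventually.of_forall fun r => abs_nonneg _
    · exact hc.abs.intervalIntegrable _ _
  have e3 : (∫ r in (0:ℝ)..T, |f' r|) ≤ √T * nrm T f' := by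
    have := abs_int_le_nrm (f := fun r => |f' r|) (g := fun _ => 1) hT hc.abs continuous_const
      (by simp)
    simp only [mul_one] at this
    refine (le_abs_self _).trans (this.trans ?_)
    unfold nrm; simp
  linarith

/-! ### sine modes -/

/-- frequency of mode `j` -/
noncomputable def om (T : ℝ) (j : ℕ) : ℝ := (j : ℝ) * (2 * π / T)

theorem om_T {T : ℝ} (hT : 0 < T) (j : ℕ) : om T j * T = j * (2 * π) := by
  unfold om; field_simp

theorem sin_om_T {T : ℝ} (hT : 0 < T) (j : ℕ) : sin (om T j * T) = 0 := by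
  rw [om_T hT]
  have := sin_nat_mul_pi (2 * j)
  push_cast at this
  rw [← this]; congr 1; ring

theorem cos_om_T {T : ℝ} (hT : 0 < T) (j : ℕ) : cos (om T j * T) = 1 := by
  rw [om_T hT]; exact_mod_cast cos_nat_mul_two_pi j

theorem int_cos_zero {T c : ℝ} (hc : c ≠ 0) (h : sin (c * T) = 0) :
    ∫ t in (0:ℝ)..T, cos (c * t) = 0 := by
  rw [intervalIntegral.integral_comp_mul_left (fun t => cos t) hc]
  simp [h]

theorem ortho {T : ℝ} (hT : 0 < T) {i j : ℕ} (hi : 1 ≤ i) (hj : 1 ≤ j) :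
    ∫ t in (0:ℝ)..T, sin (om T i * t) * sin (om T j * t) = if i = j then T / 2 else 0 := by
  have e : ∀ t, sin (om T i * t) * sin (om T j * t) =
      (1 / 2) * cos ((om T i - om T j) * t) - (1 / 2) * cos ((om T i + om T j) * t) := by
    intro t
    rw [sub_mul, add_mul, cos_sub, cos_add]; ring
  simp_rw [e]
  rw [intervalIntegral.integral_sub, intervalIntegral.integral_const_mul, intervalIntegral.integral_const_mul]
  · have h1 : ∫ t in (0:ℝ)..T, cos ((om T i + om T j) * t) = 0 := by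
      apply int_cos_zero
      · have : 0 < om T i + om T j := by
          unfold om
          have : (1:ℝ) ≤ i := by exact_mod_cast hi
          positivity
        exact this.ne'
      · rw [add_mul, sin_add, sin_om_T hT, sin_om_T hT]; ring
    rw [h1]
    split_ifs with hij
    · subst hij; simp; ring
    · have h2 : ∫ t in (0:ℝ)..T, cos ((om T i - om T j) * t) = 0 := by
        apply int_cos_zero
        · unfold om
          rw [← sub_mul]
          apply mul_ne_zero
          · rw [sub_ne_zero]; exact_mod_cast hij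
          · positivity
        · rw [sub_mul, sin_sub, sin_om_T hT, sin_om_T hT]; ring
      rw [h2]; ring
  · exact (by fun_prop : Continuous fun t => 1 / 2 * cos ((om T i - om T j) * t)).intervalIntegrable _ _
  · exact (by fun_prop : Continuous fun t => 1 / 2 * cos ((om T i + om T j) * t)).intervalIntegrable _ _

/-- finite sine sum and its time derivatives -/
noncomputable def P (T : ℝ) {J : ℕ} (c : Fin J → ℝ) (t : ℝ) : ℝ :=
  ∑ j, c j * sin (om T (j + 1) * t)
noncomputable def P1 (T : ℝ) {J : ℕ} (c : Fin J → ℝ) (t : ℝ) : ℝ :=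
  ∑ j, c j * (om T (j + 1) * cos (om T (j + 1) * t))
noncomputable def P2 (T : ℝ) {J : ℕ} (c : Fin J → ℝ) (t : ℝ) : ℝ :=
  ∑ j, c j * (-(om T (j + 1) ^ 2) * sin (om T (j + 1) * t))

theorem hasDerivAt_sin_om (c t : ℝ) : HasDerivAt (fun r => sin (c * r)) (c * cos (c * t)) t := by
  have h1 : HasDerivAt (fun r : ℝ => c * r) c t := by simpa using (hasDerivAt_id t).const_mul c
  exact h1.sin.congr_deriv (by ring)

theorem hasDerivAt_cos_om (c t : ℝ) : HasDerivAt (fun r => cos (c * r)) (-c * sin (c * t)) t := by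
  have h1 : HasDerivAt (fun r : ℝ => c * r) c t := by simpa using (hasDerivAt_id t).const_mul c
  exact h1.cos.congr_deriv (by ring)

theorem hasDerivAt_P (T : ℝ) {J : ℕ} (c : Fin J → ℝ) (t : ℝ) :
    HasDerivAt (P T c) (P1 T c t) t := by
  unfold P P1
  apply HasDerivAt.fun_sum
  intro j _
  exact (hasDerivAt_sin_om _ t).const_mul _

theorem hasDerivAt_P1 (T : ℝ) {J : ℕ} (c : Fin J → ℝ) (t : ℝ) :
    HasDerivAt (P1 T c) (P2 T c t) t := by
  unfold P1 P2
  apply HasDerivAt.fun_sum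
  intro j _
  have := ((hasDerivAt_cos_om (om T (j + 1)) t).const_mul (om T (j + 1))).const_mul (c j)
  exact this.congr_deriv (by ring)

theorem hasDerivAt_P_x (T : ℝ) {J : ℕ} {c c' : Fin J → ℝ → ℝ}
    (h : ∀ j x, HasDerivAt (c j) (c' j x) x) (x t : ℝ) :
    HasDerivAt (fun y => P T (fun j => c j y) t) (P T (fun j => c' j x) t) x := by
  unfold P
  apply HasDerivAt.fun_sum
  intro j _
  exact (h j x).mul_const _

theorem hasDerivAt_P1_x (T : ℝ) {J : ℕ} {c c' : Fin J → ℝ → ℝ}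
    (h : ∀ j x, HasDerivAt (c j) (c' j x) x) (x t : ℝ) :
    HasDerivAt (fun y => P1 T (fun j => c j y) t) (P1 T (fun j => c' j x) t) x := by
  unfold P1
  apply HasDerivAt.fun_sum
  intro j _
  exact (h j x).mul_const _

theorem cont_P (T : ℝ) {J : ℕ} {c : Fin J → ℝ → ℝ} (h : ∀ j, Continuous (c j)) :
    Continuous (fun p : ℝ × ℝ => P T (fun j => c j p.1) p.2) := by
  unfold P
  fun_prop

theorem cont_P1 (T : ℝ) {J : ℕ} {c : Fin J → ℝ → ℝ} (h : ∀ j, Continuous (c j)) :
    Continuous (fun p : ℝ × ℝ => P1 T (fun j => c j p.1) p.2) := by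
  unfold P1
  fun_prop

theorem cont_P2 (T : ℝ) {J : ℕ} {c : Fin J → ℝ → ℝ} (h : ∀ j, Continuous (c j)) :
    Continuous (fun p : ℝ × ℝ => P2 T (fun j => c j p.1) p.2) := by
  unfold P2
  fun_prop

theorem P_zero (T : ℝ) {J : ℕ} (c : Fin J → ℝ) : P T c 0 = 0 := by
  unfold P; simp

theorem P_T {T : ℝ} (hT : 0 < T) {J : ℕ} (c : Fin J → ℝ) : P T c T = 0 := by
  unfold P
  apply Finset.sum_eq_zero
  intro j _
  rw [sin_om_T hT, mul_zero]

theorem P_refl {T : ℝ} (hT : 0 < T) {J : ℕ} (c : Fin J → ℝ) (t : ℝ) :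
    P T c (T - t) = - P T c t := by
  unfold P
  rw [← Finset.sum_neg_distrib]
  apply Finset.sum_congr rfl
  intro j _
  rw [mul_sub, sin_sub, sin_om_T hT, cos_om_T hT]; ring

theorem abs_P_le (T : ℝ) {J : ℕ} (c : Fin J → ℝ) (t : ℝ) : |P T c t| ≤ ∑ j, |c j| := by
  unfold P
  refine (Finset.abs_sum_le_sum_abs _ _).trans ?_
  apply Finset.sum_le_sum
  intro j _
  rw [abs_mul]
  exact mul_le_of_le_one_right (abs_nonneg _) (abs_sin_le_one _)

theorem abs_P1_le {T : ℝ} (hT : 0 < T) {J : ℕ} (c : Fin J → ℝ) (t : ℝ) :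
    |P1 T c t| ≤ om T J * ∑ j, |c j| := by
  unfold P1
  refine (Finset.abs_sum_le_sum_abs _ _).trans ?_
  rw [Finset.mul_sum]
  apply Finset.sum_le_sum
  intro j _
  rw [abs_mul, abs_mul, mul_comm (om T J)]
  apply mul_le_mul_of_nonneg_left _ (abs_nonneg _)
  have h1 : |om T (j + 1)| ≤ om T J := by
    rw [abs_of_nonneg (by unfold om; positivity)]
    unfold om
    have : ((((j:ℕ) + 1 : ℕ) : ℝ)) ≤ J := by exact_mod_cast j.2
    gcongr
  have h2 := abs_cos_le_one (om T (j + 1) * t)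
  have h3 : 0 ≤ om T J := by unfold om; positivity
  calc |om T (j + 1)| * |cos (om T (j + 1) * t)| ≤ om T J * 1 := by gcongr
    _ = om T J := mul_one _

/-- normalised sine coefficient -/
noncomputable def coef (T : ℝ) (f : ℝ → ℝ → ℝ) (j : ℕ) (x : ℝ) : ℝ :=
  2 / T * ∫ t in (0:ℝ)..T, f x t * sin (om T j * t)

theorem cont_slice {f : ℝ → ℝ → ℝ} (hf : Continuous (fun p : ℝ × ℝ => f p.1 p.2)) (x : ℝ) :
    Continuous (f x) := hf.comp (by fun_prop : Continuous fun t : ℝ => (x, t))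

theorem hasDerivAt_coef (T : ℝ) {f f' : ℝ → ℝ → ℝ} (j : ℕ)
    (hd : ∀ x t, HasDerivAt (fun y => f y t) (f' x t) x)
    (hf : Continuous (fun p : ℝ × ℝ => f p.1 p.2))
    (hf' : Continuous (fun p : ℝ × ℝ => f' p.1 p.2)) (x : ℝ) :
    HasDerivAt (coef T f j) (coef T f' j x) x := by
  unfold coef
  apply HasDerivAt.const_mul
  apply hasDerivAt_integral_param (F := fun y t => f y t * sin (om T j * t))
    (F' := fun y t => f' y t * sin (om T j * t))
  · intro y t
    exact (hd y t).mul_const _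
  · intro y
    have := cont_slice hf y
    fun_prop
  · fun_prop

theorem abs_coef_le {T : ℝ} (hT : 0 < T) {f : ℝ → ℝ → ℝ} (j : ℕ) {x : ℝ}
    (hf : Continuous (f x)) : |coef T f j x| ≤ 2 / √T * nrm T (f x) := by
  unfold coef
  rw [abs_mul, abs_of_pos (by positivity : 0 < 2 / T)]
  have := abs_int_le_nrm hT.le hf (g := fun t => sin (om T j * t)) (by fun_prop)
    (fun t => abs_sin_le_one _)
  calc 2 / T * |∫ t in (0:ℝ)..T, f x t * sin (om T j * t)| ≤ 2 / T * (√T * nrm T (f x)) := by gcongr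
    _ = 2 / √T * nrm T (f x) := by
        have h1 : √T * √T = T := mul_self_sqrt hT.le
        have h2 : √T ≠ 0 := (sqrt_pos.2 hT).ne'
        field_simp
        rw [sq, h1]

end Phi4
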