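import Pool.Agent.Helper88.PhiG

/-! Mode equations and the energy of the high part. -/

namespace Phi4

open Real Filter MeasureTheory intervalIntegral Set

/-- the odd part solves a forced Klein-Gordon equation with Dirichlet conditions -/
structure OSol (T : ℝ) (a G : ℝ → ℝ → ℝ) : Prop where
  hT : 0 < T
  smooth : ContDiff ℝ 2 (fun p : ℝ × ℝ => a p.1 p.2)
  eqn : ∀ x t, Dx (Dx a) x t = Dt (Dt a) x t + 2 * a x t + G x t
  zero : ∀ x, a x 0 = 0
  zeroT : ∀ x, a x T = 0
  refl : ∀ x t, a x (T - t) = - a x t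

/-- high part and its formal derivatives -/
noncomputable def hf (T : ℝ) (J : ℕ) (a : ℝ → ℝ → ℝ) (x t : ℝ) : ℝ :=
  a x t - P T (fun j : Fin J => coef T a (j + 1) x) t
noncomputable def hfx (T : ℝ) (J : ℕ) (a : ℝ → ℝ → ℝ) (x t : ℝ) : ℝ :=
  Dx a x t - P T (fun j : Fin J => coef T (Dx a) (j + 1) x) t
noncomputable def hfxx (T : ℝ) (J : ℕ) (a : ℝ → ℝ → ℝ) (x t : ℝ) : ℝ :=
  Dx (Dx a) x t - P T (fun j : Fin J => coef T (Dx (Dx a)) (j + 1) x) t
noncomputable def hft (T : ℝ) (J : ℕ) (a : ℝ → ℝ → ℝ) (x t : ℝ) : ℝ :=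
  Dt a x t - P1 T (fun j : Fin J => coef T a (j + 1) x) t
noncomputable def hfxt (T : ℝ) (J : ℕ) (a : ℝ → ℝ → ℝ) (x t : ℝ) : ℝ :=
  Dt (Dx a) x t - P1 T (fun j : Fin J => coef T (Dx a) (j + 1) x) t
noncomputable def hftt (T : ℝ) (J : ℕ) (a : ℝ → ℝ → ℝ) (x t : ℝ) : ℝ :=
  Dt (Dt a) x t - P2 T (fun j : Fin J => coef T a (j + 1) x) t

/-- energy of the high part -/
noncomputable def En (T : ℝ) (J : ℕ) (a : ℝ → ℝ → ℝ) (x : ℝ) : ℝ :=
  ∫ t in (0:ℝ)..T, (hfx T J a x t ^ 2 + hft T J a x t ^ 2 - 2 * hf T J a x t ^ 2)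

namespace OSol

variable {T : ℝ} {a G : ℝ → ℝ → ℝ} (O : OSol T a G)
include O

theorem c1 : ContDiff ℝ 1 (fun p : ℝ × ℝ => a p.1 p.2) := c2_one O.smooth
theorem ca : Continuous (fun p : ℝ × ℝ => a p.1 p.2) := O.smooth.continuous
theorem cx : Continuous (fun p : ℝ × ℝ => Dx a p.1 p.2) := (c2_Dx O.smooth).continuous
theorem ct : Continuous (fun p : ℝ × ℝ => Dt a p.1 p.2) := (c2_Dt O.smooth).continuous
theorem cxx : Continuous (fun p : ℝ × ℝ => Dx (Dx a) p.1 p.2) := cont_Dx (c2_Dx O.smooth)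
theorem cxt : Continuous (fun p : ℝ × ℝ => Dt (Dx a) p.1 p.2) := cont_Dt (c2_Dx O.smooth)
theorem ctt : Continuous (fun p : ℝ × ℝ => Dt (Dt a) p.1 p.2) := cont_Dt (c2_Dt O.smooth)

theorem cG : Continuous (fun p : ℝ × ℝ => G p.1 p.2) := by
  have e : (fun p : ℝ × ℝ => G p.1 p.2) =
      fun p : ℝ × ℝ => Dx (Dx a) p.1 p.2 - Dt (Dt a) p.1 p.2 - 2 * a p.1 p.2 := by
    funext p; rw [O.eqn]; ring
  rw [e]
  have h1 := O.cxx
  have h2 := O.ctt
  have h3 := O.ca
  fun_prop

theorem hal (j : ℕ) (x : ℝ) : HasDerivAt (coef T a j) (coef T (Dx a) j x) x :=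
  hasDerivAt_coef T j (hasDerivAt_x O.c1) O.ca O.cx x

theorem hbe (j : ℕ) (x : ℝ) : HasDerivAt (coef T (Dx a) j) (coef T (Dx (Dx a)) j x) x :=
  hasDerivAt_coef T j (hasDerivAt_x (c2_Dx O.smooth)) O.cx O.cxx x

theorem cont_al (j : ℕ) : Continuous (coef T a j) :=
  continuous_iff_continuousAt.2 fun x => (O.hal j x).continuousAt

theorem cont_be (j : ℕ) : Continuous (coef T (Dx a) j) :=
  continuous_iff_continuousAt.2 fun x => (O.hbe j x).continuousAt

theorem cont_ga (j : ℕ) : Continuous (coef T (Dx (Dx a)) j) := by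
  unfold coef
  apply Continuous.mul continuous_const
  have h := O.cxx
  apply intervalIntegral.continuous_parametric_intervalIntegral_of_continuous'
  fun_prop

theorem coef_tt (j : ℕ) (x : ℝ) : coef T (Dt (Dt a)) j x = -(om T j ^ 2) * coef T a j x := by
  unfold coef
  have h1 : ∫ t in (0:ℝ)..T, sin (om T j * t) * Dt (Dt a) x t =
      sin (om T j * T) * Dt a x T - sin (om T j * 0) * Dt a x 0 -
        ∫ t in (0:ℝ)..T, (om T j * cos (om T j * t)) * Dt a x t :=
    integral_mul_deriv_eq_deriv_mul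
      (fun t _ => hasDerivAt_sin_om _ t) (fun t _ => hasDerivAt_t (c2_Dt O.smooth) x t)
      ((by fun_prop : Continuous fun t => om T j * cos (om T j * t)).intervalIntegrable _ _)
      ((cont_slice O.ctt x).intervalIntegrable _ _)
  have h2 : ∫ t in (0:ℝ)..T, (om T j * cos (om T j * t)) * Dt a x t =
      (om T j * cos (om T j * T)) * a x T - (om T j * cos (om T j * 0)) * a x 0 -
        ∫ t in (0:ℝ)..T, (om T j * (-om T j * sin (om T j * t))) * a x t :=
    integral_mul_deriv_eq_deriv_mul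
      (fun t _ => (hasDerivAt_cos_om _ t).const_mul _) (fun t _ => hasDerivAt_t O.c1 x t)
      ((by fun_prop : Continuous fun t => om T j * (-om T j * sin (om T j * t))).intervalIntegrable _ _)
      ((cont_slice O.ct x).intervalIntegrable _ _)
  have h3 : ∫ t in (0:ℝ)..T, Dt (Dt a) x t * sin (om T j * t) =
      ∫ t in (0:ℝ)..T, sin (om T j * t) * Dt (Dt a) x t := by
    congr 1; funext t; ring
  have h4 : ∫ t in (0:ℝ)..T, (om T j * (-om T j * sin (om T j * t))) * a x t =
      -(om T j ^ 2) * ∫ t in (0:ℝ)..T, a x t * sin (om T j * t) := by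
    rw [← intervalIntegral.integral_const_mul]
    congr 1; funext t; ring
  rw [h3, h1, h2, h4, sin_om_T O.hT, O.zero, O.zeroT]
  simp
  ring

theorem ga_eq (j : ℕ) (x : ℝ) :
    coef T (Dx (Dx a)) j x = (2 - om T j ^ 2) * coef T a j x + coef T G j x := by
  have h1 : coef T (Dx (Dx a)) j x =
      coef T (Dt (Dt a)) j x + 2 * coef T a j x + coef T G j x := by
    unfold coef
    have e : ∀ t, Dx (Dx a) x t * sin (om T j * t) =
        Dt (Dt a) x t * sin (om T j * t) + 2 * (a x t * sin (om T j * t)) +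
          G x t * sin (om T j * t) := by
      intro t; rw [O.eqn]; ring
    simp_rw [e]
    have c1 := cont_slice O.ctt x
    have c2 := cont_slice O.ca x
    have c3 := cont_slice O.cG x
    rw [intervalIntegral.integral_add, intervalIntegral.integral_add,
      intervalIntegral.integral_const_mul]
    · ring
    · exact (by fun_prop : Continuous fun t => Dt (Dt a) x t * sin (om T j * t)).intervalIntegrable _ _
    · exact (by fun_prop : Continuous fun t => 2 * (a x t * sin (om T j * t))).intervalIntegrable _ _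
    · exact (by fun_prop : Continuous fun t => Dt (Dt a) x t * sin (om T j * t) +
        2 * (a x t * sin (om T j * t))).intervalIntegrable _ _
    · exact (by fun_prop : Continuous fun t => G x t * sin (om T j * t)).intervalIntegrable _ _
  rw [h1, O.coef_tt]; ring

variable (J : ℕ)

theorem c_hf : Continuous (fun p : ℝ × ℝ => hf T J a p.1 p.2) :=
  O.ca.sub (cont_P T fun j : Fin J => O.cont_al (j + 1))
theorem c_hfx : Continuous (fun p : ℝ × ℝ => hfx T J a p.1 p.2) :=
  O.cx.sub (cont_P T fun j : Fin J => O.cont_be (j + 1))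
theorem c_hfxx : Continuous (fun p : ℝ × ℝ => hfxx T J a p.1 p.2) :=
  O.cxx.sub (cont_P T fun j : Fin J => O.cont_ga (j + 1))
theorem c_hft : Continuous (fun p : ℝ × ℝ => hft T J a p.1 p.2) :=
  O.ct.sub (cont_P1 T fun j : Fin J => O.cont_al (j + 1))
theorem c_hfxt : Continuous (fun p : ℝ × ℝ => hfxt T J a p.1 p.2) :=
  O.cxt.sub (cont_P1 T fun j : Fin J => O.cont_be (j + 1))
theorem c_hftt : Continuous (fun p : ℝ × ℝ => hftt T J a p.1 p.2) :=
  O.ctt.sub (cont_P2 T fun j : Fin J => O.cont_al (j + 1))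

theorem d_hf_x (x t : ℝ) : HasDerivAt (fun y => hf T J a y t) (hfx T J a x t) x :=
  (hasDerivAt_x O.c1 x t).sub
    (hasDerivAt_P_x T (c := fun (j : Fin J) y => coef T a (j + 1) y)
      (c' := fun (j : Fin J) y => coef T (Dx a) (j + 1) y) (fun j x => O.hal (j + 1) x) x t)

theorem d_hfx_x (x t : ℝ) : HasDerivAt (fun y => hfx T J a y t) (hfxx T J a x t) x :=
  (hasDerivAt_x (c2_Dx O.smooth) x t).sub
    (hasDerivAt_P_x T (c := fun (j : Fin J) y => coef T (Dx a) (j + 1) y)
      (c' := fun (j : Fin J) y => coef T (Dx (Dx a)) (j + 1) y) (fun j x => O.hbe (j + 1) x) x t)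

theorem d_hft_x (x t : ℝ) : HasDerivAt (fun y => hft T J a y t) (hfxt T J a x t) x := by
  unfold hfxt
  rw [Dt_Dx O.smooth]
  exact (hasDerivAt_x (c2_Dt O.smooth) x t).sub
    (hasDerivAt_P1_x T (c := fun (j : Fin J) y => coef T a (j + 1) y)
      (c' := fun (j : Fin J) y => coef T (Dx a) (j + 1) y) (fun j x => O.hal (j + 1) x) x t)

theorem d_hf_t (x t : ℝ) : HasDerivAt (fun r => hf T J a x r) (hft T J a x t) t :=
  (hasDerivAt_t O.c1 x t).sub (hasDerivAt_P T _ t)

theorem d_hfx_t (x t : ℝ) : HasDerivAt (fun r => hfx T J a x r) (hfxt T J a x t) t :=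
  (hasDerivAt_t (c2_Dx O.smooth) x t).sub (hasDerivAt_P T _ t)

theorem d_hft_t (x t : ℝ) : HasDerivAt (fun r => hft T J a x r) (hftt T J a x t) t :=
  (hasDerivAt_t (c2_Dt O.smooth) x t).sub (hasDerivAt_P1 T _ t)

theorem hf_zero (x : ℝ) : hf T J a x 0 = 0 := by
  unfold hf; rw [O.zero, P_zero, sub_zero]

theorem hf_refl (x t : ℝ) : hf T J a x (T - t) = - hf T J a x t := by
  unfold hf; rw [O.refl, P_refl O.hT]; ring

theorem hfx_zero (x : ℝ) : hfx T J a x 0 = 0 := by
  unfold hfx; rw [Dx_zero_of_zero O.zero, P_zero, sub_zero]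

theorem hfx_T (x : ℝ) : hfx T J a x T = 0 := by
  unfold hfx; rw [Dx_zero_of_zero O.zeroT, P_T O.hT, sub_zero]

theorem high_eqn (x t : ℝ) :
    hfxx T J a x t - hftt T J a x t - 2 * hf T J a x t =
      G x t - P T (fun j : Fin J => coef T G (j + 1) x) t := by
  unfold hfxx hftt hf
  rw [O.eqn]
  have : P T (fun j : Fin J => coef T (Dx (Dx a)) (j + 1) x) t =
      P2 T (fun j : Fin J => coef T a (j + 1) x) t + 2 * P T (fun j : Fin J => coef T a (j + 1) x) t
        + P T (fun j : Fin J => coef T G (j + 1) x) t := by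
    unfold P P2
    rw [Finset.mul_sum, ← Finset.sum_add_distrib, ← Finset.sum_add_distrib]
    apply Finset.sum_congr rfl
    intro j _
    beta_reduce
    rw [O.ga_eq]; ring
  rw [this]; ring

theorem energy_deriv (x : ℝ) : HasDerivAt (En T J a)
    (2 * ∫ t in (0:ℝ)..T, hfx T J a x t *
      (G x t - P T (fun j : Fin J => coef T G (j + 1) x) t)) x := by
  have c1 := O.c_hf J
  have c2 := O.c_hfx J
  have c3 := O.c_hfxx J
  have c4 := O.c_hft J
  have c5 := O.c_hfxt J
  have c6 := O.c_hftt J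
  have h := hasDerivAt_integral_param (a := 0) (b := T)
    (F := fun y t => hfx T J a y t ^ 2 + hft T J a y t ^ 2 - 2 * hf T J a y t ^ 2)
    (F' := fun y t => 2 * hfx T J a y t * hfxx T J a y t + 2 * hft T J a y t * hfxt T J a y t
      - 4 * hf T J a y t * hfx T J a y t)
    (by
      intro y t
      have e1 := (O.d_hfx_x J y t).pow 2
      have e2 := (O.d_hft_x J y t).pow 2
      have e3 := ((O.d_hf_x J y t).pow 2).const_mul 2
      have e4 := (e1.add e2).sub e3
      refine e4.congr_deriv ?_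
      simp
      ring)
    (by
      intro y
      have s1 := cont_slice c1 y
      have s2 := cont_slice c2 y
      have s4 := cont_slice c4 y
      fun_prop)
    (by fun_prop) x
  refine h.congr_deriv ?_
  have s1 := cont_slice c1 x
  have s2 := cont_slice c2 x
  have s3 := cont_slice c3 x
  have s4 := cont_slice c4 x
  have s5 := cont_slice c5 x
  have s6 := cont_slice c6 x
  have ibp : ∫ t in (0:ℝ)..T, hft T J a x t * hfxt T J a x t =
      hft T J a x T * hfx T J a x T - hft T J a x 0 * hfx T J a x 0 -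
        ∫ t in (0:ℝ)..T, hftt T J a x t * hfx T J a x t :=
    integral_mul_deriv_eq_deriv_mul
      (fun t _ => O.d_hft_t J x t) (fun t _ => O.d_hfx_t J x t)
      (s6.intervalIntegrable _ _) (s5.intervalIntegrable _ _)
  rw [O.hfx_T, O.hfx_zero, mul_zero, mul_zero, sub_zero, zero_sub] at ibp
  have e1 : ∫ t in (0:ℝ)..T, (2 * hfx T J a x t * hfxx T J a x t + 2 * hft T J a x t * hfxt T J a x t
      - 4 * hf T J a x t * hfx T J a x t) =
      (∫ t in (0:ℝ)..T, (2 * hfx T J a x t * hfxx T J a x t - 4 * hf T J a x t * hfx T J a x t)) +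
      2 * ∫ t in (0:ℝ)..T, hft T J a x t * hfxt T J a x t := by
    rw [← intervalIntegral.integral_const_mul, ← intervalIntegral.integral_add]
    · congr 1; funext t; ring
    · exact (by fun_prop : Continuous fun t => 2 * hfx T J a x t * hfxx T J a x t -
        4 * hf T J a x t * hfx T J a x t).intervalIntegrable _ _
    · exact (by fun_prop : Continuous fun t => 2 * (hft T J a x t * hfxt T J a x t)).intervalIntegrable _ _
  rw [e1, ibp, mul_neg, ← sub_eq_add_neg, ← intervalIntegral.integral_const_mul,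
    ← intervalIntegral.integral_const_mul, ← intervalIntegral.integral_sub]
  · congr 1; funext t
    rw [← O.high_eqn J x t]; ring
  · exact (by fun_prop : Continuous fun t => 2 * hfx T J a x t * hfxx T J a x t -
        4 * hf T J a x t * hfx T J a x t).intervalIntegrable _ _
  · exact (by fun_prop : Continuous fun t => 2 * (hftt T J a x t * hfx T J a x t)).intervalIntegrable _ _

theorem hf_perp (x : ℝ) {i : ℕ} (hi1 : 1 ≤ i) (hiJ : i ≤ J) :
    ∫ t in (0:ℝ)..T, hf T J a x t * sin (om T i * t) = 0 := by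
  have c1 := cont_slice O.ca x
  have e1 : ∫ t in (0:ℝ)..T, hf T J a x t * sin (om T i * t) =
      (∫ t in (0:ℝ)..T, a x t * sin (om T i * t)) -
      ∫ t in (0:ℝ)..T, P T (fun j : Fin J => coef T a (j + 1) x) t * sin (om T i * t) := by
    rw [← intervalIntegral.integral_sub]
    · congr 1; funext t; unfold hf; ring
    · exact (by fun_prop : Continuous fun t => a x t * sin (om T i * t)).intervalIntegrable _ _
    · apply Continuous.intervalIntegrable
      unfold P; fun_prop
  have e2 : ∫ t in (0:ℝ)..T, P T (fun j : Fin J => coef T a (j + 1) x) t * sin (om T i * t) =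
      ∑ j : Fin J, coef T a (j + 1) x * ∫ t in (0:ℝ)..T, sin (om T (j + 1) * t) * sin (om T i * t) := by
    unfold P
    simp_rw [Finset.sum_mul]
    rw [intervalIntegral.integral_finsetSum]
    · apply Finset.sum_congr rfl
      intro j _
      rw [← intervalIntegral.integral_const_mul]
      congr 1; funext t; ring
    · intro j _
      apply Continuous.intervalIntegrable
      fun_prop
  rw [e1, e2]
  have e3 : ∀ j : Fin J, coef T a (j + 1) x * ∫ t in (0:ℝ)..T, sin (om T (j + 1) * t) * sin (om T i * t) =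
      if j = (⟨i - 1, by omega⟩ : Fin J) then coef T a i x * (T / 2) else 0 := by
    intro j
    rw [ortho O.hT (by omega) hi1]
    by_cases h : (j : ℕ) + 1 = i
    · have h' : j = (⟨i - 1, by omega⟩ : Fin J) := by ext; simp; omega
      rw [if_pos h, if_pos h', h]
    · have h' : j ≠ (⟨i - 1, by omega⟩ : Fin J) := by
        intro hj; apply h; rw [hj]; simp; omega
      rw [if_neg h, if_neg h', mul_zero]
  simp_rw [e3]
  rw [Finset.sum_ite_eq' Finset.univ]
  simp only [Finset.mem_univ, if_true]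
  unfold coef
  have := O.hT.ne'
  field_simp
  ring

theorem wirt (x : ℝ) : om T (J + 1) ^ 2 * nrm T (hf T J a x) ^ 2 ≤ nrm T (hft T J a x) ^ 2 := by
  rw [nrm_sq O.hT.le, nrm_sq O.hT.le]
  have h := wirtinger_high T O.hT J (hf T J a x) (hft T J a x) (O.d_hf_t J x)
    (cont_slice (O.c_hft J) x) (O.hf_refl J x) (O.hf_zero J x) (by
      intro j h1 h2
      have := O.hf_perp J x h1 h2
      unfold om at this
      exact this)
  have e : om T (J + 1) = ((J:ℝ) + 1) * (2 * π / T) := by unfold om; push_cast; ring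
  rw [e]; exact h

theorem En_eq (x : ℝ) : En T J a x = nrm T (hfx T J a x) ^ 2 + nrm T (hft T J a x) ^ 2 -
    2 * nrm T (hf T J a x) ^ 2 := by
  rw [nrm_sq O.hT.le, nrm_sq O.hT.le, nrm_sq O.hT.le]
  unfold En
  have s1 := cont_slice (O.c_hf J) x
  have s2 := cont_slice (O.c_hfx J) x
  have s4 := cont_slice (O.c_hft J) x
  rw [intervalIntegral.integral_sub, intervalIntegral.integral_add,
    intervalIntegral.integral_const_mul]
  · exact (by fun_prop : Continuous fun t => hfx T J a x t ^ 2).intervalIntegrable _ _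
  · exact (by fun_prop : Continuous fun t => hft T J a x t ^ 2).intervalIntegrable _ _
  · exact (by fun_prop : Continuous fun t => hfx T J a x t ^ 2 + hft T J a x t ^ 2).intervalIntegrable _ _
  · exact (by fun_prop : Continuous fun t => 2 * hf T J a x t ^ 2).intervalIntegrable _ _

theorem En_le (x : ℝ) : En T J a x ≤ nrm T (hfx T J a x) ^ 2 + nrm T (hft T J a x) ^ 2 := by
  rw [O.En_eq]; nlinarith [sq_nonneg (nrm T (hf T J a x))]

theorem le_En (hJ : 2 < om T (J + 1) ^ 2) (x : ℝ) :
    nrm T (hfx T J a x) ^ 2 + (1 - 2 / om T (J + 1) ^ 2) * nrm T (hft T J a x) ^ 2 ≤ En T J a x := by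
  rw [O.En_eq]
  have h := O.wirt J x
  have h0 : 0 < om T (J + 1) ^ 2 := by linarith
  have : nrm T (hf T J a x) ^ 2 ≤ nrm T (hft T J a x) ^ 2 / om T (J + 1) ^ 2 := by
    rw [le_div_iff₀ h0]; linarith
  have e : (1 - 2 / om T (J + 1) ^ 2) * nrm T (hft T J a x) ^ 2 =
    nrm T (hft T J a x) ^ 2 - 2 * (nrm T (hft T J a x) ^ 2 / om T (J + 1) ^ 2) := by ring
  rw [e]; linarith

theorem En_nonneg (hJ : 2 < om T (J + 1) ^ 2) (x : ℝ) : 0 ≤ En T J a x := by
  refine le_trans ?_ (O.le_En J hJ x)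
  have h1 : 2 / om T (J + 1) ^ 2 ≤ 1 := by
    rw [div_le_one (by linarith)]; linarith
  have : 0 ≤ (1 - 2 / om T (J + 1) ^ 2) * nrm T (hft T J a x) ^ 2 :=
    mul_nonneg (by linarith) (sq_nonneg _)
  positivity

end OSol

end Phi4
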