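import Pool.Agent.Helper88.PhiH
import Pool.Agent.Helper88.PhiA

/-! Leading behaviour of the odd part at `+∞`. -/

namespace Phi4

open Real Filter MeasureTheory intervalIntegral Set

theorem WSol.osol {T : ℝ} {w : ℝ → ℝ → ℝ} (hT : 0 < T) (W : WSol T w) :
    OSol T (od w) (srcA w) where
  hT := hT
  smooth := W.sOd
  eqn := W.eqn_od
  zero := W.od_zero
  zeroT := W.od_T
  refl := W.od_refl

theorem om_le_of_le {T : ℝ} (hT : 0 < T) {i j : ℕ} (h : i ≤ j) : om T i ≤ om T j := by
  unfold om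
  have : (i : ℝ) ≤ j := by exact_mod_cast h
  gcongr

theorem om_nonneg {T : ℝ} (hT : 0 < T) (j : ℕ) : 0 ≤ om T j := by unfold om; positivity

/-- number of low modes -/
noncomputable def JJ (T : ℝ) : ℕ := ⌊√2 / (2 * π / T)⌋₊

theorem om_JJ_le {T : ℝ} (hT : 0 < T) {j : ℕ} (h : j ≤ JJ T) : om T j ^ 2 ≤ 2 := by
  have h0 : 0 < 2 * π / T := by positivity
  have h1 : (j : ℝ) ≤ √2 / (2 * π / T) := by
    have : (j : ℝ) ≤ JJ T := by exact_mod_cast h
    exact this.trans (Nat.floor_le (by positivity))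
  have h2 : om T j ≤ √2 := by
    unfold om
    rwa [le_div_iff₀ h0] at h1
  have h3 : om T j ^ 2 ≤ √2 ^ 2 := by
    have := om_nonneg hT j
    gcongr
  simpa using h3

theorem lt_om_JJ {T : ℝ} (hT : 0 < T) : 2 < om T (JJ T + 1) ^ 2 := by
  have h0 : 0 < 2 * π / T := by positivity
  have h1 : √2 / (2 * π / T) < (JJ T + 1 : ℕ) := by
    push_cast
    exact Nat.lt_floor_add_one _
  have h2 : √2 < om T (JJ T + 1) := by
    unfold om
    rwa [div_lt_iff₀ h0] at h1
  have h3 : √2 ^ 2 < om T (JJ T + 1) ^ 2 := by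
    have : 0 ≤ √2 := sqrt_nonneg _
    gcongr
  simpa using h3

/-- the norm measuring the odd part -/
noncomputable def nn (T : ℝ) (w : ℝ → ℝ → ℝ) (x : ℝ) : ℝ :=
  nrm T (Dx (od w) x) + nrm T (Dt (od w) x)

namespace WSol

variable {T : ℝ} {w : ℝ → ℝ → ℝ} (W : WSol T w)
include W

theorem sup_le_nn (hT : 0 < T) (x : ℝ) {t : ℝ} (h0 : 0 ≤ t) (h1 : t ≤ T) :
    |od w x t| ≤ √T * nn T w x := by
  have O := W.osol hT
  refine (sup_le_nrm_deriv (fun r => hasDerivAt_t O.c1 x r) (cont_slice O.ct x) (O.zero x) h0 h1).trans ?_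
  apply mul_le_mul_of_nonneg_left _ (sqrt_nonneg _)
  unfold nn
  linarith [nrm_nonneg T (Dx (od w) x)]

theorem srcA_bound (hT : 0 < T) : ∃ K X0 : ℝ, 0 ≤ K ∧ ∀ x, X0 ≤ x → ∀ B, 0 ≤ B →
    (∀ y, |y - x| ≤ T → nn T w y ≤ B) →
    ∀ t, 0 ≤ t → t ≤ T → |srcA w x t| ≤ K * B ^ 3 := by
  obtain ⟨K, X0, hK, h⟩ := W.srcA_small hT
  refine ⟨K * √T ^ 3, X0, by positivity, ?_⟩
  intro x hx B hB hn t ht0 htT
  have := h x hx (√T * B) (by positivity) (by
    intro y hy r hr0 hrT
    refine (W.sup_le_nn hT y hr0 hrT).trans ?_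
    exact mul_le_mul_of_nonneg_left (hn y hy) (sqrt_nonneg _)) t ht0 htT
  rw [mul_pow, ← mul_assoc] at this
  exact this

theorem nrm_Dx_le (hT : 0 < T) (J : ℕ) (hJ : 2 < om T (J + 1) ^ 2) (x : ℝ) :
    nrm T (hfx T J (od w) x) ≤ √(En T J (od w) x) := by
  have O := W.osol hT
  apply le_sqrt_of_sq_le
  refine le_trans ?_ (O.le_En J hJ x)
  have h1 : 2 / om T (J + 1) ^ 2 ≤ 1 := by
    rw [div_le_one (by linarith)]; linarith
  have : 0 ≤ (1 - 2 / om T (J + 1) ^ 2) * nrm T (hft T J (od w) x) ^ 2 :=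
    mul_nonneg (by linarith) (sq_nonneg _)
  linarith

theorem nrm_Dt_le (hT : 0 < T) (J : ℕ) (hJ : 2 < om T (J + 1) ^ 2) : ∃ K, 0 ≤ K ∧ ∀ x : ℝ,
    nrm T (hft T J (od w) x) ≤ K * √(En T J (od w) x) := by
  have O := W.osol hT
  have h1 : 0 < 1 - 2 / om T (J + 1) ^ 2 := by
    rw [sub_pos, div_lt_one (by linarith)]; exact hJ
  refine ⟨1 / √(1 - 2 / om T (J + 1) ^ 2), by positivity, fun x => ?_⟩
  have h2 := O.le_En J hJ x
  have h3 : √((1 - 2 / om T (J + 1) ^ 2) * nrm T (hft T J (od w) x) ^ 2) ≤ √(En T J (od w) x) := by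
    apply sqrt_le_sqrt
    nlinarith [sq_nonneg (nrm T (hfx T J (od w) x))]
  rw [sqrt_mul h1.le, sqrt_sq (nrm_nonneg _ _)] at h3
  rw [one_div, inv_mul_eq_div, le_div_iff₀ (sqrt_pos.2 h1), mul_comm]
  exact h3

theorem asym (hT : 0 < T) :
    (∀ α : ℝ, ∃ C X : ℝ, ∀ x, X ≤ x → nn T w x ≤ C * exp (-α * x)) ∨
    (∃ (n : ℕ) (c δ lam : ℝ), 1 ≤ n ∧ c ≠ 0 ∧ 0 < δ ∧ 0 < lam ∧ lam ^ 2 = 2 - om T n ^ 2 ∧
      ∃ C X : ℝ, ∀ x, X ≤ x → ∀ t, 0 ≤ t → t ≤ T →
        |od w x t - c * exp (-lam * x) * sin (om T n * t)| ≤ C * exp (-(lam + δ) * x)) := by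
  have O := W.osol hT
  have hsT : 0 < √T := sqrt_pos.2 hT
  set J := JJ T with hJdef
  have hJ : 2 < om T (J + 1) ^ 2 := lt_om_JJ hT
  have hJlow : ∀ j : Fin J, om T (j + 1) ^ 2 ≤ 2 := fun j => om_JJ_le hT (by omega)
  set lam : Fin J → ℝ := fun j => √(2 - om T (j + 1) ^ 2) with hlamdef
  have hlam2 : ∀ j, lam j ^ 2 = 2 - om T (j + 1) ^ 2 := fun j =>
    sq_sqrt (by linarith [hJlow j])
  obtain ⟨Kt, hKt, hKt'⟩ := W.nrm_Dt_le hT J hJ
  -- continuity of slices
  have cga : ∀ x, Continuous (od w x) := fun x => cont_slice O.ca x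
  have cgx : ∀ x, Continuous (Dx (od w) x) := fun x => cont_slice O.cx x
  have cgt : ∀ x, Continuous (Dt (od w) x) := fun x => cont_slice O.ct x
  have cgG : ∀ x, Continuous (srcA w x) := fun x => cont_slice O.cG x
  have chx : ∀ x, Continuous (hfx T J (od w) x) := fun x => cont_slice (O.c_hfx J) x
  have cht : ∀ x, Continuous (hft T J (od w) x) := fun x => cont_slice (O.c_hft J) x
  have cP : ∀ c : Fin J → ℝ, Continuous (P T c) := fun c => by unfold P; fun_prop
  have cP1 : ∀ c : Fin J → ℝ, Continuous (P1 T c) := fun c => by unfold P1; fun_prop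
  have nP : ∀ c : Fin J → ℝ, nrm T (P T c) ≤ √T * ∑ j, |c j| := fun c =>
    nrm_le_of_bound hT.le (Finset.sum_nonneg fun _ _ => abs_nonneg _) (cP c)
      (fun t _ _ => abs_P_le T c t)
  have nP1 : ∀ c : Fin J → ℝ, nrm T (P1 T c) ≤ √T * (om T J * ∑ j, |c j|) := fun c =>
    nrm_le_of_bound hT.le (mul_nonneg (om_nonneg hT J) (Finset.sum_nonneg fun _ _ => abs_nonneg _))
      (cP1 c) (fun t _ _ => abs_P1_le hT c t)
  have bal : ∀ j x, |coef T (od w) j x| ≤ 2 * √T * nn T w x := by
    intro j x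
    refine (abs_coef_le hT j (cga x)).trans ?_
    have h1 : nrm T (od w x) ≤ √T * (√T * nn T w x) :=
      nrm_le_of_bound hT.le (mul_nonneg hsT.le (add_nonneg (nrm_nonneg _ _) (nrm_nonneg _ _)))
        (cga x) (fun t h0 h1 => W.sup_le_nn hT x h0 h1)
    calc 2 / √T * nrm T (od w x) ≤ 2 / √T * (√T * (√T * nn T w x)) := by gcongr
      _ = 2 * √T * nn T w x := by field_simp
  have bbe : ∀ j x, |coef T (Dx (od w)) j x| ≤ 2 / √T * nn T w x := by
    intro j x
    refine (abs_coef_le hT j (cgx x)).trans ?_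
    apply mul_le_mul_of_nonneg_left _ (by positivity)
    unfold nn; linarith [nrm_nonneg T (Dt (od w) x)]
  have hnn0 : ∀ x, 0 ≤ nn T w x := fun x => add_nonneg (nrm_nonneg _ _) (nrm_nonneg _ _)
  have main := Phi4A.asym_main T hT lam (fun j => sqrt_nonneg _)
    (by
      intro i j hij
      have h1 : lam i ^ 2 = lam j ^ 2 := by rw [hij]
      rw [hlam2, hlam2] at h1
      have h2 : om T (i + 1) ^ 2 = om T (j + 1) ^ 2 := by linarith
      have h3 : om T (i + 1) = om T (j + 1) :=
        (sq_eq_sq₀ (om_nonneg hT _) (om_nonneg hT _)).1 h2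
      unfold om at h3
      have h4 : (2 * π / T) ≠ 0 := by positivity
      have h5 : (((i:ℕ) + 1 : ℕ) : ℝ) = (((j:ℕ) + 1 : ℕ) : ℝ) := mul_right_cancel₀ h4 h3
      have h6 : (i:ℕ) + 1 = (j:ℕ) + 1 := by exact_mod_cast h5
      exact Fin.ext (by omega))
    (fun j => coef T (od w) (j + 1)) (fun j => coef T (Dx (od w)) (j + 1))
    (fun j => coef T (srcA w) (j + 1)) (En T J (od w))
    (fun x => 2 * ∫ t in (0:ℝ)..T, hfx T J (od w) x t *
      (srcA w x t - P T (fun j : Fin J => coef T (srcA w) (j + 1) x) t))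
    (nn T w)
    (fun j x => O.hal (j + 1) x)
    (fun j x => by rw [hlam2, ← O.ga_eq]; exact O.hbe (j + 1) x)
    (O.En_nonneg J hJ)
    (O.energy_deriv J)
    hnn0
    (by
      obtain ⟨K, X0, hK, h⟩ := W.srcA_bound hT
      refine ⟨2 * K + √T * (K + J * (2 * K)), X0, by positivity, ?_⟩
      intro x hx B hB hn
      have hG := h x hx B hB hn
      have hB3 : 0 ≤ B ^ 3 := by positivity
      have hc : ∀ j : ℕ, |coef T (srcA w) j x| ≤ 2 * K * B ^ 3 := by
        intro j
        refine (abs_coef_le hT j (cgG x)).trans ?_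
        have h1 : nrm T (srcA w x) ≤ √T * (K * B ^ 3) :=
          nrm_le_of_bound hT.le (by positivity) (cgG x) hG
        calc 2 / √T * nrm T (srcA w x) ≤ 2 / √T * (√T * (K * B ^ 3)) := by gcongr
          _ = 2 * K * B ^ 3 := by field_simp
      have hextra : 0 ≤ √T * (K + J * (2 * K)) * B ^ 3 := by positivity
      refine ⟨fun j => (hc _).trans (by nlinarith), ?_⟩
      rw [abs_mul, abs_of_pos (by norm_num : (0:ℝ) < 2), mul_assoc]
      apply mul_le_mul_of_nonneg_left _ (by norm_num)
      refine (cs hT.le (chx x) ((cgG x).sub (cP _))).trans ?_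
      have h2 : nrm T (fun t => srcA w x t - P T (fun j : Fin J => coef T (srcA w) (j + 1) x) t) ≤
          √T * (K + J * (2 * K)) * B ^ 3 := by
        have h3 := nrm_le_of_bound (M := (K + J * (2 * K)) * B ^ 3) hT.le (by positivity)
          ((cgG x).sub (cP (fun j : Fin J => coef T (srcA w) (j + 1) x))) (by
            intro t ht0 htT
            simp only [Pi.sub_apply]
            refine (abs_sub _ _).trans ?_
            have h4 := abs_P_le T (fun j : Fin J => coef T (srcA w) (j + 1) x) t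
            have h5 : ∑ j : Fin J, |coef T (srcA w) (j + 1) x| ≤ ∑ j : Fin J, 2 * K * B ^ 3 :=
              Finset.sum_le_sum fun j _ => hc _
            rw [Finset.sum_const, Finset.card_univ, Fintype.card_fin, nsmul_eq_mul] at h5
            have h6 := hG t ht0 htT
            nlinarith)
        rw [← mul_assoc] at h3
        exact h3
      calc nrm T (hfx T J (od w) x) * _ ≤ √(En T J (od w) x) * (√T * (K + J * (2 * K)) * B ^ 3) := by
            apply mul_le_mul (W.nrm_Dx_le hT J hJ x) h2 (nrm_nonneg _ _) (sqrt_nonneg _)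
        _ ≤ √(En T J (od w) x) * ((2 * K + √T * (K + J * (2 * K))) * B ^ 3) := by
            apply mul_le_mul_of_nonneg_left _ (sqrt_nonneg _)
            have : 0 ≤ 2 * K * B ^ 3 := by positivity
            nlinarith)
    (by
      refine ⟨1 + Kt + √T + √T * om T J, by have := om_nonneg hT J; positivity, fun x => ?_⟩
      have e1 : nrm T (Dx (od w) x) ≤ nrm T (hfx T J (od w) x) +
          nrm T (P T (fun j : Fin J => coef T (Dx (od w)) (j + 1) x)) := by
        have := nrm_add_le hT.le (chx x) (cP (fun j : Fin J => coef T (Dx (od w)) (j + 1) x))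
        refine le_trans (le_of_eq ?_) this
        congr 1; funext t; unfold hfx; ring
      have e2 : nrm T (Dt (od w) x) ≤ nrm T (hft T J (od w) x) +
          nrm T (P1 T (fun j : Fin J => coef T (od w) (j + 1) x)) := by
        have := nrm_add_le hT.le (cht x) (cP1 (fun j : Fin J => coef T (od w) (j + 1) x))
        refine le_trans (le_of_eq ?_) this
        congr 1; funext t; unfold hft; ring
      have e3 := nP (fun j : Fin J => coef T (Dx (od w)) (j + 1) x)
      have e4 := nP1 (fun j : Fin J => coef T (od w) (j + 1) x)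
      have e5 := W.nrm_Dx_le hT J hJ x
      have e6 := hKt' x
      have e7 : ∑ j : Fin J, (|coef T (od w) (j + 1) x| + |coef T (Dx (od w)) (j + 1) x|) =
        ∑ j : Fin J, |coef T (od w) (j + 1) x| + ∑ j : Fin J, |coef T (Dx (od w)) (j + 1) x| :=
        Finset.sum_add_distrib
      rw [e7]
      have n1 : 0 ≤ ∑ j : Fin J, |coef T (od w) (j + 1) x| := Finset.sum_nonneg fun _ _ => abs_nonneg _
      have n2 : 0 ≤ ∑ j : Fin J, |coef T (Dx (od w)) (j + 1) x| :=
        Finset.sum_nonneg fun _ _ => abs_nonneg _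
      have n3 : 0 ≤ √(En T J (od w) x) := sqrt_nonneg _
      have n4 : 0 ≤ om T J := om_nonneg hT J
      set A := ∑ j : Fin J, |coef T (od w) (j + 1) x|
      set B := ∑ j : Fin J, |coef T (Dx (od w)) (j + 1) x|
      set E := √(En T J (od w) x)
      have m1 : 0 ≤ √T * E := by positivity
      have m2 : 0 ≤ √T * A := by positivity
      have m3 : 0 ≤ √T * om T J * E := by positivity
      have m4 : 0 ≤ √T * om T J * B := by positivity
      have m5 : 0 ≤ Kt * A := by positivity
      have m6 : 0 ≤ Kt * B := by positivity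
      unfold nn
      nlinarith)
    (by
      refine ⟨1 + 1 + √T * (J * (2 / √T)) + √T * (om T J * (J * (2 * √T))) + 2 * √T + 2 / √T,
        by have := om_nonneg hT J; positivity, fun x => ⟨?_, fun j => ⟨?_, ?_⟩⟩⟩
      · have e0 : √(En T J (od w) x) ≤ nrm T (hfx T J (od w) x) + nrm T (hft T J (od w) x) := by
          apply sqrt_le_iff.2
          refine ⟨add_nonneg (nrm_nonneg _ _) (nrm_nonneg _ _), ?_⟩
          refine (O.En_le J x).trans ?_
          nlinarith [mul_nonneg (nrm_nonneg T (hfx T J (od w) x)) (nrm_nonneg T (hft T J (od w) x))]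
        have e1 : nrm T (hfx T J (od w) x) ≤ nrm T (Dx (od w) x) +
            nrm T (P T (fun j : Fin J => coef T (Dx (od w)) (j + 1) x)) :=
          nrm_sub_le hT.le (cgx x) (cP _)
        have e2 : nrm T (hft T J (od w) x) ≤ nrm T (Dt (od w) x) +
            nrm T (P1 T (fun j : Fin J => coef T (od w) (j + 1) x)) :=
          nrm_sub_le hT.le (cgt x) (cP1 _)
        have e3 := nP (fun j : Fin J => coef T (Dx (od w)) (j + 1) x)
        have e4 := nP1 (fun j : Fin J => coef T (od w) (j + 1) x)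
        have e5 : ∑ j : Fin J, |coef T (od w) (j + 1) x| ≤ J * (2 * √T * nn T w x) := by
          refine (Finset.sum_le_sum fun j _ => bal _ x).trans ?_
          simp
        have e6 : ∑ j : Fin J, |coef T (Dx (od w)) (j + 1) x| ≤ J * (2 / √T * nn T w x) := by
          refine (Finset.sum_le_sum fun j _ => bbe _ x).trans ?_
          simp
        have e7 : √T * (om T J * ∑ j : Fin J, |coef T (od w) (j + 1) x|) ≤
            √T * (om T J * (J * (2 * √T * nn T w x))) := by
          have := om_nonneg hT J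
          gcongr
        have e8 : √T * ∑ j : Fin J, |coef T (Dx (od w)) (j + 1) x| ≤
            √T * (J * (2 / √T * nn T w x)) := by gcongr
        have n0 := hnn0 x
        have n1 : 0 ≤ √T * nn T w x := by positivity
        have n2 : 0 ≤ 2 / √T * nn T w x := by positivity
        have n3 : nn T w x = nrm T (Dx (od w) x) + nrm T (Dt (od w) x) := rfl
        nlinarith
      · have n0 := hnn0 x
        have := om_nonneg hT J
        have n1 : 0 ≤ √T * (J * (2 / √T)) * nn T w x := by positivity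
        have n2 : 0 ≤ √T * (om T J * (J * (2 * √T))) * nn T w x := by positivity
        have n3 : 0 ≤ 2 / √T * nn T w x := by positivity
        have := bal (j + 1) x
        nlinarith
      · have n0 := hnn0 x
        have := om_nonneg hT J
        have n1 : 0 ≤ √T * (J * (2 / √T)) * nn T w x := by positivity
        have n2 : 0 ≤ √T * (om T J * (J * (2 * √T))) * nn T w x := by positivity
        have n3 : 0 ≤ √T * nn T w x := by positivity
        have := bbe (j + 1) x
        nlinarith)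
    (by
      obtain ⟨C, hC, h⟩ := W.decay_parts
      refine ⟨2 * (√T * C), by positivity, fun x hx => ?_⟩
      have h1 := nrm_le_of_bound hT.le (by positivity : 0 ≤ C / x ^ 2) (cgx x)
        (fun t _ _ => (h x hx t).2.2.1)
      have h2 := nrm_le_of_bound hT.le (by positivity : 0 ≤ C / x ^ 2) (cgt x)
        (fun t _ _ => (h x hx t).2.2.2)
      unfold nn
      have : 2 * (√T * C) / x ^ 2 = √T * (C / x ^ 2) + √T * (C / x ^ 2) := by ring
      linarith)
  rcases main with h | ⟨j0, c, δ, hc, hδ, hl0, C, X, h⟩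
  · exact Or.inl h
  · right
    refine ⟨j0 + 1, c, δ, lam j0, by omega, hc, hδ, hl0, hlam2 j0, (J + √T * Kt) * C, X, ?_⟩
    intro x hx t ht0 htT
    obtain ⟨h1, h2, h3⟩ := h x hx
    have hE : |hf T J (od w) x t| ≤ √T * Kt * (C * exp (-(lam j0 + δ) * x)) := by
      refine (sup_le_nrm_deriv (fun r => O.d_hf_t J x r) (cht x) (O.hf_zero J x) ht0 htT).trans ?_
      rw [mul_assoc]
      apply mul_le_mul_of_nonneg_left _ (sqrt_nonneg _)
      exact (hKt' x).trans (mul_le_mul_of_nonneg_left h3 hKt)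
    have hP : |P T (fun j : Fin J => coef T (od w) (j + 1) x) t -
        c * exp (-lam j0 * x) * sin (om T (j0 + 1) * t)| ≤ J * (C * exp (-(lam j0 + δ) * x)) := by
      have e1 : P T (fun j : Fin J => coef T (od w) (j + 1) x) t -
          c * exp (-lam j0 * x) * sin (om T (j0 + 1) * t) =
          ∑ j : Fin J, (coef T (od w) (j + 1) x - if j = j0 then c * exp (-lam j0 * x) else 0) *
            sin (om T (j + 1) * t) := by
        unfold P
        simp_rw [sub_mul]
        rw [Finset.sum_sub_distrib]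
        congr 1
        simp_rw [ite_mul, zero_mul]
        rw [Finset.sum_ite_eq' Finset.univ]
        simp
      rw [e1]
      refine (Finset.abs_sum_le_sum_abs _ _).trans ?_
      have e2 : ∀ j ∈ (Finset.univ : Finset (Fin J)),
          |(coef T (od w) (j + 1) x - if j = j0 then c * exp (-lam j0 * x) else 0) *
            sin (om T (j + 1) * t)| ≤ C * exp (-(lam j0 + δ) * x) := by
        intro j _
        rw [abs_mul]
        refine (mul_le_of_le_one_right (abs_nonneg _) (abs_sin_le_one _)).trans ?_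
        split_ifs with hj
        · rw [hj]; exact h1
        · rw [sub_zero]; exact h2 j hj
      refine (Finset.sum_le_sum e2).trans ?_
      simp
    have e3 : od w x t - c * exp (-lam j0 * x) * sin (om T (j0 + 1) * t) =
        hf T J (od w) x t + (P T (fun j : Fin J => coef T (od w) (j + 1) x) t -
        c * exp (-lam j0 * x) * sin (om T (j0 + 1) * t)) := by
      unfold hf; ring
    rw [e3]
    refine (abs_add_le _ _).trans ?_
    nlinarith

end WSol

end Phi4
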