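import Pool.Agent.Helper88.PhiI

/-! Superexponential decay forces `w = 0`. -/

namespace Phi4

open Real Filter MeasureTheory intervalIntegral Set

namespace WSol

variable {T : ℝ} {w : ℝ → ℝ → ℝ} (W : WSol T w)
include W

/-- full energy -/
theorem energy_full_deriv (hT : 0 < T) (x : ℝ) :
    HasDerivAt (fun y => ∫ t in (0:ℝ)..T, (Dx w y t ^ 2 + Dt w y t ^ 2 + w y t ^ 2))
      (∫ t in (0:ℝ)..T, 2 * Dx w x t * (3 * w x t + 3 * w x t ^ 2 + w x t ^ 3)) x := by
  have c0 : Continuous (fun p : ℝ × ℝ => w p.1 p.2) := W.smooth.continuous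
  have c1 : Continuous (fun p : ℝ × ℝ => Dx w p.1 p.2) := (c2_Dx W.smooth).continuous
  have c2 : Continuous (fun p : ℝ × ℝ => Dt w p.1 p.2) := (c2_Dt W.smooth).continuous
  have c3 : Continuous (fun p : ℝ × ℝ => Dx (Dx w) p.1 p.2) := cont_Dx (c2_Dx W.smooth)
  have c4 : Continuous (fun p : ℝ × ℝ => Dt (Dx w) p.1 p.2) := cont_Dt (c2_Dx W.smooth)
  have c5 : Continuous (fun p : ℝ × ℝ => Dt (Dt w) p.1 p.2) := cont_Dt (c2_Dt W.smooth)
  have h := hasDerivAt_integral_param (a := 0) (b := T)
    (F := fun y t => Dx w y t ^ 2 + Dt w y t ^ 2 + w y t ^ 2)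
    (F' := fun y t => 2 * Dx w y t * Dx (Dx w) y t + 2 * Dt w y t * Dt (Dx w) y t
      + 2 * w y t * Dx w y t)
    (by
      intro y t
      have e1 := (hasDerivAt_x (c2_Dx W.smooth) y t).pow 2
      have e2 := (hasDerivAt_x (c2_Dt W.smooth) y t).pow 2
      have e3 := (hasDerivAt_x W.c1 y t).pow 2
      refine ((e1.add e2).add e3).congr_deriv ?_
      rw [Dt_Dx W.smooth]
      simp)
    (by
      intro y
      have s0 := cont_slice c0 y
      have s1 := cont_slice c1 y
      have s2 := cont_slice c2 y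
      fun_prop)
    (by fun_prop) x
  refine h.congr_deriv ?_
  have s0 := cont_slice c0 x
  have s1 := cont_slice c1 x
  have s2 := cont_slice c2 x
  have s3 := cont_slice c3 x
  have s4 := cont_slice c4 x
  have s5 := cont_slice c5 x
  have ibp : ∫ t in (0:ℝ)..T, Dt w x t * Dt (Dx w) x t =
      Dt w x T * Dx w x T - Dt w x 0 * Dx w x 0 - ∫ t in (0:ℝ)..T, Dt (Dt w) x t * Dx w x t :=
    integral_mul_deriv_eq_deriv_mul
      (fun t _ => hasDerivAt_t (c2_Dt W.smooth) x t) (fun t _ => hasDerivAt_t (c2_Dx W.smooth) x t)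
      (s5.intervalIntegrable _ _) (s4.intervalIntegrable _ _)
  rw [Dx_zero_of_zero W.base, Dx_zero_of_zero W.w_T, mul_zero, mul_zero, sub_zero, zero_sub] at ibp
  have e1 : ∫ t in (0:ℝ)..T, (2 * Dx w x t * Dx (Dx w) x t + 2 * Dt w x t * Dt (Dx w) x t
      + 2 * w x t * Dx w x t) =
      (∫ t in (0:ℝ)..T, (2 * Dx w x t * Dx (Dx w) x t + 2 * w x t * Dx w x t)) +
      2 * ∫ t in (0:ℝ)..T, Dt w x t * Dt (Dx w) x t := by
    rw [← intervalIntegral.integral_const_mul, ← intervalIntegral.integral_add]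
    · congr 1; funext t; ring
    · exact (by fun_prop : Continuous fun t => 2 * Dx w x t * Dx (Dx w) x t +
        2 * w x t * Dx w x t).intervalIntegrable _ _
    · exact (by fun_prop : Continuous fun t => 2 * (Dt w x t * Dt (Dx w) x t)).intervalIntegrable _ _
  rw [e1, ibp, mul_neg, ← sub_eq_add_neg, ← intervalIntegral.integral_const_mul,
    ← intervalIntegral.integral_sub]
  · congr 1; funext t
    rw [W.eqn]; ring
  · exact (by fun_prop : Continuous fun t => 2 * Dx w x t * Dx (Dx w) x t +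
        2 * w x t * Dx w x t).intervalIntegrable _ _
  · exact (by fun_prop : Continuous fun t => 2 * (Dt (Dt w) x t * Dx w x t)).intervalIntegrable _ _

theorem zero_of_superexp (hT : 0 < T)
    (h : ∀ α : ℝ, ∃ C X : ℝ, ∀ x, X ≤ x → nn T w x ≤ C * exp (-α * x)) :
    ∀ x t, w x t = 0 := by
  obtain ⟨C0, hC0, hb⟩ := W.bdd
  set K0 := 3 + 3 * C0 + C0 ^ 2 with hK0
  have hK0p : 0 ≤ K0 := by positivity
  have c0 : Continuous (fun p : ℝ × ℝ => w p.1 p.2) := W.smooth.continuous
  have c1 : Continuous (fun p : ℝ × ℝ => Dx w p.1 p.2) := (c2_Dx W.smooth).continuous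
  have c2 : Continuous (fun p : ℝ × ℝ => Dt w p.1 p.2) := (c2_Dt W.smooth).continuous
  set E : ℝ → ℝ := fun y => ∫ t in (0:ℝ)..T, (Dx w y t ^ 2 + Dt w y t ^ 2 + w y t ^ 2) with hE
  have hEeq : ∀ x, E x = nrm T (Dx w x) ^ 2 + nrm T (Dt w x) ^ 2 + nrm T (w x) ^ 2 := by
    intro x
    have s0 := cont_slice c0 x
    have s1 := cont_slice c1 x
    have s2 := cont_slice c2 x
    rw [nrm_sq hT.le, nrm_sq hT.le, nrm_sq hT.le, hE]
    beta_reduce
    rw [intervalIntegral.integral_add, intervalIntegral.integral_add]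
    · exact (by fun_prop : Continuous fun t => Dx w x t ^ 2).intervalIntegrable _ _
    · exact (by fun_prop : Continuous fun t => Dt w x t ^ 2).intervalIntegrable _ _
    · exact (by fun_prop : Continuous fun t => Dx w x t ^ 2 + Dt w x t ^ 2).intervalIntegrable _ _
    · exact (by fun_prop : Continuous fun t => w x t ^ 2).intervalIntegrable _ _
  set E' : ℝ → ℝ := fun x =>
    ∫ t in (0:ℝ)..T, 2 * Dx w x t * (3 * w x t + 3 * w x t ^ 2 + w x t ^ 3) with hE'
  have hder : ∀ x, HasDerivAt E (E' x) x := W.energy_full_deriv hT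
  have hE'b : ∀ x, -(K0 * E x) ≤ E' x := by
    intro x
    have s0 := cont_slice c0 x
    have s1 := cont_slice c1 x
    have s2 := cont_slice c2 x
    have h1 : ∫ t in (0:ℝ)..T, -(K0 * (Dx w x t ^ 2 + Dt w x t ^ 2 + w x t ^ 2)) ≤ E' x := by
      apply integral_mono_on hT.le
      · exact (by fun_prop : Continuous fun t =>
          -(K0 * (Dx w x t ^ 2 + Dt w x t ^ 2 + w x t ^ 2))).intervalIntegrable _ _
      · exact (by fun_prop : Continuous fun t =>
          2 * Dx w x t * (3 * w x t + 3 * w x t ^ 2 + w x t ^ 3)).intervalIntegrable _ _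
      · intro t _
        set p := Dx w x t
        set q := Dt w x t
        set r := w x t
        have hr : |r| ≤ C0 := hb x t
        have h2 : |3 + 3 * r + r ^ 2| ≤ K0 := by
          refine (abs_add_le _ _).trans ?_
          have : |3 + 3 * r| ≤ 3 + 3 * C0 := by
            refine (abs_add_le _ _).trans ?_
            rw [abs_mul]; norm_num; linarith
          have h3 : |r ^ 2| ≤ C0 ^ 2 := by
            rw [abs_pow]; gcongr
          rw [hK0]; linarith
        have h3 : |2 * p * (3 * r + 3 * r ^ 2 + r ^ 3)| ≤ K0 * (p ^ 2 + r ^ 2) := by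
          have e : 2 * p * (3 * r + 3 * r ^ 2 + r ^ 3) = (3 + 3 * r + r ^ 2) * (2 * p * r) := by ring
          rw [e, abs_mul]
          have h4 : |2 * p * r| ≤ p ^ 2 + r ^ 2 := by
            rw [abs_le]; constructor <;> nlinarith [sq_nonneg (p - r), sq_nonneg (p + r)]
          gcongr
        have h5 := (abs_le.1 h3).1
        nlinarith [sq_nonneg q]
    have h2 : ∫ t in (0:ℝ)..T, -(K0 * (Dx w x t ^ 2 + Dt w x t ^ 2 + w x t ^ 2)) =
        -(K0 * E x) := by
      rw [intervalIntegral.integral_neg, intervalIntegral.integral_const_mul]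
    linarith
  have hmono : Monotone (fun x => E x * exp (K0 * x)) := by
    apply monotone_of_hasDerivAt_nonneg (f' := fun x => E' x * exp (K0 * x) + E x * (exp (K0 * x) * K0))
    · intro x
      have h1 : HasDerivAt (fun x : ℝ => K0 * x) K0 x := by
        simpa using (hasDerivAt_id x).const_mul K0
      exact (hder x).mul h1.exp
    · intro x
      have h1 := hE'b x
      have h2 : 0 < exp (K0 * x) := exp_pos _
      have h3 : 0 ≤ (E' x + K0 * E x) * exp (K0 * x) := mul_nonneg (by linarith) h2.le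
      show (0:ℝ) ≤ E' x * exp (K0 * x) + E x * (exp (K0 * x) * K0)
      nlinarith
  -- upper bound
  obtain ⟨K1, X1, hK1, hev⟩ := W.ev_small hT
  obtain ⟨C, X, hC⟩ := h (K0 + 1)
  have hlim : ∃ M X2 : ℝ, 0 ≤ M ∧ ∀ x, X2 ≤ x → E x ≤ M * exp (-(K0 + 1) * x) := by
    set D := |C| * exp ((K0 + 1) * T) with hD
    set M1 := √T * (K1 * (√T * D) ^ 2) with hM1
    have hM1p : 0 ≤ M1 := by positivity
    have hDp : 0 ≤ D := by positivity
    refine ⟨3 * ((1 + T) * D + M1) ^ 2, max X1 (max (X + T) 0), by positivity, ?_⟩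
    intro x hx
    have hx1 : X1 ≤ x := (le_max_left _ _).trans hx
    have hx2 : X + T ≤ x := ((le_max_left _ _).trans (le_max_right _ _)).trans hx
    have hx3 : 0 ≤ x := ((le_max_right _ _).trans (le_max_right _ _)).trans hx
    set ε := exp (-(K0 + 1) * x) with hε
    have hεp : 0 < ε := exp_pos _
    have hε1 : ε ≤ 1 := by
      rw [hε, exp_le_one_iff]; nlinarith
    have hn : ∀ y, |y - x| ≤ T → nn T w y ≤ D * ε := by
      intro y hy
      rw [abs_le] at hy
      refine (hC y (by linarith [hy.1])).trans ?_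
      calc C * exp (-(K0 + 1) * y) ≤ |C| * exp (-(K0 + 1) * y) := by
            apply mul_le_mul_of_nonneg_right (le_abs_self _) (exp_pos _).le
        _ ≤ |C| * (exp ((K0 + 1) * T) * exp (-(K0 + 1) * x)) := by
            apply mul_le_mul_of_nonneg_left _ (abs_nonneg _)
            rw [← exp_add, exp_le_exp]
            nlinarith [hy.1]
        _ = D * ε := by rw [hD, hε]; ring
    have hs := hev x hx1 (√T * (D * ε)) (by positivity) (by
      intro y hy t h0 h1
      refine (W.sup_le_nn hT y h0 h1).trans ?_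
      exact mul_le_mul_of_nonneg_left (hn y hy) (sqrt_nonneg _))
    have hM1ε : √T * (K1 * (√T * (D * ε)) ^ 2) ≤ M1 * ε := by
      have : √T * (K1 * (√T * (D * ε)) ^ 2) = M1 * (ε * ε) := by rw [hM1]; ring
      rw [this]
      apply mul_le_mul_of_nonneg_left _ hM1p
      nlinarith
    have cE : ContDiff ℝ 2 (fun p : ℝ × ℝ => ev w p.1 p.2) := W.sEv
    have cO : ContDiff ℝ 2 (fun p : ℝ × ℝ => od w p.1 p.2) := W.sOd
    have n1 : nrm T (ev w x) ≤ M1 * ε :=
      (nrm_le_of_bound hT.le (by positivity) (cont_slice cE.continuous x)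
        (fun t h0 h1 => (hs t h0 h1).1)).trans hM1ε
    have n2 : nrm T (Dx (ev w) x) ≤ M1 * ε :=
      (nrm_le_of_bound hT.le (by positivity) (cont_slice (c2_Dx cE).continuous x)
        (fun t h0 h1 => (hs t h0 h1).2.1)).trans hM1ε
    have n3 : nrm T (Dt (ev w) x) ≤ M1 * ε :=
      (nrm_le_of_bound hT.le (by positivity) (cont_slice (c2_Dt cE).continuous x)
        (fun t h0 h1 => (hs t h0 h1).2.2.1)).trans hM1ε
    have hx0 := hn x (by simp [hT.le])
    have n4 : nrm T (Dx (od w) x) ≤ D * ε := by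
      refine le_trans ?_ hx0; unfold nn; linarith [nrm_nonneg T (Dt (od w) x)]
    have n5 : nrm T (Dt (od w) x) ≤ D * ε := by
      refine le_trans ?_ hx0; unfold nn; linarith [nrm_nonneg T (Dx (od w) x)]
    have n6 : nrm T (od w x) ≤ √T * (√T * (D * ε)) :=
      nrm_le_of_bound hT.le (by positivity) (cont_slice cO.continuous x)
        (fun t h0 h1 => (W.sup_le_nn hT x h0 h1).trans
          (mul_le_mul_of_nonneg_left hx0 (sqrt_nonneg _)))
    have n6' : √T * (√T * (D * ε)) = T * (D * ε) := by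
      rw [← mul_assoc, mul_self_sqrt hT.le]
    rw [n6'] at n6
    have hTD : 0 ≤ T * (D * ε) := by positivity
    have hDε : 0 ≤ D * ε := by positivity
    have t1 : nrm T (w x) ≤ ((1 + T) * D + M1) * ε := by
      have := nrm_add_le hT.le (cont_slice cE.continuous x) (cont_slice cO.continuous x)
      rw [show (fun t => ev w x t + od w x t) = w x from by funext t; exact ev_add_od w x t] at this
      nlinarith
    have t2 : nrm T (Dx w x) ≤ ((1 + T) * D + M1) * ε := by
      have := nrm_add_le hT.le (cont_slice (c2_Dx cE).continuous x)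
        (cont_slice (c2_Dx cO).continuous x)
      rw [show (fun t => Dx (ev w) x t + Dx (od w) x t) = Dx w x from by
        funext t; rw [Dx_ev W.c1, Dx_od W.c1]; exact ev_add_od _ x t] at this
      nlinarith
    have t3 : nrm T (Dt w x) ≤ ((1 + T) * D + M1) * ε := by
      have := nrm_add_le hT.le (cont_slice (c2_Dt cE).continuous x)
        (cont_slice (c2_Dt cO).continuous x)
      rw [show (fun t => Dt (ev w) x t + Dt (od w) x t) = Dt w x from by
        funext t; rw [Dt_ev W.c1, Dt_od W.c1, add_comm]; exact ev_add_od _ x t] at this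
      nlinarith
    rw [hEeq]
    set Q := (1 + T) * D + M1
    have hQ : 0 ≤ Q := by positivity
    have q1 : nrm T (w x) ^ 2 ≤ (Q * ε) ^ 2 := by have := nrm_nonneg T (w x); gcongr
    have q2 : nrm T (Dx w x) ^ 2 ≤ (Q * ε) ^ 2 := by have := nrm_nonneg T (Dx w x); gcongr
    have q3 : nrm T (Dt w x) ^ 2 ≤ (Q * ε) ^ 2 := by have := nrm_nonneg T (Dt w x); gcongr
    have q4 : (Q * ε) ^ 2 ≤ Q ^ 2 * ε := by
      rw [mul_pow]
      apply mul_le_mul_of_nonneg_left _ (by positivity)
      nlinarith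
    linarith
  obtain ⟨M, X2, hM, hEle⟩ := hlim
  have hE0 : ∀ x, E x ≤ 0 := by
    intro x
    have h1 : Tendsto (fun y : ℝ => M * exp (-y)) atTop (nhds (M * 0)) :=
      (tendsto_exp_neg_atTop_nhds_zero).const_mul M
    rw [mul_zero] at h1
    have h2 : ∀ᶠ y in atTop, E x * exp (K0 * x) ≤ M * exp (-y) := by
      filter_upwards [eventually_ge_atTop (max x X2)] with y hy
      have h3 := hmono ((le_max_left x X2).trans hy)
      refine h3.trans ?_
      have h4 := hEle y ((le_max_right x X2).trans hy)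
      calc E y * exp (K0 * y) ≤ M * exp (-(K0 + 1) * y) * exp (K0 * y) := by gcongr
        _ = M * exp (-y) := by rw [mul_assoc, ← exp_add]; congr 2; ring
    have h5 : E x * exp (K0 * x) ≤ 0 := ge_of_tendsto h1 h2
    by_contra hcon
    push Not at hcon
    have : 0 < E x * exp (K0 * x) := mul_pos hcon (exp_pos _)
    linarith
  have hw01 : ∀ x t, 0 ≤ t → t ≤ T → w x t = 0 := by
    intro x t h0 h1
    have h2 := sup_le_nrm_deriv (fun r => hasDerivAt_t W.c1 x r) (cont_slice c2 x) (W.base x) h0 h1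
    have h3 : nrm T (Dt w x) = 0 := by
      have h4 := hE0 x
      rw [hEeq] at h4
      nlinarith [sq_nonneg (nrm T (Dx w x)), sq_nonneg (nrm T (w x)), sq_nonneg (nrm T (Dt w x)),
        pow_eq_zero_iff (two_ne_zero) (a := nrm T (Dt w x)) |>.1
          (le_antisymm (by nlinarith [sq_nonneg (nrm T (Dx w x)), sq_nonneg (nrm T (w x))])
            (sq_nonneg _))]
    rw [h3, mul_zero] at h2
    exact abs_nonpos_iff.1 h2
  intro x t
  have hper : Function.Periodic (w x) T := W.per x
  obtain ⟨r, hr, he⟩ := hper.exists_mem_Ico₀ hT t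
  rw [he]
  exact hw01 x r hr.1 hr.2.le

end WSol

end Phi4
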