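import Pool.Agent.Helper88.PhiK
import Pool.Agent.Helper88.PhiE

/-! Flux identities and the exceptional periods. -/

namespace Phi4

open Real Filter MeasureTheory intervalIntegral Set

theorem limit_deriv_zero_aux {f f' : ℝ → ℝ} {M : ℝ} {ℓ : ℝ}
    (hd : ∀ x, HasDerivAt f (f' x) x) (hM : ∀ᶠ x in atTop, |f x| ≤ M)
    (hl : Tendsto f' atTop (nhds ℓ)) : ℓ ≤ 0 := by
  by_contra hcon
  push Not at hcon
  have h1 : ∀ᶠ x in atTop, ℓ / 2 ≤ f' x := hl.eventually_const_le (by linarith)
  obtain ⟨X, hX⟩ := (h1.and hM).exists_forall_of_atTop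
  have h2 : ∀ x, X ≤ x → ℓ / 2 * (x - X) ≤ f x - f X := by
    intro x hx
    apply Convex.mul_sub_le_image_sub_of_le_deriv (convex_Ici X)
    · exact fun y _ => (hd y).continuousAt.continuousWithinAt
    · exact fun y _ => (hd y).differentiableAt.differentiableWithinAt
    · intro y hy
      rw [interior_Ici] at hy
      rw [(hd y).deriv]
      exact (hX y (le_of_lt hy)).1
    · exact Set.mem_Ici.2 le_rfl
    · exact hx
    · exact hx
  have h3 := (hX X le_rfl).2
  have hM0 : 0 ≤ M := (abs_nonneg _).trans h3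
  set y := X + (2 * M + 1) / (ℓ / 2) with hy
  have hyX : X ≤ y := by
    have : 0 ≤ (2 * M + 1) / (ℓ / 2) := by positivity
    linarith
  have h4 := h2 y hyX
  have h5 := (hX y hyX).2
  have h6 : ℓ / 2 * (y - X) = 2 * M + 1 := by
    rw [hy]; field_simp; ring
  rw [abs_le] at h3 h5
  linarith [h3.1, h5.2]

theorem limit_deriv_zero {f f' : ℝ → ℝ} {M : ℝ} {ℓ : ℝ}
    (hd : ∀ x, HasDerivAt f (f' x) x) (hM : ∀ᶠ x in atTop, |f x| ≤ M)
    (hl : Tendsto f' atTop (nhds ℓ)) : ℓ = 0 := by
  apply le_antisymm (limit_deriv_zero_aux hd hM hl)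
  have := limit_deriv_zero_aux (f := fun x => - f x) (f' := fun x => - f' x) (M := M) (ℓ := -ℓ)
    (fun x => (hd x).neg) (by simpa using hM) hl.neg
  linarith

namespace WSol

variable {T : ℝ} {w : ℝ → ℝ → ℝ} (W : WSol T w)
include W

theorem flux_deriv {κ : ℝ} {θ θ' : ℝ → ℝ}
    (hθ : ∀ t, HasDerivAt θ (θ' t) t) (hθ' : ∀ t, HasDerivAt θ' ((κ ^ 2 - 2) * θ t) t) (x : ℝ) :
    HasDerivAt (fun y => exp (κ * y) * ∫ t in (0:ℝ)..T, (κ * ev w y t - Dx (ev w) y t) * θ t)
      (-(exp (κ * x) * ∫ t in (0:ℝ)..T, srcS w x t * θ t)) x := by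
  have cθ : Continuous θ := continuous_iff_continuousAt.2 fun t => (hθ t).continuousAt
  have cθ' : Continuous θ' := continuous_iff_continuousAt.2 fun t => (hθ' t).continuousAt
  have cE : ContDiff ℝ 2 (fun p : ℝ × ℝ => ev w p.1 p.2) := W.sEv
  have cO : ContDiff ℝ 2 (fun p : ℝ × ℝ => od w p.1 p.2) := W.sOd
  have c0 := cE.continuous
  have c0' := cO.continuous
  have c1 := (c2_Dx cE).continuous
  have c2 := (c2_Dt cE).continuous
  have c3 := cont_Dx (c2_Dx cE)
  have c5 := cont_Dt (c2_Dt cE)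
  have s0 := cont_slice c0 x
  have s1 := cont_slice c1 x
  have s2 := cont_slice c2 x
  have s3 := cont_slice c3 x
  have s5 := cont_slice c5 x
  have s6 : Continuous (srcS w x) := by
    have := cont_slice c0' x
    unfold srcS; fun_prop
  have hI := hasDerivAt_integral_param (a := 0) (b := T)
    (F := fun y t => (κ * ev w y t - Dx (ev w) y t) * θ t)
    (F' := fun y t => (κ * Dx (ev w) y t - Dx (Dx (ev w)) y t) * θ t)
    (by
      intro y t
      exact (((hasDerivAt_x (c2_one cE) y t).const_mul κ).sub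
        (hasDerivAt_x (c2_Dx cE) y t)).mul_const _)
    (by
      intro y
      have s0 := cont_slice c0 y
      have s1 := cont_slice c1 y
      fun_prop)
    (by fun_prop) x
  have hexp : HasDerivAt (fun y : ℝ => exp (κ * y)) (exp (κ * x) * κ) x := by
    have h1 : HasDerivAt (fun x : ℝ => κ * x) κ x := by simpa using (hasDerivAt_id x).const_mul κ
    exact h1.exp
  refine (hexp.mul hI).congr_deriv ?_
  have ibp1 : ∫ t in (0:ℝ)..T, θ t * Dt (Dt (ev w)) x t =
      θ T * Dt (ev w) x T - θ 0 * Dt (ev w) x 0 - ∫ t in (0:ℝ)..T, θ' t * Dt (ev w) x t :=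
    integral_mul_deriv_eq_deriv_mul (fun t _ => hθ t)
      (fun t _ => hasDerivAt_t (c2_Dt cE) x t)
      (cθ'.intervalIntegrable _ _) (s5.intervalIntegrable _ _)
  have ibp2 : ∫ t in (0:ℝ)..T, θ' t * Dt (ev w) x t =
      θ' T * ev w x T - θ' 0 * ev w x 0 - ∫ t in (0:ℝ)..T, ((κ ^ 2 - 2) * θ t) * ev w x t :=
    integral_mul_deriv_eq_deriv_mul (fun t _ => hθ' t)
      (fun t _ => hasDerivAt_t (c2_one cE) x t)
      ((by fun_prop : Continuous fun t => (κ ^ 2 - 2) * θ t).intervalIntegrable _ _)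
      (s2.intervalIntegrable _ _)
  rw [W.Dt_ev_T, W.Dt_ev_zero] at ibp1
  rw [W.ev_T, W.ev_zero] at ibp2
  have e1 : ∫ t in (0:ℝ)..T, (κ * Dx (ev w) x t - Dx (Dx (ev w)) x t) * θ t =
      -(κ * ∫ t in (0:ℝ)..T, (κ * ev w x t - Dx (ev w) x t) * θ t) +
      (κ ^ 2 - 2) * (∫ t in (0:ℝ)..T, θ t * ev w x t) -
      (∫ t in (0:ℝ)..T, θ t * Dt (Dt (ev w)) x t) - ∫ t in (0:ℝ)..T, srcS w x t * θ t := by
    rw [← intervalIntegral.integral_const_mul, ← intervalIntegral.integral_const_mul,
      ← intervalIntegral.integral_neg, ← intervalIntegral.integral_add,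
      ← intervalIntegral.integral_sub, ← intervalIntegral.integral_sub]
    · congr 1; funext t
      rw [W.eqn_ev]; ring
    · apply Continuous.intervalIntegrable; fun_prop
    · apply Continuous.intervalIntegrable; fun_prop
    · apply Continuous.intervalIntegrable; fun_prop
    · apply Continuous.intervalIntegrable; fun_prop
    · apply Continuous.intervalIntegrable; fun_prop
    · apply Continuous.intervalIntegrable; fun_prop
  have e2 : ∫ t in (0:ℝ)..T, ((κ ^ 2 - 2) * θ t) * ev w x t =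
      (κ ^ 2 - 2) * ∫ t in (0:ℝ)..T, θ t * ev w x t := by
    rw [← intervalIntegral.integral_const_mul]
    congr 1; funext t; ring
  rw [e1, ibp1, ibp2, e2]
  ring

theorem flux_zero (hT : 0 < T) {n : ℕ} {c δ lam : ℝ} (hδ : 0 < δ) (hlam : 0 < lam) (hc : c ≠ 0)
    (has : ∃ C X : ℝ, ∀ x, X ≤ x → ∀ t, 0 ≤ t → t ≤ T →
        |od w x t - c * exp (-lam * x) * sin (om T n * t)| ≤ C * exp (-(lam + δ) * x))
    {θ θ' : ℝ → ℝ} (hθ : ∀ t, HasDerivAt θ (θ' t) t)
    (hθ' : ∀ t, HasDerivAt θ' ((4 * lam ^ 2 - 2) * θ t) t) :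
    ∫ t in (0:ℝ)..T, sin (om T n * t) ^ 2 * θ t = 0 := by
  obtain ⟨C, X, has⟩ := has
  obtain ⟨K, X1, hK, hev⟩ := W.ev_small hT
  have cθ : Continuous θ := continuous_iff_continuousAt.2 fun t => (hθ t).continuousAt
  have cE : ContDiff ℝ 2 (fun p : ℝ × ℝ => ev w p.1 p.2) := W.sEv
  have cO : ContDiff ℝ 2 (fun p : ℝ × ℝ => od w p.1 p.2) := W.sOd
  obtain ⟨Mθ, hMθ⟩ := (isCompact_Icc (a := (0:ℝ)) (b := T)).exists_bound_of_continuousOn
    cθ.continuousOn
  have hMθ0 : 0 ≤ Mθ := (norm_nonneg _).trans (hMθ 0 ⟨le_rfl, hT.le⟩)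
  set S : ℝ → ℝ := fun t => sin (om T n * t) with hS
  have hS1 : ∀ t, |S t| ≤ 1 := fun t => abs_sin_le_one _
  set D := (|c| + |C|) * exp (lam * T) with hD
  have hD0 : 0 ≤ D := by positivity
  -- bounds for large x
  have hbig : ∀ x, max X1 (max (X + T) T) ≤ x → ∀ t, 0 ≤ t → t ≤ T →
      |od w x t| ≤ D * exp (-lam * x) ∧ |ev w x t| ≤ K * D ^ 2 * exp (-(2 * lam) * x) ∧
      |Dx (ev w) x t| ≤ K * D ^ 2 * exp (-(2 * lam) * x) ∧ |ev w x t| ≤ 1 / 4 := by
    intro x hx
    have hx1 : X1 ≤ x := (le_max_left _ _).trans hx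
    have hx2 : X + T ≤ x := ((le_max_left _ _).trans (le_max_right _ _)).trans hx
    have hx3 : T ≤ x := ((le_max_right _ _).trans (le_max_right _ _)).trans hx
    have hod : ∀ y, |y - x| ≤ T → ∀ t, 0 ≤ t → t ≤ T → |od w y t| ≤ D * exp (-lam * x) := by
      intro y hy t h0 h1
      rw [abs_le] at hy
      have hy0 : 0 ≤ y := by linarith [hy.1]
      have h2 := has y (by linarith [hy.1]) t h0 h1
      have h3 : |c * exp (-lam * y) * sin (om T n * t)| ≤ |c| * exp (-lam * y) := by
        rw [abs_mul, abs_mul, abs_of_pos (exp_pos _)]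
        exact mul_le_of_le_one_right (by positivity) (hS1 t)
      have h4 : |od w y t| ≤ |c| * exp (-lam * y) + C * exp (-(lam + δ) * y) := by
        have := abs_sub_abs_le_abs_sub (od w y t) (c * exp (-lam * y) * sin (om T n * t))
        linarith
      have h5 : C * exp (-(lam + δ) * y) ≤ |C| * exp (-lam * y) := by
        have e1 : C * exp (-(lam + δ) * y) ≤ |C| * exp (-(lam + δ) * y) :=
          mul_le_mul_of_nonneg_right (le_abs_self _) (exp_pos _).le
        refine e1.trans ?_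
        apply mul_le_mul_of_nonneg_left _ (abs_nonneg _)
        rw [exp_le_exp]
        nlinarith
      have h6 : exp (-lam * y) ≤ exp (lam * T) * exp (-lam * x) := by
        rw [← exp_add, exp_le_exp]
        nlinarith [hy.1]
      calc |od w y t| ≤ (|c| + |C|) * exp (-lam * y) := by linarith
        _ ≤ (|c| + |C|) * (exp (lam * T) * exp (-lam * x)) := by gcongr
        _ = D * exp (-lam * x) := by rw [hD]; ring
    intro t h0 h1
    have h2 := hev x hx1 (D * exp (-lam * x)) (by positivity) hod t h0 h1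
    have e : K * (D * exp (-lam * x)) ^ 2 = K * D ^ 2 * exp (-(2 * lam) * x) := by
      rw [mul_pow, ← exp_nat_mul]
      have : ((2:ℕ):ℝ) * (-lam * x) = -(2 * lam) * x := by push_cast; ring
      rw [this]; ring
    rw [e] at h2
    exact ⟨hod x (by simp [hT.le]) t h0 h1, h2.1, h2.2.1, h2.2.2.2⟩
  set κ := 2 * lam with hκ
  have hθ2 : ∀ t, HasDerivAt θ' ((κ ^ 2 - 2) * θ t) t := by
    intro t
    have : κ ^ 2 - 2 = 4 * lam ^ 2 - 2 := by rw [hκ]; ring
    rw [this]; exact hθ' t
  set Jf : ℝ → ℝ := fun y => exp (κ * y) * ∫ t in (0:ℝ)..T, (κ * ev w y t - Dx (ev w) y t) * θ t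
    with hJf
  set L := ∫ t in (0:ℝ)..T, S t ^ 2 * θ t with hL
  have hlim : Tendsto (fun x => -(exp (κ * x) * ∫ t in (0:ℝ)..T, srcS w x t * θ t)) atTop
      (nhds (-(3 * c ^ 2 * L))) := by
    apply Tendsto.neg
    rw [tendsto_iff_dist_tendsto_zero]
    set Q := 6 * |c| * |C| + 3 * |C| ^ 2 + 3 * D ^ 2 * (K * D ^ 2) + (K * D ^ 2) ^ 2 * (13 / 4)
      with hQ
    have hQ0 : 0 ≤ Q := by positivity
    set η := min δ (2 * lam) with hη
    have hη0 : 0 < η := lt_min hδ (by linarith)
    have hlim0 : Tendsto (fun x : ℝ => T * (Q * exp (-(η * x)) * Mθ)) atTop (nhds 0) := by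
      have h1 : Tendsto (fun x : ℝ => exp (-(η * x))) atTop (nhds 0) :=
        tendsto_exp_neg_atTop_nhds_zero.comp (tendsto_id.const_mul_atTop hη0)
      have h2 := ((h1.const_mul Q).mul_const Mθ).const_mul T
      simpa using h2
    apply squeeze_zero' (Eventually.of_forall fun x => dist_nonneg) _ hlim0
    filter_upwards [eventually_ge_atTop (max (max X1 (max (X + T) T)) (max X 0))] with x hx
    have hxa : max X1 (max (X + T) T) ≤ x := (le_max_left _ _).trans hx
    have hxX : X ≤ x := ((le_max_left _ _).trans (le_max_right _ _)).trans hx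
    have hx0 : 0 ≤ x := ((le_max_right _ _).trans (le_max_right _ _)).trans hx
    have sE := cont_slice cE.continuous x
    have sO := cont_slice cO.continuous x
    have sS : Continuous (srcS w x) := by unfold srcS; fun_prop
    have e1 : exp (κ * x) * (∫ t in (0:ℝ)..T, srcS w x t * θ t) - 3 * c ^ 2 * L =
        ∫ t in (0:ℝ)..T, (exp (κ * x) * srcS w x t - 3 * c ^ 2 * S t ^ 2) * θ t := by
      rw [hL, ← intervalIntegral.integral_const_mul, ← intervalIntegral.integral_const_mul,
        ← intervalIntegral.integral_sub]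
      · congr 1; funext t; ring
      · apply Continuous.intervalIntegrable; fun_prop
      · apply Continuous.intervalIntegrable; rw [hS]; fun_prop
    rw [Real.dist_eq, e1]
    have e2 : ∀ t ∈ Set.uIoc (0:ℝ) T,
        ‖(exp (κ * x) * srcS w x t - 3 * c ^ 2 * S t ^ 2) * θ t‖ ≤ Q * exp (-(η * x)) * Mθ := by
      intro t ht
      rw [uIoc_of_le hT.le] at ht
      rw [norm_mul]
      apply mul_le_mul _ (hMθ t ⟨ht.1.le, ht.2⟩) (norm_nonneg _) (by positivity)
      rw [Real.norm_eq_abs]
      obtain ⟨b1, b2, -, b3⟩ := hbig x hxa t ht.1.le ht.2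
      have b4 := has x hxX t ht.1.le ht.2
      set s := ev w x t
      set a := od w x t
      set E1 := exp (lam * x) with hE1
      have hE1p : 0 < E1 := exp_pos _
      have hEE : E1 * exp (-lam * x) = 1 := by
        rw [hE1, ← exp_add]; simp
      have hκx : exp (κ * x) = E1 ^ 2 := by
        rw [hE1, hκ, ← exp_nat_mul]; congr 1; push_cast; ring
      set r := E1 * a - c * S t with hr
      have hrb : |r| ≤ |C| * exp (-(η * x)) := by
        have h1 : r = E1 * (a - c * exp (-lam * x) * S t) := by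
          rw [hr]
          have : E1 * (a - c * exp (-lam * x) * S t) =
            E1 * a - (E1 * exp (-lam * x)) * (c * S t) := by ring
          rw [this, hEE]; ring
        rw [h1, abs_mul, abs_of_pos hE1p]
        calc E1 * |a - c * exp (-lam * x) * S t| ≤ E1 * (C * exp (-(lam + δ) * x)) := by gcongr
          _ ≤ E1 * (|C| * exp (-(lam + δ) * x)) := by
              gcongr
              exact le_abs_self _
          _ = |C| * exp (-(δ * x)) := by
              rw [hE1, mul_left_comm, ← exp_add]; congr 2; ring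
          _ ≤ |C| * exp (-(η * x)) := by
              gcongr
              exact min_le_left _ _
      have hη1 : exp (-(η * x)) ≤ 1 := by
        rw [exp_le_one_iff]
        have := mul_nonneg hη0.le hx0
        linarith
      have hηp : 0 < exp (-(η * x)) := exp_pos _
      have h2lam : exp (-(2 * lam) * x) ≤ exp (-(η * x)) := by
        rw [exp_le_exp]
        have := min_le_right δ (2 * lam)
        nlinarith
      have e3 : exp (κ * x) * srcS w x t - 3 * c ^ 2 * S t ^ 2 =
          (6 * c * S t * r + 3 * r ^ 2) + 3 * (E1 * a) ^ 2 * s + (E1 * s) ^ 2 * (3 + s) := by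
        unfold srcS
        rw [hκx, hr]; ring
      rw [e3]
      set εη := exp (-(η * x)) with hεη
      have f1 : |6 * c * S t * r + 3 * r ^ 2| ≤ (6 * |c| * |C| + 3 * |C| ^ 2) * εη := by
        refine (abs_add_le _ _).trans ?_
        have g1 : |6 * c * S t * r| ≤ 6 * |c| * |C| * εη := by
          rw [abs_mul, abs_mul, abs_mul, abs_of_pos (by norm_num : (0:ℝ) < 6)]
          calc 6 * |c| * |S t| * |r| ≤ 6 * |c| * 1 * (|C| * εη) := by
                gcongr
                exact hS1 t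
            _ = 6 * |c| * |C| * εη := by ring
        have g2 : |3 * r ^ 2| ≤ 3 * |C| ^ 2 * εη := by
          rw [abs_mul, abs_pow, abs_of_pos (by norm_num : (0:ℝ) < 3)]
          calc 3 * |r| ^ 2 ≤ 3 * (|C| * εη) ^ 2 := by gcongr
            _ = 3 * |C| ^ 2 * (εη * εη) := by ring
            _ ≤ 3 * |C| ^ 2 * (εη * 1) := by gcongr
            _ = 3 * |C| ^ 2 * εη := by ring
        linarith
      have hEa : |E1 * a| ≤ D := by
        rw [abs_mul, abs_of_pos hE1p]
        calc E1 * |a| ≤ E1 * (D * exp (-lam * x)) := by gcongr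
          _ = D * (E1 * exp (-lam * x)) := by ring
          _ = D := by rw [hEE, mul_one]
      have hEs : |E1 * s| ≤ K * D ^ 2 * exp (-lam * x) := by
        rw [abs_mul, abs_of_pos hE1p]
        calc E1 * |s| ≤ E1 * (K * D ^ 2 * exp (-(2 * lam) * x)) := by gcongr
          _ = K * D ^ 2 * (E1 * exp (-(2 * lam) * x)) := by ring
          _ = K * D ^ 2 * exp (-lam * x) := by
              rw [hE1, ← exp_add]; congr 2; ring
      have f2 : |3 * (E1 * a) ^ 2 * s| ≤ 3 * D ^ 2 * (K * D ^ 2) * εη := by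
        rw [abs_mul, abs_mul, abs_pow, abs_of_pos (by norm_num : (0:ℝ) < 3)]
        calc 3 * |E1 * a| ^ 2 * |s| ≤ 3 * D ^ 2 * (K * D ^ 2 * exp (-(2 * lam) * x)) := by gcongr
          _ ≤ 3 * D ^ 2 * (K * D ^ 2 * εη) := by gcongr
          _ = 3 * D ^ 2 * (K * D ^ 2) * εη := by ring
      have f3 : |(E1 * s) ^ 2 * (3 + s)| ≤ (K * D ^ 2) ^ 2 * (13 / 4) * εη := by
        rw [abs_mul, abs_pow]
        have g1 : |3 + s| ≤ 13 / 4 := by
          rw [abs_le] at b3 ⊢; constructor <;> linarith [b3.1, b3.2]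
        calc |E1 * s| ^ 2 * |3 + s| ≤ (K * D ^ 2 * exp (-lam * x)) ^ 2 * (13 / 4) := by gcongr
          _ = (K * D ^ 2) ^ 2 * (13 / 4) * exp (-(2 * lam) * x) := by
              rw [mul_pow, ← exp_nat_mul]
              have : ((2:ℕ):ℝ) * (-lam * x) = -(2 * lam) * x := by push_cast; ring
              rw [this]; ring
          _ ≤ (K * D ^ 2) ^ 2 * (13 / 4) * εη := by gcongr
      have f4 := abs_add_le (6 * c * S t * r + 3 * r ^ 2) (3 * (E1 * a) ^ 2 * s)
      have f5 := abs_add_le (6 * c * S t * r + 3 * r ^ 2 + 3 * (E1 * a) ^ 2 * s)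
        ((E1 * s) ^ 2 * (3 + s))
      rw [hQ]
      linarith
    have e4 := intervalIntegral.norm_integral_le_of_norm_le_const e2
    rw [Real.norm_eq_abs, sub_zero, abs_of_pos hT] at e4
    rw [mul_comm T]
    exact e4
  have hbdd : ∀ᶠ x in atTop, |Jf x| ≤ T * ((κ + 1) * (K * D ^ 2) * Mθ) := by
    filter_upwards [eventually_ge_atTop (max X1 (max (X + T) T))] with x hx
    rw [hJf]
    beta_reduce
    rw [← intervalIntegral.integral_const_mul]
    have e2 : ∀ t ∈ Set.uIoc (0:ℝ) T,
        ‖exp (κ * x) * ((κ * ev w x t - Dx (ev w) x t) * θ t)‖ ≤ (κ + 1) * (K * D ^ 2) * Mθ := by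
      intro t ht
      rw [uIoc_of_le hT.le] at ht
      rw [← mul_assoc, norm_mul]
      have hκ0 : 0 < κ := by rw [hκ]; linarith
      apply mul_le_mul _ (hMθ t ⟨ht.1.le, ht.2⟩) (norm_nonneg _) (by positivity)
      rw [Real.norm_eq_abs, abs_mul, abs_of_pos (exp_pos _)]
      obtain ⟨-, b2, b3, -⟩ := hbig x hx t ht.1.le ht.2
      have h1 : |κ * ev w x t - Dx (ev w) x t| ≤ (κ + 1) * (K * D ^ 2 * exp (-(2 * lam) * x)) := by
        refine (abs_sub _ _).trans ?_
        rw [abs_mul, abs_of_pos hκ0]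
        have := mul_le_mul_of_nonneg_left b2 hκ0.le
        linarith
      calc exp (κ * x) * |κ * ev w x t - Dx (ev w) x t| ≤
          exp (κ * x) * ((κ + 1) * (K * D ^ 2 * exp (-(2 * lam) * x))) := by gcongr
        _ = (κ + 1) * (K * D ^ 2) * (exp (κ * x) * exp (-(2 * lam) * x)) := by ring
        _ = (κ + 1) * (K * D ^ 2) := by
            rw [← exp_add, hκ]
            have : 2 * lam * x + -(2 * lam) * x = 0 := by ring
            rw [this, exp_zero, mul_one]
    have e4 := intervalIntegral.norm_integral_le_of_norm_le_const e2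
    rw [Real.norm_eq_abs, sub_zero, abs_of_pos hT] at e4
    rw [mul_comm T]
    exact e4
  have hfin := limit_deriv_zero (fun x => W.flux_deriv hθ hθ2 x) hbdd hlim
  have hc2 : 0 < 3 * c ^ 2 := by positivity
  have : 3 * c ^ 2 * L = 0 := by linarith
  rcases mul_eq_zero.1 this with h | h
  · exact absurd h hc2.ne'
  · exact h

/-- main theorem for `w` -/
theorem zero_of_nonexceptional (hT : 0 < T)
    (hex : ∀ m n : ℕ, 1 ≤ m → m < n → T ^ 2 ≠ 2 * π ^ 2 / 3 * (4 * (n : ℝ) ^ 2 - (m : ℝ) ^ 2)) :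
    ∀ x t, w x t = 0 := by
  rcases W.asym hT with h | ⟨n, c, δ, lam, hn, hc, hδ, hlam, hlam2, has⟩
  · exact W.zero_of_superexp hT h
  · exfalso
    have hom : om T n = (n : ℝ) * (2 * π / T) := rfl
    obtain ⟨m, hm1, hmn, hTT⟩ := period_of_flux T hT n hn (by
        rw [← hom]
        have : 0 < lam ^ 2 := by positivity
        linarith)
      (by
        intro θ θ' hθ hθ'
        have := W.flux_zero hT hδ hlam hc has hθ (by
          intro t
          rw [hlam2]
          exact hθ' t)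
        exact this)
    exact hex m n hm1 hmn hTT

end WSol

end Phi4
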