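import Pool.Agent.Helper88.PhiL

/-! Definitions for the higher order expansion: decay rates, sums of free modes, exponential
bounds, the fundamental solutions of `y'' = c y`. -/

set_option autoImplicit false

namespace Phi4

open Real Filter MeasureTheory intervalIntegral Set

/-- decay rate of the `j`-th sine mode -/
noncomputable def lm (T : ℝ) (j : ℕ) : ℝ := √(2 - om T j ^ 2)

/-- a sum of free modes -/
noncomputable def msum (T : ℝ) (B : ℕ → ℝ) (x t : ℝ) : ℝ :=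
  ∑ j ∈ Finset.range (JJ T + 1), B j * exp (-lm T j * x) * sin (om T j * t)

/-- exponential bound for large `x`, uniformly for `0 ≤ t ≤ T` -/
def EB (T σ : ℝ) (f : ℝ → ℝ → ℝ) : Prop :=
  ∃ C X : ℝ, ∀ x, X ≤ x → ∀ t, 0 ≤ t → t ≤ T → |f x t| ≤ C * exp (-σ * x)

/-- the solution of `y'' = c y`, `y 0 = 1`, `y' 0 = 0` -/
noncomputable def Cf (c t : ℝ) : ℝ := if 0 ≤ c then cosh (√c * t) else cos (√(-c) * t)

/-- the solution of `y'' = c y`, `y 0 = 0`, `y' 0 = 1` -/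
noncomputable def Sf (c t : ℝ) : ℝ :=
  if 0 < c then sinh (√c * t) / √c else if c = 0 then t else sin (√(-c) * t) / √(-c)

/-- the solution of `y'' = c y - F`, `y 0 = 0`, `y' 0 = 0` -/
noncomputable def Ef (c : ℝ) (F : ℝ → ℝ) (t : ℝ) : ℝ :=
  -(Sf c t * (∫ s in (0:ℝ)..t, Cf c s * F s) - Cf c t * (∫ s in (0:ℝ)..t, Sf c s * F s))

/-- its derivative -/
noncomputable def Ef1 (c : ℝ) (F : ℝ → ℝ) (t : ℝ) : ℝ :=
  -(Cf c t * (∫ s in (0:ℝ)..t, Cf c s * F s) - c * Sf c t * (∫ s in (0:ℝ)..t, Sf c s * F s))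

/-! ### algebra of exponential bounds -/

theorem EB.nonneg_const {T σ : ℝ} {f : ℝ → ℝ → ℝ} (h : EB T σ f) :
    ∃ C X : ℝ, 0 ≤ C ∧ 0 ≤ X ∧ ∀ x, X ≤ x → ∀ t, 0 ≤ t → t ≤ T → |f x t| ≤ C * exp (-σ * x) := by
  obtain ⟨C, X, h⟩ := h
  refine ⟨|C|, max X 0, abs_nonneg _, le_max_right _ _, fun x hx t h0 h1 => ?_⟩
  refine (h x ((le_max_left _ _).trans hx) t h0 h1).trans ?_
  exact mul_le_mul_of_nonneg_right (le_abs_self _) (exp_pos _).le

theorem EB.mono {T σ σ' : ℝ} {f : ℝ → ℝ → ℝ} (h : EB T σ f) (hs : σ' ≤ σ) : EB T σ' f := by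
  obtain ⟨C, X, hC, hX, h⟩ := h.nonneg_const
  refine ⟨C, X, fun x hx t h0 h1 => (h x hx t h0 h1).trans ?_⟩
  apply mul_le_mul_of_nonneg_left _ hC
  apply exp_le_exp.2
  have : 0 ≤ x := hX.trans hx
  nlinarith

theorem EB.congr {T σ : ℝ} {f g : ℝ → ℝ → ℝ} (h : EB T σ f)
    (e : ∀ x t, 0 ≤ t → t ≤ T → g x t = f x t) : EB T σ g := by
  obtain ⟨C, X, h⟩ := h
  exact ⟨C, X, fun x hx t h0 h1 => by rw [e x t h0 h1]; exact h x hx t h0 h1⟩

theorem EB.add {T σ : ℝ} {f g : ℝ → ℝ → ℝ} (hf : EB T σ f) (hg : EB T σ g) :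
    EB T σ (fun x t => f x t + g x t) := by
  obtain ⟨C, X, hf⟩ := hf
  obtain ⟨D, Y, hg⟩ := hg
  refine ⟨C + D, max X Y, fun x hx t h0 h1 => ?_⟩
  have h2 := hf x ((le_max_left _ _).trans hx) t h0 h1
  have h3 := hg x ((le_max_right _ _).trans hx) t h0 h1
  calc |f x t + g x t| ≤ |f x t| + |g x t| := abs_add_le _ _
    _ ≤ C * exp (-σ * x) + D * exp (-σ * x) := add_le_add h2 h3
    _ = (C + D) * exp (-σ * x) := by ring

theorem EB.neg {T σ : ℝ} {f : ℝ → ℝ → ℝ} (hf : EB T σ f) : EB T σ (fun x t => -f x t) := by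
  obtain ⟨C, X, hf⟩ := hf
  exact ⟨C, X, fun x hx t h0 h1 => by rw [abs_neg]; exact hf x hx t h0 h1⟩

theorem EB.sub {T σ : ℝ} {f g : ℝ → ℝ → ℝ} (hf : EB T σ f) (hg : EB T σ g) :
    EB T σ (fun x t => f x t - g x t) :=
  (hf.add hg.neg).congr fun x t _ _ => by ring

theorem EB.mul {T σ τ : ℝ} {f g : ℝ → ℝ → ℝ} (hf : EB T σ f) (hg : EB T τ g) :
    EB T (σ + τ) (fun x t => f x t * g x t) := by
  obtain ⟨C, X, hC, hX, hf⟩ := hf.nonneg_const
  obtain ⟨D, Y, hD, hY, hg⟩ := hg.nonneg_const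
  refine ⟨C * D, max X Y, fun x hx t h0 h1 => ?_⟩
  have h2 := hf x ((le_max_left _ _).trans hx) t h0 h1
  have h3 := hg x ((le_max_right _ _).trans hx) t h0 h1
  calc |f x t * g x t| = |f x t| * |g x t| := abs_mul _ _
    _ ≤ (C * exp (-σ * x)) * (D * exp (-τ * x)) := by gcongr
    _ = C * D * exp (-(σ + τ) * x) := by
        rw [show -(σ + τ) * x = -σ * x + -τ * x by ring, exp_add]; ring

theorem EB.const_mul {T σ : ℝ} {f : ℝ → ℝ → ℝ} (c : ℝ) (hf : EB T σ f) :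
    EB T σ (fun x t => c * f x t) := by
  obtain ⟨C, X, hf⟩ := hf
  refine ⟨|c| * C, X, fun x hx t h0 h1 => ?_⟩
  rw [abs_mul, mul_assoc]
  exact mul_le_mul_of_nonneg_left (hf x hx t h0 h1) (abs_nonneg _)

theorem EB.zero (T σ : ℝ) : EB T σ (fun _ _ => 0) :=
  ⟨0, 0, fun x _ t _ _ => by simp⟩

theorem EB.sum {T σ : ℝ} {ι : Type} (K : Finset ι) {f : ι → ℝ → ℝ → ℝ}
    (hf : ∀ i ∈ K, EB T σ (f i)) : EB T σ (fun x t => ∑ i ∈ K, f i x t) := by
  classical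
  induction K using Finset.induction_on with
  | empty => simpa using EB.zero T σ
  | insert a s ha ih =>
    have h1 := (hf a (Finset.mem_insert_self _ _)).add
      (ih fun i hi => hf i (Finset.mem_insert_of_mem hi))
    exact h1.congr fun x t _ _ => Finset.sum_insert ha

/-- a continuous profile times an exponential -/
theorem EB.profile {T κ : ℝ} {F : ℝ → ℝ} (hF : Continuous F) :
    EB T κ (fun x t => F t * exp (-κ * x)) := by
  obtain ⟨M, hM⟩ := (isCompact_Icc (a := (0:ℝ)) (b := T)).exists_bound_of_continuousOn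
    hF.continuousOn
  refine ⟨M, 0, fun x _ t h0 h1 => ?_⟩
  rw [abs_mul, abs_of_pos (exp_pos _)]
  exact mul_le_mul_of_nonneg_right (hM t ⟨h0, h1⟩) (exp_pos _).le

theorem lm_nonneg (T : ℝ) (j : ℕ) : 0 ≤ lm T j := sqrt_nonneg _

theorem lm_sq {T : ℝ} {j : ℕ} (h : om T j ^ 2 ≤ 2) : lm T j ^ 2 = 2 - om T j ^ 2 :=
  sq_sqrt (by linarith)

end Phi4
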