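import Pool.Agent.Helper88.PhiN

/-! Linear expansion at `+∞` of a forced odd solution. -/

set_option autoImplicit false

namespace Phi4

open Real Filter MeasureTheory intervalIntegral Set Topology

namespace OSol

variable {T : ℝ} {a G : ℝ → ℝ → ℝ} (O : OSol T a G)
include O

theorem nrm_hfx_le (J : ℕ) (hJ : 2 < om T (J + 1) ^ 2) (x : ℝ) :
    nrm T (hfx T J a x) ≤ √(En T J a x) := by
  apply le_sqrt_of_sq_le
  refine le_trans ?_ (O.le_En J hJ x)
  have h1 : 2 / om T (J + 1) ^ 2 ≤ 1 := by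
    rw [div_le_one (by linarith)]; linarith
  have : 0 ≤ (1 - 2 / om T (J + 1) ^ 2) * nrm T (hft T J a x) ^ 2 :=
    mul_nonneg (by linarith) (sq_nonneg _)
  linarith

theorem nrm_hft_le (J : ℕ) (hJ : 2 < om T (J + 1) ^ 2) : ∃ K, 0 ≤ K ∧ ∀ x : ℝ,
    nrm T (hft T J a x) ≤ K * √(En T J a x) := by
  have h1 : 0 < 1 - 2 / om T (J + 1) ^ 2 := by
    rw [sub_pos, div_lt_one (by linarith)]; exact hJ
  refine ⟨1 / √(1 - 2 / om T (J + 1) ^ 2), by positivity, fun x => ?_⟩
  have h2 := O.le_En J hJ x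
  have h3 : √((1 - 2 / om T (J + 1) ^ 2) * nrm T (hft T J a x) ^ 2) ≤ √(En T J a x) := by
    apply sqrt_le_sqrt
    nlinarith [sq_nonneg (nrm T (hfx T J a x))]
  rw [sqrt_mul h1.le, sqrt_sq (nrm_nonneg _ _)] at h3
  rw [one_div, inv_mul_eq_div, le_div_iff₀ (sqrt_pos.2 h1), mul_comm]
  exact h3

theorem expand' {σ : ℝ} (hσ : 0 < σ)
    (ha : Tendsto (fun x => nrm T (Dx a x) + nrm T (Dt a x)) atTop (𝓝 0))
    (hG : EB T σ G) :
    ∃ b : ℕ → ℝ, (∀ j, b j ≠ 0 → 1 ≤ j ∧ om T j ^ 2 < 2 ∧ lm T j < σ) ∧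
      ∀ σ', σ' < σ → EB T σ' (fun x t => a x t - msum T b x t) := by
  have hT := O.hT
  have hsT : 0 < √T := sqrt_pos.2 hT
  set J := JJ T with hJdef
  have hJ : 2 < om T (J + 1) ^ 2 := lt_om_JJ hT
  have hJlow : ∀ j : Fin J, om T (j + 1) ^ 2 ≤ 2 := fun j => om_JJ_le hT (by omega)
  have hlam2 : ∀ j : Fin J, lm T (j + 1) ^ 2 = 2 - om T (j + 1) ^ 2 := fun j => lm_sq (hJlow j)
  have hlam0 : ∀ j : ℕ, 0 ≤ lm T j := lm_nonneg T
  obtain ⟨Kt, hKt, hKt'⟩ := O.nrm_hft_le J hJ
  have cga : ∀ x, Continuous (a x) := fun x => cont_slice O.ca x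
  have cgx : ∀ x, Continuous (Dx a x) := fun x => cont_slice O.cx x
  have cgt : ∀ x, Continuous (Dt a x) := fun x => cont_slice O.ct x
  have cgG : ∀ x, Continuous (G x) := fun x => cont_slice O.cG x
  have chx : ∀ x, Continuous (hfx T J a x) := fun x => cont_slice (O.c_hfx J) x
  have cht : ∀ x, Continuous (hft T J a x) := fun x => cont_slice (O.c_hft J) x
  have cP : ∀ c : Fin J → ℝ, Continuous (P T c) := fun c => by unfold P; fun_prop
  have cP1 : ∀ c : Fin J → ℝ, Continuous (P1 T c) := fun c => by unfold P1; fun_prop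
  have nP : ∀ c : Fin J → ℝ, nrm T (P T c) ≤ √T * ∑ j, |c j| := fun c =>
    nrm_le_of_bound hT.le (Finset.sum_nonneg fun _ _ => abs_nonneg _) (cP c)
      (fun t _ _ => abs_P_le T c t)
  have nP1 : ∀ c : Fin J → ℝ, nrm T (P1 T c) ≤ √T * (om T J * ∑ j, |c j|) := fun c =>
    nrm_le_of_bound hT.le (mul_nonneg (om_nonneg hT J) (Finset.sum_nonneg fun _ _ => abs_nonneg _))
      (cP1 c) (fun t _ _ => abs_P1_le hT c t)
  set N : ℝ → ℝ := fun x => nrm T (Dx a x) + nrm T (Dt a x) with hN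
  have hN0 : ∀ x, 0 ≤ N x := fun x => add_nonneg (nrm_nonneg _ _) (nrm_nonneg _ _)
  have bal : ∀ j x, |coef T a j x| ≤ 2 * √T * N x := by
    intro j x
    refine (abs_coef_le hT j (cga x)).trans ?_
    have h1 : nrm T (a x) ≤ √T * (√T * N x) := by
      refine nrm_le_of_bound hT.le (mul_nonneg hsT.le (hN0 x)) (cga x) (fun t h0 h1 => ?_)
      refine (sup_le_nrm_deriv (fun r => hasDerivAt_t O.c1 x r) (cgt x) (O.zero x) h0 h1).trans ?_
      apply mul_le_mul_of_nonneg_left _ hsT.le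
      simp only [hN]
      linarith [nrm_nonneg T (Dx a x)]
    calc 2 / √T * nrm T (a x) ≤ 2 / √T * (√T * (√T * N x)) := by gcongr
      _ = 2 * √T * N x := by field_simp
  have bbe : ∀ j x, |coef T (Dx a) j x| ≤ 2 / √T * N x := by
    intro j x
    refine (abs_coef_le hT j (cgx x)).trans ?_
    apply mul_le_mul_of_nonneg_left _ (by positivity)
    simp only [hN]; linarith [nrm_nonneg T (Dt a x)]
  have tal : ∀ j, Tendsto (coef T a j) atTop (𝓝 0) := by
    intro j
    have h1 : Tendsto (fun x => 2 * √T * N x) atTop (𝓝 0) := by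
      simpa using ha.const_mul (2 * √T)
    exact squeeze_zero_norm (fun x => by rw [Real.norm_eq_abs]; exact bal j x) h1
  have tbe : ∀ j, Tendsto (coef T (Dx a) j) atTop (𝓝 0) := by
    intro j
    have h1 : Tendsto (fun x => 2 / √T * N x) atTop (𝓝 0) := by
      simpa using ha.const_mul (2 / √T)
    exact squeeze_zero_norm (fun x => by rw [Real.norm_eq_abs]; exact bbe j x) h1
  -- the energy tends to zero
  set KE : ℝ := 1 + √T * (J * (2 / √T)) + √T * (om T J * (J * (2 * √T))) with hKE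
  have hKE0 : 0 ≤ KE := by have := om_nonneg hT J; positivity
  have hEb : ∀ x, √(En T J a x) ≤ 2 * KE * N x := by
    intro x
    have e0 : √(En T J a x) ≤ nrm T (hfx T J a x) + nrm T (hft T J a x) := by
      apply sqrt_le_iff.2
      refine ⟨add_nonneg (nrm_nonneg _ _) (nrm_nonneg _ _), ?_⟩
      refine (O.En_le J x).trans ?_
      nlinarith [mul_nonneg (nrm_nonneg T (hfx T J a x)) (nrm_nonneg T (hft T J a x))]
    have e1 : nrm T (hfx T J a x) ≤ nrm T (Dx a x) +
        nrm T (P T (fun j : Fin J => coef T (Dx a) (j + 1) x)) :=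
      nrm_sub_le hT.le (cgx x) (cP _)
    have e2 : nrm T (hft T J a x) ≤ nrm T (Dt a x) +
        nrm T (P1 T (fun j : Fin J => coef T a (j + 1) x)) :=
      nrm_sub_le hT.le (cgt x) (cP1 _)
    have e3 := nP (fun j : Fin J => coef T (Dx a) (j + 1) x)
    have e4 := nP1 (fun j : Fin J => coef T a (j + 1) x)
    have e5 : ∑ j : Fin J, |coef T a (j + 1) x| ≤ J * (2 * √T * N x) := by
      refine (Finset.sum_le_sum fun j _ => bal _ x).trans ?_
      simp
    have e6 : ∑ j : Fin J, |coef T (Dx a) (j + 1) x| ≤ J * (2 / √T * N x) := by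
      refine (Finset.sum_le_sum fun j _ => bbe _ x).trans ?_
      simp
    have e7 : √T * (om T J * ∑ j : Fin J, |coef T a (j + 1) x|) ≤
        √T * (om T J * (J * (2 * √T * N x))) := by
      have := om_nonneg hT J
      gcongr
    have e8 : √T * ∑ j : Fin J, |coef T (Dx a) (j + 1) x| ≤
        √T * (J * (2 / √T * N x)) := by gcongr
    have n0 := hN0 x
    have n3 : N x = nrm T (Dx a x) + nrm T (Dt a x) := rfl
    have n4 : 0 ≤ KE * N x := mul_nonneg hKE0 n0
    rw [hKE] at n4 ⊢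
    nlinarith
  have tE : Tendsto (En T J a) atTop (𝓝 0) := by
    have h1 : Tendsto (fun x => (2 * KE * N x) ^ 2) atTop (𝓝 0) := by
      have h2 : Tendsto (fun x => 2 * KE * N x) atTop (𝓝 0) := by
        simpa using ha.const_mul (2 * KE)
      simpa using h2.pow 2
    apply squeeze_zero (O.En_nonneg J hJ) _ h1
    intro x
    have h2 := hEb x
    have h3 := Real.sq_sqrt (O.En_nonneg J hJ x)
    have h4 := Real.sqrt_nonneg (En T J a x)
    nlinarith
  -- the forces
  obtain ⟨K0, X, hK0, hX0, hGb⟩ := hG.nonneg_const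
  set K : ℝ := 2 * K0 + √T * (K0 + J * (2 * K0)) with hKdef
  have hK : 0 ≤ K := by positivity
  have hc : ∀ x, X ≤ x → ∀ j : ℕ, |coef T G j x| ≤ 2 * K0 * exp (-σ * x) := by
    intro x hx j
    refine (abs_coef_le hT j (cgG x)).trans ?_
    have h1 : nrm T (G x) ≤ √T * (K0 * exp (-σ * x)) :=
      nrm_le_of_bound hT.le (by positivity) (cgG x) (hGb x hx)
    calc 2 / √T * nrm T (G x) ≤ 2 / √T * (√T * (K0 * exp (-σ * x))) := by gcongr
      _ = 2 * K0 * exp (-σ * x) := by field_simp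
  have hg : ∀ x, X ≤ x → ∀ j : ℕ, |coef T G j x| ≤ K * exp (-σ * x) := by
    intro x hx j
    refine (hc x hx j).trans (mul_le_mul_of_nonneg_right ?_ (exp_pos _).le)
    rw [hKdef]
    have : 0 ≤ √T * (K0 + J * (2 * K0)) := by positivity
    linarith
  have hdE : ∀ x, X ≤ x → |2 * ∫ t in (0:ℝ)..T, hfx T J a x t *
      (G x t - P T (fun j : Fin J => coef T G (j + 1) x) t)| ≤
      2 * √(En T J a x) * (K * exp (-σ * x)) := by
    intro x hx
    rw [abs_mul, abs_of_pos (by norm_num : (0:ℝ) < 2), mul_assoc]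
    apply mul_le_mul_of_nonneg_left _ (by norm_num)
    refine (cs hT.le (chx x) ((cgG x).sub (cP _))).trans ?_
    have h2 : nrm T (fun t => G x t - P T (fun j : Fin J => coef T G (j + 1) x) t) ≤
        √T * (K0 + J * (2 * K0)) * exp (-σ * x) := by
      have h3 := nrm_le_of_bound (M := (K0 + J * (2 * K0)) * exp (-σ * x)) hT.le (by positivity)
        ((cgG x).sub (cP (fun j : Fin J => coef T G (j + 1) x))) (by
          intro t ht0 htT
          simp only [Pi.sub_apply]
          refine (abs_sub _ _).trans ?_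
          have h4 := abs_P_le T (fun j : Fin J => coef T G (j + 1) x) t
          have h5 : ∑ j : Fin J, |coef T G (j + 1) x| ≤ ∑ j : Fin J, 2 * K0 * exp (-σ * x) :=
            Finset.sum_le_sum fun j _ => hc x hx _
          rw [Finset.sum_const, Finset.card_univ, Fintype.card_fin, nsmul_eq_mul] at h5
          have h6 := hGb x hx t ht0 htT
          nlinarith)
      rw [← mul_assoc] at h3
      exact h3
    calc nrm T (hfx T J a x) * _ ≤ √(En T J a x) * (√T * (K0 + J * (2 * K0)) * exp (-σ * x)) := by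
          apply mul_le_mul (O.nrm_hfx_le J hJ x) h2 (nrm_nonneg _ _) (sqrt_nonneg _)
      _ ≤ √(En T J a x) * (K * exp (-σ * x)) := by
          apply mul_le_mul_of_nonneg_left _ (sqrt_nonneg _)
          apply mul_le_mul_of_nonneg_right _ (exp_pos _).le
          rw [hKdef]
          linarith
  -- comparison functions
  have dG1 : ∀ x, X ≤ x → HasDerivAt (fun x => K / σ * exp (-σ * x)) (-(K * exp (-σ * x))) x := by
    intro x _
    refine (Phi4A.hasDerivAt_expneg (K / σ) σ x).congr_deriv ?_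
    field_simp
  have dG2 : ∀ x, X ≤ x → HasDerivAt (fun x => K / σ ^ 2 * exp (-σ * x))
      (-(K / σ * exp (-σ * x))) x := by
    intro x _
    refine (Phi4A.hasDerivAt_expneg (K / σ ^ 2) σ x).congr_deriv ?_
    field_simp
  have hγ0 : ∀ x, X ≤ x → 0 ≤ K * exp (-σ * x) := fun x _ => by positivity
  have hG10 : ∀ x, X ≤ x → 0 ≤ K / σ * exp (-σ * x) := fun x _ => by positivity
  have hG20 : ∀ x, X ≤ x → 0 ≤ K / σ ^ 2 * exp (-σ * x) := fun x _ => by positivity
  have tG1 : Tendsto (fun x => K / σ * exp (-σ * x)) atTop (𝓝 0) := by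
    simpa using (Phi4A.texp hσ).const_mul (K / σ)
  have tG2 : Tendsto (fun x => K / σ ^ 2 * exp (-σ * x)) atTop (𝓝 0) := by
    simpa using (Phi4A.texp hσ).const_mul (K / σ ^ 2)
  have hEn : ∀ x, X ≤ x → √(En T J a x) ≤ K / σ * exp (-σ * x) :=
    Phi4A.L5 (O.En_nonneg J hJ) (fun x _ => O.energy_deriv J x) dG1 hγ0 hdE tE tG1
  have dal : ∀ (j : Fin J) (x : ℝ), HasDerivAt (coef T a (j + 1)) (coef T (Dx a) (j + 1) x) x :=
    fun j x => O.hal _ x
  have dbe : ∀ (j : Fin J) (x : ℝ), HasDerivAt (coef T (Dx a) (j + 1))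
      (lm T (j + 1) ^ 2 * coef T a (j + 1) x + coef T G (j + 1) x) x := fun j x => by
    rw [hlam2, ← O.ga_eq]; exact O.hbe _ x
  have hzp : ∀ (j : Fin J) (x : ℝ), X ≤ x →
      |coef T (Dx a) (j + 1) x + lm T (j + 1) * coef T a (j + 1) x| ≤ K / σ * exp (-σ * x) := by
    intro j
    refine Phi4A.L1 (lam := lm T (j + 1))
      (y := fun x => coef T (Dx a) (j + 1) x + lm T (j + 1) * coef T a (j + 1) x)
      (y' := fun x => (lm T (j + 1) ^ 2 * coef T a (j + 1) x + coef T G (j + 1) x) +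
        lm T (j + 1) * coef T (Dx a) (j + 1) x)
      (hlam0 _) (fun x _ => (dbe j x).add ((dal j x).const_mul _)) dG1 hG10 ?_ ?_ tG1
    · intro x hx
      have h1 : (lm T (j + 1) ^ 2 * coef T a (j + 1) x + coef T G (j + 1) x) +
          lm T (j + 1) * coef T (Dx a) (j + 1) x - lm T (j + 1) *
          (coef T (Dx a) (j + 1) x + lm T (j + 1) * coef T a (j + 1) x)
          = coef T G (j + 1) x := by ring
      rw [h1]
      exact hg x hx _
    · have := (tbe (j + 1)).add ((tal (j + 1)).const_mul (lm T (j + 1)))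
      simpa using this
  have dzm : ∀ (j : Fin J) (x : ℝ), HasDerivAt
      (fun x => coef T (Dx a) (j + 1) x - lm T (j + 1) * coef T a (j + 1) x)
      ((lm T (j + 1) ^ 2 * coef T a (j + 1) x + coef T G (j + 1) x) -
        lm T (j + 1) * coef T (Dx a) (j + 1) x) x := fun j x =>
    (dbe j x).sub ((dal j x).const_mul _)
  have hzm : ∀ (j : Fin J) (x : ℝ), X ≤ x →
      |((lm T (j + 1) ^ 2 * coef T a (j + 1) x + coef T G (j + 1) x) -
        lm T (j + 1) * coef T (Dx a) (j + 1) x) + lm T (j + 1) *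
          (coef T (Dx a) (j + 1) x - lm T (j + 1) * coef T a (j + 1) x)| ≤ K * exp (-σ * x) := by
    intro j x hx
    have h1 : ((lm T (j + 1) ^ 2 * coef T a (j + 1) x + coef T G (j + 1) x) -
        lm T (j + 1) * coef T (Dx a) (j + 1) x) + lm T (j + 1) *
          (coef T (Dx a) (j + 1) x - lm T (j + 1) * coef T a (j + 1) x) =
          coef T G (j + 1) x := by ring
    rw [h1]
    exact hg x hx _
  -- each mode
  have hmode : ∀ j : Fin J, ∃ c : ℝ, (c ≠ 0 → 0 < lm T (j + 1) ∧ lm T (j + 1) < σ) ∧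
      ∀ σ', σ' < σ → ∃ C : ℝ, 0 ≤ C ∧ ∀ x, X ≤ x →
        |coef T a (j + 1) x - c * exp (-lm T (j + 1) * x)| ≤ C * exp (-σ' * x) := by
    intro j
    have hexp : ∀ σ', σ' < σ → ∀ x, X ≤ x → exp (-σ * x) ≤ exp (-σ' * x) := by
      intro σ' hs x hx
      apply exp_le_exp.2
      have : 0 ≤ x := hX0.trans hx
      nlinarith
    rcases eq_or_lt_of_le (hlam0 (j + 1)) with hl | hl
    · refine ⟨0, fun h => absurd rfl h, fun σ' hs => ⟨K / σ ^ 2, by positivity, fun x hx => ?_⟩⟩
      have h1 : ∀ x, X ≤ x → |coef T (Dx a) (j + 1) x| ≤ K / σ * exp (-σ * x) := by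
        intro x hx
        have := hzp j x hx
        rw [← hl, zero_mul, add_zero] at this
        exact this
      have h2 := Phi4A.L1 (lam := 0) le_rfl (fun ξ _ => dal j ξ) dG2 hG20
        (fun ξ hξ => by simpa using h1 ξ hξ) (tal (j + 1)) tG2 x hx
      rw [zero_mul, sub_zero]
      exact h2.trans (mul_le_mul_of_nonneg_left (hexp σ' hs x hx) (by positivity))
    · by_cases hl2 : lm T (j + 1) < σ
      · obtain ⟨c, hc⟩ := Phi4A.L3 (lam := lm T (j + 1)) (ρ := σ) (K := K) (X := X)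
          (y := fun x => coef T (Dx a) (j + 1) x - lm T (j + 1) * coef T a (j + 1) x) hl2 hK
          (fun x _ => dzm j x) (hzm j)
        have hd : 0 < σ - lm T (j + 1) := by linarith
        refine ⟨-c / (2 * lm T (j + 1)), fun _ => ⟨hl, hl2⟩, fun σ' hs =>
          ⟨(K / σ + K / (σ - lm T (j + 1))) / (2 * lm T (j + 1)), by positivity, fun x hx => ?_⟩⟩
        obtain ⟨h1, -⟩ := Phi4A.recover2 (c := c * exp (-lm T (j + 1) * x)) hl (hzp j x hx) (hc x hx)
        have h4 : -(c * exp (-lm T (j + 1) * x)) / (2 * lm T (j + 1)) =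
            -c / (2 * lm T (j + 1)) * exp (-lm T (j + 1) * x) := by ring
        rw [h4] at h1
        refine h1.trans ?_
        have h5 : (K / σ * exp (-σ * x) + K / (σ - lm T (j + 1)) * exp (-σ * x)) /
            (2 * lm T (j + 1)) = (K / σ + K / (σ - lm T (j + 1))) / (2 * lm T (j + 1)) *
              exp (-σ * x) := by ring
        rw [h5]
        exact mul_le_mul_of_nonneg_left (hexp σ' hs x hx) (by positivity)
      · push Not at hl2
        refine ⟨0, fun h => absurd rfl h, fun σ' hs => ?_⟩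
        obtain ⟨C2, hC20, hC2⟩ := Phi4A.L4 (lam := lm T (j + 1)) (ρ := σ) (σ := σ') (K := K)
          (X := X) (y := fun x => coef T (Dx a) (j + 1) x - lm T (j + 1) * coef T a (j + 1) x)
          (by linarith) hs hK (fun x _ => dzm j x) (hzm j)
        refine ⟨(K / σ + C2) * (1 / (2 * lm T (j + 1)) + 1 / 2), by positivity, fun x hx => ?_⟩
        have h1 := Phi4A.recover hl (hzp j x hx) (hC2 x hx)
        have h4 : 0 ≤ K / σ := by positivity
        have h6 := mul_le_mul_of_nonneg_left (hexp σ' hs x hx) h4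
        have h7 : 0 ≤ 1 / (2 * lm T (j + 1)) + 1 / 2 := by positivity
        rw [zero_mul, sub_zero]
        have h8 : (K / σ + C2) * (1 / (2 * lm T (j + 1)) + 1 / 2) * exp (-σ' * x)
              = (1 / (2 * lm T (j + 1)) + 1 / 2) *
                (K / σ * exp (-σ' * x) + C2 * exp (-σ' * x)) := by ring
        rw [h8]
        have h9 : |coef T a (j + 1) x| ≤ |coef T a (j + 1) x| + |coef T (Dx a) (j + 1) x| :=
          le_add_of_nonneg_right (abs_nonneg _)
        refine h9.trans (h1.trans ?_)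
        exact mul_le_mul_of_nonneg_left (by linarith) h7
  choose c hc1 hc2 using hmode
  set b : ℕ → ℝ := fun j => if h : 1 ≤ j ∧ j ≤ J then c ⟨j - 1, by omega⟩ else 0 with hb
  have hb0 : b 0 = 0 := by simp [hb]
  have hbj : ∀ j : Fin J, b (j + 1) = c j := by
    intro j
    have h1 : 1 ≤ (j : ℕ) + 1 ∧ (j : ℕ) + 1 ≤ J := by omega
    simp only [hb]
    rw [dif_pos h1]
    simp only [Nat.add_sub_cancel]
  refine ⟨b, ?_, ?_⟩
  · intro j hj
    by_cases h : 1 ≤ j ∧ j ≤ J
    · have e : ((⟨j - 1, by omega⟩ : Fin J) : ℕ) + 1 = j := by simp; omega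
      have hj' : c ⟨j - 1, by omega⟩ ≠ 0 := by
        rw [← hbj, e]; exact hj
      obtain ⟨h1, h2⟩ := hc1 _ hj'
      rw [e] at h1 h2
      refine ⟨h.1, ?_, h2⟩
      unfold lm at h1
      have := sqrt_pos.1 h1
      linarith
    · exfalso
      apply hj
      simp only [hb]
      rw [dif_neg h]
  · intro σ' hs
    choose C hC0 hC using fun j => hc2 j σ' hs
    refine ⟨√T * (Kt * (K / σ)) + ∑ j, C j, X, fun x hx t ht0 htT => ?_⟩
    have hx0 : 0 ≤ x := hX0.trans hx
    have hexp : exp (-σ * x) ≤ exp (-σ' * x) := by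
      apply exp_le_exp.2
      nlinarith
    have e1 : msum T b x t =
        ∑ j : Fin J, c j * exp (-lm T (j + 1) * x) * sin (om T (j + 1) * t) := by
      unfold msum
      rw [Finset.sum_range_succ', ← hJdef, hb0, zero_mul, zero_mul, add_zero, Finset.sum_range]
      apply Finset.sum_congr rfl
      intro j _
      rw [hbj]
    have e2 : a x t - msum T b x t =
        hf T J a x t + ∑ j : Fin J, (coef T a (j + 1) x - c j * exp (-lm T (j + 1) * x)) *
          sin (om T (j + 1) * t) := by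
      rw [e1]
      unfold hf P
      simp_rw [sub_mul]
      rw [Finset.sum_sub_distrib]
      ring
    beta_reduce
    rw [e2, add_mul, Finset.sum_mul]
    refine (abs_add_le _ _).trans (add_le_add ?_ ?_)
    · refine (sup_le_nrm_deriv (fun r => O.d_hf_t J x r) (cht x) (O.hf_zero J x) ht0 htT).trans ?_
      rw [mul_assoc]
      apply mul_le_mul_of_nonneg_left _ hsT.le
      refine (hKt' x).trans ?_
      rw [mul_assoc]
      apply mul_le_mul_of_nonneg_left _ hKt
      refine (hEn x hx).trans ?_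
      exact mul_le_mul_of_nonneg_left hexp (by positivity)
    · refine (Finset.abs_sum_le_sum_abs _ _).trans ?_
      apply Finset.sum_le_sum
      intro j _
      rw [abs_mul]
      refine (mul_le_of_le_one_right (abs_nonneg _) (abs_sin_le_one _)).trans ?_
      exact hC j x hx

theorem expand {α σ : ℝ} (hα : 0 < α) (hσ : 0 < σ)
    (ha : ∃ C X : ℝ, ∀ x, X ≤ x → nrm T (Dx a x) + nrm T (Dt a x) ≤ C * exp (-α * x))
    (hG : EB T σ G) :
    ∃ b : ℕ → ℝ, (∀ j, b j ≠ 0 → 1 ≤ j ∧ om T j ^ 2 < 2 ∧ lm T j < σ) ∧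
      ∀ σ', σ' < σ → EB T σ' (fun x t => a x t - msum T b x t) := by
  obtain ⟨C, X, h⟩ := ha
  apply O.expand' hσ _ hG
  have h1 : Tendsto (fun x => C * exp (-α * x)) atTop (𝓝 0) := by
    simpa using (Phi4A.texp hα).const_mul C
  apply squeeze_zero' _ _ h1
  · exact Eventually.of_forall fun x => add_nonneg (nrm_nonneg _ _) (nrm_nonneg _ _)
  · filter_upwards [eventually_ge_atTop X] with x hx
    exact h x hx

end OSol

end Phi4
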