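import Pool.Agent.Helper88.PhiO

/-! The expansion of the odd part below three times the leading rate. -/

set_option autoImplicit false

namespace Phi4

open Real Filter MeasureTheory intervalIntegral Set Topology

theorem le_JJ {T : ℝ} (hT : 0 < T) {j : ℕ} (h : om T j ^ 2 ≤ 2) : j ≤ JJ T := by
  by_contra hc
  push Not at hc
  have h1 := om_le_of_le hT (Nat.succ_le_of_lt hc)
  have h2 := lt_om_JJ hT
  have h3 := om_nonneg hT (JJ T + 1)
  have h4 : om T (JJ T + 1) ^ 2 ≤ om T j ^ 2 := pow_le_pow_left₀ h3 h1 2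
  linarith

theorem small_zero {a κ σ C X : ℝ} (h : ∀ x, X ≤ x → |a| * exp (-κ * x) ≤ C * exp (-σ * x))
    (hk : κ < σ) : a = 0 := by
  have h1 : Tendsto (fun x => C * exp (-(σ - κ) * x)) atTop (𝓝 0) := by
    simpa using (Phi4A.texp (sub_pos.2 hk)).const_mul C
  have h2 : |a| ≤ 0 := by
    apply ge_of_tendsto h1
    filter_upwards [eventually_ge_atTop X] with x hx
    have h3 := mul_le_mul_of_nonneg_right (h x hx) (exp_pos (κ * x)).le
    have e1 : |a| * exp (-κ * x) * exp (κ * x) = |a| := by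
      rw [mul_assoc, ← exp_add]
      have : -κ * x + κ * x = 0 := by ring
      rw [this, exp_zero, mul_one]
    have e2 : C * exp (-σ * x) * exp (κ * x) = C * exp (-(σ - κ) * x) := by
      rw [mul_assoc, ← exp_add]
      congr 2
      ring
    rw [e1, e2] at h3
    exact h3
  exact abs_eq_zero.1 (le_antisymm h2 (abs_nonneg _))

theorem cont_msum (T : ℝ) (B : ℕ → ℝ) : Continuous (fun p : ℝ × ℝ => msum T B p.1 p.2) := by
  unfold msum
  fun_prop

theorem coef_msum {T : ℝ} (hT : 0 < T) (B : ℕ → ℝ) {j : ℕ} (hj : 1 ≤ j) (hjJ : j ≤ JJ T) (x : ℝ) :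
    coef T (msum T B) j x = B j * exp (-lm T j * x) := by
  unfold coef msum
  have e : ∀ t, (∑ i ∈ Finset.range (JJ T + 1), B i * exp (-lm T i * x) * sin (om T i * t)) *
      sin (om T j * t) = ∑ i ∈ Finset.range (JJ T + 1), B i * exp (-lm T i * x) *
        (sin (om T i * t) * sin (om T j * t)) := by
    intro t
    rw [Finset.sum_mul]
    exact Finset.sum_congr rfl fun i _ => by ring
  simp_rw [e]
  rw [intervalIntegral.integral_finset_sum]
  · have e2 : ∀ i ∈ Finset.range (JJ T + 1), (∫ t in (0:ℝ)..T, B i * exp (-lm T i * x) *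
        (sin (om T i * t) * sin (om T j * t))) =
        if i = j then B i * exp (-lm T i * x) * (T / 2) else 0 := by
      intro i _
      rw [intervalIntegral.integral_const_mul]
      rcases Nat.eq_zero_or_pos i with hi | hi
      · subst hi
        have : (0:ℕ) ≠ j := by omega
        rw [if_neg this]
        have h0 : om T 0 = 0 := by simp [om]
        simp [h0]
      · rw [ortho hT hi hj]
        split_ifs <;> simp
    rw [Finset.sum_congr rfl e2, Finset.sum_ite_eq', if_pos (Finset.mem_range.2 (by omega))]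
    field_simp
  · intro i _
    exact (by fun_prop : Continuous fun t => B i * exp (-lm T i * x) *
      (sin (om T i * t) * sin (om T j * t))).intervalIntegrable _ _

theorem coef_sin {T : ℝ} (hT : 0 < T) (c : ℝ → ℝ) {n j : ℕ} (hn : 1 ≤ n) (hj : 1 ≤ j) (x : ℝ) :
    coef T (fun x t => c x * sin (om T n * t)) j x = if n = j then c x else 0 := by
  unfold coef
  have e : ∀ t, c x * sin (om T n * t) * sin (om T j * t) =
      c x * (sin (om T n * t) * sin (om T j * t)) := fun t => by ring
  simp_rw [e]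
  rw [intervalIntegral.integral_const_mul, ortho hT hn hj]
  split_ifs
  · field_simp
  · simp

theorem coef_sub {T : ℝ} {f g : ℝ → ℝ → ℝ} {x : ℝ} (hf : Continuous (f x))
    (hg : Continuous (g x)) (j : ℕ) :
    coef T (fun x t => f x t - g x t) j x = coef T f j x - coef T g j x := by
  unfold coef
  simp_rw [sub_mul]
  rw [intervalIntegral.integral_sub, mul_sub]
  · exact (by fun_prop : Continuous fun t => f x t * sin (om T j * t)).intervalIntegrable _ _
  · exact (by fun_prop : Continuous fun t => g x t * sin (om T j * t)).intervalIntegrable _ _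

theorem EB.coef {T σ : ℝ} (hT : 0 < T) {f : ℝ → ℝ → ℝ} (hf : ∀ x, Continuous (f x))
    (h : EB T σ f) (j : ℕ) : ∃ C X : ℝ, ∀ x, X ≤ x → |coef T f j x| ≤ C * exp (-σ * x) := by
  obtain ⟨C, X, hC, hX, h⟩ := h.nonneg_const
  refine ⟨2 * C, X, fun x hx => ?_⟩
  refine (abs_coef_le hT j (hf x)).trans ?_
  have h1 : nrm T (f x) ≤ √T * (C * exp (-σ * x)) :=
    nrm_le_of_bound hT.le (by positivity) (hf x) (h x hx)
  have hsT : 0 < √T := sqrt_pos.2 hT
  calc 2 / √T * nrm T (f x) ≤ 2 / √T * (√T * (C * exp (-σ * x))) := by gcongr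
    _ = 2 * C * exp (-σ * x) := by field_simp

namespace WSol

variable {T : ℝ} {w : ℝ → ℝ → ℝ} (W : WSol T w)
include W

theorem srcA_eb (hT : 0 < T) {lam : ℝ} (hlam : 0 < lam) (h : EB T lam (od w)) :
    EB T (3 * lam) (srcA w) := by
  obtain ⟨K, X0, hK, hs⟩ := W.srcA_small hT
  obtain ⟨C, X, hC, hX, h⟩ := h.nonneg_const
  refine ⟨K * (C * exp (lam * T)) ^ 3, max X0 (X + T), fun x hx t ht0 htT => ?_⟩
  have hx0 : X0 ≤ x := (le_max_left _ _).trans hx
  have hx1 : X + T ≤ x := (le_max_right _ _).trans hx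
  have h1 := hs x hx0 (C * exp (lam * T) * exp (-lam * x)) (by positivity) (by
    intro y hy r hr0 hrT
    have hy1 := (abs_le.1 hy).1
    refine (h y (by linarith) r hr0 hrT).trans ?_
    rw [mul_assoc, ← exp_add]
    apply mul_le_mul_of_nonneg_left _ hC
    apply exp_le_exp.2
    nlinarith) t ht0 htT
  refine h1.trans (le_of_eq ?_)
  have h2 : exp (-(3 * lam) * x) = exp (-lam * x) ^ 3 := by
    rw [← exp_nat_mul]
    congr 1
    push_cast
    ring
  rw [h2]
  ring

theorem tendsto_nn (hT : 0 < T) :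
    Tendsto (fun x => nrm T (Dx (od w) x) + nrm T (Dt (od w) x)) atTop (𝓝 0) := by
  obtain ⟨C, hC, h⟩ := W.decay_parts
  have O := W.osol hT
  have h1 : Tendsto (fun x : ℝ => 2 * (√T * C) / x ^ 2) atTop (𝓝 0) :=
    tendsto_const_nhds.div_atTop (tendsto_pow_atTop (by norm_num))
  apply squeeze_zero' _ _ h1
  · exact Eventually.of_forall fun x => add_nonneg (nrm_nonneg _ _) (nrm_nonneg _ _)
  · filter_upwards [eventually_ge_atTop 1] with x hx
    have h1 := nrm_le_of_bound hT.le (by positivity : 0 ≤ C / x ^ 2) (cont_slice O.cx x)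
      (fun t _ _ => (h x hx t).2.2.1)
    have h2 := nrm_le_of_bound hT.le (by positivity : 0 ≤ C / x ^ 2) (cont_slice O.ct x)
      (fun t _ _ => (h x hx t).2.2.2)
    have : 2 * (√T * C) / x ^ 2 = √T * (C / x ^ 2) + √T * (C / x ^ 2) := by ring
    linarith

/-- the expansion of the odd part below three times the leading rate -/
theorem od_expand (hT : 0 < T) {n : ℕ}
    {c δ lam : ℝ} (hn : 1 ≤ n) (hδ : 0 < δ) (hlam : 0 < lam)
    (hlam2 : lam ^ 2 = 2 - om T n ^ 2)
    (has : ∃ C X : ℝ, ∀ x, X ≤ x → ∀ t, 0 ≤ t → t ≤ T →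
        |od w x t - c * exp (-lam * x) * sin (om T n * t)| ≤ C * exp (-(lam + δ) * x)) :
    ∃ B : ℕ → ℝ, B n = c ∧
      (∀ j, B j ≠ 0 → 1 ≤ j ∧ om T j ^ 2 < 2 ∧ lam ≤ lm T j ∧ lm T j < 3 * lam) ∧
      ∀ σ, σ < 3 * lam → EB T σ (fun x t => od w x t - msum T B x t) := by
  have O := W.osol hT
  have has' : EB T (lam + δ) (fun x t => od w x t - c * exp (-lam * x) * sin (om T n * t)) := has
  have hod : EB T lam (od w) := by
    have h1 : EB T lam (fun x t => (c * sin (om T n * t)) * exp (-lam * x)) :=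
      EB.profile (F := fun t => c * sin (om T n * t)) (by fun_prop)
    have h2 := (has'.mono (by linarith : lam ≤ lam + δ)).add h1
    exact h2.congr fun x t _ _ => by ring
  obtain ⟨B, hB1, hB2⟩ := O.expand' (σ := 3 * lam) (by linarith) (W.tendsto_nn hT)
    (W.srcA_eb hT hlam hod)
  have hlmn : lm T n = lam := by
    unfold lm
    rw [← hlam2, sqrt_sq hlam.le]
  have hnJ : n ≤ JJ T := le_JJ hT (by nlinarith)
  set σ' : ℝ := lam + min δ lam with hσ'
  have hm : 0 < min δ lam := lt_min hδ hlam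
  have hm1 : min δ lam ≤ δ := min_le_left _ _
  have hm2 : min δ lam ≤ lam := min_le_right _ _
  have h1 := hB2 σ' (by linarith)
  have h2 := has'.mono (show σ' ≤ lam + δ by linarith)
  have h3 : EB T σ' (fun x t => msum T B x t - c * exp (-lam * x) * sin (om T n * t)) :=
    (h2.sub h1).congr fun x t _ _ => by ring
  have cm : ∀ x, Continuous (msum T B x) := fun x => cont_slice (cont_msum T B) x
  have hid : ∀ j, 1 ≤ j → j ≤ JJ T → ∃ C X : ℝ, ∀ x, X ≤ x →
      |B j * exp (-lm T j * x) - if n = j then c * exp (-lam * x) else 0| ≤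
        C * exp (-σ' * x) := by
    intro j hj hjJ
    obtain ⟨C, X, h4⟩ := h3.coef hT (fun x => by
      have := cm x
      fun_prop) j
    refine ⟨C, X, fun x hx => ?_⟩
    have h5 := h4 x hx
    rw [coef_sub (f := msum T B) (g := fun x t => c * exp (-lam * x) * sin (om T n * t)) (cm x)
      (by fun_prop) j, coef_msum hT B hj hjJ, coef_sin hT (fun x => c * exp (-lam * x)) hn hj] at h5
    exact h5
  have hBn : B n = c := by
    obtain ⟨C, X, h4⟩ := hid n hn hnJ
    have h5 : B n - c = 0 := by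
      apply small_zero (κ := lam) (σ := σ') (C := C) (X := X) _ (by linarith)
      intro x hx
      have h6 := h4 x hx
      rw [if_pos rfl, hlmn, ← sub_mul, abs_mul, abs_of_pos (exp_pos _)] at h6
      exact h6
    linarith
  refine ⟨B, hBn, fun j hj => ?_, hB2⟩
  obtain ⟨g1, g2, g3⟩ := hB1 j hj
  refine ⟨g1, g2, ?_, g3⟩
  by_cases hjn : n = j
  · rw [← hjn, hlmn]
  · obtain ⟨C, X, h4⟩ := hid j g1 (le_JJ hT g2.le)
    by_contra hlt
    push Not at hlt
    apply hj
    apply small_zero (κ := lm T j) (σ := σ') (C := C) (X := X) _ (by linarith)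
    intro x hx
    have h6 := h4 x hx
    rw [if_neg hjn, sub_zero, abs_mul, abs_of_pos (exp_pos _)] at h6
    exact h6

end WSol

end Phi4
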