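import Pool.Agent.Helper88.PhiQ
import Pool.Agent.Helper89.Phi4.Three
import Pool.Agent.Helper83.Phi4.Four
import Pool.Agent.Helper64.Phi4.Alg
import Pool.Agent.Helper35.Phi4.Num

/-! Assembly: a nonzero solution passes the pair test. -/

set_option autoImplicit false

namespace Phi4

open Real Filter MeasureTheory intervalIntegral Set Topology
open Pool.Agent.Helper35.Phi4 (aa aa_add Kill)

/-! ### rates in terms of `N` -/

theorem om_sq {T : ℝ} {N : ℕ} (hN : 0 < N) (hTT : T ^ 2 = 2 * π ^ 2 / 3 * N) (j : ℕ) :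
    om T j ^ 2 = 6 * (j : ℝ) ^ 2 / N := by
  have hN' : (0:ℝ) < N := by exact_mod_cast hN
  unfold om
  rw [mul_pow, div_pow, hTT]
  have := Real.pi_pos
  field_simp
  ring

theorem two_sub_om {T : ℝ} {N : ℕ} (hN : 0 < N) (hTT : T ^ 2 = 2 * π ^ 2 / 3 * N)
    (j : ℕ) : 2 - om T j ^ 2 = 2 / N * ((N : ℝ) - 3 * (j : ℝ) ^ 2) := by
  have hN' : (0:ℝ) < N := by exact_mod_cast hN
  rw [om_sq hN hTT]
  field_simp
  ring

theorem lm_eq_aa {T : ℝ} {N : ℕ} (hN : 0 < N) (hTT : T ^ 2 = 2 * π ^ 2 / 3 * N)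
    {j : ℕ} (hj : 3 * j ^ 2 < N) : lm T j = √(2 / N) * √(aa N j : ℝ) := by
  have hN' : (0:ℝ) < N := by exact_mod_cast hN
  unfold lm
  rw [two_sub_om hN hTT, ← sqrt_mul (by positivity)]
  congr 2
  have h := aa_add hj
  have h' : ((aa N j : ℕ) : ℝ) + 3 * (j : ℝ) ^ 2 = N := by exact_mod_cast h
  linarith

theorem nonfree_iff {T : ℝ} {N : ℕ} (hN : 0 < N) (hTT : T ^ 2 = 2 * π ^ 2 / 3 * N)
    {K : ℝ} (h : ∀ l : ℕ, K ^ 2 ≠ (N : ℝ) - 3 * (l : ℝ) ^ 2) (a : ℕ) :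
    (√(2 / N) * K) ^ 2 ≠ 2 - om T a ^ 2 := by
  have hN' : (0:ℝ) < N := by exact_mod_cast hN
  intro hc
  rw [two_sub_om hN hTT, mul_pow, sq_sqrt (by positivity)] at hc
  have h2 : (2:ℝ) / N ≠ 0 := by positivity
  exact h a (mul_left_cancel₀ h2 hc)

theorem pc_ne_zero' {T κ : ℝ} (hT : 0 < T) (hres : ∀ a : ℕ, κ ^ 2 ≠ 2 - om T a ^ 2) {i j : ℕ}
    (hi : 1 ≤ i) (hj : 1 ≤ j) : pc T κ i j ≠ 0 := by
  have h1 := h78.ne_sub hres i j
  have h2 := h78.ne_add hres i j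
  have hpos : ∀ k : ℕ, 1 ≤ k → 0 < om T k := by
    intro k hk
    unfold om
    have : (0:ℝ) < k := by exact_mod_cast hk
    have := Real.pi_pos
    positivity
  have h3 := hpos i hi
  have h4 := hpos j hj
  unfold pc
  intro h
  have h5 : 1 / (κ ^ 2 - 2 + (om T i - om T j) ^ 2) = 1 / (κ ^ 2 - 2 + (om T i + om T j) ^ 2) := by
    linarith
  have h6 := one_div_one_div (κ ^ 2 - 2 + (om T i - om T j) ^ 2)
  rw [h5, one_div_one_div] at h6
  nlinarith [mul_pos h3 h4]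

theorem pc_comm (T κ : ℝ) (i j : ℕ) : pc T κ i j = pc T κ j i := by
  unfold pc
  rw [show (om T i - om T j) ^ 2 = (om T j - om T i) ^ 2 by ring, add_comm (om T i)]

/-- a nonzero solution passes the pair test -/
theorem WSol.not_kill {T : ℝ} {w : ℝ → ℝ → ℝ} (W : WSol T w) (hT : 0 < T)
    (hne : ¬ ∀ x t, w x t = 0) :
    ∃ (N m n : ℕ) (X : Finset ℕ), 1 ≤ m ∧ m < n ∧ N + m ^ 2 = 4 * n ^ 2 ∧
      T ^ 2 = 2 * π ^ 2 / 3 * N ∧ n ∈ X ∧ (∀ j ∈ X, 1 ≤ j ∧ j ≤ n) ∧ ¬ Kill N n X := by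
  rcases W.asym hT with h | ⟨n, c, δ, lam, hn, hc, hδ, hlam, hlam2, has⟩
  · exact absurd (W.zero_of_superexp hT h) hne
  have hom : om T n = (n : ℝ) * (2 * π / T) := rfl
  obtain ⟨m, hm1, hmn, hTT⟩ := period_of_flux T hT n hn (by
      rw [← hom]
      have : 0 < lam ^ 2 := by positivity
      linarith)
    (by
      intro θ θ' hθ hθ'
      exact W.flux_zero hT hδ hlam hc has hθ (by
        intro t
        rw [hlam2]
        exact hθ' t))
  obtain ⟨B, hBn, hB, hod⟩ := W.od_expand hT hn hδ hlam hlam2 has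
  have hmn2 : m ^ 2 < n ^ 2 := Nat.pow_lt_pow_left hmn (by norm_num)
  set N : ℕ := 4 * n ^ 2 - m ^ 2 with hNdef
  have hN : N + m ^ 2 = 4 * n ^ 2 := by omega
  have hN0 : 0 < N := by omega
  have hN0' : (0:ℝ) < N := by exact_mod_cast hN0
  have hNr : (N : ℝ) + (m : ℝ) ^ 2 = 4 * (n : ℝ) ^ 2 := by exact_mod_cast hN
  have hTN : T ^ 2 = 2 * π ^ 2 / 3 * N := by
    rw [hTT]; congr 1; linarith
  have hlmn : lm T n = lam := by
    unfold lm
    rw [← hlam2, sqrt_sq hlam.le]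
  have h3n : 3 * n ^ 2 < N := by omega
  set s : ℝ := √(2 / N) with hs
  have hs0 : 0 < s := sqrt_pos.2 (by positivity)
  have hrate : ∀ j, 3 * j ^ 2 < N → lm T j = s * √(aa N j : ℝ) := fun j hj =>
    lm_eq_aa hN0 hTN hj
  have hlam_aa : lam = s * √(aa N n : ℝ) := by rw [← hlmn]; exact hrate n h3n
  have h4lam : 4 * lam ^ 2 = 2 - om T m ^ 2 := by
    rw [hlam2, two_sub_om hN0 hTN, two_sub_om hN0 hTN]
    field_simp
    linarith
  classical
  set X : Finset ℕ := (Finset.range (JJ T + 1)).filter (fun j => B j ≠ 0) with hX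
  have hXmem : ∀ j, B j ≠ 0 → j ∈ X := by
    intro j hj
    rw [hX, Finset.mem_filter]
    exact ⟨Finset.mem_range.2 (Nat.lt_succ_of_le (le_JJ hT (hB j hj).2.1.le)), hj⟩
  have hXB : ∀ j ∈ X, B j ≠ 0 := fun j hj => (Finset.mem_filter.1 hj).2
  have hX3 : ∀ j ∈ X, 3 * j ^ 2 < N := by
    intro j hj
    have h1 := (hB j (hXB j hj)).2.1
    rw [om_sq hN0 hTN, div_lt_iff₀ hN0'] at h1
    have h2 : 3 * (j:ℝ) ^ 2 < N := by linarith
    exact_mod_cast h2
  have hXn : ∀ j ∈ X, 1 ≤ j ∧ j ≤ n := by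
    intro j hj
    obtain ⟨g1, g2, g3, g4⟩ := hB j (hXB j hj)
    refine ⟨g1, ?_⟩
    by_contra hc'
    push Not at hc'
    have h1 : lm T j ^ 2 = 2 - om T j ^ 2 := lm_sq g2.le
    have h2 : lam ^ 2 ≤ lm T j ^ 2 := pow_le_pow_left₀ hlam.le g3 2
    have h3 : om T j ^ 2 ≤ om T n ^ 2 := by linarith
    rw [om_sq hN0 hTN, om_sq hN0 hTN, div_le_div_iff_of_pos_right hN0'] at h3
    have h4 : (n:ℝ) < j := by exact_mod_cast hc'
    have h5 : (0:ℝ) ≤ n := Nat.cast_nonneg n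
    nlinarith
  have hnX : n ∈ X := hXmem n (by rw [hBn]; exact hc)
  refine ⟨N, m, n, X, hm1, hmn, hN, hTN, hnX, hXn, ?_⟩
  rintro (⟨i0, hi0, j0, hj0, hlt, hfree, huniq⟩ | ⟨hfree4, hfree3, hpair4⟩)
  · -- a unique pair
    have hBpair : ∀ j, B j ≠ 0 → lam ≤ lm T j := fun j hj => (hB j hj).2.2.1
    set κ : ℝ := lm T i0 + lm T j0 with hκ
    have hκe : κ = s * (√(aa N i0 : ℝ) + √(aa N j0 : ℝ)) := by
      rw [hκ, hrate i0 (hX3 i0 hi0), hrate j0 (hX3 j0 hj0)]; ring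
    have hκ4 : κ < 4 * lam := by
      rw [hκe, hlam_aa]
      have := mul_lt_mul_of_pos_left hlt hs0
      linarith
    have hres : ∀ a : ℕ, κ ^ 2 ≠ 2 - om T a ^ 2 := by
      intro a
      rw [hκe]
      exact nonfree_iff hN0 hTN hfree a
    have hsum := W.pair_cond hT hlam B hBpair hod hκ4 hres
    have hpc := pc_ne_zero' hT hres (hXn i0 hi0).1 (hXn j0 hj0).1
    have hterm : ∀ p ∈ (Finset.range (JJ T + 1) ×ˢ Finset.range (JJ T + 1)).filter
        (fun p => lm T p.1 + lm T p.2 = κ), B p.1 * B p.2 * pc T κ p.1 p.2 =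
        if p = (i0, j0) ∨ p = (j0, i0) then B i0 * B j0 * pc T κ i0 j0 else 0 := by
      intro p hp
      obtain ⟨-, hp2⟩ := Finset.mem_filter.1 hp
      split_ifs with h
      · rcases h with h | h
        · rw [h]
        · rw [h, pc_comm]
          ring
      · by_cases h1 : B p.1 = 0
        · rw [h1]; ring
        by_cases h2 : B p.2 = 0
        · rw [h2]; ring
        exfalso
        apply h
        have m1 := hXmem _ h1
        have m2 := hXmem _ h2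
        have h3 : √(aa N p.1 : ℝ) + √(aa N p.2 : ℝ) = √(aa N i0 : ℝ) + √(aa N j0 : ℝ) := by
          have h4 : s * (√(aa N p.1 : ℝ) + √(aa N p.2 : ℝ)) =
              s * (√(aa N i0 : ℝ) + √(aa N j0 : ℝ)) := by
            rw [← hκe, mul_add, ← hrate _ (hX3 _ m1), ← hrate _ (hX3 _ m2)]
            exact hp2
          exact mul_left_cancel₀ hs0.ne' h4
        rcases huniq _ m1 _ m2 h3 with ⟨a1, a2⟩ | ⟨a1, a2⟩
        · left; exact Prod.ext a1 a2
        · right; exact Prod.ext a1 a2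
    rw [Finset.sum_congr rfl hterm, ← Finset.sum_filter, Finset.sum_const, nsmul_eq_mul] at hsum
    have hne0 : B i0 * B j0 * pc T κ i0 j0 ≠ 0 :=
      mul_ne_zero (mul_ne_zero (hXB _ hi0) (hXB _ hj0)) hpc
    rcases mul_eq_zero.1 hsum with h | h
    · have hcard : (0:ℝ) < (((Finset.range (JJ T + 1) ×ˢ Finset.range (JJ T + 1)).filter
        (fun p => lm T p.1 + lm T p.2 = κ)).filter
          (fun p => p = (i0, j0) ∨ p = (j0, i0))).card := by
        apply Nat.cast_pos.2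
        apply Finset.card_pos.2
        refine ⟨(i0, j0), ?_⟩
        rw [Finset.mem_filter, Finset.mem_filter, Finset.mem_product]
        exact ⟨⟨⟨(Finset.mem_filter.1 hi0).1, (Finset.mem_filter.1 hj0).1⟩, rfl⟩, Or.inl rfl⟩
      linarith
    · exact hne0 h
  · -- levels three and four
    have hres3 : ∀ a : ℕ, (3 * lam) ^ 2 ≠ 2 - om T a ^ 2 := by
      intro a
      have e : 3 * lam = s * (3 * √(aa N n : ℝ)) := by rw [hlam_aa]; ring
      rw [e]
      exact nonfree_iff hN0 hTN hfree3 a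
    have hres4 : ∀ a : ℕ, (4 * lam) ^ 2 ≠ 2 - om T a ^ 2 := by
      intro a
      have e : 4 * lam = s * (4 * √(aa N n : ℝ)) := by rw [hlam_aa]; ring
      rw [e]
      exact nonfree_iff hN0 hTN hfree4 a
    have h45 : 4 * (n:ℝ) ≠ 5 * m := by
      intro h45
      have h1 : 4 * n = 5 * m := by exact_mod_cast h45
      obtain ⟨k, hk⟩ : ∃ k, n = 5 * k := ⟨n / 5, by omega⟩
      have hk' : m = 4 * k := by omega
      apply hfree3 k
      rw [mul_pow, sq_sqrt (Nat.cast_nonneg _)]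
      have h2 : ((aa N n : ℕ) : ℝ) + 3 * (n : ℝ) ^ 2 = N := by exact_mod_cast aa_add h3n
      have h3 : (n:ℝ) = 5 * k := by exact_mod_cast hk
      have h4 : (m:ℝ) = 4 * k := by exact_mod_cast hk'
      rw [h3] at h2 hNr
      rw [h4] at hNr
      nlinarith
    obtain ⟨δ', hδ', hev', hod'⟩ := W.three hT hm1 hmn hlam hlam2 h4lam h45 hres3 B hBn hB hod
    have hfour := W.four_cond hT hm1 hmn hlam hδ' hlam2 B hBn hB hev' hod' hres4
    have hzero : ∑ p ∈ (Finset.range (JJ T + 1) ×ˢ Finset.range (JJ T + 1)).filter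
        (fun p => lm T p.1 + lm T p.2 = 4 * lam), (1 - Cf ((4 * lam) ^ 2 - 2) T) *
        (B p.1 * B p.2 * pc T (4 * lam) p.1 p.2) = 0 := by
      apply Finset.sum_eq_zero
      intro p hp
      obtain ⟨-, hp2⟩ := Finset.mem_filter.1 hp
      by_cases h1 : B p.1 = 0
      · rw [h1]; ring
      by_cases h2 : B p.2 = 0
      · rw [h2]; ring
      exfalso
      have m1 := hXmem _ h1
      have m2 := hXmem _ h2
      apply hpair4 _ m1 _ m2
      have h4 : s * (√(aa N p.1 : ℝ) + √(aa N p.2 : ℝ)) = s * (4 * √(aa N n : ℝ)) := by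
        rw [mul_add, ← hrate _ (hX3 _ m1), ← hrate _ (hX3 _ m2), hp2, hlam_aa]
        ring
      exact mul_left_cancel₀ hs0.ne' h4
    rw [hzero, zero_add] at hfour
    obtain ⟨q, hq, hEf⟩ := Ef_F4 hT hm1 hmn hlam2 h4lam h45 hres4
    rw [hEf] at hfour
    have hC : 1 - Cf ((4 * lam) ^ 2 - 2) T ≠ 0 := by
      have := Cf_ne_one hT hres4
      exact sub_ne_zero.2 (Ne.symm this)
    exact (mul_ne_zero (pow_ne_zero 4 hc) (mul_ne_zero hC hq)) hfour

end Phi4
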